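import Pool.Agent.H62.BL.Hh

/-!
# [H62 BL MZ] the function `hh` has mean zero on the cosets of the inertia at `a` (100-150 lines). File Pool/Agent/H62/BL/Mz.lean

LINKED. `mz`: there is `τ : Gal`, in the subgroup generated by the conjugates of `t_(a j)`, `j : Fin (n + 1)`, with `hh (Φ τ * x) = ε * hh x` for all `x`, `ε ≠ 1`.
PROOF. Let `u` be from `Lkd`, `σ i : Gal` with `φ₀ (σ i) = u i` (`hr.sur`), `g i = σ i * t_(a (i.rev)) * (σ i)⁻¹` (the prime `a j` has the index `j.succ`; `i.rev.succ` is the index of `a i.rev`), `τ = rn (List.ofFn g)`. `rn` commutes with homs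
(`rn_map : φ (rn l) = rn (l.map φ)`). VERTEX `e`: `Φ (g i) e = Ψ_e (σ i) * reld (of (inl (a i.rev))) * (..)⁻¹`. If `e j = true` for some `j`: `a j` is none of the primes of `vt a a' e`, nor of `b` (`Dst`), nor in `T`: `reld = qi 1 = 1`, so `Φ (g i) e = 1`, `i = j.rev`,
and `rn` of a list with a member `1` is `1` if .. CAREFUL: for `n = 0` the list has one element, fine; in general `rn (.. 1 ..) = 1` (`rn (1 :: l) = 1`, `rn (a :: l) = 1` if `rn l = 1`, lists of length `≥ 2`; length one: `rn [1] = 1`).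
`e = 0` (all `false`): `reld (of (inl (a i.rev))) = lt ⟨i.rev.succ, lam i.rev.succ⟩ (-1)` (`kdq`: `(succ j, false)`), the `q`-part of `Ψ_0 (σ i)` is `φ₀ (σ i) = u i`: `Ψ_0 (σ i) = reld (wd (σ i))` (`wdE_spec`, `cd`, `HonE.mono`) and `reld_q`, `wdE_spec` for `φ₀`.
`conj_lt` gives the hypotheses of `comm_top` with `l i = u i • lam i.rev.succ`, `s i = -1`: `(Φ τ 0).q = 1`, `(Φ τ 0).c = e1 + (-1)^(n+1) • br (..)`.
`h1 (t * x) = ep p (-(-1)^(n+1) kp (br ..)) * h1 x` for such `t`: `top_mul` (`br` of `n + 1` letters vanishes on shorter words: `br_len`), `kp` is additive and does not see `e1` (only words of length `n + 1`); `(t * x).q = x.q`.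
`cj` of the vertex `0`: an exponent `± kp (br) ≠ 0`, so `ε = ep p (± ..) ≠ 1` (`ep_eq_one`, `Lkd`). The other factors of the product do not change (`Φ τ e = 1`).
`τ` is a product of conjugates of `t_(a j)`: `rn` of a nonempty list of elements of a NORMAL subgroup is in it.
-/

set_option autoImplicit false

open scoped NumberField
open IsDedekindDomain
open scoped Classical

noncomputable section

namespace H62.BL

open H63.MA H38.BB H38.BG H57.PC H57.BRA H77.WD H77.WE

variable {K : Type} [Field K] [NumberField K] {Ω : Type} [Field Ω] [Algebra K Ω]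
  {p : ℕ} {ζ : K} {D : RD0 K p ζ} {n : ℕ} {P Qg Lm : Type} [Group P] [Group Qg] [MulAction Qg Lm]
  {A : GS D Ω}

theorem rn_map {G H : Type} [Group G] [Group H] (φ : G →* H) (l : List G) :
    φ (rn l) = rn (l.map φ) := by
  induction l with
  | nil => exact map_one φ
  | cons a l ih =>
    cases l with
    | nil => rfl
    | cons b w =>
      have h1 : rn (a :: b :: w) = a * rn (b :: w) * a⁻¹ * (rn (b :: w))⁻¹ := rfl
      have h2 : rn ((a :: b :: w).map φ) =
          φ a * rn ((b :: w).map φ) * (φ a)⁻¹ * (rn ((b :: w).map φ))⁻¹ := rfl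
      rw [h1, h2, map_mul, map_mul, map_mul, map_inv, map_inv, ih]

theorem rn_mem {G : Type} [Group G] (N : Subgroup G) (l : List G) (h : ∀ x ∈ l, x ∈ N) : rn l ∈ N := by
  induction l with
  | nil => exact N.one_mem
  | cons a l ih =>
    cases l with
    | nil => exact h a (List.mem_singleton.2 rfl)
    | cons b w =>
      have h1 : rn (a :: b :: w) = a * rn (b :: w) * a⁻¹ * (rn (b :: w))⁻¹ := rfl
      have h2 : a ∈ N := h a List.mem_cons_self
      have h3 : rn (b :: w) ∈ N := ih fun x hx => h x (List.mem_cons_of_mem a hx)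
      rw [h1]
      exact N.mul_mem (N.mul_mem (N.mul_mem h2 h3) (N.inv_mem h2)) (N.inv_mem h3)

theorem rn_one {G : Type} [Group G] (l : List G) (h : (1 : G) ∈ l) : rn l = 1 := by
  induction l with
  | nil => exact absurd h (by simp)
  | cons a l ih =>
    cases l with
    | nil => exact (List.mem_singleton.1 h).symm
    | cons b w =>
      have h1 : rn (a :: b :: w) = a * rn (b :: w) * a⁻¹ * (rn (b :: w))⁻¹ := rfl
      rw [h1]
      rcases List.mem_cons.1 h with h2 | h2
      · rw [← h2]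
        group
      · rw [ih h2]
        group

private theorem mz_cv {α R : Type} [CommRing R] (w : List α) : ∀ c c' : List α → R, cv c c' w ≠ 0 →
    ∃ u v, u ++ v = w ∧ c u ≠ 0 ∧ c' v ≠ 0 := by
  induction w with
  | nil =>
    intro c c' h
    rw [cv] at h
    exact ⟨[], [], rfl, left_ne_zero_of_mul h, right_ne_zero_of_mul h⟩
  | cons a w ih =>
    intro c c' h
    rw [cv] at h
    by_cases h1 : c [] * c' (a :: w) = 0
    · rw [h1, zero_add] at h
      obtain ⟨u, v, h2, h3, h4⟩ := ih _ _ h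
      exact ⟨a :: u, v, by rw [List.cons_append, h2], h3, h4⟩
    · exact ⟨[], a :: w, rfl, left_ne_zero_of_mul h1, right_ne_zero_of_mul h1⟩

theorem br_len {α R : Type} [CommRing R] (l w : List α) (h : w.length ≠ l.length) :
    (br l : List α → R) w = 0 := by
  induction l generalizing w with
  | nil => rfl
  | cons a X ih =>
    have hel : ∀ u : List α, (el a u : R) ≠ 0 → u.length = 1 := by
      intro u hu
      by_contra h2
      refine hu (if_neg fun h3 => h2 ?_)
      rw [h3, List.length_singleton]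
    cases X with
    | nil =>
      by_contra h1
      exact h (hel w h1)
    | cons b X =>
      have h1 : (br (a :: b :: X) w : R) = cv (el a) (br (b :: X)) w - cv (br (b :: X)) (el a) w := rfl
      have h2 : cv (el a : List α → R) (br (b :: X)) w = 0 := by
        by_contra h3
        obtain ⟨u, v, rfl, h4, h5⟩ := mz_cv _ _ _ h3
        refine h5 (ih v fun h6 => h ?_)
        rw [List.length_append, hel u h4, h6]
        exact add_comm 1 (b :: X).length
      have h3 : cv (br (b :: X) : List α → R) (el a) w = 0 := by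
        by_contra h3
        obtain ⟨u, v, rfl, h4, h5⟩ := mz_cv _ _ _ h3
        refine h4 (ih u fun h6 => h ?_)
        rw [List.length_append, hel v h5, h6]
        rfl
      rw [h1, h2, h3, sub_zero]

theorem h1_mul [Fintype Lm] (Dg : LG p n P Qg Lm) (v : Vd n P Qg Lm) (hp : p.Prime)
    (t x : UGd p n Qg Lm) (s : ZMod p) (l : List (Lr (Fin (n + 2)) Lm)) (hl : l.length = n + 1)
    (ht : t.q = 1) (htc : t.c = e1 + s • br l) :
    h1 Dg v (t * x) = ep p (-(s * Dg.kp (v.lam 0) (br l))) * h1 Dg v x := by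
  have : Fact p.Prime := ⟨hp⟩
  have h0 : ∀ w : List (Lr (Fin (n + 2)) Lm), w ≠ [] → t.c w = s * br l w := by
    intro w hw
    rw [htc, Pi.add_apply, Pi.smul_apply, smul_eq_mul, e1, if_neg hw, zero_add]
  have ha2 : ∀ w : List (Lr (Fin (n + 2)) Lm), w ≠ [] → w.length ≤ n → t.c w = 0 := by
    intro w hw hlen
    rw [h0 w hw, br_len l w (by omega), mul_zero]
  have hm : ∀ w : List (Lr (Fin (n + 2)) Lm), w ≠ [] → (t * x).c w = t.c w + x.c w :=
    fun w hw => top_mul t x ht ha2 w hw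
  have hq : (t * x).q = x.q := by rw [ug_mul_q, ht, one_mul]
  have hc : ((t * x).q = v.f 0 ∧ ∀ u, u ≠ [] → u.length ≤ n → (t * x).c u = 0) ↔
      (x.q = v.f 0 ∧ ∀ u, u ≠ [] → u.length ≤ n → x.c u = 0) := by
    rw [hq]
    refine and_congr_right fun _ => ?_
    constructor
    · intro h u hu hlu
      have h1 := h u hu hlu
      rwa [hm u hu, ha2 u hu hlu, zero_add] at h1
    · intro h u hu hlu
      rw [hm u hu, ha2 u hu hlu, zero_add]
      exact h u hu hlu
  have hk : Dg.kp (v.lam 0) (t * x).c = s * Dg.kp (v.lam 0) (br l) + Dg.kp (v.lam 0) x.c := by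
    unfold LG.kp
    rw [Finset.mul_sum, ← Finset.sum_add_distrib]
    refine Finset.sum_congr rfl fun f _ => ?_
    have h1 : List.ofFn f ≠ [] := by
      intro h2
      have h3 := congrArg List.length h2
      rw [List.length_ofFn] at h3
      exact Nat.succ_ne_zero n h3
    rw [hm _ h1, h0 _ h1]
    ring
  unfold h1
  by_cases h : x.q = v.f 0 ∧ ∀ u, u ≠ [] → u.length ≤ n → x.c u = 0
  · rw [if_pos (hc.2 h), if_pos h, hk, neg_add, ep_add hp]
  · rw [if_neg fun h2 => h (hc.1 h2), if_neg h, mul_zero]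

private theorem mz_cj {m : ℕ} (e : Fin m → Bool) (z w : ℂ) : cj e (z * w) = cj e z * cj e w := by
  unfold cj
  split_ifs
  · rfl
  · exact map_mul _ z w

private theorem mz_cj1 {m : ℕ} (e : Fin m → Bool) (z : ℂ) (h : cj e z = 1) : z = 1 := by
  unfold cj at h
  split_ifs at h
  · exact h
  · have h1 := congrArg (starRingEnd ℂ) h
    rwa [Complex.conj_conj, map_one] at h1

theorem mz [IsAlgClosure K Ω] [Finite Qg] [Fintype Lm] [Fact p.Prime] (hζ : IsPrimitiveRoot ζ p)
    (Q : DP K Ω) (y : Wy D A) {Dg : LG p n P Qg Lm} (hy : y.Ok Q P Qg Lm n) (hQ : IsPGroup p Qg)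
    {r : Rd A P Qg} {v : Vd n P Qg Lm} (hr : r.Ok y.L Dg y.E y.Z) (hl : Lkd Dg v.lam)
    (q1 : Fin (n + 2) → Pl K) (a' a : Fin (n + 1) → Pl K) (hd : Dst r.T q1 a' a)
    (hz : (∀ k, q1 k ∈ y.Z) ∧ ∀ j, a j ∈ y.Z ∧ a' j ∈ y.Z)
    {Φ : Gal(Ω/K) →* ((Fin (n + 1) → Bool) → UGd p n Qg Lm)} (hΦ : Ph y Dg r v (Fin.tail q1) a' a Φ) :
    ∃ (τ : Gal(Ω/K)) (ε : ℂ), ε ≠ 1 ∧ (∀ x, hh Dg v (Φ τ * x) = ε * hh Dg v x) ∧
      ∀ N : Subgroup Gal(Ω/K), N.Normal → (∀ j, y.L.t (a j) ∈ N) → τ ∈ N := by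
  have hp : p.Prime := Fact.out
  obtain ⟨u, hu⟩ := hl
  choose σ hσ using fun i => hr.sur (u i)
  obtain ⟨g, hg⟩ : ∃ g : Fin (n + 1) → Gal(Ω/K), g = fun i => σ i * y.L.t (a i.rev) * (σ i)⁻¹ :=
    ⟨_, rfl⟩
  have hfin : Finite (UGd p n Qg Lm) := fin_ugd
  have hpg : IsPGroup p (UGd p n Qg Lm) := pg_ugd hp hQ
  obtain ⟨hdq, hda, hda', haa', haq, ha'q⟩ := hd
  -- the homs of the vertices
  have hTZ : Tt r.T (Fin.tail q1) a' a ⊆ y.Z := by
    intro w hw
    unfold Tt at hw
    simp only [Finset.mem_union, Finset.mem_image, Finset.mem_univ, true_and] at hw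
    rcases hw with hw | (⟨j, rfl⟩ | ⟨j, rfl⟩) | ⟨j, rfl⟩
    · exact hr.sub hw
    · exact (hz.2 j).1
    · exact (hz.2 j).2
    · exact hz.1 j.succ
  have hE : ∀ e, HonE y.L y.E y.Z ((Pi.evalMonoidHom (fun _ => UGd p n Qg Lm) e).comp Φ) := fun e =>
    (hΦ.hon.comp (Pi.evalMonoidHom (fun _ => UGd p n Qg Lm) e)).mono subset_rfl hTZ
  have hhat : ∀ e z, hat y.L A ((Pi.evalMonoidHom (fun _ => UGd p n Qg Lm) e).comp Φ) z =
      reld Dg r v (vt a a' e) (Fin.tail q1) z := by
    intro e z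
    rw [hat_comp]
    exact hΦ.hat z e
  have ht : ∀ w e, Φ (y.L.t w) e =
      reld Dg r v (vt a a' e) (Fin.tail q1) (FreeGroup.of (Sum.inl w)) := by
    intro w e
    rw [← hhat e, hat_inl]
    rfl
  have hrn : ∀ e, Φ (rn (List.ofFn g)) e = rn (List.ofFn fun i => Φ (g i) e) := by
    intro e
    have h1 := rn_map ((Pi.evalMonoidHom (fun _ => UGd p n Qg Lm) e).comp Φ) (List.ofFn g)
    rw [List.map_ofFn] at h1
    exact h1
  have hgi : ∀ i e, Φ (g i) e = Φ (σ i) e * Φ (y.L.t (a i.rev)) e * (Φ (σ i) e)⁻¹ := by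
    intro i e
    rw [hg]
    change Φ (σ i * y.L.t (a i.rev) * (σ i)⁻¹) e = _
    rw [map_mul, map_mul, map_inv]
    rfl
  -- a vertex with a coordinate `true`
  have hone : ∀ e : Fin (n + 1) → Bool, (∃ j, e j = true) → Φ (rn (List.ofFn g)) e = 1 := by
    rintro e ⟨j, hj⟩
    rw [hrn]
    apply rn_one
    rw [List.mem_ofFn]
    refine ⟨j.rev, ?_⟩
    have h1 : kdq A Fin.succ (vt a a' e) (Fin.tail q1) (Sum.inl (a j)) = none := by
      unfold kdq
      dsimp only
      rw [dif_neg, dif_neg]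
      · rintro ⟨k, hk⟩
        exact haq j k.succ hk.symm
      · rintro ⟨k, hk⟩
        unfold vt at hk
        split_ifs at hk with h2
        · exact haa' j k hk.symm
        · have h3 : k = j := hda.1 hk
          rw [h3] at h2
          exact h2 hj
    have h2 : Φ (y.L.t (a j)) e = 1 := by
      rw [ht, reld, rel_of, h1]
      change qi (Dg.pi (r.lab (a j))) = _
      rw [hr.one _ (hda.2 j), map_one]
      rfl
    change Φ (g j.rev) e = 1
    rw [hgi, Fin.rev_rev, h2, mul_one, mul_inv_cancel]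
  -- the vertex `0`
  obtain ⟨e0, he0⟩ : ∃ e0 : Fin (n + 1) → Bool, e0 = fun _ => false := ⟨_, rfl⟩
  have hvt : vt a a' e0 = a := by
    rw [he0]
    exact vt_false a a'
  have hND : ND r.T (vt a a' e0) (Fin.tail q1) := by
    rw [hvt]
    exact ⟨hda, ⟨fun i j hij => Fin.succ_injective _ (hdq.1 hij), fun k => hdq.2 k.succ⟩,
      fun j k => haq j k.succ⟩
  have hlt : ∀ j, Φ (y.L.t (a j)) e0 = lt ⟨j.succ, v.lam j.succ⟩ (-1) := by
    intro j
    have h1 : kdq A Fin.succ (vt a a' e0) (Fin.tail q1) (Sum.inl (a j)) = some (j.succ, false) := by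
      rw [hvt]
      unfold kdq
      dsimp only
      have h2 : ∃ k, a k = a j := ⟨j, rfl⟩
      rw [dif_pos h2]
      have h3 : h2.choose = j := hda.1 h2.choose_spec
      rw [h3]
    rw [ht, reld, rel_of, h1]
    rfl
  have hqp : ∀ i, (Φ (σ i) e0).q = u i := by
    intro i
    have h1 := wdE_spec hp hζ y.L A y.M y.E y.Z (σ i) (UGd p n Qg Lm) hpg hy.cd _ (hE e0)
    have h2 := wdE_spec hp hζ y.L A y.M y.E y.Z (σ i) Qg hQ hy.cQ r.phi
      (hr.hon.mono subset_rfl hr.sub)
    rw [hhat] at h1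
    have h3 := reld_q hr v hND (wdE y.L A y.M y.E y.Z (σ i))
    rw [h1, h2, hσ] at h3
    exact h3
  have hcl : ∀ i, (Φ (g i) e0).q = 1 ∧
      (∀ w : List (Lr (Fin (n + 2)) Lm), w ≠ [] → (∀ b ∈ w, b.i ≠ i.rev.succ) → (Φ (g i) e0).c w = 0) ∧
      ∀ b : Lr (Fin (n + 2)) Lm, (Φ (g i) e0).c [b] =
        if b = ⟨i.rev.succ, u i • v.lam i.rev.succ⟩ then -1 else 0 := by
    intro i
    have h1 := conj_lt (Φ (σ i) e0) i.rev.succ (Fin.succ_ne_zero _) (v.lam i.rev.succ) (-1)
    rw [← hlt, ← hgi, hqp] at h1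
    exact h1
  have hct := comm_top (fun i => u i • v.lam i.rev.succ) (fun _ => -1) (fun i => Φ (g i) e0)
    (fun i => (hcl i).1) (fun i => (hcl i).2.1) (fun i => (hcl i).2.2)
  rw [← hrn] at hct
  obtain ⟨s, hs⟩ : ∃ s : ZMod p, s = ∏ _i : Fin (n + 1), (-1 : ZMod p) := ⟨_, rfl⟩
  have hs0 : s ≠ 0 := by
    rw [hs, Finset.prod_ne_zero_iff]
    intro i _
    exact neg_ne_zero.2 one_ne_zero
  obtain ⟨ε', hε'⟩ : ∃ ε' : ℂ, ε' = ep p (-(s * Dg.kp (v.lam 0) (br (List.ofFn fun i : Fin (n + 1) =>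
    (⟨i.rev.succ, u i • v.lam i.rev.succ⟩ : Lr (Fin (n + 2)) Lm))))) := ⟨_, rfl⟩
  refine ⟨rn (List.ofFn g), cj e0 ε', ?_, ?_, ?_⟩
  · intro h
    have h1 := mz_cj1 e0 ε' h
    rw [hε', ep_eq_one hp, neg_eq_zero, mul_eq_zero] at h1
    rcases h1 with h1 | h1
    · exact hs0 h1
    · exact hu h1
  · intro x
    unfold hh
    have h1 : ∀ e, cj e (h1 Dg v ((Φ (rn (List.ofFn g)) * x) e)) =
        (if e = e0 then cj e0 ε' else 1) * cj e (h1 Dg v (x e)) := by
      intro e
      rw [Pi.mul_apply]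
      by_cases he : e = e0
      · rw [if_pos he, he, ← mz_cj, hε']
        congr 1
        refine h1_mul Dg v hp _ _ s _ (by rw [List.length_ofFn]) hct.1 ?_
        rw [hct.2, hs]
      · have h2 : ∃ j, e j = true := by
          by_contra h3
          push Not at h3
          apply he
          rw [he0]
          funext j
          exact Bool.eq_false_iff.2 (h3 j)
        rw [if_neg he, hone e h2, one_mul, one_mul]
    rw [Finset.prod_congr rfl fun e _ => h1 e, Finset.prod_mul_distrib, Finset.prod_ite_eq',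
      if_pos (Finset.mem_univ _)]
  · intro N hN hNt
    apply rn_mem
    intro x hx
    rw [List.mem_ofFn] at hx
    obtain ⟨i, rfl⟩ := hx
    rw [hg]
    exact hN.conj_mem _ (hNt _) _

end H62.BL
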