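import Pool.Agent.H62.BL.Gb
import Pool.Agent.H62.BL.Mz

/-!
# [H62 BL SMA] the inner sum for one tuple: from values at the chosen Frobenius elements to class functions (80-130 lines). File Pool/Agent/H62/BL/Sma.lean

* `GLp`: the conclusion of `glU` (good places). `BX`: the box of the variable primes. `Gx`: the sum in `GPB`.
* `sma`: the inner sum vanishes, or the primes are distinct, `Φ` exists, and the inner sum is bounded by `Gx` at the two ends and an error.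
PROOF. If some product is `≠ 0`: `Dst` by `hh_nd`, all `Ψ` exist by `hh_zero`, `Φ` by `hh_ex`. Let `Φ` be any `Ph` (the statement is for all). `hh_sum` with `B = BX`: the sum over `w ∈ BX`, `w ∉ Tt`, `w ≠ q1 0` of `hh (Φ (F w))`.
`BX.filter (∉ Tt) = (PI K lo hi true).filter (w ∉ S0 ∧ w ∉ Tt)` (`Gd` is `∉ S0` and prime norm, `T ⊆ Tt`, `hZ`; `PI`: H77/GL/Int.lean, `mem_PB`); the term `w = q1 0` costs `1` (`hh_le`). `GLp` for the product group (`p`-group, `Pi`), `Unz` from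
`HonE.unz` (`E ∪ Tt = Tt`); then the sum of `av` over `(lo, hi]` is the difference of the sums over `PB K hi` and `PB K lo` (`lo ≤ hi`; `D.Gd w ∧ w ∉ Tt`).
-/

set_option autoImplicit false

open scoped NumberField
open IsDedekindDomain
open scoped Classical

noncomputable section

namespace H62.BL

open H63.MA H38.BB H38.BG H57.PC H57.BRA H77.WD H77.WE H77.GL H57.AN H35.UB

variable {K : Type} [Field K] [NumberField K] {Ω : Type} [Field Ω] [Algebra K Ω]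
  {p : ℕ} {ζ : K} {D : RD0 K p ζ} {n : ℕ} {P Qg Lm : Type} [Group P] [Group Qg] [MulAction Qg Lm]
  {A : GS D Ω}

/-- good places: the conclusion of `glU` -/
def GLp (p : ℕ) {ζ : K} {D : RD0 K p ζ} {L : LDs D Ω} (Fr : FR L) (M C C' : ℕ) (Y : ℝ) : Prop :=
  ∀ (H : Type) [Group H] [Finite H], IsPGroup p H → Nat.card H ≤ M →
    ∀ (φ : Gal(Ω/K) →* H) (T : Finset (Pl K)), Unz L T φ →
      ∏ v ∈ T, (nm v : ℝ) ≤ Y ^ C → ∀ h : H → ℂ, (∀ y, ‖h y‖ ≤ 1) →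
        ∀ (x' x : ℝ) (b : Bool), 0 ≤ x → x ≤ Y ^ C →
          ‖∑ w ∈ (PI K x' x b).filter (fun w => w ∉ D.S0 ∧ w ∉ T),
            (h (φ (Fr.F w)) - av φ h (φ (Fr.F w)))‖ ≤
              C' * x ^ (3 / 4 : ℝ) + Real.log Y ^ C'

/-- the box -/
def BX (D : RD0 K p ζ) (Z T : Finset (Pl K)) (lo hi : ℝ) : Finset (Pl K) :=
  Z.filter fun w => D.Gd w ∧ w ∉ T ∧ lo < (nm w : ℝ) ∧ (nm w : ℝ) ≤ hi

/-- the sum in `GPB` -/
def Gx {L : LDs D Ω} (Fr : FR L) {H : Type} [Group H] [Finite H] (m : Finset (Pl K)) (x : ℝ)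
    (Φ : Gal(Ω/K) →* H) (h : H → ℂ) : ℝ :=
  ‖∑ w ∈ (PB K x).filter (fun w => D.Gd w ∧ w ∉ m), av Φ h (Φ (Fr.F w))‖

private theorem sma_pg {G : Type} [Group G] [Finite G] {p : ℕ} [Fact p.Prime] (h : IsPGroup p G)
    (I : Type) : IsPGroup p (I → G) := by
  obtain ⟨k, hk⟩ := IsPGroup.iff_card.1 h
  intro g
  refine ⟨k, ?_⟩
  funext i
  rw [Pi.pow_apply, Pi.one_apply, ← hk]
  exact pow_card_eq_one'

private theorem sma_box {Z T m : Finset (Pl K)} {lo hi : ℝ}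
    (hZ : ∀ w, D.Gd w → (nm w : ℝ) ≤ hi → w ∈ Z) (hT : T ⊆ m) :
    (BX D Z T lo hi).filter (fun w => w ∉ m) =
      (PI K lo hi true).filter (fun w => w ∉ D.S0 ∧ w ∉ m) := by
  ext w
  unfold BX PI RD0.Gd
  simp only [Finset.mem_filter, mem_PB]
  constructor
  · rintro ⟨⟨h1, ⟨h2, h3⟩, h4, h5, h6⟩, h7⟩
    exact ⟨⟨h6, h5, fun _ => h3⟩, h2, h7⟩
  · rintro ⟨⟨h1, h2, h3⟩, h4, h5⟩
    exact ⟨⟨hZ w ⟨h4, h3 trivial⟩ h1, ⟨h4, h3 trivial⟩, fun h => h5 (hT h), h2, h1⟩, h5⟩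

private theorem sma_int {m : Finset (Pl K)} {lo hi : ℝ} :
    (PI K lo hi true).filter (fun w => w ∉ D.S0 ∧ w ∉ m) =
      (PB K hi).filter (fun w => D.Gd w ∧ w ∉ m) \ (PB K lo).filter (fun w => D.Gd w ∧ w ∉ m) := by
  ext w
  unfold PI RD0.Gd
  simp only [Finset.mem_filter, Finset.mem_sdiff, mem_PB]
  constructor
  · rintro ⟨⟨h1, h2, h3⟩, h4, h5⟩
    exact ⟨⟨h1, ⟨h4, h3 trivial⟩, h5⟩, fun h => absurd h.1 (not_le.2 h2)⟩
  · rintro ⟨⟨h1, ⟨h2, h3⟩, h4⟩, h5⟩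
    refine ⟨⟨h1, ?_, fun _ => h3⟩, h2, h4⟩
    by_contra h
    exact h5 ⟨not_lt.1 h, ⟨h2, h3⟩, h4⟩

private theorem sma_er (S : Finset (Pl K)) (P : Pl K → Prop) [DecidablePred P] (q : Pl K) (f : Pl K → ℂ)
    (hf : ∀ w, ‖f w‖ ≤ 1) :
    ‖∑ w ∈ S.filter (fun w => P w ∧ w ≠ q), f w‖ ≤ ‖∑ w ∈ S.filter P, f w‖ + 1 := by
  have h1 : S.filter (fun w => P w ∧ w ≠ q) = (S.filter P).erase q := by
    ext w
    simp only [Finset.mem_filter, Finset.mem_erase]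
    tauto
  rw [h1]
  by_cases hq : q ∈ S.filter P
  · rw [Finset.sum_erase_eq_sub hq]
    exact (norm_sub_le _ _).trans (add_le_add le_rfl (hf q))
  · rw [Finset.erase_eq_of_notMem hq]
    linarith

theorem sma [IsAlgClosure K Ω] [Finite Qg] [Fintype Lm] [Fact p.Prime] [Finite (UGd p n Qg Lm)]
    (hζ : IsPrimitiveRoot ζ p)
    (Q : DP K Ω) (y : Wy D A) {Dg : LG p n P Qg Lm} (hy : y.Ok Q P Qg Lm n) (hQ : IsPGroup p Qg)
    {r : Rd A P Qg} {v : Vd n P Qg Lm} (hr : r.Ok y.L Dg y.E y.Z) {M C C' : ℕ} {Y : ℝ} (hY : 1 ≤ Y)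
    (hgl : GLp p y.Fr M C C' Y) (hM : Nat.card ((Fin (n + 1) → Bool) → UGd p n Qg Lm) ≤ M)
    {lo hi : ℝ} (hlo : 0 ≤ lo) (hlh : lo ≤ hi) (hhi : hi ≤ Y ^ C)
    (hZ : ∀ w, D.Gd w → (nm w : ℝ) ≤ hi → w ∈ y.Z)
    (q1 : Fin (n + 2) → Pl K) (a' a : Fin (n + 1) → Pl K)
    (hz : (∀ k, q1 k ∈ y.Z) ∧ ∀ j, a j ∈ y.Z ∧ a' j ∈ y.Z) (ha : ∀ j, a j ≠ a' j)
    (hnr : nr (Tt r.T (Fin.tail q1) a' a) ≤ Y ^ C) :
    ∑ w ∈ BX D y.Z r.T lo hi, ∏ e : Fin (n + 1) → Bool, cj e (Uf y Dg r v q1 w (vt a a' e)) = 0 ∨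
      (Dst r.T q1 a' a ∧ (∃ Φ, Ph y Dg r v (Fin.tail q1) a' a Φ) ∧
        ∀ Φ, Ph y Dg r v (Fin.tail q1) a' a Φ →
          ‖∑ w ∈ BX D y.Z r.T lo hi, ∏ e : Fin (n + 1) → Bool, cj e (Uf y Dg r v q1 w (vt a a' e))‖ ≤
            1 + (C' * hi ^ (3 / 4 : ℝ) + Real.log Y ^ C') +
              (Gx y.Fr (Tt r.T (Fin.tail q1) a' a) hi Φ (hh Dg v) +
                Gx y.Fr (Tt r.T (Fin.tail q1) a' a) lo Φ (hh Dg v))) := by
  by_cases h0 : ∑ w ∈ BX D y.Z r.T lo hi,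
      ∏ e : Fin (n + 1) → Bool, cj e (Uf y Dg r v q1 w (vt a a' e)) = 0
  · exact Or.inl h0
  right
  have hp : p.Prime := Fact.out
  obtain ⟨w, -, hw⟩ := Finset.exists_ne_zero_of_sum_ne_zero h0
  have hd : Dst r.T q1 a' a := hh_nd y Dg r v q1 a' a w hw ha
  have hall : ∀ e, ∃ Ψ, Hd y Dg r v (vt a a' e) (Fin.tail q1) Ψ := by
    by_contra h
    exact hw (hh_zero y Dg r v q1 a' a h w)
  refine ⟨hd, hh_ex y (Fin.tail q1) a' a hall, fun Φ hΦ => ?_⟩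
  obtain ⟨m, hm⟩ : ∃ m, m = Tt r.T (Fin.tail q1) a' a := ⟨_, rfl⟩
  have hTm : r.T ⊆ m := by
    rw [hm]
    exact Finset.subset_union_left
  have hEm : y.E ∪ m = m := Finset.union_eq_right.2 (hr.sE.trans hTm)
  have hpg : IsPGroup p ((Fin (n + 1) → Bool) → UGd p n Qg Lm) := sma_pg (pg_ugd hp hQ) _
  have hun : Unz y.L m Φ := by
    have h1 := hΦ.hon.unz
    rw [← hm, hEm] at h1
    exact h1
  have h1 := hh_sum hζ Q y hy hQ hr q1 a' a hd hz hΦ (BX D y.Z r.T lo hi)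
    (Finset.filter_subset _ _)
  have h2 := sma_er (BX D y.Z r.T lo hi) (fun w => w ∉ m) (q1 0)
    (fun w => hh Dg v (Φ (y.Fr.F w))) (fun w => hh_le Dg v _)
  have h3 := hgl _ hpg hM Φ m hun (by rw [hm]; exact hnr) (hh Dg v) (hh_le Dg v) lo hi true
    (hlo.trans hlh) hhi
  rw [h1, ← hm]
  rw [sma_box hZ hTm] at h2
  have h4 : ∑ w ∈ (PI K lo hi true).filter (fun w => w ∉ D.S0 ∧ w ∉ m), hh Dg v (Φ (y.Fr.F w)) =
      ∑ w ∈ (PI K lo hi true).filter (fun w => w ∉ D.S0 ∧ w ∉ m),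
        (hh Dg v (Φ (y.Fr.F w)) - av Φ (hh Dg v) (Φ (y.Fr.F w))) +
      (∑ w ∈ (PB K hi).filter (fun w => D.Gd w ∧ w ∉ m), av Φ (hh Dg v) (Φ (y.Fr.F w)) -
        ∑ w ∈ (PB K lo).filter (fun w => D.Gd w ∧ w ∉ m), av Φ (hh Dg v) (Φ (y.Fr.F w))) := by
    rw [Finset.sum_sub_distrib]
    have h5 : ∑ w ∈ (PI K lo hi true).filter (fun w => w ∉ D.S0 ∧ w ∉ m),
        av Φ (hh Dg v) (Φ (y.Fr.F w)) =
        ∑ w ∈ (PB K hi).filter (fun w => D.Gd w ∧ w ∉ m), av Φ (hh Dg v) (Φ (y.Fr.F w)) -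
        ∑ w ∈ (PB K lo).filter (fun w => D.Gd w ∧ w ∉ m), av Φ (hh Dg v) (Φ (y.Fr.F w)) := by
      rw [sma_int]
      refine Finset.sum_sdiff_eq_sub ?_
      intro w hw
      rw [Finset.mem_filter, mem_PB] at hw ⊢
      exact ⟨hw.1.trans hlh, hw.2⟩
    rw [h5]
    ring
  have h6 : ‖∑ w ∈ (PI K lo hi true).filter (fun w => w ∉ D.S0 ∧ w ∉ m),
      hh Dg v (Φ (y.Fr.F w))‖ ≤ (C' * hi ^ (3 / 4 : ℝ) + Real.log Y ^ C') +
        (Gx y.Fr m hi Φ (hh Dg v) + Gx y.Fr m lo Φ (hh Dg v)) := by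
    rw [h4]
    refine (norm_add_le _ _).trans (add_le_add h3 ?_)
    exact norm_sub_le _ _
  linarith

end H62.BL
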