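import Pool.Agent.H62.BL.Blf
import Pool.Agent.H51.AC2.Defs
import Pool.Agent.H51.PF.Fra
import Pool.Agent.H93.GQ.Fin

/-!
# H62 BL BL2: the box lemma for all `p`-groups of bounded order (stage 2)

* `bl2_of`: `BL2 p` (H51/AC2) from the black box `GP2 p`, for every prime `p` (`M = max M' (b + 2)`, `b = blM p m ^ (2 ^ m)`, `M'` from `GP2` for `κ = b`).
* `gp2`, `bl2`: for odd `p` (`H57.GP.Q.gpuq`).
-/

set_option autoImplicit false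

open scoped NumberField
open IsDedekindDomain
open scoped Classical

noncomputable section

namespace H62.BL

open H38.ML H63.MA H38.BB H38.BG H57.PC H57.BRA H77.WD H77.WE H77.GL H57.AN H35.UB

private theorem bl2_pow {K : Type} [Field K] {p M M' : ℕ} (hp : p.Prime) {z : K}
    (hz : IsPrimitiveRoot z (p ^ M)) (h : M' ≤ M) : ∃ z' : K, IsPrimitiveRoot z' (p ^ M') := by
  refine ⟨z ^ (p ^ (M - M')), hz.pow (pow_pos hp.pos _) ?_⟩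
  rw [← pow_add]
  congr 1
  omega

theorem bl2_of {p : ℕ} (hp : p.Prime) (hGP : H51.AC2.GP2 p) : H51.AC2.BL2 p := by
  intro κ m
  have hF : Fact p.Prime := ⟨hp⟩
  obtain ⟨b, hb⟩ : ∃ b : ℕ, b = blM p m ^ (2 ^ m) := ⟨_, rfl⟩
  obtain ⟨M', hM'⟩ := hGP b
  refine ⟨max M' (b + 2), fun K _ ζ hζ z hz D A => ?_⟩
  obtain ⟨z₁, hz₁⟩ := bl2_pow hp hz (le_max_left M' (b + 2))
  obtain ⟨z₂, hz₂⟩ := bl2_pow hp hz (le_max_right M' (b + 2))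
  obtain ⟨z₃, hz₃⟩ := bl2_pow hp hz₂ (show 2 ≤ b + 2 by omega)
  have hle : b ≤ p ^ b := (Nat.lt_pow_self hp.one_lt).le
  have hM : blM p m ≤ p ^ (b + 1 + 1) := by
    refine le_trans ?_ (hle.trans (Nat.pow_le_pow_right hp.pos (by omega)))
    rw [hb]
    exact Nat.le_self_pow (pow_ne_zero _ two_ne_zero) _
  exact bl (H51.PF.mone_of hp (le_refl 2) hz₃) hζ ⟨z₃, hz₃⟩ (j := b + 1) (by omega) hz₂ hM
    (gbu D.toRD0 QBar hp (hb ▸ hle) (hM' K ζ hζ z₁ hz₁ D) κ) A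

theorem gpu_mono {K : Type} [Field K] [NumberField K] {p : ℕ} {ζ : K} {D : RD0 K p ζ} {Ω : Type}
    [Field Ω] [Algebra K Ω] {κ κ' : ℕ} (h : κ ≤ κ') (hG : GPU D Ω κ') : GPU D Ω κ := by
  intro b C₁ A ε hε
  obtain ⟨Y₀, hY₀⟩ := hG b C₁ A ε hε
  refine ⟨Y₀, fun Y hY L Fr E ι I n x h1 h2 h3 G _ _ φ f hf => ?_⟩
  refine hY₀ Y hY L Fr E ι I n x h1 h2 h3 G φ f fun i hi => ?_
  obtain ⟨h4, h5, h6⟩ := hf i hi
  refine ⟨h4, fun y hy => ?_, h6⟩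
  obtain ⟨j, rfl⟩ := Nat.exists_eq_add_of_le h
  rw [pow_add, pow_mul, h5 y hy, one_pow]

theorem gp2 {p : ℕ} (hp : p.Prime) (hp2 : p ≠ 2) : H51.AC2.GP2 p := fun κ =>
  ⟨κ + 1, fun _ _ _ hζ _ hz D => gpu_mono (Nat.le_succ κ)
    (H57.GP.Q.gpuq hp hp2 (Nat.le_add_left 1 κ) hζ hz D.toRD0)⟩

theorem bl2 {p : ℕ} (hp : p.Prime) (hp2 : p ≠ 2) : H51.AC2.BL2 p := bl2_of hp (gp2 hp hp2)

end H62.BL
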