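import Mathlib

/-!
# [H62 BL ALG] MP_b39724_nt, all classes, the box lemma: definitions of the algebra

Text: think 1472, mails helper62 00:51 and 01:07. No number theory here.

1. CUBES. `P` a group with a filtration `f` (`Fl f`: `f 0 = ⊤`, descending, `[f i, f j] ≤ f (i + j)`). `IsHK f n i x`: `x` is an element of
the Host-Kra cube group of dimension `n` of the filtration `f (· + i)`; recursion on `n`, the coordinate `0 : Fin (n + 1)` is split off by
`Fin.cons`. `tp n x`: the top coefficient (iterated quotient, coordinate `0` first). `sg e = ∏ (±1)`, `-1` for `false`. `fa j b g`: the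
element `g` on the face `e j = b`.
2. WORDS. Functions on words with the convolution `cv` (recursion on the word). `WSet`: a set of words closed under factors and under the
action of `Q` on the letters. `UG Q α R W`: the group `Q ⋉ {c : c [] = 1}` of functions supported on `W` (truncated convolution).
`lt a s`: the element `1 + s a`. `qh`: `Q → UG`.
3. Letters `Lr I Λ`: pairs (index `i`, label `l`), `Q` acts on the labels. `WN S n`: words with distinct indices in `S`, length `≤ n`.
`sp π s`: SPECIALISATION `c ↦ (w ↦ sum over the lifts w' of w of s(w') c(w'))`, `π : J → I`, `s : J → R`.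
4. `LG`: the group data of the box lemma. `N = f 1` has class `n + 1`: `f (n + 2) = ⊥`; `s : Λ → P` representatives of labels modulo
`f 2`, `ch : Λ → characters of f (n + 1)`. `rw w`: right normed commutator of the representatives of a word.
5. `LG.eps`: the functional on the words of length `n + 2`. `LG.kp l₀ w`: the functional on the words of length `n + 1`. `br w`: the right
normed Lie bracket of the letters of `w`, as a function on words.
-/

set_option autoImplicit false

open scoped Classical

noncomputable section

namespace H62.BL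

section cubes

variable {P : Type} [Group P]

/-- filtration -/
structure Fl (f : ℕ → Subgroup P) : Prop where
  top : f 0 = ⊤
  anti : ∀ i, f (i + 1) ≤ f i
  com : ∀ i j, ∀ a ∈ f i, ∀ b ∈ f j, a * b * a⁻¹ * b⁻¹ ∈ f (i + j)

/-- the two halves of a function on the vertices of the cube -/
def hf {X : Type} {n : ℕ} (b : Bool) (x : (Fin (n + 1) → Bool) → X) : (Fin n → Bool) → X :=
  fun e => x (Fin.cons b e)

/-- Host-Kra cubes of dimension `n` for the filtration `f (· + i)` -/
def IsHK (f : ℕ → Subgroup P) : (n : ℕ) → (i : ℕ) → ((Fin n → Bool) → P) → Prop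
  | 0, i, x => x Fin.elim0 ∈ f i
  | n + 1, i, x => IsHK f n i (hf false x) ∧ IsHK f n (i + 1) (hf true x * (hf false x)⁻¹)

/-- the top coefficient -/
def tp : (n : ℕ) → ((Fin n → Bool) → P) → P
  | 0, x => x Fin.elim0
  | n + 1, x => tp n (hf true x * (hf false x)⁻¹)

/-- the sign of a vertex -/
def sg {n : ℕ} (R : Type) [CommRing R] (e : Fin n → Bool) : R := ∏ j, if e j then 1 else -1

/-- the element `g` on the face `e j = b`, `1` elsewhere -/
def fa {n : ℕ} (j : Fin n) (b : Bool) (g : P) : (Fin n → Bool) → P := fun e => if e j = b then g else 1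

/-- right normed commutator of a list of elements -/
def rn : List P → P
  | [] => 1
  | [a] => a
  | a :: b :: w => a * rn (b :: w) * a⁻¹ * (rn (b :: w))⁻¹

end cubes

section words

variable {α : Type} {R : Type} [CommRing R]

/-- convolution of functions on words -/
def cv : (List α → R) → (List α → R) → List α → R
  | c, c', [] => c [] * c' []
  | c, c', a :: w => c [] * c' (a :: w) + cv (fun u => c (a :: u)) c' w

/-- the function `1` -/
def e1 : List α → R := fun w => if w = [] then 1 else 0

/-- the function of the letter `a` -/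
def el (a : α) : List α → R := fun w => if w = [a] then 1 else 0

/-- the right normed Lie bracket of the letters of a word -/
def br : List α → List α → R
  | [] => 0
  | [a] => el a
  | a :: b :: w => cv (el a) (br (b :: w)) - cv (br (b :: w)) (el a)

/-- words closed under factors and under `Q` -/
structure WSet (Q α : Type) [Group Q] [MulAction Q α] where
  s : Set (List α)
  nil : [] ∈ s
  left : ∀ u v, u ++ v ∈ s → u ∈ s
  right : ∀ u v, u ++ v ∈ s → v ∈ s
  act : ∀ (q : Q) (w : List α), w.map (fun a => q • a) ∈ s ↔ w ∈ s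

variable {Q : Type} [Group Q] [MulAction Q α]

/-- truncation to `W` -/
def tr (W : WSet Q α) (c : List α → R) : List α → R := fun w => if w ∈ W.s then c w else 0

/-- the action of `Q` on functions on words -/
def qa (q : Q) (c : List α → R) : List α → R := fun w => c (w.map fun a => q⁻¹ • a)

/-- the group `Q ⋉ {c : c [] = 1}`, functions supported on `W` -/
@[ext] structure UG (Q α : Type) [Group Q] [MulAction Q α] (R : Type) [CommRing R] (W : WSet Q α) where
  q : Q
  c : List α → R
  one : c [] = 1
  out : ∀ w, w ∉ W.s → c w = 0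

variable {W : WSet Q α}

instance : Mul (UG Q α R W) where
  mul a b := ⟨a.q * b.q, tr W (cv a.c (qa a.q b.c)), by
    rw [tr, if_pos W.nil, cv, a.one, qa, List.map_nil, b.one, one_mul], fun w hw => if_neg hw⟩

instance : One (UG Q α R W) where
  one := ⟨1, e1, if_pos rfl, fun w hw => if_neg fun h => hw (by rw [h]; exact W.nil)⟩

theorem ug_mul_q (a b : UG Q α R W) : (a * b).q = a.q * b.q := rfl

theorem ug_mul_c (a b : UG Q α R W) : (a * b).c = tr W (cv a.c (qa a.q b.c)) := rfl

/-- the element `1 + s a` -/
def lt (a : α) (s : R) : UG Q α R W := ⟨1, tr W (e1 + s • el a), by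
  rw [tr, if_pos W.nil, Pi.add_apply, Pi.smul_apply, e1, el, if_pos rfl, if_neg (by simp), smul_zero, add_zero],
  fun w hw => if_neg hw⟩

/-- the elements of `Q` -/
def qi (q : Q) : UG Q α R W := ⟨q, e1, if_pos rfl, fun w hw => if_neg fun h => hw (by rw [h]; exact W.nil)⟩

end words

section letters

/-- letters: an index and a label -/
@[ext] structure Lr (I L : Type) where
  i : I
  l : L

variable {I J Q L R : Type} [Group Q] [MulAction Q L] [CommRing R]

instance : MulAction Q (Lr I L) where
  smul q a := ⟨a.i, q • a.l⟩
  one_smul a := Lr.ext rfl (one_smul Q a.l)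
  mul_smul q q' a := Lr.ext rfl (mul_smul q q' a.l)

theorem lr_smul (q : Q) (a : Lr I L) : q • a = ⟨a.i, q • a.l⟩ := rfl

instance [Finite I] [Finite L] : Finite (Lr I L) :=
  Finite.of_injective (fun a : Lr I L => (a.i, a.l)) fun a b h => by
    obtain ⟨h1, h2⟩ := Prod.mk.inj h
    exact Lr.ext h1 h2

instance [Fintype I] [Fintype L] : Fintype (Lr I L) :=
  Fintype.ofEquiv (I × L) ⟨fun x => ⟨x.1, x.2⟩, fun a => (a.i, a.l), fun _ => rfl, fun _ => rfl⟩

variable (Q L) in
/-- all words -/
def WA (I : Type) : WSet Q (Lr I L) where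
  s := Set.univ
  nil := trivial
  left _ _ _ := trivial
  right _ _ _ := trivial
  act _ _ := Iff.rfl

variable (Q L) in
/-- the words with distinct indices in `S`, of length at most `n` -/
def WN (S : Set I) (n : ℕ) : WSet Q (Lr I L) where
  s := {w | w.length ≤ n ∧ (w.map Lr.i).Nodup ∧ ∀ a ∈ w, a.i ∈ S}
  nil := ⟨Nat.zero_le _, List.nodup_nil, by simp⟩
  left u v h := ⟨by have := h.1; rw [List.length_append] at this; omega,
    by have := h.2.1; rw [List.map_append] at this; exact this.of_append_left,
    fun a ha => h.2.2 a (List.mem_append_left _ ha)⟩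
  right u v h := ⟨by have := h.1; rw [List.length_append] at this; omega,
    by have := h.2.1; rw [List.map_append] at this; exact this.of_append_right,
    fun a ha => h.2.2 a (List.mem_append_right _ ha)⟩
  act q w := by
    have h1 : (w.map fun a : Lr I L => q • a).map Lr.i = w.map Lr.i := by
      rw [List.map_map]
      rfl
    simp only [Set.mem_ofPred_eq, List.length_map, h1]
    constructor
    · rintro ⟨h2, h3, h4⟩
      exact ⟨h2, h3, fun a ha => h4 (q • a) (List.mem_map.2 ⟨a, ha, rfl⟩)⟩
    · rintro ⟨h2, h3, h4⟩
      refine ⟨h2, h3, fun a ha => ?_⟩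
      obtain ⟨b, hb, rfl⟩ := List.mem_map.1 ha
      exact h4 b hb

/-- specialisation of the indices of the letters: the letter `(j, l)` becomes `s j` times the letter `(π j, l)` -/
def sp [Fintype J] (π : J → I) (s : J → R) : (List (Lr J L) → R) → List (Lr I L) → R
  | c, [] => c []
  | c, a :: w => ∑ j, if π j = a.i then s j * sp π s (fun u => c (⟨j, a.l⟩ :: u)) w else 0

end letters

section data

/-- the group data of the box lemma: `N = f 1` has class `n + 1` -/
structure LG (p n : ℕ) (P Q L : Type) [Group P] [Group Q] [MulAction Q L] where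
  f : ℕ → Subgroup P
  fl : Fl f
  bot : f (n + 2) = ⊥
  pp : ∀ i, 1 ≤ i → ∀ x ∈ f i, x ^ p ∈ f (i + 1)
  pi : P →* Q
  sur : Function.Surjective pi
  ker : ∀ x, pi x = 1 ↔ x ∈ f 1
  s : L → P
  s_mem : ∀ a, s a ∈ f 1
  s_act : ∀ (x : P) a, s (pi x • a) * (x * s a * x⁻¹)⁻¹ ∈ f 2
  ch : L → P → ZMod p
  ch_add : ∀ a, ∀ x ∈ f (n + 1), ∀ y ∈ f (n + 1), ch a (x * y) = ch a x + ch a y
  ch_act : ∀ (x : P) a, ∀ y ∈ f (n + 1), ch (pi x • a) (x * y * x⁻¹) = ch a y

variable {p n : ℕ} {P Q L : Type} [Group P] [Group Q] [MulAction Q L]

/-- right normed commutator of the representatives of the letters of a word -/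
def LG.rw {I : Type} (D : LG p n P Q L) (w : List (Lr I L)) : P := rn (w.map fun a => D.s a.l)

/-- the functional on the words of length `n + 2`, letters with distinct indices, last index `0`:
`ch` of the first letter at the commutator of the other letters -/
def LG.eps (D : LG p n P Q L) : List (Lr (Fin (n + 2)) L) → ZMod p
  | [] => 0
  | a :: w => if ((a :: w).map Lr.i).Nodup ∧ w.length = n + 1 ∧ (w.map Lr.i).getLast? = some 0 then
      D.ch a.l (D.rw w) else 0

/-- the functional on the words of length `n + 1`, letters with distinct indices different from `0` -/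
def LG.kw (D : LG p n P Q L) (l₀ : L) : List (Lr (Fin (n + 2)) L) → ZMod p
  | [] => 0
  | a :: w => if ((a :: w).map Lr.i).Nodup ∧ w.length = n ∧ (∀ b ∈ a :: w, b.i ≠ 0) then
      (if ((a :: w).map Lr.i).getLast? = some 1 then D.ch l₀ (D.rw (a :: w)) else 0) +
        D.ch a.l (D.rw (w ++ [⟨0, l₀⟩])) else 0

/-- the functional `kw` on functions on words -/
def LG.kp [Fintype L] (D : LG p n P Q L) (l₀ : L) (c : List (Lr (Fin (n + 2)) L) → ZMod p) : ZMod p :=
  ∑ t : Fin (n + 1) → Lr (Fin (n + 2)) L, c (List.ofFn t) * D.kw l₀ (List.ofFn t)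

/-- the cocycle given by `eps` on the group of words of length at most `n + 1` -/
def LG.cc [Fintype L] (D : LG p n P Q L)
    (a b : UG Q (Lr (Fin (n + 2)) L) (ZMod p) (WN Q L Set.univ (n + 1))) : ZMod p :=
  ∑ t : Fin (n + 2) → Lr (Fin (n + 2)) L, cv a.c (qa a.q b.c) (List.ofFn t) * D.eps (List.ofFn t)

end data

end H62.BL
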