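import Pool.Agent.H62.BL.Lgd

/-!
# [H62 BL LGP] properties of the group data from `N` (120-170 lines). File Pool/Agent/H62/BL/Lgp.lean

* `brk_rn`: `brk = rn` (H35/UB/Defs, Alg.lean: the same recursion). `bru_mem`: `bru l u ∈ Nk N n` (`n + 1` elements of `N`; `Nk N (k + 1) = ⁅Nk N k, N⁆`, `[a, b] = [b, a]⁻¹`; induction on the list).
* `rn_cg`: lists of the same length `m + 1` of elements of `f 1` which are pairwise equal modulo `f 2` have `rn` equal modulo `f (m + 2)` (compare the private lemma `ee_rn` in H42/WM/EpsE.lean: `List.Forall₂`).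
* `lkd_pair`. PROOF. `D = lgN hn hN`, `la k = lbL hn (l k) (h k)`, `l₀ = la 0`, `l₁` the label of `⟨(l 0).g, (l 0).f, χ'⟩`: `D.s l₀ * (D.s l₁)⁻¹ ∈ Nk N 1` (both represent the coset of `(l 0).g`). Let `u` be as in the hypothesis, `q i = (u i.rev : P ⧸ N)` for the order of
  `bru` (`bru l u = rn (List.ofFn fun j => u j.rev * (l j.rev.succ).g * (u j.rev)⁻¹)`), `lab i = q i • la i.rev.succ`. `kp_br` (H42/WM/KpbE.lean): the difference of the values of `kp` is `ch l₀ (rw ..) - ch l₁ (rw ..)`, `rw (List.ofFn ..) = rn (List.ofFn fun i => D.s (lab i))`,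
  and `D.s (lab i)` represents `u (l _).g u⁻¹` modulo `Nk N 1`, so `rw = bru l u` by `rn_cg` (`f (n + 2) = ⊥`). `bru_mem`: the characters of the labels at `bru` are `(l 0).χ (bru)` and `χ' (bru)`. So one of the values of `kp` is `≠ 0`: this is `Lkd` for `la`, or for
  the labels of `Function.update l 0 ⟨..⟩` (which are `Function.update la 0 l₁`; the labels `i.rev.succ` do not change).
* `lb_card`, `nw_card` (words of length at most `n + 1` in an alphabet with `c` letters: at most `(c + 1) ^ (n + 1)`, `Nat.card (Lr I L) = card I * card L`), `ugm_le`, `ugd_le`: `ug_card` (H42/WM/WrdB.lean). `n_lt`: the groups `Nk N 0 > Nk N 1 > .. > Nk N n > Nk N (n + 1) = ⊥` are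
  different, so `n + 1 < 2 ^ (n + 1) ≤ card N`.
-/

set_option autoImplicit false

open scoped Classical commutatorElement

noncomputable section

namespace H62.BL

open H35.UB

/-- bound for the orders of the groups of words -/
def blM (p m : ℕ) : ℕ := m * p ^ (((m + 2) * (m * p ^ m) + 1) ^ (m + 1))

section

variable {P : Type} [Group P]

theorem brk_rn (l : List P) : brk l = rn l := by
  induction l with
  | nil => rfl
  | cons a l ih =>
    cases l with
    | nil => rfl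
    | cons b l => rw [brk, rn, ih]

section lgpf

variable {f : ℕ → Subgroup P}

private theorem lgp_conj (hf : Fl f) (i : ℕ) (a b : P) (hb : b ∈ f i) : a * b * a⁻¹ ∈ f i := by
  have h1 := hf.com 0 i a (by rw [hf.top]; trivial) b hb
  rw [Nat.zero_add] at h1
  have h2 := (f i).mul_mem h1 hb
  rwa [inv_mul_cancel_right] at h2

private theorem lgp_nor (hf : Fl f) (i : ℕ) : (f i).Normal := ⟨fun b hb a => lgp_conj hf i a b hb⟩

private theorem lgp_anti (hf : Fl f) {i j : ℕ} (h : i ≤ j) : f j ≤ f i := by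
  induction j, h using Nat.le_induction with
  | base => exact le_rfl
  | succ j _ ih => exact (hf.anti j).trans ih

private theorem lgp_cm (hf : Fl f) {i j k : ℕ} (h : k ≤ i + j) {a b : P} (ha : a ∈ f i) (hb : b ∈ f j) :
    a * b * a⁻¹ * b⁻¹ ∈ f k := lgp_anti hf h (hf.com i j a ha b hb)

private theorem lgp_ab {H : Type} [Group H] {Z A Y R : H} (h1 : Z * (Y * R) = Y * R * Z)
    (h2 : Z * (A * (Y * R) * A⁻¹ * (Y * R)⁻¹) = A * (Y * R) * A⁻¹ * (Y * R)⁻¹ * Z) (h3 : A * Y = Y * A)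
    (h4 : Y * (A * R * A⁻¹ * R⁻¹) = A * R * A⁻¹ * R⁻¹ * Y) :
    Z * A * (Y * R) * (Z * A)⁻¹ * (Y * R)⁻¹ = A * R * A⁻¹ * R⁻¹ := by
  have h6 : Y * R * Z⁻¹ * (Y * R)⁻¹ = Z⁻¹ := by
    rw [mul_inv_eq_iff_eq_mul, mul_inv_eq_iff_eq_mul, mul_assoc, ← h1, inv_mul_cancel_left]
  calc Z * A * (Y * R) * (Z * A)⁻¹ * (Y * R)⁻¹
      = Z * (A * (Y * R) * A⁻¹ * (Y * R)⁻¹) * (Y * R * Z⁻¹ * (Y * R)⁻¹) := by group
    _ = A * (Y * R) * A⁻¹ * (Y * R)⁻¹ := by rw [h2, h6, mul_inv_cancel_right]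
    _ = A * Y * R * A⁻¹ * R⁻¹ * Y⁻¹ := by group
    _ = Y * A * R * A⁻¹ * R⁻¹ * Y⁻¹ := by rw [h3]
    _ = Y * (A * R * A⁻¹ * R⁻¹) * Y⁻¹ := by group
    _ = A * R * A⁻¹ * R⁻¹ := by rw [h4, mul_inv_cancel_right]

private theorem lgp_step (hf : Fl f) (m : ℕ) {a a' r r' : P} (ha : a ∈ f 1) (haa : a' * a⁻¹ ∈ f 2)
    (hr : r ∈ f (m + 1)) (hrr : r' * r⁻¹ ∈ f (m + 2)) :
    (a' * r' * a'⁻¹ * r'⁻¹) * (a * r * a⁻¹ * r⁻¹)⁻¹ ∈ f (m + 3) := by
  have := lgp_nor hf (m + 3)
  obtain ⟨z, hz⟩ : ∃ z, z = a' * a⁻¹ := ⟨_, rfl⟩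
  obtain ⟨y, hy⟩ : ∃ y, y = r' * r⁻¹ := ⟨_, rfl⟩
  rw [← hz] at haa
  rw [← hy] at hrr
  have ea : a' = z * a := by rw [hz, inv_mul_cancel_right]
  have er : r' = y * r := by rw [hy, inv_mul_cancel_right]
  have hr' : r' ∈ f (m + 1) := by
    rw [er]
    exact (f (m + 1)).mul_mem (lgp_anti hf (by omega) hrr) hr
  have key : ∀ x x' : P, x * x' * x⁻¹ * x'⁻¹ ∈ f (m + 3) →
      (x : P ⧸ f (m + 3)) * (x' : P ⧸ f (m + 3)) = (x' : P ⧸ f (m + 3)) * (x : P ⧸ f (m + 3)) := by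
    intro x x' h
    rw [← QuotientGroup.mk_mul, ← QuotientGroup.mk_mul, QuotientGroup.eq_iff_div_mem, div_eq_mul_inv,
      mul_inv_rev, ← mul_assoc]
    exact h
  rw [← div_eq_mul_inv, ← QuotientGroup.eq_iff_div_mem]
  have h1 := key z r' (lgp_cm hf (by omega) haa hr')
  have h2 := key z (a * r' * a⁻¹ * r'⁻¹)
    (lgp_cm (i := 2) (j := m + 2) hf (by omega) haa (lgp_cm hf (by omega) ha hr'))
  have h3 := key a y (lgp_cm hf (by omega) ha hrr)
  have h4 := key y (a * r * a⁻¹ * r⁻¹)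
    (lgp_cm (i := m + 2) (j := m + 2) hf (by omega) hrr (lgp_cm hf (by omega) ha hr))
  rw [er] at h1 h2
  simp only [QuotientGroup.mk_mul, QuotientGroup.mk_inv] at h1 h2 h3 h4
  rw [ea, er]
  simp only [QuotientGroup.mk_mul, QuotientGroup.mk_inv]
  exact lgp_ab h1 h2 h3 h4

private theorem lgp_rn (hf : Fl f) : ∀ (u v : List P), List.Forall₂ (fun a b => a ∈ f 1 ∧ b * a⁻¹ ∈ f 2) u v →
    ∀ m, u.length = m + 1 → rn u ∈ f (m + 1) ∧ rn v * (rn u)⁻¹ ∈ f (m + 2) := by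
  intro u v h
  induction h with
  | nil =>
    intro m hm
    rw [List.length_nil] at hm
    omega
  | @cons a b u v hab huv ih =>
    intro m hm
    cases huv with
    | nil =>
      rw [List.length_singleton] at hm
      obtain rfl : m = 0 := by omega
      exact hab
    | @cons c d u v hcd huv =>
      rw [List.length_cons, List.length_cons] at hm
      obtain ⟨k, rfl⟩ : ∃ k, m = k + 1 := ⟨m - 1, by omega⟩
      obtain ⟨h1, h2⟩ := ih k (by rw [List.length_cons]; omega)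
      refine ⟨?_, ?_⟩
      · exact lgp_cm (i := 1) (j := k + 1) hf (by omega) hab.1 h1
      · exact lgp_step hf k hab.1 hab.2 h1 h2

private theorem lgp_mem (hf : Fl f) (w : List P) (m : ℕ) (hw : w.length = m + 1)
    (h : ∀ a ∈ w, a ∈ f 1) : rn w ∈ f (m + 1) := by
  refine (lgp_rn hf w w ?_ m hw).1
  clear hw
  induction w with
  | nil => exact List.Forall₂.nil
  | cons a w ih =>
    refine List.Forall₂.cons ⟨h a (by simp), ?_⟩ (ih fun b hb => h b (List.mem_cons_of_mem _ hb))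
    rw [mul_inv_cancel]
    exact (f 2).one_mem

end lgpf

theorem rn_cg {f : ℕ → Subgroup P} (hf : Fl f) (u v : List P)
    (h : List.Forall₂ (fun a b => a ∈ f 1 ∧ b * a⁻¹ ∈ f 2) u v) (hu : u ≠ []) :
    rn v * (rn u)⁻¹ ∈ f (u.length + 1) := by
  have h0 : 0 < u.length := List.length_pos_iff.2 hu
  obtain ⟨m, hm⟩ : ∃ m, u.length = m + 1 := ⟨u.length - 1, by omega⟩
  rw [hm]
  exact (lgp_rn hf u v h m hm).2

variable {p n : ℕ} {N : Subgroup P} [N.Normal]

theorem bru_mem (l : Fin (n + 2) → Lt p P N) (h : ∀ k, (l k).g ∈ N) (u : Fin (n + 1) → P) :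
    bru l u ∈ Nk N n := by
  rw [bru, brk_rn]
  refine lgp_mem (fn_fl N) _ n (by rw [List.length_ofFn]) ?_
  intro a ha
  rw [List.mem_ofFn] at ha
  obtain ⟨j, rfl⟩ := ha
  exact ‹N.Normal›.conj_mem _ (h _) _

private theorem lgp_lb {hn : Nk N (n + 1) = ⊥} {a b : Lt p P N} (ha : a.ok n) (hb : b.ok n)
    (h : a = b) : lbL hn a ha = lbL hn b hb := by
  subst h
  rfl

private theorem lgp_c (hn : Nk N (n + 1) = ⊥) (hN : N = Subgroup.closure {x | x ∈ N ∧ x ^ p = 1})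
    (a : Lb p N n) : (((lgN hn hN).s a : P) : P ⧸ Nk N 1) = a.c := a.mem.choose_spec.2

private theorem lgp_cc (x y : P) (h : (x : P ⧸ Nk N 1) = (y : P ⧸ Nk N 1)) : x * y⁻¹ ∈ Nk N 1 := by
  rw [← QuotientGroup.eq_one_iff, QuotientGroup.mk_mul, QuotientGroup.mk_inv, h, mul_inv_cancel]

theorem lkd_pair [Finite P] [Fact p.Prime] (hn : Nk N (n + 1) = ⊥)
    (hN : N = Subgroup.closure {x | x ∈ N ∧ x ^ p = 1}) (l : Fin (n + 2) → Lt p P N)
    (χ' : P → ZMod p) (h : ∀ k, (l k).ok n) (h' : (Lt.mk (l 0).g (l 0).f χ').ok n)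
    (hu : ∃ u, (l 0).χ (bru l u) ≠ χ' (bru l u)) :
    LkN hn hN l ∨ LkN hn hN (Function.update l 0 ⟨(l 0).g, (l 0).f, χ'⟩) := by
  obtain ⟨u, hu⟩ := hu
  obtain ⟨D, hD⟩ : ∃ D, D = lgN hn hN := ⟨_, rfl⟩
  obtain ⟨la, hla⟩ : ∃ la : Fin (n + 2) → Lb p N n, la = fun k => lbL hn (l k) (h k) := ⟨_, rfl⟩
  obtain ⟨l₁, hl₁⟩ : ∃ l₁ : Lb p N n, l₁ = lbL hn ⟨(l 0).g, (l 0).f, χ'⟩ h' := ⟨_, rfl⟩
  have hs : ∀ a : Lb p N n, ((D.s a : P) : P ⧸ Nk N 1) = a.c := by
    intro a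
    rw [hD]
    exact lgp_c hn hN a
  have h01 : D.s (la 0) * (D.s l₁)⁻¹ ∈ D.f 2 := by
    have h1 : D.s (la 0) * (D.s l₁)⁻¹ ∈ Nk N 1 := by
      refine lgp_cc _ _ ?_
      rw [hs, hs, hla, hl₁]
      rfl
    rw [hD] at h1 ⊢
    exact h1
  obtain ⟨lab, hlab⟩ : ∃ lab : Fin (n + 1) → Lb p N n,
      lab = fun i => ((u i.rev : P) : P ⧸ N) • la i.rev.succ := ⟨_, rfl⟩
  have hlc : ∀ i : Fin (n + 1), (lab i).c =
      ((u i.rev * (l i.rev.succ).g * (u i.rev)⁻¹ : P) : P ⧸ Nk N 1) := by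
    intro i
    rw [hlab, hla]
    rfl
  have hmem := bru_mem l (fun k => (h k).1) u
  have hrw : D.rw (List.ofFn fun i : Fin (n + 1) => (⟨i.rev.succ, lab i⟩ : Lr (Fin (n + 2)) (Lb p N n))) =
      bru l u := by
    have h1 : D.rw (List.ofFn fun i : Fin (n + 1) => (⟨i.rev.succ, lab i⟩ : Lr (Fin (n + 2)) (Lb p N n))) =
        rn (List.ofFn fun i : Fin (n + 1) => D.s (lab i)) := by
      unfold LG.rw
      rw [List.map_ofFn]
      rfl
    rw [h1, bru, brk_rn]
    have h2 := rn_cg (fn_fl N) (List.ofFn fun j : Fin (n + 1) => u j.rev * (l j.rev.succ).g * (u j.rev)⁻¹)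
      (List.ofFn fun i : Fin (n + 1) => D.s (lab i)) (by
        rw [List.forall₂_iff_get]
        refine ⟨by rw [List.length_ofFn, List.length_ofFn], fun i h1 h2 => ?_⟩
        rw [List.get_ofFn, List.get_ofFn]
        refine ⟨‹N.Normal›.conj_mem _ (h _).1 _, ?_⟩
        refine lgp_cc _ _ ?_
        rw [hs]
        exact hlc _) (by
        intro h3
        have h4 := congrArg List.length h3
        rw [List.length_ofFn] at h4
        simp at h4)
    rw [List.length_ofFn] at h2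
    have h3 : rn (List.ofFn fun i : Fin (n + 1) => D.s (lab i)) *
        (rn (List.ofFn fun j : Fin (n + 1) => u j.rev * (l j.rev.succ).g * (u j.rev)⁻¹))⁻¹ ∈ Nk N (n + 1) := h2
    rw [hn, Subgroup.mem_bot, mul_inv_eq_one] at h3
    exact h3
  have hk := kp_br D lab (la 0) l₁ h01
  rw [hrw] at hk
  have hc0 : D.ch (la 0) (bru l u) = (l 0).χ (bru l u) := by
    rw [hD, hla]
    exact if_pos hmem
  have hc1 : D.ch l₁ (bru l u) = χ' (bru l u) := by
    rw [hD, hl₁]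
    exact if_pos hmem
  rw [hc0, hc1] at hk
  by_cases h0 : D.kp (la 0) (br (List.ofFn fun i : Fin (n + 1) =>
      (⟨i.rev.succ, lab i⟩ : Lr (Fin (n + 2)) (Lb p N n)))) = 0
  · right
    have h1 : D.kp l₁ (br (List.ofFn fun i : Fin (n + 1) =>
        (⟨i.rev.succ, lab i⟩ : Lr (Fin (n + 2)) (Lb p N n)))) ≠ 0 := by
      intro h1
      rw [h0, h1, sub_zero] at hk
      exact hu (sub_eq_zero.1 hk.symm)
    have h2 : ∀ k, (Function.update l 0 (⟨(l 0).g, (l 0).f, χ'⟩ : Lt p P N) k).ok n := by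
      intro k
      by_cases hk0 : k = 0
      · subst hk0
        rw [Function.update_self]
        exact h'
      · rw [Function.update_of_ne hk0]
        exact h k
    refine ⟨h2, fun i => ((u i.rev : P) : P ⧸ N), ?_⟩
    have h3 : lbL hn (Function.update l 0 (⟨(l 0).g, (l 0).f, χ'⟩ : Lt p P N) 0) (h2 0) = l₁ := by
      rw [hl₁]
      exact lgp_lb _ _ (Function.update_self _ _ _)
    have h4 : ∀ k : Fin (n + 1), lbL hn (Function.update l 0 (⟨(l 0).g, (l 0).f, χ'⟩ : Lt p P N) k.succ)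
        (h2 k.succ) = la k.succ := by
      intro k
      rw [hla]
      exact lgp_lb _ _ (Function.update_of_ne (Fin.succ_ne_zero k) _ _)
    have h5 : (fun i : Fin (n + 1) => (⟨i.rev.succ, ((u i.rev : P) : P ⧸ N) •
        lbL hn (Function.update l 0 (⟨(l 0).g, (l 0).f, χ'⟩ : Lt p P N) i.rev.succ) (h2 i.rev.succ)⟩ :
          Lr (Fin (n + 2)) (Lb p N n))) = fun i : Fin (n + 1) => ⟨i.rev.succ, lab i⟩ := by
      funext i
      rw [h4, hlab]
    beta_reduce
    rw [h3, h5, ← hD]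
    exact h1
  · left
    refine ⟨h, fun i => ((u i.rev : P) : P ⧸ N), ?_⟩
    rw [hlab, hla, hD] at h0
    exact h0

theorem lb_card [Finite P] [NeZero p] : Nat.card (Lb p N n) ≤ Nat.card P * p ^ Nat.card P := by
  have h1 : Nat.card (Lb p N n) ≤ Nat.card ((P ⧸ Nk N 1) × (P → ZMod p)) := by
    refine Nat.card_le_card_of_injective (fun a : Lb p N n => (a.c, a.χ)) fun a b h => ?_
    obtain ⟨h1, h2⟩ := Prod.mk.inj h
    exact Lb.ext h1 h2
  refine h1.trans ?_
  rw [Nat.card_prod, Nat.card_fun, Nat.card_zmod]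
  exact Nat.mul_le_mul_right _ (Nat.card_le_card_of_surjective _ (QuotientGroup.mk_surjective))

private theorem lgp_words {α : Type} [Finite α] (S : Set (List α)) (k : ℕ)
    (hS : ∀ w ∈ S, w.length ≤ k) : Nat.card S ≤ (Nat.card α + 1) ^ k := by
  have h1 : Nat.card S ≤ Nat.card (Fin k → Option α) := by
    refine Nat.card_le_card_of_injective (fun (w : S) (i : Fin k) => w.1[i.1]?) fun w v h => ?_
    refine Subtype.ext (List.ext_getElem? fun i => ?_)
    by_cases hi : i < k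
    · exact congrFun h ⟨i, hi⟩
    · have hw := hS w.1 w.2
      have hv := hS v.1 v.2
      rw [List.getElem?_eq_none (by omega), List.getElem?_eq_none (by omega)]
  refine h1.trans (le_of_eq ?_)
  rw [Nat.card_fun, Nat.card_eq_fintype_card (α := Fin k), Fintype.card_fin, Finite.card_option]

private theorem lgp_le [Finite P] (hp : p.Prime) {m : ℕ} (hm : Nat.card P ≤ m) (hnm : n ≤ m)
    (S : Set (Fin (n + 2))) :
    Nat.card (UG (P ⧸ N) (Lr (Fin (n + 2)) (Lb p N n)) (ZMod p) (WN (P ⧸ N) (Lb p N n) S (n + 1))) ≤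
      blM p m := by
  have : NeZero p := ⟨hp.ne_zero⟩
  rw [ug_card (wn_finite _ _)]
  have h1 : Nat.card (P ⧸ N) ≤ m :=
    (Nat.card_le_card_of_surjective _ (QuotientGroup.mk_surjective)).trans hm
  have h2 : Nat.card (Lb p N n) ≤ m * p ^ m :=
    lb_card.trans (Nat.mul_le_mul hm (Nat.pow_le_pow_right hp.pos hm))
  have h3 : Nat.card (Lr (Fin (n + 2)) (Lb p N n)) ≤ (m + 2) * (m * p ^ m) := by
    have h4 : Nat.card (Lr (Fin (n + 2)) (Lb p N n)) = (n + 2) * Nat.card (Lb p N n) := by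
      rw [Nat.card_congr (⟨fun a => (a.i, a.l), fun x => ⟨x.1, x.2⟩, fun _ => rfl, fun _ => rfl⟩ :
        Lr (Fin (n + 2)) (Lb p N n) ≃ Fin (n + 2) × Lb p N n), Nat.card_prod,
        Nat.card_eq_fintype_card (α := Fin (n + 2)), Fintype.card_fin]
    rw [h4]
    exact Nat.mul_le_mul (by omega) h2
  have h4 : Nat.card (WN (P ⧸ N) (Lb p N n) S (n + 1)).s ≤ ((m + 2) * (m * p ^ m) + 1) ^ (m + 1) := by
    refine (lgp_words _ (n + 1) fun w hw => hw.1).trans ?_
    refine (Nat.pow_le_pow_left (Nat.add_le_add_right h3 1) _).trans ?_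
    exact Nat.pow_le_pow_right (Nat.succ_pos _) (by omega)
  exact Nat.mul_le_mul h1 (Nat.pow_le_pow_right hp.pos ((Nat.sub_le _ _).trans h4))

theorem ugm_le [Finite P] (hp : p.Prime) {m : ℕ} (hm : Nat.card P ≤ m) (hnm : n ≤ m) :
    Nat.card (UGm p n (P ⧸ N) (Lb p N n)) ≤ blM p m :=
  lgp_le hp hm hnm _

theorem ugd_le [Finite P] (hp : p.Prime) {m : ℕ} (hm : Nat.card P ≤ m) (hnm : n ≤ m) :
    Nat.card (UGd p n (P ⧸ N) (Lb p N n)) ≤ blM p m :=
  lgp_le hp hm hnm _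

theorem n_lt [Finite P] (hn : Nk N (n + 1) = ⊥) (h : Nk N n ≠ ⊥) : n + 1 < Nat.card P := by
  have h1 : ∀ k ≤ n, Nk N (k + 1) ≠ Nk N k := by
    intro k hk hkk
    have h2 : ∀ j, Nk N (k + j) = Nk N k ∧ Nk N (k + (j + 1)) = Nk N k := by
      intro j
      induction j with
      | zero => exact ⟨rfl, hkk⟩
      | succ j ih =>
        refine ⟨ih.2, ?_⟩
        change ⁅Nk N (k + (j + 1)), N⁆ = Nk N k
        rw [ih.2]
        exact hkk
    obtain ⟨j, rfl⟩ : ∃ j, n = k + j := ⟨n - k, by omega⟩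
    obtain ⟨h3, h4⟩ := h2 j
    exact h (h3.trans (h4.symm.trans hn))
  have h2 : ∀ j k, k + j = n + 1 → 2 ^ j ≤ Nat.card (Nk N k) := by
    intro j
    induction j with
    | zero =>
      intro k _
      exact Nat.card_pos
    | succ j ih =>
      intro k hk
      have h3 := ih (k + 1) (by omega)
      obtain ⟨q, hq⟩ := Subgroup.card_dvd_of_le (nk_le N k)
      have h4 : 2 ≤ q := by
        by_contra hq2
        have h5 : Nat.card (Nk N k) ≤ Nat.card (Nk N (k + 1)) := by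
          rw [hq]
          calc Nat.card (Nk N (k + 1)) * q ≤ Nat.card (Nk N (k + 1)) * 1 :=
                Nat.mul_le_mul_left _ (by omega)
            _ = _ := mul_one _
        exact h1 k (by omega) (Subgroup.eq_of_le_of_card_ge (nk_le N k) h5)
      rw [hq, pow_succ]
      exact Nat.mul_le_mul h3 h4
  have h3 := h2 (n + 1) 0 (by omega)
  have h4 : Nat.card (Nk N 0) ≤ Nat.card P := Subgroup.card_le_card_group _
  exact (Nat.lt_two_pow_self (n := n + 1)).trans_le (h3.trans h4)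

end

end H62.BL
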