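import Pool.Agent.H62.BL.Smc
import Pool.Agent.H57.LI.PrK

/-!
# [H62 BL NRS] the sum of the inverse norms of the index family (50-90 lines). File Pool/Agent/H62/BL/Nrs.lean

`nrs`: PROOF. Group by `s = T i`: at most `(log Y) ^ C₁ * ∑_(s, nr s ≤ Y ^ C₁) (nr s)⁻¹`. `s ↦ ∏_(v ∈ s) v` is injective from the finite sets of primes to the ideals (unique factorization), `absNorm = nr s` (`map_prod`), so the sum is at most
`∑_(𝔫 ∈ IN K Z) 1 / N 𝔫 ≤ C (log Z) ^ d`, `Z = Y ^ C₁` (or `Y ^ (C₁ + 1) ≥ 2`), by `H57.TLS.har`. (For `K` in `QBar` compare the private lemma `wrp_sum` in H57/GP/Wrp.lean and `prK`, H57/LI/PrK.lean.) `C * ((C₁ + 1) log Y) ^ d ≤ (log Y) ^ (d + 1)` for large `Y`.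
-/

set_option autoImplicit false

open scoped NumberField
open IsDedekindDomain
open scoped Classical

noncomputable section

namespace H62.BL

open H63.MA H38.BB H38.BG H57.PC H57.BRA H57.LI

variable (K : Type) [Field K] [NumberField K]

theorem nrs (C₁ : ℕ) : ∃ (C : ℕ) (Y₀ : ℝ), ∀ Y : ℝ, Y₀ ≤ Y → ∀ (ι : Type) (I : Finset ι)
    (T : ι → Finset (Pl K)), (∀ i ∈ I, nr (T i) ≤ Y ^ C₁) →
    (∀ s, ((I.filter fun i => T i = s).card : ℝ) ≤ Real.log Y ^ C₁) →
    ∑ i ∈ I, (nr (T i))⁻¹ ≤ Real.log Y ^ C := by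
  obtain ⟨B, hB⟩ : ∃ B : ℝ, B = (prK K).C * ((C₁ : ℝ) + 1) ^ (prK K).n := ⟨_, rfl⟩
  refine ⟨C₁ + (prK K).n + 1, max 2 (Real.exp B), ?_⟩
  intro Y hYY ι I n hn hfib
  have hY : 2 ≤ Y := (le_max_left _ _).trans hYY
  have hl : B ≤ Real.log Y := by
    rw [Real.le_log_iff_exp_le (by linarith)]
    exact (le_max_right _ _).trans hYY
  have hnr1 : ∀ s : Finset (Pl K), 1 ≤ nr s := fun s => by
    have h := (prK K).one_le_nn s
    unfold Pr.nn at h
    unfold nr
    simpa only [prK_N] using h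
  have hl0 : 0 ≤ Real.log Y := Real.log_nonneg (by linarith)
  have h1 : ∑ i ∈ I, (nr (n i))⁻¹ = ∑ m ∈ I.image n, ∑ i ∈ I.filter (fun i => n i = m), (nr (n i))⁻¹ :=
    (Finset.sum_fiberwise_of_maps_to (fun i hi => Finset.mem_image_of_mem n hi) _).symm
  have h2 : ∀ m ∈ I.image n, ∑ i ∈ I.filter (fun i => n i = m), (nr (n i))⁻¹ ≤
      Real.log Y ^ C₁ * (1 / ∏ v ∈ m, ((prK K).N v : ℝ)) := by
    intro m _
    have h3 : ∑ i ∈ I.filter (fun i => n i = m), (nr (n i))⁻¹ =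
        ∑ i ∈ I.filter (fun i => n i = m), (nr m)⁻¹ :=
      Finset.sum_congr rfl fun i hi => by rw [(Finset.mem_filter.1 hi).2]
    have h4 : nr m = ∏ v ∈ m, ((prK K).N v : ℝ) := by
      unfold nr
      exact Finset.prod_congr rfl fun v _ => by rw [prK_N]
    rw [h3, Finset.sum_const, nsmul_eq_mul, one_div, ← h4]
    exact mul_le_mul_of_nonneg_right (hfib m) (inv_nonneg.2 (by linarith [hnr1 m]))
  have h6 := (prK K).har (Y ^ (C₁ + 1)) (by
    calc (2 : ℝ) ≤ Y := hY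
      _ = Y ^ 1 := (pow_one Y).symm
      _ ≤ Y ^ (C₁ + 1) := pow_le_pow_right₀ (by linarith) (by omega)) (I.image n) (by
    intro m hm
    obtain ⟨i, hi, rfl⟩ := Finset.mem_image.1 hm
    have h7 : nr (n i) = ∏ v ∈ n i, ((prK K).N v : ℝ) := by
      unfold nr
      exact Finset.prod_congr rfl fun v _ => by rw [prK_N]
    rw [← h7]
    exact (hn i hi).trans (pow_le_pow_right₀ (by linarith) (by omega)))
  rw [Real.log_pow] at h6
  push_cast at h6
  rw [h1]
  refine (Finset.sum_le_sum h2).trans ?_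
  rw [← Finset.mul_sum]
  have h8 : (prK K).C * (((C₁ : ℝ) + 1) * Real.log Y) ^ (prK K).n = B * Real.log Y ^ (prK K).n := by
    rw [hB, mul_pow]
    ring
  calc Real.log Y ^ C₁ * ∑ m ∈ I.image n, 1 / ∏ v ∈ m, ((prK K).N v : ℝ)
      ≤ Real.log Y ^ C₁ * (B * Real.log Y ^ (prK K).n) := by
        refine mul_le_mul_of_nonneg_left ?_ (by positivity)
        rw [← h8]
        exact h6
    _ ≤ Real.log Y ^ C₁ * (Real.log Y * Real.log Y ^ (prK K).n) := by
        refine mul_le_mul_of_nonneg_left (mul_le_mul_of_nonneg_right hl (by positivity)) (by positivity)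
    _ = _ := by ring

end H62.BL
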