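import Pool.Agent.H62.BL.Idt
import Pool.Agent.H57.GP.Fam

/-!
# [H62 BL RW] the function `hh` is raw; means over normal subgroups (90-150 lines). File Pool/Agent/H62/BL/Rw.lean

* `rw_act`: `D.rw (map q w) = x * D.rw w * x⁻¹` if `D.pi x = q` and `w.length = n + 1` (may be in H42/WM/EpsE.lean as an auxiliary lemma: `s_act` modulo `f 2`, multilinearity of `rn` modulo `f (n + 2) = ⊥`).
* `kp_act`: `Dg.kp l (qa q c) = Dg.kp l c` if `q • l = l`: reindex the sum by `t ↦ q • t`; `kw l (map q w) = kw l w`: the conditions are on the indices only; `ch l (x y x⁻¹) = ch (q • l) (x y x⁻¹) = ch l y` (`ch_act`, `rw w ∈ f (n+1)`);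
  second part: `map q (a :: w)` has the first letter `q • a`, `rw (map q w ++ [⟨0, l⟩]) = rw (map q (w ++ [⟨0, l⟩])) = x (..) x⁻¹`, `ch_act`.
* `raw_hh`: `f = v.f 0`, `f ^ p = 1`, `f • lam 0 = lam 0`. `TL = {x | ∃ i : ℕ, ∀ e, (x e).q = f ^ i ∧ ∀ u ≠ [], u.length ≤ n → (x e).c u = 0}` is a subgroup; on it `κ x = ∑ e, -(sg e * kp (lam 0) (x e).c)` is additive (`(a * b).c u = a.c u + qa a.q b.c u` for `u.length = n + 1`
  if the lower coefficients vanish: `cv` has only the two extreme splittings; `kp_act` for `f ^ i`; inverse: finite group, or `a⁻¹` from `a * a⁻¹ = 1`). CASE `f = 1`: `hh = th TL κ` (`cj_ep`, `ep_add`; `cj e 0 = 0`). CASE `f ≠ 1` (order `p`): the exponent `i(x) : ZMod p` is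
  well defined and additive; `hh x = p⁻¹ ∑_(j : ZMod p) ep p (-j) th TL (j * i + κ) x` (`ep_sum` in H63/MA/RayC.lean: orthogonality). `Raw p b` with `b ≥ p`: fill up with zero coefficients (`Fin p → Fin b`).
* `raw_sub`: the restriction to a subgroup `G'`: `H_j.comap`. `pd_zero`: `PD D (avg f) y = 0` if `D` is normal, `t ∈ D`, `f (t * x) = ε f x`, `ε ≠ 1`: `∑_(d ∈ D) f (g⁻¹ y d g) = ∑_(d ∈ D) f (d (g⁻¹ y g)) = ∑ f (t d (g⁻¹ y g)) = ε ∑`.
-/

set_option autoImplicit false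

open scoped NumberField
open IsDedekindDomain
open scoped Classical

noncomputable section

namespace H62.BL

open H63.MA H38.BB H38.BG H57.PC H57.BRA H77.WD H77.WE H57.GP

theorem pd_zero {G : Type} [Group G] [Fintype G] (f : G → ℂ) (D : Subgroup G) (hD : D.Normal) (t : G)
    (ht : t ∈ D) (ε : ℂ) (hε : ε ≠ 1) (hf : ∀ x, f (t * x) = ε * f x) (y : G) :
    PD D (avg f) y = 0 := by
  have h1 : ∀ g : G, ∑ d : D, f (g⁻¹ * (y * d) * g) = 0 := by
    intro g
    have h2 : ∑ d : D, f (g⁻¹ * (y * d) * g) = ∑ d : D, f (d * (g⁻¹ * y * g)) := by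
      refine Fintype.sum_equiv (MulAut.conjNormal (H := D) (g⁻¹ * y)).toEquiv _ _ fun d => ?_
      congr 1
      have h3 : (((MulAut.conjNormal (H := D) (g⁻¹ * y)).toEquiv d : D) : G) = g⁻¹ * y * d * (g⁻¹ * y)⁻¹ :=
        MulAut.conjNormal_apply _ _
      rw [h3]
      group
    have h4 : ∑ d : D, f (d * (g⁻¹ * y * g)) = ∑ d : D, f (t * (d * (g⁻¹ * y * g))) := by
      refine (Fintype.sum_equiv (Equiv.mulLeft (⟨t, ht⟩ : D)) _ _ fun d => ?_).symm
      congr 1
      simp only [Equiv.coe_mulLeft, Subgroup.coe_mul, mul_assoc]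
    have h5 : ∑ d : D, f (t * (d * (g⁻¹ * y * g))) = ε * ∑ d : D, f (d * (g⁻¹ * y * g)) := by
      rw [Finset.mul_sum]
      exact Finset.sum_congr rfl fun d _ => hf _
    rw [h5] at h4
    rw [h2]
    have h6 : (1 - ε) * ∑ d : D, f (d * (g⁻¹ * y * g)) = 0 := by
      rw [sub_mul, one_mul, sub_eq_zero]
      exact h4
    rcases mul_eq_zero.1 h6 with h7 | h7
    · exact absurd (sub_eq_zero.1 h7).symm hε
    · exact h7
  unfold H57.GP.PD avg
  rw [← Finset.mul_sum, Finset.sum_comm, Finset.sum_eq_zero fun g _ => h1 g, mul_zero, mul_zero]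

theorem raw_sub {p b : ℕ} {G : Type} [Group G] (H : Subgroup G) (f : G → ℂ) (hf : Raw p b f) :
    Raw p b (fun x : H => f x) := by
  obtain ⟨c, J, ψ, h1, h2, h3⟩ := hf
  refine ⟨c, fun j => (J j).comap H.subtype, fun j x => ψ j x, h1, fun j a ha b hb => ?_, fun y => ?_⟩
  · exact h2 j a ha b hb
  · exact h3 y

section

variable {p n : ℕ} {P Qg Lm : Type} [Group P] [Group Qg] [MulAction Qg Lm] [Fintype Lm]

section grp

variable {f : ℕ → Subgroup P}

private theorem ee_conj (hf : Fl f) (i : ℕ) (a b : P) (hb : b ∈ f i) : a * b * a⁻¹ ∈ f i := by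
  have h1 := hf.com 0 i a (by rw [hf.top]; trivial) b hb
  rw [Nat.zero_add] at h1
  have h2 := (f i).mul_mem h1 hb
  rwa [inv_mul_cancel_right] at h2

private theorem ee_nor (hf : Fl f) (i : ℕ) : (f i).Normal := ⟨fun b hb a => ee_conj hf i a b hb⟩

private theorem ee_anti (hf : Fl f) {i j : ℕ} (h : i ≤ j) : f j ≤ f i := by
  induction j, h using Nat.le_induction with
  | base => exact le_rfl
  | succ j _ ih => exact (hf.anti j).trans ih

private theorem ee_cm (hf : Fl f) {i j k : ℕ} (h : k ≤ i + j) {a b : P} (ha : a ∈ f i) (hb : b ∈ f j) :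
    a * b * a⁻¹ * b⁻¹ ∈ f k := ee_anti hf h (hf.com i j a ha b hb)

private theorem ee_ab {H : Type} [Group H] {Z A Y R : H} (h1 : Z * (Y * R) = Y * R * Z)
    (h2 : Z * (A * (Y * R) * A⁻¹ * (Y * R)⁻¹) = A * (Y * R) * A⁻¹ * (Y * R)⁻¹ * Z) (h3 : A * Y = Y * A)
    (h4 : Y * (A * R * A⁻¹ * R⁻¹) = A * R * A⁻¹ * R⁻¹ * Y) :
    Z * A * (Y * R) * (Z * A)⁻¹ * (Y * R)⁻¹ = A * R * A⁻¹ * R⁻¹ := by
  have h6 : Y * R * Z⁻¹ * (Y * R)⁻¹ = Z⁻¹ := by
    rw [mul_inv_eq_iff_eq_mul, mul_inv_eq_iff_eq_mul, mul_assoc, ← h1, inv_mul_cancel_left]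
  calc Z * A * (Y * R) * (Z * A)⁻¹ * (Y * R)⁻¹
      = Z * (A * (Y * R) * A⁻¹ * (Y * R)⁻¹) * (Y * R * Z⁻¹ * (Y * R)⁻¹) := by group
    _ = A * (Y * R) * A⁻¹ * (Y * R)⁻¹ := by rw [h2, h6, mul_inv_cancel_right]
    _ = A * Y * R * A⁻¹ * R⁻¹ * Y⁻¹ := by group
    _ = Y * A * R * A⁻¹ * R⁻¹ * Y⁻¹ := by rw [h3]
    _ = Y * (A * R * A⁻¹ * R⁻¹) * Y⁻¹ := by group
    _ = A * R * A⁻¹ * R⁻¹ := by rw [h4, mul_inv_cancel_right]

private theorem ee_step (hf : Fl f) (m : ℕ) {a a' r r' : P} (ha : a ∈ f 1) (haa : a' * a⁻¹ ∈ f 2)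
    (hr : r ∈ f (m + 1)) (hrr : r' * r⁻¹ ∈ f (m + 2)) :
    (a' * r' * a'⁻¹ * r'⁻¹) * (a * r * a⁻¹ * r⁻¹)⁻¹ ∈ f (m + 3) := by
  have := ee_nor hf (m + 3)
  obtain ⟨z, hz⟩ : ∃ z, z = a' * a⁻¹ := ⟨_, rfl⟩
  obtain ⟨y, hy⟩ : ∃ y, y = r' * r⁻¹ := ⟨_, rfl⟩
  rw [← hz] at haa
  rw [← hy] at hrr
  have ea : a' = z * a := by rw [hz, inv_mul_cancel_right]
  have er : r' = y * r := by rw [hy, inv_mul_cancel_right]
  have hr' : r' ∈ f (m + 1) := by
    rw [er]
    exact (f (m + 1)).mul_mem (ee_anti hf (by omega) hrr) hr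
  have key : ∀ x x' : P, x * x' * x⁻¹ * x'⁻¹ ∈ f (m + 3) →
      (x : P ⧸ f (m + 3)) * (x' : P ⧸ f (m + 3)) = (x' : P ⧸ f (m + 3)) * (x : P ⧸ f (m + 3)) := by
    intro x x' h
    rw [← QuotientGroup.mk_mul, ← QuotientGroup.mk_mul, QuotientGroup.eq_iff_div_mem, div_eq_mul_inv,
      mul_inv_rev, ← mul_assoc]
    exact h
  rw [← div_eq_mul_inv, ← QuotientGroup.eq_iff_div_mem]
  have h1 := key z r' (ee_cm hf (by omega) haa hr')
  have h2 := key z (a * r' * a⁻¹ * r'⁻¹)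
    (ee_cm (i := 2) (j := m + 2) hf (by omega) haa (ee_cm hf (by omega) ha hr'))
  have h3 := key a y (ee_cm hf (by omega) ha hrr)
  have h4 := key y (a * r * a⁻¹ * r⁻¹)
    (ee_cm (i := m + 2) (j := m + 2) hf (by omega) hrr (ee_cm hf (by omega) ha hr))
  rw [er] at h1 h2
  simp only [QuotientGroup.mk_mul, QuotientGroup.mk_inv] at h1 h2 h3 h4
  rw [ea, er]
  simp only [QuotientGroup.mk_mul, QuotientGroup.mk_inv]
  exact ee_ab h1 h2 h3 h4

private theorem ee_rn (hf : Fl f) : ∀ (u v : List P), List.Forall₂ (fun a b => a ∈ f 1 ∧ b * a⁻¹ ∈ f 2) u v →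
    ∀ m, u.length = m + 1 → rn u ∈ f (m + 1) ∧ rn v * (rn u)⁻¹ ∈ f (m + 2) := by
  intro u v h
  induction h with
  | nil =>
    intro m hm
    rw [List.length_nil] at hm
    omega
  | @cons a b u v hab huv ih =>
    intro m hm
    cases huv with
    | nil =>
      rw [List.length_singleton] at hm
      obtain rfl : m = 0 := by omega
      exact hab
    | @cons c d u v hcd huv =>
      rw [List.length_cons, List.length_cons] at hm
      obtain ⟨k, rfl⟩ : ∃ k, m = k + 1 := ⟨m - 1, by omega⟩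
      obtain ⟨h1, h2⟩ := ih k (by rw [List.length_cons]; omega)
      refine ⟨?_, ?_⟩
      · exact ee_cm (i := 1) (j := k + 1) hf (by omega) hab.1 h1
      · exact ee_step hf k hab.1 hab.2 h1 h2

private theorem ee_cj (x : P) : ∀ u : List P, x * rn u * x⁻¹ = rn (u.map fun a => x * a * x⁻¹)
  | [] => by
    show x * 1 * x⁻¹ = 1
    rw [mul_one, mul_inv_cancel]
  | [a] => rfl
  | a :: b :: w => by
    have ih := ee_cj x (b :: w)
    rw [List.map_cons] at ih
    rw [List.map_cons, List.map_cons]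
    show x * (a * rn (b :: w) * a⁻¹ * (rn (b :: w))⁻¹) * x⁻¹ = _
    rw [rn, ← ih]
    group

end grp

omit [Fintype Lm] in
private theorem rw_rw (D : LG p n P Qg Lm) (x : P) (w : List (Lr (Fin (n + 2)) Lm)) (hw : w.length = n + 1) :
    D.rw (w.map fun a => D.pi x • a) = x * D.rw w * x⁻¹ ∧ D.rw w ∈ D.f (n + 1) := by
  have h1 : List.Forall₂ (fun a b => a ∈ D.f 1 ∧ b * a⁻¹ ∈ D.f 2) (w.map fun a => x * D.s a.l * x⁻¹)
      ((w.map fun a => D.pi x • a).map fun a => D.s a.l) := by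
    rw [List.map_map]
    clear hw
    induction w with
    | nil => exact List.Forall₂.nil
    | cons a w ih => exact List.Forall₂.cons ⟨ee_conj D.fl 1 x _ (D.s_mem _), D.s_act x a.l⟩ ih
  have h2 := ee_rn D.fl _ _ h1 n (by rw [List.length_map, hw])
  have h3 : (w.map fun a => x * D.s a.l * x⁻¹) = (w.map fun a => D.s a.l).map fun a => x * a * x⁻¹ := by
    rw [List.map_map]
    rfl
  rw [D.bot, Subgroup.mem_bot, h3, ← ee_cj, mul_inv_eq_one] at h2
  refine ⟨h2.2, ?_⟩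
  have h4 := ee_conj D.fl (n + 1) x⁻¹ _ h2.1
  rw [inv_inv] at h4
  have h5 : x⁻¹ * (x * D.rw w * x⁻¹) * x = D.rw w := by group
  rw [← h5]
  exact h4

omit [Fintype Lm] in
private theorem rw_kw (D : LG p n P Qg Lm) (l : Lm) (q : Qg) (h : q • l = l)
    (w : List (Lr (Fin (n + 2)) Lm)) : D.kw l (w.map fun a => q • a) = D.kw l w := by
  cases w with
  | nil => rfl
  | cons a w =>
    obtain ⟨x, rfl⟩ := D.sur q
    have h0 : ∀ v : List (Lr (Fin (n + 2)) Lm), (v.map fun a => D.pi x • a).map Lr.i = v.map Lr.i := by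
      intro v
      rw [List.map_map]
      rfl
    have h1 := h0 (a :: w)
    rw [List.map_cons] at h1
    have h2 : (∀ b ∈ D.pi x • a :: w.map (fun a => D.pi x • a), b.i ≠ 0) ↔ ∀ b ∈ a :: w, b.i ≠ 0 := by
      constructor
      · intro h3 b hb
        have h4 : D.pi x • b ∈ D.pi x • a :: w.map (fun a => D.pi x • a) := by
          rw [← List.map_cons (f := fun a => D.pi x • a)]
          exact List.mem_map.2 ⟨b, hb, rfl⟩
        exact h3 (D.pi x • b) h4
      · intro h3 b hb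
        rw [← List.map_cons (f := fun a => D.pi x • a)] at hb
        obtain ⟨b', hb', rfl⟩ := List.mem_map.1 hb
        exact h3 b' hb'
    rw [List.map_cons, LG.kw, LG.kw, h1, List.length_map]
    by_cases hc : (List.map Lr.i (a :: w)).Nodup ∧ w.length = n ∧ ∀ b ∈ a :: w, b.i ≠ 0
    · rw [if_pos hc, if_pos ⟨hc.1, hc.2.1, h2.2 hc.2.2⟩]
      have h3 : D.ch l (D.rw (D.pi x • a :: w.map fun a => D.pi x • a)) = D.ch l (D.rw (a :: w)) := by
        obtain ⟨h4, h5⟩ := rw_rw D x (a :: w) (by rw [List.length_cons, hc.2.1])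
        rw [List.map_cons] at h4
        rw [h4]
        have h6 := D.ch_act x l _ h5
        rwa [h] at h6
      have h7 : D.ch (D.pi x • a).l (D.rw ((w.map fun a => D.pi x • a) ++ [⟨0, l⟩])) =
          D.ch a.l (D.rw (w ++ [⟨0, l⟩])) := by
        obtain ⟨h4, h5⟩ := rw_rw D x (w ++ [⟨0, l⟩]) (by rw [List.length_append, hc.2.1]; rfl)
        have h8 : ((w ++ [(⟨0, l⟩ : Lr (Fin (n + 2)) Lm)]).map fun a => D.pi x • a) =
            (w.map fun a => D.pi x • a) ++ [⟨0, l⟩] := by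
          rw [List.map_append, List.map_cons, List.map_nil, lr_smul, h]
        rw [h8] at h4
        rw [h4]
        exact D.ch_act x a.l _ h5
      rw [h3, h7]
    · rw [if_neg hc, if_neg fun h3 => hc ⟨h3.1, h3.2.1, h2.1 h3.2.2⟩]

theorem kp_act (Dg : LG p n P Qg Lm) (l : Lm) (q : Qg) (h : q • l = l)
    (c : List (Lr (Fin (n + 2)) Lm) → ZMod p) : Dg.kp l (qa q c) = Dg.kp l c := by
  unfold LG.kp
  refine Fintype.sum_equiv (Equiv.piCongrRight fun _ => MulAction.toPerm q⁻¹) _ _ fun t => ?_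
  have h1 : List.ofFn (Equiv.piCongrRight (fun _ => MulAction.toPerm q⁻¹) t) =
      (List.ofFn t).map fun a => q⁻¹ • a := by
    rw [List.map_ofFn]
    rfl
  rw [h1, rw_kw Dg l q⁻¹ (by rw [inv_smul_eq_iff, h])]
  rfl

/-- the lower coefficients vanish -/
def rwl (x : UGd p n Qg Lm) : Prop := ∀ u, u ≠ [] → u.length ≤ n → x.c u = 0

omit [Fintype Lm] in
theorem rwl_cv {a : List (Lr (Fin (n + 2)) Lm) → ZMod p} {b : List (Lr (Fin (n + 2)) Lm) → ZMod p}
    (ha1 : a [] = 1) (hb1 : b [] = 1)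
    (ha : ∀ u, u ≠ [] → u.length ≤ n → a u = 0) (u : List (Lr (Fin (n + 2)) Lm)) (hu : u ≠ [])
    (hl : u.length ≤ n + 1) : cv a b u = a u + b u := by
  rw [cv_eq, Finset.sum_range_succ, List.take_length, List.drop_length, hb1, mul_one, add_comm]
  congr 1
  obtain ⟨m, hm⟩ : ∃ m, u.length = m + 1 := ⟨u.length - 1, by
    have := List.length_pos_of_ne_nil hu
    omega⟩
  rw [hm, Finset.sum_range_succ', List.take_zero, List.drop_zero, ha1, one_mul, Finset.sum_eq_zero, zero_add]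
  intro i hi
  rw [Finset.mem_range] at hi
  rw [ha, zero_mul]
  · intro h
    have h1 := congrArg List.length h
    rw [List.length_take, List.length_nil] at h1
    omega
  · rw [List.length_take]
    omega

omit [Fintype Lm] in
theorem rwl_qa (q : Qg) (c : List (Lr (Fin (n + 2)) Lm) → ZMod p)
    (hc : ∀ u, u ≠ [] → u.length ≤ n → c u = 0) : ∀ u, u ≠ [] → u.length ≤ n → qa q c u = 0 := by
  intro u hu hl
  unfold qa
  exact hc _ (fun h => hu (List.map_eq_nil_iff.1 h)) (by rwa [List.length_map])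

omit [Fintype Lm] in
theorem rwl_mul_c {a b : UGd p n Qg Lm} (ha : rwl a) (u : List (Lr (Fin (n + 2)) Lm)) (hu : u ≠ [])
    (hl : u.length ≤ n + 1) : (a * b).c u = a.c u + qa a.q b.c u := by
  rw [ug_mul_c]
  by_cases h : u ∈ (WN Qg Lm {i : Fin (n + 2) | i ≠ 0} (n + 1)).s
  · rw [tr_of h]
    refine rwl_cv a.one ?_ ha u hu hl
    unfold qa
    rw [List.map_nil]
    exact b.one
  · rw [tr_out h, a.out u h]
    unfold qa
    rw [b.out, add_zero]
    intro h1
    exact h (((WN Qg Lm {i : Fin (n + 2) | i ≠ 0} (n + 1)).act a.q⁻¹ u).1 h1)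

omit [Fintype Lm] in
theorem rwl_mul {a b : UGd p n Qg Lm} (ha : rwl a) (hb : rwl b) : rwl (a * b) := by
  intro u hu hl
  rw [rwl_mul_c ha u hu (by omega), ha u hu hl, rwl_qa a.q b.c hb u hu hl, add_zero]

omit [Fintype Lm] in
theorem rwl_one : rwl (1 : UGd p n Qg Lm) := by
  intro u hu _
  rw [ug_one_c]
  exact if_neg hu

omit [Fintype Lm] in
theorem rwl_inv {a : UGd p n Qg Lm} (ha : rwl a) : rwl a⁻¹ := by
  intro u hu hl
  have h1 : (a * a⁻¹).c (u.map fun x => a.q • x) = 0 := by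
    rw [mul_inv_cancel]
    exact rwl_one _ (fun h => hu (List.map_eq_nil_iff.1 h)) (by rwa [List.length_map])
  rw [rwl_mul_c ha _ (fun h => hu (List.map_eq_nil_iff.1 h)) (by rw [List.length_map]; omega),
    ha _ (fun h => hu (List.map_eq_nil_iff.1 h)) (by rwa [List.length_map]), zero_add] at h1
  unfold qa at h1
  rw [List.map_map] at h1
  have h2 : ((fun x : Lr (Fin (n + 2)) Lm => a.q⁻¹ • x) ∘ fun x => a.q • x) = id := by
    funext x
    exact inv_smul_smul _ _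
  rwa [h2, List.map_id] at h1

theorem rwl_kp (Dg : LG p n P Qg Lm) (l : Lm) {a b : UGd p n Qg Lm} (ha : rwl a) (hl : a.q • l = l) :
    Dg.kp l (a * b).c = Dg.kp l a.c + Dg.kp l b.c := by
  rw [← kp_act Dg l a.q hl b.c]
  unfold LG.kp
  rw [← Finset.sum_add_distrib]
  refine Finset.sum_congr rfl fun t _ => ?_
  rw [rwl_mul_c ha (List.ofFn t) (by rw [List.ofFn_succ]; simp) (by rw [List.length_ofFn]), add_mul]

/-- the exponent -/
def rwk (Dg : LG p n P Qg Lm) (l : Lm) (x : (Fin (n + 1) → Bool) → UGd p n Qg Lm) : ZMod p :=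
  ∑ e, sg (ZMod p) e * -Dg.kp l (x e).c

theorem rwk_add (Dg : LG p n P Qg Lm) (l : Lm) (x y : (Fin (n + 1) → Bool) → UGd p n Qg Lm)
    (hx : ∀ e, rwl (x e) ∧ (x e).q • l = l) : rwk Dg l (x * y) = rwk Dg l x + rwk Dg l y := by
  unfold rwk
  rw [← Finset.sum_add_distrib]
  refine Finset.sum_congr rfl fun e _ => ?_
  rw [Pi.mul_apply, rwl_kp Dg l (hx e).1 (hx e).2]
  ring

private theorem rw_prod {ι : Type} {p : ℕ} (hp : p.Prime) (s : Finset ι) (f : ι → ZMod p) :
    ∏ i ∈ s, ep p (f i) = ep p (∑ i ∈ s, f i) := by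
  induction s using Finset.induction_on with
  | empty => rw [Finset.prod_empty, Finset.sum_empty, ep_zero]
  | insert i s hi ih => rw [Finset.prod_insert hi, Finset.sum_insert hi, ep_add hp, ih]

private theorem rw_cj0 {m : ℕ} (e : Fin m → Bool) : cj e 0 = 0 := by
  unfold cj
  split_ifs
  · rfl
  · exact map_zero _

theorem rw_hh (hp : p.Prime) (Dg : LG p n P Qg Lm) (v : Vd n P Qg Lm)
    (x : (Fin (n + 1) → Bool) → UGd p n Qg Lm) :
    hh Dg v x = if ∀ e, (x e).q = v.f 0 ∧ rwl (x e) then ep p (rwk Dg (v.lam 0) x) else 0 := by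
  unfold hh
  by_cases h : ∀ e, (x e).q = v.f 0 ∧ rwl (x e)
  · rw [if_pos h]
    unfold rwk
    rw [← rw_prod hp]
    refine Finset.prod_congr rfl fun e _ => ?_
    have h1 : h1 Dg v (x e) = ep p (-Dg.kp (v.lam 0) (x e).c) := if_pos (h e)
    rw [h1, cj_ep hp]
  · rw [if_neg h]
    push Not at h
    obtain ⟨e, he⟩ := h
    refine Finset.prod_eq_zero (Finset.mem_univ e) ?_
    have h1 : h1 Dg v (x e) = 0 := if_neg fun h2 => he h2.1 h2.2
    rw [h1, rw_cj0]

/-- the group of the sequences over the powers of `f` with vanishing lower coefficients -/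
def rwT (p n : ℕ) (Lm : Type) {Qg : Type} [Group Qg] [MulAction Qg Lm] (f : Qg) :
    Subgroup ((Fin (n + 1) → Bool) → UGd p n Qg Lm) where
  carrier := {x | ∃ i : ℤ, ∀ e, (x e).q = f ^ i ∧ rwl (x e)}
  one_mem' := ⟨0, fun e => ⟨(zpow_zero f).symm, rwl_one⟩⟩
  mul_mem' := by
    rintro x y ⟨i, hi⟩ ⟨j, hj⟩
    refine ⟨i + j, fun e => ⟨?_, rwl_mul (hi e).2 (hj e).2⟩⟩
    rw [zpow_add, ← (hi e).1, ← (hj e).1]
    rfl
  inv_mem' := by
    rintro x ⟨i, hi⟩
    refine ⟨-i, fun e => ⟨?_, rwl_inv (hi e).2⟩⟩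
    rw [zpow_neg, ← (hi e).1]
    have h1 : (x e * (x e)⁻¹).q = 1 := by
      rw [mul_inv_cancel]
      rfl
    exact (inv_eq_of_mul_eq_one_right h1).symm

theorem rw_raw {G ι : Type} [Group G] [Fintype ι] {p b : ℕ} (hι : Fintype.card ι ≤ b) (c : ι → ℂ)
    (H : Subgroup G) (ψ : ι → G → ZMod p) (f : G → ℂ) (hc : ∀ j, ‖c j‖ ≤ b) (hψ : ∀ j, Lc H (ψ j))
    (hf : ∀ y, f y = ∑ j, c j * th H (ψ j) y) : Raw p b f := by
  obtain ⟨em⟩ : Nonempty (ι ↪ Fin b) := by
    rw [Function.Embedding.nonempty_iff_card_le, Fintype.card_fin]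
    exact hι
  refine ⟨Function.extend em c 0, fun _ => H, Function.extend em ψ 0, ?_, ?_, ?_⟩
  · intro j
    by_cases h : ∃ i, em i = j
    · obtain ⟨i, rfl⟩ := h
      rw [em.injective.extend_apply]
      exact hc i
    · rw [Function.extend_apply' _ _ _ h, Pi.zero_apply, norm_zero]
      exact Nat.cast_nonneg b
  · intro j
    by_cases h : ∃ i, em i = j
    · obtain ⟨i, rfl⟩ := h
      rw [em.injective.extend_apply]
      exact hψ i
    · rw [Function.extend_apply' _ _ _ h]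
      intro a _ b _
      simp
  · intro y
    rw [hf y]
    refine Fintype.sum_of_injective em em.injective _ _ ?_ ?_
    · intro j hj
      rw [Function.extend_apply' _ _ _ (fun h => hj h), Pi.zero_apply, zero_mul]
    · intro i
      rw [em.injective.extend_apply, em.injective.extend_apply]

theorem raw_hh [Fact p.Prime] (Dg : LG p n P Qg Lm) {v : Vd n P Qg Lm} (hv : v.Ok Dg)
    (he : v.f 0 ^ p = 1) (b : ℕ) (hb : p ≤ b) : Raw p b (hh Dg v) := by
  have hp : p.Prime := Fact.out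
  have hfix : ∀ i : ℤ, v.f 0 ^ i • v.lam 0 = v.lam 0 := by
    intro i
    have h1 : v.f 0 ^ i ∈ MulAction.stabilizer Qg (v.lam 0) :=
      Subgroup.zpow_mem _ (MulAction.mem_stabilizer_iff.2 (hv.f 0)) i
    exact MulAction.mem_stabilizer_iff.1 h1
  have hκ : Lc (rwT p n Lm (v.f 0)) (rwk Dg (v.lam 0)) := by
    rintro x ⟨i, hi⟩ y -
    exact rwk_add Dg (v.lam 0) x y fun e => ⟨(hi e).2, by rw [(hi e).1, hfix]⟩
  by_cases hf1 : v.f 0 = 1
  · refine rw_raw (ι := Unit) (by rw [Fintype.card_unit]; exact hp.one_le.trans hb) (fun _ => 1)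
      (rwT p n Lm (v.f 0)) (fun _ => rwk Dg (v.lam 0)) _ (fun _ => ?_) (fun _ => hκ) fun x => ?_
    · rw [norm_one]
      exact_mod_cast hp.one_le.trans hb
    · rw [Finset.univ_unique, Finset.sum_singleton, one_mul, rw_hh hp]
      unfold th
      have h1 : (∀ e, (x e).q = v.f 0 ∧ rwl (x e)) ↔ x ∈ rwT p n Lm (v.f 0) := by
        constructor
        · intro h
          exact ⟨1, fun e => ⟨by rw [zpow_one]; exact (h e).1, (h e).2⟩⟩
        · rintro ⟨i, hi⟩ e
          refine ⟨?_, (hi e).2⟩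
          rw [(hi e).1, hf1, one_zpow]
      simp only [h1]
  · have hord : orderOf (v.f 0) = p := orderOf_eq_prime he hf1
    have e0 : Fin (n + 1) → Bool := fun _ => true
    obtain ⟨ix, hix⟩ : ∃ ix : ((Fin (n + 1) → Bool) → UGd p n Qg Lm) → ZMod p,
        ∀ x, ∀ i : ℤ, (∀ e, (x e).q = v.f 0 ^ i ∧ rwl (x e)) → ix x = i := by
      refine ⟨fun x => if h : ∃ i : ℤ, (x e0).q = v.f 0 ^ i then (h.choose : ZMod p) else 0, fun x i hi => ?_⟩
      have h : ∃ i : ℤ, (x e0).q = v.f 0 ^ i := ⟨i, (hi e0).1⟩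
      refine (dif_pos h).trans ?_
      have h1 := (hi e0).1.symm.trans h.choose_spec
      rw [zpow_eq_zpow_iff_modEq, hord] at h1
      exact ((ZMod.intCast_eq_intCast_iff _ _ p).2 h1).symm
    have hixa : Lc (rwT p n Lm (v.f 0)) ix := by
      rintro x ⟨i, hi⟩ y ⟨j, hj⟩
      rw [hix x i hi, hix y j hj, hix (x * y) (i + j) fun e => ⟨?_, rwl_mul (hi e).2 (hj e).2⟩,
        Int.cast_add]
      rw [zpow_add, ← (hi e).1, ← (hj e).1]
      rfl
    have : NeZero p := ⟨hp.ne_zero⟩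
    refine rw_raw (ι := ZMod p) (by rw [ZMod.card]; exact hb) (fun j => (p : ℂ)⁻¹ * ep p (-j))
      (rwT p n Lm (v.f 0)) (fun j x => j * ix x + rwk Dg (v.lam 0) x) _ (fun j => ?_) (fun j => ?_)
      fun x => ?_
    · rw [norm_mul, ep_norm, mul_one, norm_inv, Complex.norm_natCast]
      have h1 : (1 : ℝ) ≤ p := by exact_mod_cast hp.one_le
      have h2 : (p : ℝ) ≤ b := by exact_mod_cast hb
      exact (inv_le_one_of_one_le₀ h1).trans (h1.trans h2)
    · intro x hx y hy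
      change j * ix (x * y) + rwk Dg (v.lam 0) (x * y) =
        j * ix x + rwk Dg (v.lam 0) x + (j * ix y + rwk Dg (v.lam 0) y)
      rw [hixa x hx y hy, hκ x hx y hy]
      ring
    · rw [rw_hh hp]
      unfold th
      by_cases hx : x ∈ rwT p n Lm (v.f 0)
      · simp only [if_pos hx]
        have h1 : ∀ j : ZMod p, (p : ℂ)⁻¹ * ep p (-j) * ep p (j * ix x + rwk Dg (v.lam 0) x) =
            (p : ℂ)⁻¹ * ep p (rwk Dg (v.lam 0) x) * ep p (j * (ix x - 1)) := by
          intro j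
          have h2 : ep p (-j) * ep p (j * ix x + rwk Dg (v.lam 0) x) =
              ep p (rwk Dg (v.lam 0) x) * ep p (j * (ix x - 1)) := by
            rw [← ep_add hp, ← ep_add hp]
            congr 1
            ring
          rw [mul_assoc, h2, ← mul_assoc]
        rw [Finset.sum_congr rfl fun j _ => h1 j, ← Finset.mul_sum, ep_sum hp]
        obtain ⟨i, hi⟩ := hx
        have h3 : ix x - 1 = 0 ↔ ∀ e, (x e).q = v.f 0 ∧ rwl (x e) := by
          rw [sub_eq_zero, hix x i hi]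
          constructor
          · intro h4 e
            refine ⟨?_, (hi e).2⟩
            rw [(hi e).1]
            have h5 : ((i : ℤ) : ZMod p) = ((1 : ℤ) : ZMod p) := by rw [h4, Int.cast_one]
            rw [ZMod.intCast_eq_intCast_iff, ← hord, ← zpow_eq_zpow_iff_modEq, zpow_one] at h5
            exact h5
          · intro h4
            have h5 := (h4 e0).1
            rw [(hi e0).1, ← zpow_one (v.f 0), ← zpow_mul, one_mul, zpow_eq_zpow_iff_modEq, hord,
              ← ZMod.intCast_eq_intCast_iff] at h5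
            rw [h5, Int.cast_one]
        simp only [h3]
        split_ifs
        · have h4 : (p : ℂ) ≠ 0 := by exact_mod_cast hp.ne_zero
          field_simp
        · rw [mul_zero]
      · simp only [if_neg hx, mul_zero, Finset.sum_const_zero]
        refine if_neg fun h => hx ⟨1, fun e => ⟨by rw [zpow_one]; exact (h e).1, (h e).2⟩⟩

end

end H62.BL
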