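import Pool.Agent.H62.BL.Rec

/-!
# [H62 BL PHS] the phase of a box (100-150 lines). File Pool/Agent/H62/BL/Phs.lean

* `cj_ep`: `cj e (ep p x) = ep p (sg (ZMod p) e * x)` (`conj (ep p x) = ep p (-x)`: `ep_add`, `ep_norm`, `ep_zero`; `sg e = (-1) ^ #false`). `cj_mul`. `cj_prod`: `∏ e, cj e z = ‖z‖ ^ (2 ^ m)` for `m = k + 1` (as many even as odd
  vertices: `∏ e, cj e z = ∏ over the pairs of z * conj z`; split off the coordinate `0`: `cj (Fin.cons true e) = cj e`, `cj (Fin.cons false e) z = conj (cj e z)`; `2 ^ (k+1) = 2 ^ k * 2`, `z * conj z = ‖z‖ ^ 2`).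
* `sum_face`: `∑ e, sg e * ∑ k, a k (e k) e = ∑ k, ∑ b, (if b then 1 else -1) * ∑ e', sg e' * a k b (k.insertNth b e')` (exchange the sums; `Fin.insertNthEquiv`, `sg (k.insertNth b e') = (±1) * sg e'`: `Fin.prod_univ_succAbove`).
* `fq_cell`: in the cell of `q1` (both admissible): `Fq q = Fq q1 * ep p (∑ k, Dg.ch (lam k) (thq q (wv (q k)) * (thq q1 (wv (q1 k)))⁻¹))`: first component of the cell for the `G w`; second component: `u = x y⁻¹ ∈ f (n + 1)`
  (normality), `hv.eq`, `ep_add` (`Finset.prod` of `ep` = `ep` of the sum).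
* `phs`: `∏ e, cj e (Fq (vt q0 q1 e)) = ‖Fq q1‖ ^ (2 ^ (n + 2)) * ep p (kp (relq (wv (q1 0))).c - kp (relq (wv (q0 0))).c)`: `fq_cell`, `cj_mul`, `cj_prod`, `cj_ep`; the exponent
  `∑ e, sg e * ∑ k, ch (lam k) (thq (vt e) (wv (vt e k)) * c_k⁻¹)`, `c_k = thq q1 (wv (q1 k))`; `sum_face` with `a k b e = ch (lam k) (cub .. (wv (if b then q1 k else q0 k)) e * c_k⁻¹)` (`cub_th`, `vt q0 q1 e k = if e k then q1 k else q0 k`),
  `tp_sum` (`A = f (n + 1)`, `χ = ch (lam k)`, `ch_add`, the vertices of the face are equal to `c_k` modulo `f (n + 1)` by the second component of the cell) gives `∑ k, ∑ b, ± ch (lam k) (tp (n + 1) (face))`, then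
  `phase` with `rec` (`relq = rel ..`, `kdq A id`).
-/

set_option autoImplicit false

open scoped NumberField
open IsDedekindDomain
open scoped Classical

noncomputable section

namespace H62.BL

open H63.MA H38.BB H38.BG H57.PC H57.BRA H77.WD H77.WE

private theorem ph_conj {p : ℕ} (hp : p.Prime) (x : ZMod p) : (starRingEnd ℂ) (ep p x) = ep p (-x) := by
  have h1 : ep p x * ep p (-x) = 1 := by
    rw [← ep_add hp, add_neg_cancel, ep_zero]
  rw [← Complex.inv_eq_conj (ep_norm p x)]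
  exact inv_eq_of_mul_eq_one_right h1

private theorem ph_sg {m : ℕ} {R : Type} [CommRing R] (e : Fin m → Bool) :
    sg R e = (-1) ^ (Finset.univ.filter fun k => e k = false).card := by
  unfold sg
  rw [Finset.prod_ite, Finset.prod_const_one, one_mul, Finset.prod_const]
  simp only [Bool.not_eq_true]

theorem cj_mul {m : ℕ} (e : Fin m → Bool) (z w : ℂ) : cj e (z * w) = cj e z * cj e w := by
  unfold cj
  split_ifs
  · rfl
  · exact map_mul _ _ _

theorem cj_ep {m p : ℕ} (hp : p.Prime) (e : Fin m → Bool) (x : ZMod p) :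
    cj e (ep p x) = ep p (sg (ZMod p) e * x) := by
  unfold cj
  rw [ph_sg]
  split_ifs with h
  · rw [h.neg_one_pow, one_mul]
  · rw [Nat.not_even_iff_odd] at h
    rw [h.neg_one_pow, neg_one_mul]
    exact ph_conj hp x

private theorem ph_cons {m : ℕ} (e : Fin m → Bool) (z : ℂ) :
    cj (Fin.cons true e : Fin (m + 1) → Bool) z * cj (Fin.cons false e : Fin (m + 1) → Bool) z =
      ((‖z‖ ^ 2 : ℝ) : ℂ) := by
  have h1 : (Finset.univ.filter fun k => (Fin.cons true e : Fin (m + 1) → Bool) k = false).card =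
      (Finset.univ.filter fun k => e k = false).card := by
    rw [Fin.card_filter_univ_succ']
    simp
  have h2 : (Finset.univ.filter fun k => (Fin.cons false e : Fin (m + 1) → Bool) k = false).card =
      (Finset.univ.filter fun k => e k = false).card + 1 := by
    rw [Fin.card_filter_univ_succ']
    simp [add_comm]
  unfold cj
  rw [h1, h2]
  have h3 : z * (starRingEnd ℂ) z = ((‖z‖ ^ 2 : ℝ) : ℂ) := by
    rw [Complex.mul_conj, Complex.normSq_eq_norm_sq]
  by_cases h : Even (Finset.univ.filter fun k => e k = false).card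
  · rw [if_pos h, if_neg (by rw [Nat.even_add_one]; exact not_not.2 h)]
    exact h3
  · rw [if_neg h, if_pos (by rw [Nat.even_add_one]; exact h), mul_comm]
    exact h3

theorem cj_prod {m : ℕ} (z : ℂ) :
    ∏ e : Fin (m + 1) → Bool, cj e z = ((‖z‖ ^ (2 ^ (m + 1)) : ℝ) : ℂ) := by
  rw [← (Fin.consEquiv (fun _ : Fin (m + 1) => Bool)).prod_comp, Fintype.prod_prod_type, Fintype.prod_bool,
    ← Finset.prod_mul_distrib]
  have h : ∀ e : Fin m → Bool, (cj ((Fin.consEquiv fun _ : Fin (m + 1) => Bool) (true, e)) z *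
      cj ((Fin.consEquiv fun _ : Fin (m + 1) => Bool) (false, e)) z) = ((‖z‖ ^ 2 : ℝ) : ℂ) := ph_cons (z := z)
  rw [Finset.prod_congr rfl fun e _ => h e, Finset.prod_const, Finset.card_univ]
  have h2 : Fintype.card (Fin m → Bool) = 2 ^ m := by simp
  rw [h2, ← Complex.ofReal_pow, ← pow_mul]
  congr 2
  ring

theorem sum_face {m : ℕ} {R : Type} [CommRing R] (a : Fin (m + 1) → Bool → (Fin (m + 1) → Bool) → R) :
    ∑ e : Fin (m + 1) → Bool, sg R e * ∑ k, a k (e k) e =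
      ∑ k, ∑ b : Bool, (if b then 1 else -1) * ∑ e' : Fin m → Bool, sg R e' * a k b (k.insertNth b e') := by
  rw [Finset.sum_congr rfl fun e _ => Finset.mul_sum _ _ _, Finset.sum_comm]
  refine Finset.sum_congr rfl fun k _ => ?_
  rw [← (Fin.insertNthEquiv (fun _ : Fin (m + 1) => Bool) k).sum_comp, Fintype.sum_prod_type]
  refine Finset.sum_congr rfl fun b _ => ?_
  rw [Finset.mul_sum]
  refine Finset.sum_congr rfl fun e' _ => ?_
  have h1 : (Fin.insertNthEquiv (fun _ : Fin (m + 1) => Bool) k) (b, e') = k.insertNth b e' := rfl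
  have h2 : sg R (k.insertNth b e' : Fin (m + 1) → Bool) = (if b then 1 else -1) * sg R e' := by
    unfold sg
    rw [Fin.prod_univ_succAbove _ k]
    simp only [Fin.insertNth_apply_same, Fin.insertNth_apply_succAbove]
  rw [h1, h2, Fin.insertNth_apply_same, mul_assoc]

variable {K : Type} [Field K] [NumberField K] {Ω : Type} [Field Ω] [Algebra K Ω]
  {p : ℕ} {ζ : K} {D : RD0 K p ζ} {n : ℕ} {P Qg Lm : Type} [Group P] [Group Qg] [MulAction Qg Lm]
  {A : GS D Ω}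

private theorem ph_prod {ι : Type} {p : ℕ} (hp : p.Prime) (s : Finset ι) (f : ι → ZMod p) :
    ∏ i ∈ s, ep p (f i) = ep p (∑ i ∈ s, f i) := by
  induction s using Finset.induction_on with
  | empty => rw [Finset.prod_empty, Finset.sum_empty, ep_zero]
  | insert i s hi ih => rw [Finset.prod_insert hi, Finset.sum_insert hi, ep_add hp, ih]

/-- the second component of the cell -/
private theorem ph_mem (y : Wy D A) {Dg : LG p n P Qg Lm} {r : Rd A P Qg} {v : Vd n P Qg Lm}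
    {q q1 : Fin (n + 2) → Pl K} (hc : cel y Dg r v q = cel y Dg r v q1) (k : Fin (n + 2)) :
    thq r v q (y.wv (q k)) * (thq r v q1 (y.wv (q1 k)))⁻¹ ∈ Dg.f (n + 1) := by
  have h1 : ((thq r v q (y.wv (q k)) : P) : P ⧸ Dg.f (n + 1)) =
      ((thq r v q1 (y.wv (q1 k)) : P) : P ⧸ Dg.f (n + 1)) := congrFun (congrArg (fun c => c.2.1) hc) k
  rw [QuotientGroup.eq] at h1
  obtain ⟨x, hx⟩ : ∃ x, x = thq r v q (y.wv (q k)) := ⟨_, rfl⟩
  obtain ⟨c, hcc⟩ : ∃ c, c = thq r v q1 (y.wv (q1 k)) := ⟨_, rfl⟩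
  rw [← hx, ← hcc] at h1 ⊢
  have h2 := Dg.fl.com 0 (n + 1) x (by rw [Dg.fl.top]; exact Subgroup.mem_top x) _ h1
  rw [zero_add] at h2
  have h3 := (Dg.f (n + 1)).inv_mem ((Dg.f (n + 1)).mul_mem h2 h1)
  have h4 : (x * (x⁻¹ * c) * x⁻¹ * (x⁻¹ * c)⁻¹ * (x⁻¹ * c))⁻¹ = x * c⁻¹ := by group
  rwa [h4] at h3

theorem fq_cell (hp : p.Prime) (y : Wy D A) {Dg : LG p n P Qg Lm} {r : Rd A P Qg} {v : Vd n P Qg Lm}
    (hv : v.Ok Dg) {q q1 : Fin (n + 2) → Pl K} (hq : Adm r.T q) (hq1 : Adm r.T q1)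
    (hc : cel y Dg r v q = cel y Dg r v q1) :
    Fq y r v q = Fq y r v q1 *
      ep p (∑ k, Dg.ch (v.lam k) (thq r v q (y.wv (q k)) * (thq r v q1 (y.wv (q1 k)))⁻¹)) := by
  unfold Fq
  rw [if_pos hq, if_pos hq1, ← ph_prod hp, mul_assoc, ← Finset.prod_mul_distrib]
  congr 1
  · refine Finset.prod_congr rfl fun w hw => ?_
    have h1 : thq r v q (y.wv w) = thq r v q1 (y.wv w) :=
      congrFun (congrArg (fun c => c.1) hc) ⟨w, hw⟩
    rw [h1]
  · refine Finset.prod_congr rfl fun k _ => ?_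
    have h1 := hv.eq k _ (ph_mem y hc k) (thq r v q1 (y.wv (q1 k)))
    rw [inv_mul_cancel_right] at h1
    rw [h1, mul_comm]

theorem phs [IsAlgClosure K Ω] [Finite Qg] [Fintype Lm] [Fact p.Prime] (hp2 : MOne p K)
    (hζ : IsPrimitiveRoot ζ p) (hz : Z2 p K) (Q : DP K Ω) (y : Wy D A) {Dg : LG p n P Qg Lm}
    (hy : y.Ok Q P Qg Lm n) (hQ : IsPGroup p Qg) {r : Rd A P Qg} {v : Vd n P Qg Lm}
    (hr : r.Ok y.L Dg y.E y.Z) (hv : v.Ok Dg) {q0 q1 : Fin (n + 2) → Pl K} (h : ND r.T q0 q1)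
    (hq : ∀ k, q0 k ∈ y.Z ∧ q1 k ∈ y.Z) (hqn : ∀ k, (nm (q0 k)).Prime ∧ (nm (q1 k)).Prime)
    (hc : ∀ e : Fin (n + 2) → Bool, cel y Dg r v (vt q0 q1 e) = cel y Dg r v q1)
    (hf : ∀ k, Dg.pi (thq r v q1 (y.wv (q1 k))) = v.f k) :
    ∏ e : Fin (n + 2) → Bool, cj e (Fq y r v (vt q0 q1 e)) =
      ((‖Fq y r v q1‖ ^ (2 ^ (n + 2)) : ℝ) : ℂ) *
        ep p (Dg.kp (v.lam 0) (relq Dg r v q0 q1 (y.wv (q1 0))).c -
          Dg.kp (v.lam 0) (relq Dg r v q0 q1 (y.wv (q0 0))).c) := by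
  have hp : p.Prime := Fact.out
  obtain ⟨z, hz'⟩ : ∃ z : Fin (n + 2) → Bool → FW A, z = fun k b => y.wv (if b then q1 k else q0 k) := ⟨_, rfl⟩
  obtain ⟨c, hc'⟩ : ∃ c : Fin (n + 2) → P, c = fun k => thq r v q1 (y.wv (q1 k)) := ⟨_, rfl⟩
  have h1 : ∀ e : Fin (n + 2) → Bool, cj e (Fq y r v (vt q0 q1 e)) = cj e (Fq y r v q1) *
      ep p (sg (ZMod p) e * ∑ k, Dg.ch (v.lam k) (cub (kdq A id q0 q1) r.bs v.g (z k (e k)) e * (c k)⁻¹)) := by
    intro e
    have h5 : ∑ k, Dg.ch (v.lam k) (thq r v (vt q0 q1 e) (y.wv (vt q0 q1 e k)) *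
        (thq r v q1 (y.wv (q1 k)))⁻¹) =
        ∑ k, Dg.ch (v.lam k) (cub (kdq A id q0 q1) r.bs v.g (z k (e k)) e * (c k)⁻¹) := by
      refine Finset.sum_congr rfl fun k _ => ?_
      rw [cub_th r v hr.one h, hz', hc']
      rfl
    rw [fq_cell hp y hv (vt_adm h e) h.2.1 (hc e), cj_mul, cj_ep hp, h5]
  have hface : ∀ (k : Fin (n + 2)) (b : Bool),
      ∑ e' : Fin (n + 1) → Bool, sg (ZMod p) e' *
        Dg.ch (v.lam k) (cub (kdq A id q0 q1) r.bs v.g (z k b) (k.insertNth b e') * (c k)⁻¹) =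
      Dg.ch (v.lam k) (tp (n + 1) (fun e => cub (kdq A id q0 q1) r.bs v.g (z k b) (k.insertNth b e))) := by
    intro k b
    refine (tp_sum (Dg.f (n + 1)) (Dg.ch (v.lam k)) (Dg.ch_add (v.lam k)) (c := c k) fun e' => ?_).symm
    have h2 := ph_mem y (hc (k.insertNth b e')) k
    have h3 : vt q0 q1 (k.insertNth b e') k = if b then q1 k else q0 k := by
      unfold vt
      rw [Fin.insertNth_apply_same]
    rw [h3] at h2
    rw [cub_th r v hr.one h, hz', hc']
    exact h2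
  have hph := phase Dg (kdq A id q0 q1) r.bs v.g v.lam hv.g z (by
    rw [hz']
    exact rec hp2 hζ hz Q y hy hQ hr hv h hq hqn hc hf)
  rw [Finset.prod_congr rfl fun e _ => h1 e, Finset.prod_mul_distrib, cj_prod, ph_prod hp,
    sum_face (fun k b e => Dg.ch (v.lam k) (cub (kdq A id q0 q1) r.bs v.g (z k b) e * (c k)⁻¹))]
  congr 2
  have h4 : ∑ k : Fin (n + 2), ∑ b : Bool, (if b then (1 : ZMod p) else -1) *
        ∑ e' : Fin (n + 1) → Bool, sg (ZMod p) e' *
        Dg.ch (v.lam k) (cub (kdq A id q0 q1) r.bs v.g (z k b) (k.insertNth b e') * (c k)⁻¹) =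
      ∑ k : Fin (n + 2), ∑ b : Bool, (if b then (1 : ZMod p) else -1) *
        Dg.ch (v.lam k) (tp (n + 1) (fun e => cub (kdq A id q0 q1) r.bs v.g (z k b) (k.insertNth b e))) :=
    Finset.sum_congr rfl fun k _ => Finset.sum_congr rfl fun b _ => by rw [hface k b]
  rw [h4, hph, Fintype.sum_bool, hz']
  simp only [if_true, Bool.false_eq_true, if_false, one_mul, neg_one_mul, ← sub_eq_add_neg]
  rfl

end H62.BL
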