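import Pool.Agent.H62.BL.Hh
import Pool.Agent.H35.UB.Gpu
import Pool.Agent.H77.WE.GlU

/-!
# [H62 BL GB] the black box for the inner function `hh` (60-100 lines). File Pool/Agent/H62/BL/Gb.lean

* `pd_hh`: `‖hh‖ ≤ 1`. `av_cls`: `av φ f` is a class function on the image; `av_le`; `av_mean`: its mean over the image is `0` if `f (φ τ * y) = c * f y` for some `τ` and `c ≠ 1`.
* `GPB D Ω κ b`: for families of homomorphisms `Φ i` to the product of the groups of words of order at most `b`: the sums over the Frobenius elements of the mean of the conjugates of `hh` are small.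
* `gbu`: `GPB` from `GPU` with `b ≤ p ^ κ'`. PROOF: apply `GPU` (bound `b`) to `G i = (Fin (n + 1) → Bool) → UGd`, `φ = Φ`, `f i = av (Φ i) (hh Dg v)`: the range has at most `b` elements, each of order dividing `p ^ κ'` (`pg_pow` in H77/WE/Com.lean, the product
  is a `p`-group: `pg_ugd`), class function: `av_cls`, `‖f‖ ≤ 1 ≤ b`, `mrg = 0` by `av_mean`. (`Fintype` from `Fintype.ofFinite`.)
-/

set_option autoImplicit false

open scoped NumberField
open IsDedekindDomain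
open scoped Classical

noncomputable section

namespace H62.BL

open H63.MA H38.BB H38.BG H57.PC H57.BRA H77.WD H77.WE H77.GL H57.AN H35.UB

section

variable {p n : ℕ} {P Qg Lm : Type} [Group P] [Group Qg] [MulAction Qg Lm] [Fintype Lm]

theorem hh_le (Dg : LG p n P Qg Lm) (v : Vd n P Qg Lm)
    (x : (Fin (n + 1) → Bool) → UGd p n Qg Lm) : ‖hh Dg v x‖ ≤ 1 := by
  have h1' : ∀ y : UGd p n Qg Lm, ‖h1 Dg v y‖ ≤ 1 := by
    intro y
    unfold h1
    split_ifs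
    · rw [ep_norm]
    · rw [norm_zero]
      exact zero_le_one
  unfold hh
  rw [norm_prod]
  refine Finset.prod_le_one (fun _ _ => norm_nonneg _) fun e _ => ?_
  unfold cj
  split_ifs
  · exact h1' _
  · rw [RCLike.norm_conj]
    exact h1' _

theorem av_cls {Γ H : Type} [Group Γ] [Group H] [Finite H] (φ : Γ →* H) (h : H → ℂ) {y z : H}
    (hz : z ∈ φ.range) : av φ h (z * y * z⁻¹) = av φ h y := by
  obtain ⟨σ, rfl⟩ := hz
  exact av_conj φ h y σ

theorem av_le {Γ H : Type} [Group Γ] [Group H] [Finite H] (φ : Γ →* H) (h : H → ℂ)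
    (hh : ∀ y, ‖h y‖ ≤ 1) (y : H) : ‖av φ h y‖ ≤ 1 := by
  unfold av
  have h1 : (Set.toFinite (φ.range : Set H)).toFinset.card = Nat.card φ.range := by
    rw [← Nat.card_eq_card_finite_toFinset (Set.toFinite (φ.range : Set H))]
    rfl
  have h2 : (0 : ℝ) < Nat.card φ.range := by
    exact_mod_cast Nat.card_pos
  rw [norm_mul, norm_inv, Complex.norm_natCast, inv_mul_le_iff₀ h2, mul_one]
  calc ‖∑ g ∈ (Set.toFinite (φ.range : Set H)).toFinset, h (g * y * g⁻¹)‖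
      ≤ ∑ g ∈ (Set.toFinite (φ.range : Set H)).toFinset, ‖h (g * y * g⁻¹)‖ := norm_sum_le _ _
    _ ≤ ∑ _g ∈ (Set.toFinite (φ.range : Set H)).toFinset, (1 : ℝ) :=
        Finset.sum_le_sum fun g _ => hh _
    _ = Nat.card φ.range := by
        rw [Finset.sum_const, nsmul_eq_mul, mul_one, h1]

theorem av_mean {Γ H : Type} [Group Γ] [Group H] [Fintype H] (φ : Γ →* H) (h : H → ℂ) (τ : Γ) (c : ℂ)
    (hc : c ≠ 1) (hτ : ∀ y, h (φ τ * y) = c * h y) : mrg φ (av φ h) = 0 := by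
  obtain ⟨R, hR⟩ : ∃ R : Finset H, R = Finset.univ.filter fun y : H => y ∈ φ.range := ⟨_, rfl⟩
  have hmem : ∀ y, y ∈ R ↔ y ∈ φ.range := fun y => by
    rw [hR, Finset.mem_filter]
    exact and_iff_right (Finset.mem_univ _)
  have h1 : (Set.toFinite (φ.range : Set H)).toFinset = R := by
    ext y
    rw [Set.Finite.mem_toFinset, hmem]
    rfl
  have h0 : ∑ y ∈ R, h y = 0 := by
    have h2 : ∑ y ∈ R, h y = c * ∑ y ∈ R, h y := by
      rw [Finset.mul_sum]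
      symm
      refine Finset.sum_bij' (fun y _ => φ τ * y) (fun y _ => (φ τ)⁻¹ * y) ?_ ?_ ?_ ?_ ?_
      · intro y hy
        rw [hmem] at hy ⊢
        exact φ.range.mul_mem ⟨τ, rfl⟩ hy
      · intro y hy
        rw [hmem] at hy ⊢
        exact φ.range.mul_mem (φ.range.inv_mem ⟨τ, rfl⟩) hy
      · intro y _
        rw [inv_mul_cancel_left]
      · intro y _
        rw [mul_inv_cancel_left]
      · intro y _
        rw [hτ]
    have h3 : (c - 1) * ∑ y ∈ R, h y = 0 := by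
      rw [sub_mul, one_mul, ← h2, sub_self]
    exact (mul_eq_zero.1 h3).resolve_left (sub_ne_zero.2 hc)
  have h4 : ∀ g ∈ R, ∑ y ∈ R, h (g * y * g⁻¹) = 0 := by
    intro g hg
    rw [← h0]
    rw [hmem] at hg
    refine Finset.sum_bij' (fun y _ => g * y * g⁻¹) (fun y _ => g⁻¹ * y * g) ?_ ?_ ?_ ?_ ?_
    · intro y hy
      rw [hmem] at hy ⊢
      exact φ.range.mul_mem (φ.range.mul_mem hg hy) (φ.range.inv_mem hg)
    · intro y hy
      rw [hmem] at hy ⊢
      exact φ.range.mul_mem (φ.range.mul_mem (φ.range.inv_mem hg) hy) hg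
    · intro y _
      group
    · intro y _
      group
    · intro y _
      rfl
  unfold mrg av
  rw [← hR, h1, ← Finset.mul_sum, Finset.sum_comm, Finset.sum_congr rfl h4, Finset.sum_const_zero,
    mul_zero, mul_zero]

end

/-- the black box for the function `hh` -/
def GPB {K : Type} [Field K] [NumberField K] {p : ℕ} {ζ : K} (D : RD0 K p ζ) (Ω : Type) [Field Ω]
    [Algebra K Ω] (κ b : ℕ) : Prop :=
  ∀ (C₁ A : ℕ) (ε : ℝ), 0 < ε → ∃ Y₀ : ℝ, ∀ Y : ℝ, Y₀ ≤ Y → ∀ (L : LDs D Ω) (Fr : FR L)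
    (E : Finset (Pl K)) (ι : Type) (I : Finset ι) (m : ι → Finset (Pl K)) (x : ι → ℝ),
    (∀ i ∈ I, E ⊆ m i ∧ nr (m i) ≤ Y ^ C₁ ∧ ((m i).card : ℝ) ≤ C₁ * Real.log (Real.log Y)) →
    (∀ i ∈ I, Real.exp (Real.log Y ^ ε) ≤ x i ∧ x i ≤ Y ^ C₁) →
    (∀ s, ((I.filter fun i => m i = s).card : ℝ) ≤ Real.log Y ^ C₁) →
    ∀ (n : ℕ) (P Qg Lm : Type) [Group P] [Group Qg] [MulAction Qg Lm] [Fintype Lm] [Finite Qg]
      [Finite (UGd p n Qg Lm)] (Dg : LG p n P Qg Lm) (v : Vd n P Qg Lm), v.Ok Dg → IsPGroup p Qg →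
      v.f 0 ^ (p ^ κ) = 1 → Nat.card ((Fin (n + 1) → Bool) → UGd p n Qg Lm) ≤ b →
      ∀ Φ : ι → Gal(Ω/K) →* ((Fin (n + 1) → Bool) → UGd p n Qg Lm),
      (∀ i ∈ I, HonE L E (m i) (Φ i) ∧ ∃ (τ : Gal(Ω/K)) (c : ℂ), c ≠ 1 ∧
        ∀ y, hh Dg v (Φ i τ * y) = c * hh Dg v y) →
      ∑ i ∈ I, (nr (m i))⁻¹ * (x i)⁻¹ *
          ‖∑ w ∈ (PB K (x i)).filter (fun w => D.Gd w ∧ w ∉ m i),
            av (Φ i) (hh Dg v) (Φ i (Fr.F w))‖ ≤ Real.log Y ^ (-(A : ℝ))

theorem gbu {K : Type} [Field K] [NumberField K] {p : ℕ} {ζ : K} (D : RD0 K p ζ) (Ω : Type) [Field Ω]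
    [Algebra K Ω] (hp : p.Prime) {κ' b : ℕ} (hb : b ≤ p ^ κ') (hG : GPU D Ω κ') (κ : ℕ) :
    GPB D Ω κ b := by
  intro C₁ A ε hε
  obtain ⟨Y₀, hY₀⟩ := hG b C₁ A ε hε
  refine ⟨Y₀, fun Y hY L Fr E ι I m x hm hx hc n P Qg Lm _ _ _ _ _ _ Dg v _ hQ _ hcard Φ hΦ => ?_⟩
  have hft : Fintype ((Fin (n + 1) → Bool) → UGd p n Qg Lm) := Fintype.ofFinite _
  have hF : Fact p.Prime := ⟨hp⟩
  have hpg : IsPGroup p ((Fin (n + 1) → Bool) → UGd p n Qg Lm) := by
    obtain ⟨k, hk⟩ := IsPGroup.iff_card.1 (pg_ugd (n := n) (Lm := Lm) hp hQ)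
    refine IsPGroup.of_card (n := k * Nat.card (Fin (n + 1) → Bool)) ?_
    rw [Nat.card_fun, hk, pow_mul]
  have hb1 : (1 : ℝ) ≤ b := by
    have h1 : 0 < Nat.card ((Fin (n + 1) → Bool) → UGd p n Qg Lm) := Nat.card_pos
    exact_mod_cast h1.trans_le hcard
  have h := hY₀ Y hY L Fr E ι I m x hm hx hc (fun _ => (Fin (n + 1) → Bool) → UGd p n Qg Lm) Φ
    (fun i => av (Φ i) (hh Dg v)) (fun i hi => ⟨?_, ?_, ?_, ?_, (hΦ i hi).1⟩)
  · refine le_trans (le_of_eq ?_) h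
    refine Finset.sum_congr rfl fun i hi => ?_
    obtain ⟨τ, c, hc1, hτ⟩ := (hΦ i hi).2
    congr 2
    refine Finset.sum_congr rfl fun w _ => ?_
    rw [av_mean (Φ i) (hh Dg v) τ c hc1 hτ, sub_zero]
  · refine le_trans (Finset.card_le_card (Finset.filter_subset _ _)) ?_
    rw [Finset.card_univ, ← Nat.card_eq_fintype_card]
    exact hcard
  · intro y _
    exact pg_pow hp hpg (hcard.trans hb) y
  · intro y _ z hz
    exact av_cls (Φ i) (hh Dg v) hz
  · intro y _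
    exact (av_le (Φ i) (hh Dg v) (hh_le Dg v) y).trans hb1

end H62.BL
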