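import Pool.Agent.H77.WE.GlE
import Pool.Agent.H42.WM.PhsE
import Pool.Agent.H42.WM.KpbE
import Pool.Agent.H42.WM.ComE

/-!
# [H62 BL DF] MP_b39724_nt, all classes, THE BOX LEMMA: definitions

Number theory as in H77/WD, H77/WE (`HonE`, `GS`, `FW`, `hat`, `wdE`, `lftE`; `E` the primes with arbitrary inertia), algebra as in `Alg.lean` and H42/WM (`LG`, `UG`, `cub`, `rel`, `abe`,
`phase`). Text: think 1472 and mail helper62 01:20. `d = n + 1`, the indices are `Fin (n + 2)`, the index `0` is the last variable `w`.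

* `Rd`: the fixed part: the set `T` of the fixed primes, their labels `lab` in `P`, the labels `al` of the `a_i`, the honest homomorphism
  `phi = φ₀ : Gal → Q = P/N`, the functions `G v` of the `P`-valued words `x_v`, `v ∈ T`. `Rd.Ok`.
* `Vd`: the variable part: labels `g k`, letters `lam k`, `f k ∈ Q`, functions `G k`. `Vd.Ok`: `f k` fixes `lam k`, `G k` lives over `f k` and
  is an eigenfunction of `f (n + 1)` with the character `ch (lam k)`.
* `lbq q b v`: the value `b k` if `v = q k`, else the base value. `thq`: the `P`-valued evaluation of words for the primes `q k` with labels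
  `g k`. `aq`: the universal evaluation (`q k ↦ 1 + (k, lam k)`). `wv v`: the virtual word of the Frobenius at `v`.
* `Fq q`: the summand. `cel q`: the cell of `q`.
* `vt q0 q1 e`: the vertex `e` (`true ↦ q1`, `false ↦ q0`). `ND`: the primes of a cube are distinct and not in `T`. `kdq`: the kinds of the
  generators for the cube. `relq`: the relative universal evaluation, all indices, words of length `≤ n + 1`. `reld`: the same for the
  indices `1, ..., n + 1` only (primes `a j`, `b j` of index `j + 1`), all words without the index `0`.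
* `cj e z`: `z` or its conjugate, according to the sign `sg e`. `h1`: the function of the Frobenius at `w` in the group of `reld`.
  `Hd Ψ`: `Ψ` is honest with words `reld`. `Uf q1 w a`: the inserted function.
-/

set_option autoImplicit false

open scoped NumberField
open IsDedekindDomain
open scoped Classical

noncomputable section

namespace H62.BL

open H63.MA H38.BB H38.BG H57.PC H57.BRA H77.WD H77.WE

/-- the group of the words of length at most `n + 1`, all indices -/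
abbrev UGm (p n : ℕ) (Qg Lm : Type) [Group Qg] [MulAction Qg Lm] : Type :=
  UG Qg (Lr (Fin (n + 2)) Lm) (ZMod p) (WN Qg Lm Set.univ (n + 1))

/-- the group of the words without the index `0` -/
abbrev UGd (p n : ℕ) (Qg Lm : Type) [Group Qg] [MulAction Qg Lm] : Type :=
  UG Qg (Lr (Fin (n + 2)) Lm) (ZMod p) (WN Qg Lm {i | i ≠ 0} (n + 1))

/-- conjugation according to the sign of a vertex -/
def cj {m : ℕ} (e : Fin m → Bool) (z : ℂ) : ℂ :=
  if Even (Finset.univ.filter fun k => e k = false).card then z else (starRingEnd ℂ) z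

/-- the vertices of a cube -/
def vt {m : ℕ} {X : Type} (q0 q1 : Fin m → X) (e : Fin m → Bool) : Fin m → X :=
  fun k => if e k then q1 k else q0 k

section vd

variable {p n : ℕ} {P Qg Lm : Type} [Group P] [Group Qg] [MulAction Qg Lm]

/-- the variable part -/
structure Vd (n : ℕ) (P Qg Lm : Type) where
  g : Fin (n + 2) → P
  lam : Fin (n + 2) → Lm
  f : Fin (n + 2) → Qg
  G : Fin (n + 2) → P → ℂ

structure Vd.Ok (v : Vd n P Qg Lm) (Dg : LG p n P Qg Lm) : Prop where
  g : ∀ k, v.g k * (Dg.s (v.lam k))⁻¹ ∈ Dg.f 2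
  f : ∀ k, v.f k • v.lam k = v.lam k
  G : ∀ k x, ‖v.G k x‖ ≤ 1
  sup : ∀ k x, v.G k x ≠ 0 → Dg.pi x = v.f k
  eq : ∀ k, ∀ u ∈ Dg.f (n + 1), ∀ x, v.G k (u * x) = ep p (Dg.ch (v.lam k) u) * v.G k x

/-- the function of the Frobenius at the last variable -/
def h1 [Fintype Lm] (Dg : LG p n P Qg Lm) (v : Vd n P Qg Lm) (x : UGd p n Qg Lm) : ℂ :=
  if x.q = v.f 0 ∧ ∀ u, u ≠ [] → u.length ≤ n → x.c u = 0 then ep p (-Dg.kp (v.lam 0) x.c) else 0

/-- the function on the product of the groups of the vertices -/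
def hh [Fintype Lm] (Dg : LG p n P Qg Lm) (v : Vd n P Qg Lm)
    (x : (Fin (n + 1) → Bool) → UGd p n Qg Lm) : ℂ := ∏ e, cj e (h1 Dg v (x e))

/-- LINKED: `kp` does not vanish on an iterated commutator of conjugates of the letters `n + 1, ..., 1` -/
def Lkd [Fintype Lm] (Dg : LG p n P Qg Lm) (lam : Fin (n + 2) → Lm) : Prop :=
  ∃ u : Fin (n + 1) → Qg, Dg.kp (lam 0)
    (br (List.ofFn fun i : Fin (n + 1) => (⟨i.rev.succ, u i • lam i.rev.succ⟩ : Lr (Fin (n + 2)) Lm))) ≠ 0

end vd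

variable {K : Type} [Field K] [NumberField K] {Ω : Type} [Field Ω] [Algebra K Ω]
  {p : ℕ} {ζ : K} {D : RD0 K p ζ} {n : ℕ} {P Qg Lm : Type} [Group P] [Group Qg] [MulAction Qg Lm]

/-- the fixed part -/
structure Rd (A : GS D Ω) (P Qg : Type) [Group P] [Group Qg] where
  T : Finset (Pl K)
  lab : Pl K → P
  al : Fin A.g → P
  phi : Gal(Ω/K) →* Qg
  G : Pl K → P → ℂ

variable {A : GS D Ω}

/-- the labels of the fixed generators -/
def Rd.bs (r : Rd A P Qg) : Pl K ⊕ Fin A.g → P := Sum.elim r.lab r.al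

structure Rd.Ok (r : Rd A P Qg) (L : LDs D Ω) (Dg : LG p n P Qg Lm) (E Z : Finset (Pl K)) : Prop where
  sub : r.T ⊆ Z
  sE : E ⊆ r.T
  out : ∀ v ∈ r.T, v ∉ D.S0
  one : ∀ v, v ∉ r.T → r.lab v = 1
  hon : HonE L E r.T r.phi
  sur : Function.Surjective r.phi
  lab : ∀ v, r.phi (L.t v) = Dg.pi (r.lab v)
  al : ∀ i, r.phi (A.a i) = Dg.pi (r.al i)
  G : ∀ v x, ‖r.G v x‖ ≤ 1

/-- the value `b k` at `q k`, the value `c` elsewhere -/
def lbq {m : ℕ} {X : Type} (q : Fin m → Pl K) (b : Fin m → X) (c : Pl K → X) (v : Pl K) : X :=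
  if h : ∃ k, q k = v then b h.choose else c v

/-- the `P`-valued evaluation of words -/
def thq (r : Rd A P Qg) (v : Vd n P Qg Lm) (q : Fin (n + 2) → Pl K) : FW A →* P :=
  FreeGroup.lift (Sum.elim (lbq q v.g r.lab) r.al)

/-- the universal evaluation of words -/
def aq (Dg : LG p n P Qg Lm) (r : Rd A P Qg) (v : Vd n P Qg Lm) (q : Fin (n + 2) → Pl K) :
    FW A →* UGm p n Qg Lm :=
  FreeGroup.lift (Sum.elim (lbq q (fun k => lt ⟨k, v.lam k⟩ 1) fun w => qi (Dg.pi (r.lab w)))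
    fun i => qi (Dg.pi (r.al i)))

/-- distinct primes, not in `T` -/
def Adm {m : ℕ} (T : Finset (Pl K)) (q : Fin m → Pl K) : Prop :=
  Function.Injective q ∧ ∀ k, q k ∉ T

/-- all primes of the cube are distinct and not in `T` -/
def ND {m : ℕ} (T : Finset (Pl K)) (q0 q1 : Fin m → Pl K) : Prop :=
  Adm T q0 ∧ Adm T q1 ∧ ∀ j k, q0 j ≠ q1 k

/-- the kinds of the generators for a cube -/
def kdq (A : GS D Ω) {m : ℕ} {I : Type} (i : Fin m → I) (q0 q1 : Fin m → Pl K) :
    Pl K ⊕ Fin A.g → Option (I × Bool)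
  | Sum.inl v => if h : ∃ k, q0 k = v then some (i h.choose, false) else
      if h : ∃ k, q1 k = v then some (i h.choose, true) else none
  | Sum.inr _ => none

/-- the relative evaluation, all indices -/
def relq (Dg : LG p n P Qg Lm) (r : Rd A P Qg) (v : Vd n P Qg Lm) (q0 q1 : Fin (n + 2) → Pl K) :
    FW A →* UGm p n Qg Lm :=
  rel (WN Qg Lm Set.univ (n + 1)) (kdq A id q0 q1) (fun x => Dg.pi (r.bs x)) v.lam

/-- the relative evaluation, indices different from `0` -/
def reld (Dg : LG p n P Qg Lm) (r : Rd A P Qg) (v : Vd n P Qg Lm) (a b : Fin (n + 1) → Pl K) :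
    FW A →* UGd p n Qg Lm :=
  rel (WN Qg Lm {i | i ≠ 0} (n + 1)) (kdq A Fin.succ a b) (fun x => Dg.pi (r.bs x)) v.lam

/-- the data: local data, words, separators -/
structure Wy (D : RD0 K p ζ) (A : GS D Ω) where
  L : LDs D Ω
  Fr : FR L
  M : ℕ
  E : Finset (Pl K)
  Z : Finset (Pl K)
  F : Finset Gal(Ω/K)

/-- the virtual word of `σ` -/
def Wy.wd (y : Wy D A) (σ : Gal(Ω/K)) : FW A := wdE y.L A y.M y.E y.Z σ

/-- the virtual word of the Frobenius at `v` -/
def Wy.wv (y : Wy D A) (v : Pl K) : FW A := y.wd (y.Fr.F v)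

/-- the hypotheses on the data -/
structure Wy.Ok (y : Wy D A) (Q : DP K Ω) (P Qg Lm : Type) (n : ℕ) [Group P] [Group Qg] [MulAction Qg Lm] :
    Prop where
  sep : IsSep D Q y.M y.F
  rt : ∃ (m : ℕ) (z : K), 1 ≤ m ∧ IsPrimitiveRoot z (p ^ (m + 1)) ∧ y.M ≤ p ^ (m + 1)
  out : ∀ v ∈ y.Z, v ∉ D.S0
  cP : Nat.card P ≤ y.M
  cQ : Nat.card Qg ≤ y.M
  cm : Nat.card (UGm p n Qg Lm) ≤ y.M
  cd : Nat.card (UGd p n Qg Lm) ≤ y.M

/-- the summand -/
def Fq (y : Wy D A) (r : Rd A P Qg) (v : Vd n P Qg Lm) (q : Fin (n + 2) → Pl K) : ℂ :=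
  if Adm r.T q then (∏ w ∈ r.T, r.G w (thq r v q (y.wv w))) *
    ∏ k, v.G k (thq r v q (y.wv (q k))) else 0

/-- the values of a cell -/
abbrev Cel (y : Wy D A) (Dg : LG p n P Qg Lm) (r : Rd A P Qg) : Type :=
  (r.T → P) × (Fin (n + 2) → P ⧸ Dg.f (n + 1)) ×
    (r.T → (WN Qg Lm (Set.univ : Set (Fin (n + 2))) (n + 1)).s → ZMod p) ×
    (y.F → (WN Qg Lm (Set.univ : Set (Fin (n + 2))) (n + 1)).s → ZMod p) ×
    (Fin (n + 2) → (WN Qg Lm (Set.univ : Set (Fin (n + 2))) (n + 1)).s → ZMod p)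

/-- the cell of `q` -/
def cel (y : Wy D A) (Dg : LG p n P Qg Lm) (r : Rd A P Qg) (v : Vd n P Qg Lm)
    (q : Fin (n + 2) → Pl K) : Cel y Dg r :=
  (fun w => thq r v q (y.wv w), fun k => ↑(thq r v q (y.wv (q k))),
    fun w u => (aq Dg r v q (y.wv w)).c u, fun σ u => (aq Dg r v q (y.wd σ)).c u,
    fun k u => if (u : List (Lr (Fin (n + 2)) Lm)).length ≤ n ∧ ∀ a ∈ (u : List (Lr (Fin (n + 2)) Lm)), a.i ≠ k then
      (aq Dg r v q (y.wv (q k))).c u else 0)

/-- `Ψ` is honest with the words `reld` -/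
def Hd (y : Wy D A) (Dg : LG p n P Qg Lm) (r : Rd A P Qg) (v : Vd n P Qg Lm)
    (a b : Fin (n + 1) → Pl K) (Ψ : Gal(Ω/K) →* UGd p n Qg Lm) : Prop :=
  HonE y.L y.E (r.T ∪ Finset.univ.image a ∪ Finset.univ.image b) Ψ ∧ hat y.L A Ψ = reld Dg r v a b

/-- the inserted function -/
def Uf [Fintype Lm] (y : Wy D A) (Dg : LG p n P Qg Lm) (r : Rd A P Qg) (v : Vd n P Qg Lm)
    (q1 : Fin (n + 2) → Pl K) (w : Pl K) (a : Fin (n + 1) → Pl K) : ℂ :=
  if ND r.T (Fin.cons w a : Fin (n + 2) → Pl K) q1 ∧ ∃ Ψ, Hd y Dg r v a (Fin.tail q1) Ψ then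
    h1 Dg v (reld Dg r v a (Fin.tail q1) (y.wv w)) else 0

end H62.BL
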