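import Pool.Agent.H62.BL.Alg

/-!
# [H62 BL ALS] statements of the algebra of the box lemma (to be proved by helper42)

Conventions of `Alg.lean`. `Gn`: a type of generators (primes and the finitely many `a_i`). `kd x = some (j, b)`: `x` is the prime
`q_j^b` of the cube; `kd x = none`: `x` is fixed, with the label `bs x`.
* `cub`: the values of words at the vertices of the cube. `rel`: the relative universal hom (`q_j^1 ↦ 1 + x_j`, `q_j^0 ↦ 1 - x_j`).
  `abe e`: the universal hom of the vertex `e` (`q_j^(e j) ↦ 1 + x_j`, the opposite prime `↦ 1`). `x_j = (j, lam j)`.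
-/

set_option autoImplicit false

open scoped Classical

noncomputable section

namespace H62.BL

section A

variable {P : Type} [Group P] {f : ℕ → Subgroup P} {n i j : ℕ} {x y : (Fin n → Bool) → P} {a c : P}

theorem hk_mul (hF : Fl f) (hx : IsHK f n i x) (hy : IsHK f n i y) : IsHK f n i (x * y) := sorry

theorem hk_inv (hF : Fl f) (hx : IsHK f n i x) : IsHK f n i x⁻¹ := sorry

theorem hk_com (hF : Fl f) (hx : IsHK f n i x) (hy : IsHK f n j y) :
    IsHK f n (i + j) (x * y * x⁻¹ * y⁻¹) := sorry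

theorem hk_mono (hF : Fl f) (hx : IsHK f n (i + 1) x) : IsHK f n i x := sorry

theorem hk_const (ha : a ∈ f i) : IsHK f n i (fun _ => a) := sorry

theorem hk_fa (hF : Fl f) (k : Fin n) (b : Bool) (ha : a ∈ f (i + 1)) : IsHK f n i (fa k b a) := sorry

/-- closedness modulo `K`: the vertex `e₀` is determined by the others -/
theorem hk_closed (hF : Fl f) (K : Subgroup P) [K.Normal] (hK : f (n + 1 + i) ≤ K)
    {x : (Fin (n + 1) → Bool) → P} (hx : IsHK f (n + 1) i x) (e₀ : Fin (n + 1) → Bool)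
    (h : ∀ e, e ≠ e₀ → x e * c⁻¹ ∈ K) : x e₀ * c⁻¹ ∈ K := sorry

theorem hk_tp (hF : Fl f) (hx : IsHK f n i x) : tp n x ∈ f (n + i) := sorry

/-- the top coefficient if all vertices are equal modulo an abelian subgroup -/
theorem tp_sum {p : ℕ} (A : Subgroup P) (χ : P → ZMod p) (hχ : ∀ x ∈ A, ∀ y ∈ A, χ (x * y) = χ x + χ y)
    {x : (Fin (n + 1) → Bool) → P} (h : ∀ e, x e * c⁻¹ ∈ A) :
    χ (tp (n + 1) x) = ∑ e, sg (ZMod p) e * χ (x e * c⁻¹) := sorry

end A

section B

variable {Q α R : Type} [Group Q] [MulAction Q α] [CommRing R] {W W' : WSet Q α}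

theorem ug_assoc (a b c : UG Q α R W) : a * b * c = a * (b * c) := sorry

theorem ug_mul_one (a : UG Q α R W) : a * 1 = a := sorry

theorem ug_exists_inv (a : UG Q α R W) : ∃ b : UG Q α R W, a * b = 1 := sorry

instance : Inv (UG Q α R W) := ⟨fun a => (ug_exists_inv a).choose⟩

instance : Group (UG Q α R W) :=
  Group.ofRightAxioms ug_assoc ug_mul_one fun a => (ug_exists_inv a).choose_spec

/-- truncation to a smaller set of words -/
def trh (h : W'.s ⊆ W.s) : UG Q α R W →* UG Q α R W' where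
  toFun a := ⟨a.q, tr W' a.c, by rw [tr, if_pos W'.nil, a.one], fun w hw => if_neg hw⟩
  map_one' := sorry
  map_mul' := sorry

/-- the hom `Q → UG` -/
def qh : Q →* UG Q α R W where
  toFun := qi
  map_one' := sorry
  map_mul' := sorry

theorem ug_eq_qi (a : UG Q α R W) (h : ∀ w, w ≠ [] → a.c w = 0) : a = qi a.q := sorry

theorem lt_zero (a : α) : lt a (0 : R) = (1 : UG Q α R W) := sorry

theorem lt_pow {p : ℕ} {a : α} (ha : [a, a] ∉ W.s) (s : ZMod p) : (lt a s : UG Q α (ZMod p) W) ^ p = 1 := sorry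

theorem ug_comm (a : α) (s : R) (u : UG Q α R W) (hu : u.q • a = a)
    (h : ∀ w, w ≠ [] → u.c w ≠ 0 → w ++ [a] ∉ W.s ∧ a :: w ∉ W.s) : u * lt a s = lt a s * u := sorry

theorem ug_finite {p : ℕ} [NeZero p] [Finite Q] (hW : W.s.Finite) : Finite (UG Q α (ZMod p) W) := sorry

theorem ug_card {p : ℕ} [NeZero p] [Finite Q] (hW : W.s.Finite) :
    Nat.card (UG Q α (ZMod p) W) = Nat.card Q * p ^ (Nat.card W.s - 1) := sorry

theorem wn_finite {I L : Type} [MulAction Q L] [Finite I] [Finite L] (S : Set I) (n : ℕ) :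
    (WN Q L S n).s.Finite := sorry

end B

section C

variable {Gn I L P Q R : Type} [Group P] [Group Q] [MulAction Q L] [CommRing R]

/-- the values at the vertices of the cube -/
def cub {m : ℕ} (kd : Gn → Option (Fin m × Bool)) (bs : Gn → P) (g : Fin m → P) :
    FreeGroup Gn →* ((Fin m → Bool) → P) :=
  FreeGroup.lift fun x => match kd x with
    | none => fun _ => bs x
    | some (j, b) => fa j b (g j)

/-- the universal hom with coefficients `s` -/
def unh (W : WSet Q (Lr I L)) (kd : Gn → Option (I × Bool)) (bs : Gn → Q) (lam : I → L)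
    (s : I → Bool → R) : FreeGroup Gn →* UG Q (Lr I L) R W :=
  FreeGroup.lift fun x => match kd x with
    | none => qi (bs x)
    | some (j, b) => lt ⟨j, lam j⟩ (s j b)

/-- the relative universal hom -/
def rel (W : WSet Q (Lr I L)) (kd : Gn → Option (I × Bool)) (bs : Gn → Q) (lam : I → L) :
    FreeGroup Gn →* UG Q (Lr I L) R W := unh W kd bs lam fun _ b => if b then 1 else -1

/-- the universal hom of the vertex `e` -/
def abe (W : WSet Q (Lr I L)) (kd : Gn → Option (I × Bool)) (bs : Gn → Q) (lam : I → L) (e : I → Bool) :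
    FreeGroup Gn →* UG Q (Lr I L) R W := unh W kd bs lam fun j b => if e j = b then 1 else 0

/-- the relative coefficients are alternating sums: they vanish if the coefficients of the vertices are constant -/
theorem rel_zero {S : Set I} {n : ℕ} (kd : Gn → Option (I × Bool)) (bs : Gn → Q) (lam : I → L)
    (z : FreeGroup Gn) (w : List (Lr I L)) (hw : w ≠ []) (C : R)
    (h : ∀ e, (abe (WN Q L S n) kd bs lam e z : UG Q (Lr I L) R _).c w = C) :
    (rel (WN Q L S n) kd bs lam z : UG Q (Lr I L) R _).c w = 0 := sorry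

/-- the coefficient of `w` depends only on the vertices `e i`, `i` an index of `w` -/
theorem abe_local {S : Set I} {n : ℕ} (kd : Gn → Option (I × Bool)) (bs : Gn → Q) (lam : I → L)
    (z : FreeGroup Gn) (w : List (Lr I L)) (e e' : I → Bool) (h : ∀ a ∈ w, e a.i = e' a.i) :
    (abe (WN Q L S n) kd bs lam e z : UG Q (Lr I L) R _).c w =
      (abe (WN Q L S n) kd bs lam e' z : UG Q (Lr I L) R _).c w := sorry

theorem cub_hk {m : ℕ} {f : ℕ → Subgroup P} (hF : Fl f) (kd : Gn → Option (Fin m × Bool)) (bs : Gn → P)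
    (g : Fin m → P) (hg : ∀ j, g j ∈ f 1) (z : FreeGroup Gn) : IsHK f m 0 (cub kd bs g z) := sorry

theorem cub_face_hk {m : ℕ} {f : ℕ → Subgroup P} (hF : Fl f) (kd : Gn → Option (Fin (m + 1) × Bool))
    (bs : Gn → P) (g : Fin (m + 1) → P) (hg : ∀ j, g j ∈ f 1) (z : FreeGroup Gn) (k : Fin (m + 1))
    (b : Bool) : IsHK f m 0 (fun e => cub kd bs g z (k.insertNth b e)) := sorry

end C

section D

variable {Gn P Q L : Type} [Group P] [Group Q] [MulAction Q L] [Fintype L] {p n : ℕ} [Fact p.Prime]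

/-- TOP LEMMA -/
theorem top_lemma (D : LG p n P Q L) (kd : Gn → Option (Fin (n + 2) × Bool)) (bs : Gn → P)
    (g : Fin (n + 2) → P) (lam : Fin (n + 2) → L) (hg : ∀ j, g j * (D.s (lam j))⁻¹ ∈ D.f 2)
    (z : FreeGroup Gn) (k : Fin (n + 2)) (b : Bool) (χ : P → ZMod p)
    (hχ : ∀ x ∈ D.f (n + 1), ∀ y ∈ D.f (n + 1), χ (x * y) = χ x + χ y) :
    χ (tp (n + 1) (fun e => cub kd bs g z (k.insertNth b e))) =
      ∑ t : Fin (n + 1) → Lr (Fin (n + 2)) L,
        if (∀ i, (t i).i ≠ k) ∧ (t (Fin.last n)).i = k.succAbove 0 then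
          (rel (WN Q L Set.univ (n + 1)) kd (fun x => D.pi (bs x)) lam z :
            UG Q _ (ZMod p) _).c (List.ofFn t) * χ (D.rw (List.ofFn t)) else 0 := sorry

end D

section E

variable {P Q L : Type} [Group P] [Group Q] [MulAction Q L] [Fintype L] {p n : ℕ} [Fact p.Prime]
  (D : LG p n P Q L)

include D in
theorem eps_inv (q : Q) (w : List (Lr (Fin (n + 2)) L)) : D.eps (w.map fun a => q • a) = D.eps w := sorry

theorem cc_l1 (a : UG Q (Lr (Fin (n + 2)) L) (ZMod p) (WN Q L Set.univ (n + 1))) : D.cc 1 a = 0 := sorry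

theorem cc_r1 (a : UG Q (Lr (Fin (n + 2)) L) (ZMod p) (WN Q L Set.univ (n + 1))) : D.cc a 1 = 0 := sorry

theorem cc_co (a b c : UG Q (Lr (Fin (n + 2)) L) (ZMod p) (WN Q L Set.univ (n + 1))) :
    D.cc b c + D.cc a (b * c) = D.cc (a * b) c + D.cc a b := sorry

theorem cc_qi (q q' : Q) : D.cc (qi q) (qi q') = 0 := sorry

/-- the commutator of lifts of `u` and of `1 + s x`, `x = (k, l)` fixed by `u` -/
theorem cc_iv (u : UG Q (Lr (Fin (n + 2)) L) (ZMod p) (WN Q L Set.univ (n + 1))) (k : Fin (n + 2)) (l : L)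
    (hu : u.q • l = l) (s : ZMod p) :
    D.cc u (lt ⟨k, l⟩ s) - D.cc (lt ⟨k, l⟩ s) u =
      s * ∑ t : Fin (n + 1) → Lr (Fin (n + 2)) L, u.c (List.ofFn t) *
        (D.eps (List.ofFn t ++ [⟨k, l⟩]) - D.eps (⟨k, l⟩ :: List.ofFn t)) := sorry

/-- THE PHASE: if reciprocity holds for the words `z k b`, the sum of the top coefficients of all faces is the
difference of the values of `kp` at the two words of the variable `0` -/
theorem phase {Gn : Type} (kd : Gn → Option (Fin (n + 2) × Bool)) (bs : Gn → P)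
    (g : Fin (n + 2) → P) (lam : Fin (n + 2) → L) (hg : ∀ j, g j * (D.s (lam j))⁻¹ ∈ D.f 2)
    (z : Fin (n + 2) → Bool → FreeGroup Gn)
    (hrec : ∑ k, ∑ b : Bool, (if b then 1 else -1) * ∑ t : Fin (n + 1) → Lr (Fin (n + 2)) L,
      (rel (WN Q L Set.univ (n + 1)) kd (fun x => D.pi (bs x)) lam (z k b) :
        UG Q _ (ZMod p) _).c (List.ofFn t) *
        (D.eps (List.ofFn t ++ [⟨k, lam k⟩]) - D.eps (⟨k, lam k⟩ :: List.ofFn t)) = 0) :
    ∑ k, ∑ b : Bool, (if b then 1 else -1) *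
        D.ch (lam k) (tp (n + 1) (fun e => cub kd bs g (z k b) (k.insertNth b e))) =
      ∑ b : Bool, (if b then 1 else -1) * D.kp (lam 0)
        (rel (WN Q L Set.univ (n + 1)) kd (fun x => D.pi (bs x)) lam (z 0 b) :
          UG Q _ (ZMod p) _).c := sorry

/-- `kp` at a Lie bracket, for two labels with the same `s`: `y` has the indices `n + 1, n, ..., 1` -/
theorem kp_br (l : Fin (n + 1) → L) (l₀ l₁ : L) (h : D.s l₀ * (D.s l₁)⁻¹ ∈ D.f 2) :
    D.kp l₀ (br (List.ofFn fun i : Fin (n + 1) => (⟨i.rev.succ, l i⟩ : Lr (Fin (n + 2)) L))) -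
        D.kp l₁ (br (List.ofFn fun i : Fin (n + 1) => (⟨i.rev.succ, l i⟩ : Lr (Fin (n + 2)) L))) =
      D.ch l₀ (D.rw (List.ofFn fun i : Fin (n + 1) => (⟨i.rev.succ, l i⟩ : Lr (Fin (n + 2)) L))) -
        D.ch l₁ (D.rw (List.ofFn fun i : Fin (n + 1) => (⟨i.rev.succ, l i⟩ : Lr (Fin (n + 2)) L))) := sorry

/-- the conjugates of `1 + s x`, `x = (j, l)` -/
theorem conj_lt {S : Set (Fin (n + 2))} (u : UG Q (Lr (Fin (n + 2)) L) (ZMod p) (WN Q L S (n + 1)))
    (j : Fin (n + 2)) (hj : j ∈ S) (l : L) (s : ZMod p) :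
    (u * lt (⟨j, l⟩ : Lr (Fin (n + 2)) L) s * u⁻¹).q = 1 ∧
      (∀ w : List (Lr (Fin (n + 2)) L), w ≠ [] → (∀ a ∈ w, a.i ≠ j) →
        (u * lt (⟨j, l⟩ : Lr (Fin (n + 2)) L) s * u⁻¹).c w = 0) ∧
      ∀ a : Lr (Fin (n + 2)) L,
        (u * lt (⟨j, l⟩ : Lr (Fin (n + 2)) L) s * u⁻¹).c [a] = if a = ⟨j, u.q • l⟩ then s else 0 := sorry

/-- iterated commutators of elements with leading terms `s x` -/
theorem comm_top (l : Fin (n + 1) → L) (s : Fin (n + 1) → ZMod p)
    (y : Fin (n + 1) → UG Q (Lr (Fin (n + 2)) L) (ZMod p) (WN Q L {i | i ≠ 0} (n + 1)))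
    (h1 : ∀ i, (y i).q = 1) (h2 : ∀ i (w : List (Lr (Fin (n + 2)) L)), w ≠ [] → (∀ a ∈ w, a.i ≠ i.rev.succ) → (y i).c w = 0)
    (h3 : ∀ i (a : Lr (Fin (n + 2)) L), (y i).c [a] = if a = ⟨i.rev.succ, l i⟩ then s i else 0) :
    (rn (List.ofFn y)).q = 1 ∧ (rn (List.ofFn y)).c =
      e1 + (∏ i, s i) • br (List.ofFn fun i : Fin (n + 1) => (⟨i.rev.succ, l i⟩ : Lr (Fin (n + 2)) L)) := sorry

/-- multiplication by an element of the top layer -/
theorem top_mul {S : Set (Fin (n + 2))} (a b : UG Q (Lr (Fin (n + 2)) L) (ZMod p) (WN Q L S (n + 1)))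
    (ha : a.q = 1) (ha2 : ∀ w : List (Lr (Fin (n + 2)) L), w ≠ [] → w.length ≤ n → a.c w = 0)
    (w : List (Lr (Fin (n + 2)) L)) (hw : w ≠ []) : (a * b).c w = a.c w + b.c w := sorry

end E

end H62.BL
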