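import Pool.Agent.H62.BL.Rw
import Pool.Agent.H62.BL.Gb
import Pool.Agent.H57.GP.Gpv

/-!
# H62 BL GR: the black box `GPB` from the black box `GPR` for raw functions (characters of order `p`)
-/

set_option autoImplicit false

open scoped NumberField
open IsDedekindDomain
open scoped Classical

noncomputable section

namespace H62.BL

open H63.MA H38.BB H38.BG H57.PC H57.BRA H77.WD H77.WE H77.GL H57.AN H35.UB H57.GP

theorem gbr {K : Type} [Field K] [NumberField K] {p : ℕ} {ζ : K} (D : RD0 K p ζ) (Ω : Type) [Field Ω]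
    [Algebra K Ω] (hp : p.Prime) (hR : GPR D Ω p) (b : ℕ) : GPB D Ω 1 b := by
  intro C₁ A ε hε
  obtain ⟨Y₀, hY₀⟩ := gpr_av hR (max b p) C₁ A ε hε
  refine ⟨Y₀, fun Y hY L Fr E ι I m x hm hx hc n P Qg Lm _ _ _ _ _ _ Dg v hv hQ hf hcard Φ hΦ => ?_⟩
  have hft : Fintype ((Fin (n + 1) → Bool) → UGd p n Qg Lm) := Fintype.ofFinite _
  have hF : Fact p.Prime := ⟨hp⟩
  have hpg : IsPGroup p ((Fin (n + 1) → Bool) → UGd p n Qg Lm) := by
    obtain ⟨k, hk⟩ := IsPGroup.iff_card.1 (pg_ugd (n := n) (Lm := Lm) hp hQ)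
    refine IsPGroup.of_card (n := k * Nat.card (Fin (n + 1) → Bool)) ?_
    rw [Nat.card_fun, hk, pow_mul]
  have hf1 : v.f 0 ^ p = 1 := by rwa [pow_one] at hf
  have h := hY₀ Y hY L Fr E ι I m x hm hx hc (fun _ => (Fin (n + 1) → Bool) → UGd p n Qg Lm) Φ
    (fun _ => hh Dg v) (fun i hi => ⟨?_, hpg.to_subgroup _,
      raw_sub _ _ (raw_hh Dg hv hf1 _ (le_max_right _ _)), (hΦ i hi).1⟩)
  · refine le_trans (le_of_eq ?_) h
    refine Finset.sum_congr rfl fun i hi => ?_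
    obtain ⟨τ, c, hc1, hτ⟩ := (hΦ i hi).2
    congr 2
    refine Finset.sum_congr rfl fun w _ => ?_
    have h1 : mrg (Φ i) (hh Dg v) = 0 := by
      rw [← gpv_mr (Φ i) (hh Dg v)]
      exact av_mean (Φ i) (hh Dg v) τ c hc1 hτ
    rw [h1, sub_zero]
  · refine le_trans (Finset.card_le_card (Finset.filter_subset _ _)) ?_
    rw [Finset.card_univ, ← Nat.card_eq_fintype_card]
    exact hcard.trans (le_max_left _ _)

/-- stage 1: `Ω = QBar`, `κ = 1` -/
theorem gb1 {K : IntermediateField ℚ H38.ML.QBar} [NumberField K] {p : ℕ} (hp : p.Prime) (hp2 : p ≠ 2)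
    {ζ : K} (hζ : IsPrimitiveRoot ζ p) (D : RD0 K p ζ) (b : ℕ) : GPB D H38.ML.QBar 1 b :=
  gbr D _ hp (gpr hp hp2 hζ D) b

end H62.BL
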