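import Pool.Agent.H62.BL.Blf
import Pool.Agent.H62.BL.Gr
import Pool.Agent.H35.AC.Fin

/-!
# H62 BL BL1: the box lemma for groups of exponent `p` (stage 1), `M = blM p m + 2`
-/

set_option autoImplicit false

open scoped NumberField
open IsDedekindDomain
open scoped Classical

noncomputable section

namespace H62.BL

open H38.ML H63.MA H38.BB H38.BG H57.PC H57.BRA H77.WD H77.WE H77.GL H57.AN H35.UB

theorem bl1 {p : ℕ} (hp : p.Prime) (hp2 : p ≠ 2) : H35.AC.BL1 p := by
  intro m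
  have hF : Fact p.Prime := ⟨hp⟩
  refine ⟨blM p m + 2, fun K _ ζ hζ z hz D A => ?_⟩
  have hz2 : Z2 p K := by
    refine ⟨z ^ (p ^ blM p m), hz.pow (pow_pos hp.pos _) ?_⟩
    rw [← pow_add]
  have hM : blM p m ≤ p ^ (blM p m + 1 + 1) := by
    have h1 : blM p m < 2 ^ blM p m := Nat.lt_two_pow_self
    calc blM p m ≤ 2 ^ blM p m := h1.le
      _ ≤ p ^ blM p m := Nat.pow_le_pow_left hp.two_le _
      _ ≤ p ^ (blM p m + 1 + 1) := Nat.pow_le_pow_right hp.pos (by omega)
  exact bl (mone_odd hp hp2 K) hζ hz2 (j := blM p m + 1) (by omega) hz hM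
    (gb1 hp hp2 hζ D.toRD0 _) A

end H62.BL
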