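import Pool.Agent.H62.BL.Smd

/-!
# [H62 BL BLG] the box lemma for group data `LG` (100-150 lines). File Pool/Agent/H62/BL/Blg.lean

`blg`. PROOF. `M = 2 ^ (2 n + 3)`, `X i k = d * hi i k` (`d = [K : ℚ] ≥ 1`, `X ≥ 1`, `card (BX ..) ≤ X`: `H1.PN.pb_card`), `u i = ‖∑ Fq‖ / ∏ X`. `bx` (`hB`: members of `BX` are in `y.Z` and of prime norm; `MOne`, `Z2` are hypotheses):
`u i ^ M ≤ R (∑_k (X i k)⁻¹ + normalised S3)`, `R = (card Cel)^M (2 (n + 2))^(2^(n+1)) ≤ (log Y)^C`: `cel_card`; `card P ≤ y.M ≤ b`, `p ^ (card WN) ≤ p * card UGm ≤ p b` (`ug_card`), so `card Cel ≤ (p b²)^(T.card + c₀ + 2 (m + 2))` and `T.card ≤ C₁ log log Y`.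
Jensen with the weights `w i = (nr T_i)⁻¹`: `(∑ w i u i)^M ≤ (∑ w i)^(M - 1) ∑ w i (u i)^M` (`inner_le_Lp_mul_Lq` or `Real.inner_le_nnorm_mul_nnorm`, `Real.pow_arith_mean_le_arith_mean_pow`). `∑ w i ≤ (log Y)^C` (`nrs`), `∑ w i ∑_k (X i k)⁻¹ ≤ (log Y)^C (m + 2) exp (-(log Y)^ε)`,
`∑ w i (normalised S3) ≤ (log Y)^(-A')` (`smd` with `A'` large). `M ≤ 2 ^ (2 m + 3)`. At the end `(∏ lo)⁻¹ ≤ (2 d)^(n+2) (∏ X)⁻¹` (`hi ≤ 2 lo`). Take the `M`-th root: `∑ w i u i ≤ (log Y)^(-(A₁ + 1))` if `(∑ w i u i)^M ≤ (log Y)^(-M (A₁ + 1))` (`pow_le_pow_left`, contrapositive).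
-/

set_option autoImplicit false

open scoped NumberField
open IsDedekindDomain
open scoped Classical

noncomputable section

namespace H62.BL

open H63.MA H38.BB H38.BG H57.PC H57.BRA H77.WD H77.WE H77.GL H57.AN H35.UB

variable {K : Type} [Field K] [NumberField K] {Ω : Type} [Field Ω] [Algebra K Ω] [IsAlgClosure K Ω]
  {p : ℕ} [Fact p.Prime] {ζ : K} {D : RD0 K p ζ}

private theorem blg_exp (k : ℕ) {ε : ℝ} (hε : 0 < ε) :
    ∃ L₀ : ℝ, ∀ L : ℝ, L₀ ≤ L → L ^ k * Real.exp (-(L ^ ε)) ≤ 1 := by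
  obtain ⟨j, hj⟩ := exists_nat_ge ((k : ℝ) / ε)
  have h1 := Real.tendsto_pow_mul_exp_neg_atTop_nhds_zero j
  have h3 := h1.comp (tendsto_rpow_atTop hε)
  obtain ⟨L₀, hL₀⟩ := Filter.eventually_atTop.1 (h3.eventually_le_const (show (0 : ℝ) < 1 by norm_num))
  refine ⟨max L₀ 1, fun L hL => ?_⟩
  have h5 := hL₀ L (le_of_max_le_left hL)
  have h6 : (1 : ℝ) ≤ L := le_of_max_le_right hL
  have h7 : L ^ k ≤ (L ^ ε) ^ j := by
    rw [← Real.rpow_natCast, ← Real.rpow_natCast, ← Real.rpow_mul (by linarith)]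
    apply Real.rpow_le_rpow_of_exponent_le h6
    rw [div_le_iff₀ hε] at hj
    linarith [mul_comm (j : ℝ) ε]
  exact (mul_le_mul_of_nonneg_right h7 (Real.exp_pos _).le).trans h5

private theorem blg_jensen {ι : Type} (I : Finset ι) (w u : ι → ℝ) (hw : ∀ i ∈ I, 0 ≤ w i)
    (hu : ∀ i ∈ I, 0 ≤ u i) {M : ℕ} (hM : M ≠ 0) :
    (∑ i ∈ I, w i * u i) ^ M ≤ (∑ i ∈ I, w i) ^ (M - 1) * ∑ i ∈ I, w i * u i ^ M := by
  obtain ⟨W, hW⟩ : ∃ W, W = ∑ i ∈ I, w i := ⟨_, rfl⟩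
  rw [← hW]
  have hW0 : 0 ≤ W := by
    rw [hW]
    exact Finset.sum_nonneg hw
  rcases hW0.eq_or_lt with h0 | h0
  · have h1 : ∀ i ∈ I, w i = 0 := (Finset.sum_eq_zero_iff_of_nonneg hw).1 (hW.symm.trans h0.symm)
    have h2 : ∑ i ∈ I, w i * u i = 0 := Finset.sum_eq_zero fun i hi => by rw [h1 i hi, zero_mul]
    have h3 : ∑ i ∈ I, w i * u i ^ M = 0 := Finset.sum_eq_zero fun i hi => by rw [h1 i hi, zero_mul]
    rw [h2, h3, mul_zero, zero_pow hM]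
  · have h1 := Real.pow_arith_mean_le_arith_mean_pow I (fun i => w i / W) u (fun i hi => div_nonneg (hw i hi) hW0)
      (by rw [← Finset.sum_div, ← hW, div_self h0.ne']) hu M
    have h2 : ∑ i ∈ I, w i / W * u i = (∑ i ∈ I, w i * u i) / W := by
      rw [Finset.sum_div]
      exact Finset.sum_congr rfl fun i _ => by ring
    have h3 : ∑ i ∈ I, w i / W * u i ^ M = (∑ i ∈ I, w i * u i ^ M) / W := by
      rw [Finset.sum_div]
      exact Finset.sum_congr rfl fun i _ => by ring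
    rw [h2, h3, div_pow, div_le_div_iff₀ (pow_pos h0 M) h0] at h1
    obtain ⟨M', rfl⟩ := Nat.exists_eq_succ_of_ne_zero hM
    rw [Nat.succ_sub_one]
    rw [Nat.succ_eq_add_one] at h1 ⊢
    have h4 : W * (∑ i ∈ I, w i * u i) ^ (M' + 1) ≤ W * (W ^ M' * ∑ i ∈ I, w i * u i ^ (M' + 1)) := by
      calc W * (∑ i ∈ I, w i * u i) ^ (M' + 1) = (∑ i ∈ I, w i * u i) ^ (M' + 1) * W := by ring
        _ ≤ (∑ i ∈ I, w i * u i ^ (M' + 1)) * W ^ (M' + 1) := h1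
        _ = W * (W ^ M' * ∑ i ∈ I, w i * u i ^ (M' + 1)) := by ring
    exact le_of_mul_le_mul_left h4 h0

private theorem blg_fin {ι : Type} (I : Finset ι) (w u s : ι → ℝ) {L a : ℝ} {M M₀ C2 C3 A₁ : ℕ} (hL : 2 ≤ L)
    (hw : ∀ i ∈ I, 0 ≤ w i) (hu : ∀ i ∈ I, 0 ≤ u i) (hM : M ≠ 0) (hMM : M ≤ M₀)
    (h1 : ∑ i ∈ I, w i ≤ L ^ C2) (h2 : ∀ i ∈ I, u i ^ M ≤ L ^ C3 * (a + s i)) (ha0 : 0 ≤ a)
    (ha : L ^ C2 * a ≤ (L ^ (C2 * M₀ + C3 + 1 + M₀ * (A₁ + 1)))⁻¹)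
    (hs : ∑ i ∈ I, w i * s i ≤ (L ^ (C2 * M₀ + C3 + 1 + M₀ * (A₁ + 1)))⁻¹) :
    ∑ i ∈ I, w i * u i ≤ (L ^ (A₁ + 1))⁻¹ := by
  have hL0 : (0 : ℝ) < L := by linarith
  have hL1 : (1 : ℝ) ≤ L := by linarith
  have hj := blg_jensen I w u hw hu hM
  have h3 : ∑ i ∈ I, w i * u i ^ M ≤ L ^ C3 * (2 * (L ^ (C2 * M₀ + C3 + 1 + M₀ * (A₁ + 1)))⁻¹) := by
    calc ∑ i ∈ I, w i * u i ^ M ≤ ∑ i ∈ I, w i * (L ^ C3 * (a + s i)) :=
          Finset.sum_le_sum fun i hi => mul_le_mul_of_nonneg_left (h2 i hi) (hw i hi)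
      _ = L ^ C3 * ((∑ i ∈ I, w i) * a + ∑ i ∈ I, w i * s i) := by
          rw [Finset.sum_mul, ← Finset.sum_add_distrib, Finset.mul_sum]
          exact Finset.sum_congr rfl fun i _ => by ring
      _ ≤ L ^ C3 * (2 * (L ^ (C2 * M₀ + C3 + 1 + M₀ * (A₁ + 1)))⁻¹) := by
          refine mul_le_mul_of_nonneg_left ?_ (by positivity)
          have h4 : (∑ i ∈ I, w i) * a ≤ L ^ C2 * a := mul_le_mul_of_nonneg_right h1 ha0
          linarith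
  have hw0 : 0 ≤ ∑ i ∈ I, w i := Finset.sum_nonneg hw
  have h4 : (∑ i ∈ I, w i) ^ (M - 1) ≤ L ^ (C2 * M₀) := by
    calc (∑ i ∈ I, w i) ^ (M - 1) ≤ (L ^ C2) ^ (M - 1) := pow_le_pow_left₀ hw0 h1 _
      _ = L ^ (C2 * (M - 1)) := by rw [← pow_mul]
      _ ≤ L ^ (C2 * M₀) := pow_le_pow_right₀ hL1 (Nat.mul_le_mul_left _ (by omega))
  have h5 : (∑ i ∈ I, w i * u i) ^ M ≤ ((L ^ (A₁ + 1))⁻¹) ^ M := by
    calc (∑ i ∈ I, w i * u i) ^ M ≤ (∑ i ∈ I, w i) ^ (M - 1) * ∑ i ∈ I, w i * u i ^ M := hj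
      _ ≤ L ^ (C2 * M₀) * (L ^ C3 * (2 * (L ^ (C2 * M₀ + C3 + 1 + M₀ * (A₁ + 1)))⁻¹)) :=
          mul_le_mul h4 h3 (Finset.sum_nonneg fun i hi => mul_nonneg (hw i hi) (pow_nonneg (hu i hi) _)) (by positivity)
      _ ≤ L ^ (C2 * M₀) * (L ^ C3 * (L * (L ^ (C2 * M₀ + C3 + 1 + M₀ * (A₁ + 1)))⁻¹)) := by gcongr
      _ = (L ^ (M₀ * (A₁ + 1)))⁻¹ := by
          rw [pow_add L (C2 * M₀ + C3 + 1), pow_add L (C2 * M₀ + C3), pow_add L (C2 * M₀)]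
          field_simp
      _ ≤ (L ^ ((A₁ + 1) * M))⁻¹ := by
          refine inv_anti₀ (by positivity) (pow_le_pow_right₀ hL1 ?_)
          rw [mul_comm]
          exact Nat.mul_le_mul_right _ hMM
      _ = ((L ^ (A₁ + 1))⁻¹) ^ M := by rw [inv_pow, ← pow_mul]
  exact le_of_pow_le_pow_left₀ hM (by positivity) h5

/-- the number of cells is at most a power of `log Y` -/
private theorem blg_R {β T F n m M M₀ C₁ c₀ N : ℕ} {L : ℝ} (hN : N ≤ β ^ (T + F + 2 * (n + 2))) (hβ : 1 ≤ β)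
    (hT : (T : ℝ) ≤ C₁ * Real.log L) (hF : F ≤ c₀) (hn : n ≤ m) (hM : M ≤ M₀) (hL : 1 ≤ L)
    (h1 : (β : ℝ) ^ (c₀ + 2 * (m + 2)) ≤ L) (h2 : (2 * (m + 2) : ℝ) ^ (2 ^ (m + 1)) ≤ L) :
    (N : ℝ) ^ M * (2 * (n + 2)) ^ (2 ^ (n + 1)) ≤ L ^ ((β * C₁ + 1) * M₀ + 1) := by
  have hL0 : (0 : ℝ) < L := by linarith
  have hβ1 : (1 : ℝ) ≤ β := by exact_mod_cast hβ
  have h3 : (β : ℝ) ^ T ≤ L ^ (β * C₁) := by
    have h4 : (β : ℝ) ≤ Real.exp β := by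
      have := Real.add_one_le_exp (β : ℝ)
      linarith
    calc (β : ℝ) ^ T ≤ Real.exp β ^ T := pow_le_pow_left₀ (by linarith) h4 _
      _ = Real.exp (β * T) := by
          rw [← Real.exp_nat_mul, mul_comm]
      _ ≤ Real.exp (β * (C₁ * Real.log L)) := by
          apply Real.exp_le_exp.2
          exact mul_le_mul_of_nonneg_left hT (by linarith)
      _ = L ^ (β * C₁) := by
          have h5 : (β : ℝ) * (C₁ * Real.log L) = ((β * C₁ : ℕ) : ℝ) * Real.log L := by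
            push_cast
            ring
          rw [h5, Real.exp_nat_mul, Real.exp_log hL0]
  have h4 : (N : ℝ) ≤ L ^ (β * C₁ + 1) := by
    calc (N : ℝ) ≤ (β : ℝ) ^ (T + F + 2 * (n + 2)) := by exact_mod_cast hN
      _ ≤ (β : ℝ) ^ (T + (c₀ + 2 * (m + 2))) := pow_le_pow_right₀ hβ1 (by omega)
      _ = (β : ℝ) ^ T * (β : ℝ) ^ (c₀ + 2 * (m + 2)) := by rw [pow_add]
      _ ≤ L ^ (β * C₁) * L := mul_le_mul h3 h1 (by positivity) (by positivity)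
      _ = L ^ (β * C₁ + 1) := by rw [pow_succ]
  have h5 : (N : ℝ) ^ M ≤ L ^ ((β * C₁ + 1) * M₀) := by
    calc (N : ℝ) ^ M ≤ (L ^ (β * C₁ + 1)) ^ M := pow_le_pow_left₀ (Nat.cast_nonneg _) h4 _
      _ = L ^ ((β * C₁ + 1) * M) := by rw [← pow_mul]
      _ ≤ L ^ ((β * C₁ + 1) * M₀) := pow_le_pow_right₀ hL (Nat.mul_le_mul_left _ hM)
  have hnm : (n : ℝ) ≤ m := by exact_mod_cast hn
  have hm0 : (0 : ℝ) ≤ m := Nat.cast_nonneg _
  have h6 : (2 * (n + 2) : ℝ) ^ (2 ^ (n + 1)) ≤ L := by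
    calc (2 * (n + 2) : ℝ) ^ (2 ^ (n + 1)) ≤ (2 * (m + 2) : ℝ) ^ (2 ^ (n + 1)) :=
          pow_le_pow_left₀ (by positivity) (by linarith) _
      _ ≤ (2 * (m + 2) : ℝ) ^ (2 ^ (m + 1)) :=
          pow_le_pow_right₀ (by linarith) (Nat.pow_le_pow_right (by norm_num) (by omega))
      _ ≤ L := h2
  calc (N : ℝ) ^ M * (2 * (n + 2)) ^ (2 ^ (n + 1)) ≤ L ^ ((β * C₁ + 1) * M₀) * L :=
        mul_le_mul h5 h6 (by positivity) (by positivity)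
    _ = L ^ ((β * C₁ + 1) * M₀ + 1) := by rw [pow_succ]

omit [IsAlgClosure K Ω] [Fact p.Prime] in
private theorem blg_s3 {A : GS D Ω} {n : ℕ} {P Qg Lm : Type} [Group P] [Group Qg] [MulAction Qg Lm] [Fintype Lm]
    (y : Wy D A) (Dg : LG p n P Qg Lm) (r : Rd A P Qg) (v : Vd n P Qg Lm) (B : Fin (n + 2) → Finset (Pl K)) :
    0 ≤ S3 y Dg r v B :=
  Finset.sum_nonneg fun _ _ => Finset.sum_nonneg fun _ _ => Finset.sum_nonneg fun _ _ => norm_nonneg _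

/-- the bound for one index -/
private theorem blg_one (hp2 : MOne p K) (hζ : IsPrimitiveRoot ζ p) (hz : Z2 p K) {b : ℕ}
    (m C₁ c₀ : ℕ) {L E : ℝ} (Q : DP K Ω) {A : GS D Ω} {n : ℕ} {P Qg Lm : Type} [Group P]
    [Group Qg] [MulAction Qg Lm] [Fintype Lm] [Finite P] [Finite Qg]
    {y : Wy D A} {Dg : LG p n P Qg Lm} {v : Vd n P Qg Lm} (hn : n ≤ m) (hy : y.Ok Q P Qg Lm n) (hb : y.M ≤ b)
    (hF : y.F.card ≤ c₀) (hv : v.Ok Dg) (hQ : IsPGroup p Qg) (hL : 1 ≤ L)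
    (h1 : ((b * (p * b) : ℕ) : ℝ) ^ (c₀ + 2 * (m + 2)) ≤ L) (h2 : (2 * (m + 2) : ℝ) ^ (2 ^ (m + 1)) ≤ L)
    {r : Rd A P Qg} (hr : r.Ok y.L Dg y.E y.Z) (hT : ((r.T.card : ℕ) : ℝ) ≤ C₁ * Real.log L)
    {lo hi : Fin (n + 2) → ℝ} (hE : 1 ≤ E) (hlo : ∀ k, E ≤ hi k) :
    (‖∑ q ∈ Fintype.piFinset (fun k => BX D y.Z r.T (lo k) (hi k)), Fq y r v q‖ /
        ∏ k, (Module.finrank ℚ K * hi k)) ^ (2 ^ (2 * n + 3)) ≤
      L ^ ((b * (p * b) * C₁ + 1) * 2 ^ (2 * m + 3) + 1) * ((m + 2) * E⁻¹ +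
        ((∏ k, (Module.finrank ℚ K * hi k)) * ((Module.finrank ℚ K * hi 0) *
            ∏ j : Fin (n + 1), (Module.finrank ℚ K * hi j.succ) ^ 2))⁻¹ *
          S3 y Dg r v fun k => BX D y.Z r.T (lo k) (hi k)) := by
  have hd : (1 : ℝ) ≤ (Module.finrank ℚ K : ℝ) := by
    exact_mod_cast Nat.one_le_iff_ne_zero.2 Module.finrank_pos.ne'
  have hX1 : ∀ k, hi k ≤ Module.finrank ℚ K * hi k := fun k => by
    have h3 : (0 : ℝ) ≤ hi k := by linarith [hlo k]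
    nlinarith
  have hX : ∀ k, 1 ≤ (Module.finrank ℚ K : ℝ) * hi k := fun k => by linarith [hlo k, hX1 k]
  have hb1 := bx hp2 hζ hz Q y hy hQ hr hv (fun k => BX D y.Z r.T (lo k) (hi k))
    (fun k => Module.finrank ℚ K * hi k) (fun k w hw => by
      have h3 := Finset.mem_filter.1 hw
      exact ⟨h3.1, h3.2.1.2⟩) (fun k => by
      refine ⟨hX k, ?_⟩
      have h3 : BX D y.Z r.T (lo k) (hi k) ⊆ PB K (hi k) := by
        intro w hw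
        rw [mem_PB]
        exact (Finset.mem_filter.1 hw).2.2.2.2
      have h4 : ((BX D y.Z r.T (lo k) (hi k)).card : ℝ) ≤ ((PB K (hi k)).card : ℝ) := by
        exact_mod_cast Finset.card_le_card h3
      exact h4.trans (H1.PN.pb_card (hi k) (by linarith [hlo k])))
  refine hb1.trans ?_
  have hp : 1 ≤ p := (Fact.out : p.Prime).one_lt.le
  have hP : 1 ≤ Nat.card P := Nat.card_pos
  have hbb : 1 ≤ b := hP.trans (hy.cP.trans hb)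
  have hcel := (cel_card y Dg r).2
  have hcard : Nat.card (Cel y Dg r) ≤ (b * (p * b)) ^ (r.T.card + y.F.card + 2 * (n + 2)) := by
    refine hcel.trans (Nat.pow_le_pow_left ?_ _)
    refine Nat.mul_le_mul (hy.cP.trans hb) ?_
    have h3 : Nat.card (UGm p n Qg Lm) = Nat.card Qg *
        p ^ (Nat.card (WN Qg Lm (Set.univ : Set (Fin (n + 2))) (n + 1)).s - 1) :=
      ug_card (wn_finite _ _)
    have h4 : 1 ≤ Nat.card Qg := Nat.card_pos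
    have h5 : p ^ (Nat.card (WN Qg Lm (Set.univ : Set (Fin (n + 2))) (n + 1)).s - 1) ≤ b := by
      refine le_trans ?_ (hy.cm.trans hb)
      rw [h3]
      exact Nat.le_mul_of_pos_left _ h4
    calc p ^ Nat.card (WN Qg Lm (Set.univ : Set (Fin (n + 2))) (n + 1)).s
        ≤ p ^ (Nat.card (WN Qg Lm (Set.univ : Set (Fin (n + 2))) (n + 1)).s - 1 + 1) :=
          Nat.pow_le_pow_right hp (by omega)
      _ = p * p ^ (Nat.card (WN Qg Lm (Set.univ : Set (Fin (n + 2))) (n + 1)).s - 1) := by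
          rw [pow_succ, mul_comm]
      _ ≤ p * b := Nat.mul_le_mul_left _ h5
  have hR := blg_R (M := 2 ^ (2 * n + 3)) (M₀ := 2 ^ (2 * m + 3)) hcard
    (Nat.one_le_iff_ne_zero.2 (by positivity)) hT hF hn
    (Nat.pow_le_pow_right (by norm_num) (by omega)) hL h1 h2
  have hE0 : (0 : ℝ) < E := by linarith
  have ha : ∑ k : Fin (n + 2), ((Module.finrank ℚ K : ℝ) * hi k)⁻¹ ≤ (m + 2) * E⁻¹ := by
    calc ∑ k : Fin (n + 2), ((Module.finrank ℚ K : ℝ) * hi k)⁻¹ ≤ ∑ _k : Fin (n + 2), E⁻¹ :=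
          Finset.sum_le_sum fun k _ => inv_anti₀ hE0 ((hlo k).trans (hX1 k))
      _ = (n + 2) * E⁻¹ := by
          rw [Finset.sum_const, Finset.card_univ, Fintype.card_fin, nsmul_eq_mul]
          push_cast
          ring
      _ ≤ (m + 2) * E⁻¹ := by
          have hnm : (n : ℝ) ≤ m := by exact_mod_cast hn
          refine mul_le_mul_of_nonneg_right (by linarith) (inv_nonneg.2 hE0.le)
  have hS := blg_s3 y Dg r v fun k => BX D y.Z r.T (lo k) (hi k)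
  have hX0 : ∀ k, 0 ≤ (Module.finrank ℚ K : ℝ) * hi k := fun k => by linarith [hX k]
  have hpr : 0 ≤ ((∏ k, (Module.finrank ℚ K * hi k)) * ((Module.finrank ℚ K * hi 0) *
            ∏ j : Fin (n + 1), (Module.finrank ℚ K * hi j.succ) ^ 2))⁻¹ :=
    inv_nonneg.2 (mul_nonneg (Finset.prod_nonneg fun k _ => hX0 k)
      (mul_nonneg (hX0 0) (Finset.prod_nonneg fun j _ => pow_nonneg (hX0 _) 2)))
  have hsum0 : 0 ≤ ∑ k : Fin (n + 2), ((Module.finrank ℚ K : ℝ) * hi k)⁻¹ :=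
    Finset.sum_nonneg fun k _ => inv_nonneg.2 (hX0 k)
  refine mul_le_mul hR ?_ (add_nonneg hsum0 (mul_nonneg hpr hS)) (by positivity)
  linarith

theorem blg (hp2 : MOne p K) (hζ : IsPrimitiveRoot ζ p) (hz : Z2 p K) {κ b : ℕ} (hG : GPB D Ω κ b)
    (m C₁ A₁ C' c₀ : ℕ) (ε : ℝ) (hε : 0 < ε) :
    ∃ Y₀ : ℝ, ∀ Y : ℝ, Y₀ ≤ Y → ∀ (Q : DP K Ω) (A : GS D Ω) (n : ℕ) (P Qg Lm : Type) [Group P]
      [Group Qg] [MulAction Qg Lm] [Fintype Lm] [Finite P] [Finite Qg] [Finite (UGd p n Qg Lm)]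
      (y : Wy D A) (Dg : LG p n P Qg Lm) (v : Vd n P Qg Lm), n ≤ m → y.Ok Q P Qg Lm n → y.M ≤ b →
      y.F.card ≤ c₀ → v.Ok Dg → IsPGroup p Qg → v.f 0 ^ (p ^ κ) = 1 →
      Nat.card ((Fin (n + 1) → Bool) → UGd p n Qg Lm) ≤ b → Lkd Dg v.lam →
      GLp p y.Fr b (C₁ * (3 * m + 4)) C' Y → ∀ Z₀ : ℝ, Z₀ ≤ Y ^ C₁ →
      (∀ w, D.Gd w → (nm w : ℝ) ≤ Z₀ → w ∈ y.Z) →
      ∀ (ι : Type) (I : Finset ι) (r : ι → Rd A P Qg) (lo hi : ι → Fin (n + 2) → ℝ),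
      Rf y Dg C₁ Y I r →
      (∀ i ∈ I, ∀ k, Real.exp (Real.log Y ^ ε) ≤ lo i k ∧ lo i k ≤ hi i k ∧ hi i k ≤ 2 * lo i k ∧
        hi i k ≤ Z₀) →
      ∑ i ∈ I, (nr (r i).T)⁻¹ * (∏ k, lo i k)⁻¹ *
          ‖∑ q ∈ Fintype.piFinset (fun k => BX D y.Z (r i).T (lo i k) (hi i k)), Fq y (r i) v q‖ ≤
        Real.log Y ^ (-(A₁ : ℝ)) := by
  obtain ⟨C2, Y₂, hY₂⟩ := nrs K C₁
  obtain ⟨A', hA'⟩ : ∃ A', A' = C2 * 2 ^ (2 * m + 3) + ((b * (p * b) * C₁ + 1) * 2 ^ (2 * m + 3) + 1) + 1 +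
    2 ^ (2 * m + 3) * (A₁ + 1) := ⟨_, rfl⟩
  obtain ⟨Y₁, hY₁⟩ := smd hζ hG m C₁ A' C' ε hε
  obtain ⟨L₀, hL₀⟩ := blg_exp (C2 + 1 + A') hε
  obtain ⟨L₁, hL₁⟩ : ∃ L₁, L₁ = max (max (max L₀ 2) (max (m + 2 : ℝ) ((2 * Module.finrank ℚ K : ℝ) ^ (m + 2))))
    (max (((b * (p * b) : ℕ) : ℝ) ^ (c₀ + 2 * (m + 2))) ((2 * (m + 2) : ℝ) ^ (2 ^ (m + 1)))) := ⟨_, rfl⟩
  refine ⟨max (max Y₁ Y₂) (Real.exp L₁), ?_⟩
  intro Y hY Q A n P Qg Lm _ _ _ _ _ _ _ y Dg v hn hy hb hF hv hQ hf hc hlk hgl Z₀ hZ₀ hZ ι I r lo hi hRf hlh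
  have hYL : L₁ ≤ Real.log Y := by
    have h1 := le_of_max_le_right hY
    rw [← Real.log_exp L₁]
    exact Real.log_le_log (Real.exp_pos _) h1
  rw [hL₁] at hYL
  have g1 : L₀ ≤ Real.log Y := le_trans ((le_max_left _ _).trans ((le_max_left _ _).trans (le_max_left _ _))) hYL
  have g2 : 2 ≤ Real.log Y := le_trans ((le_max_right _ _).trans ((le_max_left _ _).trans (le_max_left _ _))) hYL
  have g3 : (m + 2 : ℝ) ≤ Real.log Y := le_trans ((le_max_left _ _).trans ((le_max_right _ _).trans (le_max_left _ _))) hYL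
  have g4 : (2 * Module.finrank ℚ K : ℝ) ^ (m + 2) ≤ Real.log Y :=
    le_trans ((le_max_right _ _).trans ((le_max_right _ _).trans (le_max_left _ _))) hYL
  have g5 : ((b * (p * b) : ℕ) : ℝ) ^ (c₀ + 2 * (m + 2)) ≤ Real.log Y := le_trans ((le_max_left _ _).trans (le_max_right _ _)) hYL
  have g6 : (2 * (m + 2) : ℝ) ^ (2 ^ (m + 1)) ≤ Real.log Y := le_trans ((le_max_right _ _).trans (le_max_right _ _)) hYL
  have hsm := hY₁ Y (le_of_max_le_left (le_of_max_le_left hY)) Q A n P Qg Lm y Dg v hn hy hv hQ hf hc hlk hgl Z₀ hZ₀ hZ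
    ι I r lo hi hRf (fun i hi' k => ⟨(hlh i hi' k).1, (hlh i hi' k).2.1, (hlh i hi' k).2.2.2⟩)
  have hnr := hY₂ Y (le_of_max_le_right (le_of_max_le_left hY)) ι I (fun i => (r i).T) hRf.nr hRf.mul
  have hT := hRf.card
  have hok := hRf.ok
  generalize Real.log Y = L at hsm hnr g1 g2 g3 g4 g5 g6 hlh hT ⊢
  have hL0 : 0 < L := by linarith
  have hL1 : 1 ≤ L := by linarith
  have hd : (1 : ℝ) ≤ (Module.finrank ℚ K : ℝ) := by
    exact_mod_cast Nat.one_le_iff_ne_zero.2 Module.finrank_pos.ne'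
  have hE : 1 ≤ Real.exp (L ^ ε) := Real.one_le_exp (Real.rpow_nonneg hL0.le _)
  have hlo1 : ∀ i ∈ I, ∀ k, 1 ≤ lo i k := fun i hi' k => hE.trans (hlh i hi' k).1
  have hhi1 : ∀ i ∈ I, ∀ k, 1 ≤ hi i k := fun i hi' k => (hlo1 i hi' k).trans (hlh i hi' k).2.1
  have hX0 : ∀ i ∈ I, ∀ k, 0 < (Module.finrank ℚ K : ℝ) * hi i k := fun i hi' k =>
    mul_pos (by linarith) (by linarith [hhi1 i hi' k])
  have hnr0 : ∀ T : Finset (Pl K), 0 ≤ (nr T)⁻¹ := fun T =>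
    inv_nonneg.2 (Finset.prod_nonneg fun v _ => Nat.cast_nonneg _)
  have hrA : L ^ (-(A' : ℝ)) = (L ^ A')⁻¹ := by rw [Real.rpow_neg hL0.le, Real.rpow_natCast]
  rw [hrA, hA'] at hsm
  have hexp := hL₀ L g1
  have hfin := blg_fin I (fun i => (nr (r i).T)⁻¹)
    (fun i => ‖∑ q ∈ Fintype.piFinset (fun k => BX D y.Z (r i).T (lo i k) (hi i k)), Fq y (r i) v q‖ /
      ∏ k, (Module.finrank ℚ K * hi i k))
    (fun i => ((∏ k, (Module.finrank ℚ K * hi i k)) * ((Module.finrank ℚ K * hi i 0) *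
            ∏ j : Fin (n + 1), (Module.finrank ℚ K * hi i j.succ) ^ 2))⁻¹ *
          S3 y Dg (r i) v fun k => BX D y.Z (r i).T (lo i k) (hi i k))
    (L := L) (a := (m + 2) * (Real.exp (L ^ ε))⁻¹) (M := 2 ^ (2 * n + 3)) (M₀ := 2 ^ (2 * m + 3)) (C2 := C2)
    (C3 := (b * (p * b) * C₁ + 1) * 2 ^ (2 * m + 3) + 1) (A₁ := A₁) g2 (fun i _ => hnr0 _)
    (fun i hi' => div_nonneg (norm_nonneg _) (Finset.prod_nonneg fun k _ => (hX0 i hi' k).le)) (by positivity)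
    (Nat.pow_le_pow_right (by norm_num) (by omega)) hnr
    (fun i hi' => blg_one hp2 hζ hz m C₁ c₀ Q hn hy hb hF hv hQ hL1 g5 g6 (hok i hi') (hT i hi') hE
      (fun k => (hlh i hi' k).1.trans (hlh i hi' k).2.1)) (by positivity) (by
      rw [← hA', ← Real.exp_neg]
      calc L ^ C2 * ((m + 2) * Real.exp (-(L ^ ε))) ≤ L ^ C2 * (L * Real.exp (-(L ^ ε))) := by gcongr
        _ = (L ^ (C2 + 1 + A') * Real.exp (-(L ^ ε))) * (L ^ A')⁻¹ := by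
            rw [pow_add L (C2 + 1), pow_succ]
            field_simp
        _ ≤ 1 * (L ^ A')⁻¹ := mul_le_mul_of_nonneg_right hexp (by positivity)
        _ = (L ^ A')⁻¹ := one_mul _) hsm
  have hprod : ∀ i ∈ I, (∏ k, lo i k)⁻¹ ≤
      (2 * Module.finrank ℚ K : ℝ) ^ (m + 2) * (∏ k, (Module.finrank ℚ K * hi i k))⁻¹ := by
    intro i hi'
    have hc : (0 : ℝ) < (2 * Module.finrank ℚ K : ℝ) ^ (m + 2) := by positivity
    have hl0 : 0 < ∏ k, lo i k := Finset.prod_pos fun k _ => by linarith [hlo1 i hi' k]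
    have h3 : ∏ k, ((Module.finrank ℚ K : ℝ) * hi i k) ≤ (2 * Module.finrank ℚ K : ℝ) ^ (m + 2) * ∏ k, lo i k := by
      calc ∏ k, ((Module.finrank ℚ K : ℝ) * hi i k) ≤ ∏ k, ((2 * Module.finrank ℚ K : ℝ) * lo i k) := by
            refine Finset.prod_le_prod (fun k _ => (hX0 i hi' k).le) fun k _ => ?_
            have := (hlh i hi' k).2.2.1
            nlinarith
        _ = (2 * Module.finrank ℚ K : ℝ) ^ (n + 2) * ∏ k, lo i k := by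
            rw [Finset.prod_mul_distrib, Finset.prod_const, Finset.card_univ, Fintype.card_fin]
        _ ≤ (2 * Module.finrank ℚ K : ℝ) ^ (m + 2) * ∏ k, lo i k :=
            mul_le_mul_of_nonneg_right (pow_le_pow_right₀ (by linarith) (by omega)) hl0.le
    have h4 := inv_anti₀ (Finset.prod_pos fun k _ => hX0 i hi' k) h3
    calc (∏ k, lo i k)⁻¹ = (2 * Module.finrank ℚ K : ℝ) ^ (m + 2) *
          ((2 * Module.finrank ℚ K : ℝ) ^ (m + 2) * ∏ k, lo i k)⁻¹ := by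
          rw [mul_inv, ← mul_assoc, mul_inv_cancel₀ hc.ne', one_mul]
      _ ≤ _ := mul_le_mul_of_nonneg_left h4 hc.le
  calc ∑ i ∈ I, (nr (r i).T)⁻¹ * (∏ k, lo i k)⁻¹ *
          ‖∑ q ∈ Fintype.piFinset (fun k => BX D y.Z (r i).T (lo i k) (hi i k)), Fq y (r i) v q‖
      ≤ ∑ i ∈ I, (2 * Module.finrank ℚ K : ℝ) ^ (m + 2) * ((nr (r i).T)⁻¹ *
          (‖∑ q ∈ Fintype.piFinset (fun k => BX D y.Z (r i).T (lo i k) (hi i k)), Fq y (r i) v q‖ /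
            ∏ k, (Module.finrank ℚ K * hi i k))) := by
        refine Finset.sum_le_sum fun i hi' => ?_
        have h3 := mul_le_mul_of_nonneg_right (mul_le_mul_of_nonneg_left (hprod i hi') (hnr0 (r i).T))
          (norm_nonneg (∑ q ∈ Fintype.piFinset (fun k => BX D y.Z (r i).T (lo i k) (hi i k)), Fq y (r i) v q))
        refine h3.trans (le_of_eq ?_)
        rw [div_eq_mul_inv]
        ring
    _ = (2 * Module.finrank ℚ K : ℝ) ^ (m + 2) * ∑ i ∈ I, ((nr (r i).T)⁻¹ *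
          (‖∑ q ∈ Fintype.piFinset (fun k => BX D y.Z (r i).T (lo i k) (hi i k)), Fq y (r i) v q‖ /
            ∏ k, (Module.finrank ℚ K * hi i k))) := by rw [Finset.mul_sum]
    _ ≤ L * (L ^ (A₁ + 1))⁻¹ := by
        refine mul_le_mul g4 hfin (Finset.sum_nonneg fun i hi' => mul_nonneg (hnr0 _)
          (div_nonneg (norm_nonneg _) (Finset.prod_nonneg fun k _ => (hX0 i hi' k).le))) hL0.le
    _ = L ^ (-(A₁ : ℝ)) := by
        rw [Real.rpow_neg hL0.le, Real.rpow_natCast, pow_succ]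
        field_simp

end H62.BL
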