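import Pool.Agent.H62.BL.Lgp
import Pool.Agent.H62.BL.Blg
import Pool.Agent.H35.UB.Fin

/-!
# [H62 BL BLF] THE BOX LEMMA in the form `BLst` (H35/UB) (150-200 lines). File Pool/Agent/H62/BL/Blf.lean

* `blf`: for good places `GLp` and a linked tuple `l` of labels: the box inequality `BLb`. PROOF. Given `Gk`, `Zw`, `E`, `I`, `X` as in `BLb`: `blg` for `y = ⟨L, Fr, Mw, E, Zw, F⟩`, `Dg = lgN hn hN`, `v = ⟨fun k => (l k).g, fun k => lbL hn (l k) (h k), fun k => (l k).f, Gk⟩`,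
  `r i = ⟨(X i).s, (X i).g, (X i).α, (X i).φ, (X i).G⟩`, `lo`, `hi` of `X i`, `Z₀ = Y ^ C₁` (real exponent, `≤ Y ^ c₁`), natural numbers `c₁ ≥ C₁`, `a₁ ≥ A₀` (`Y ≥ 1`, `log Y ≥ 1`: `Real.rpow_le_rpow_of_exponent_le`).
  - `v.Ok`: `g`: `(l k).g` and `s (lam k)` represent the same coset of `Nk N 1`; `f`: `(l k).ok`: for `x` over `(l k).f` (`Quotient.out`, `lb_smul`): `x g x⁻¹ g⁻¹ ∈ Nk N 1`, `χ (x⁻¹ u x) = χ u` for `u ∈ Nk N n` (from `χ (x (x⁻¹ u x) x⁻¹) = χ (x⁻¹ u x)`); `eq`: `u * x = x * (x⁻¹ u x)`: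
    if `Gk k x ≠ 0` then `x` is over `(l k).f`; if `Gk k x = 0` both sides are `0`.
  - `y.Ok`: `sep`: `F` from `H77.WD.sep`; `rt`: `j`, `z`; the cardinalities: `ugm_le`, `ugd_le`, `card P ≤ m ≤ blM` (`Mw = blM p m`; `n + 1 ≤ m` by `n_lt`).
  - `(r i).Ok`: `hon`, `sur` given; `lab`, `al`: evaluate `hat L A φ = (mk' N).comp (ev A g α)` at the generators (`hat_inl`, `hat_inr`, `FreeGroup.lift_apply_of`).
  - `Rf`: `nr`, `card`, `mul` given (`c₁` large). `v.f 0 ^ (p ^ κ) = 1`: from the exponent of `P`. `card ((Fin (n + 1) → Bool) → UGd) ≤ (blM p m) ^ (2 ^ m) = b` (`Nat.card_pi` / `Nat.card_fun`, `n + 1 ≤ m`).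
  - The sums are the same: `Bd.sm` is the sum over `q ∈ bx` (`piFinset` filtered by injectivity), `Fq` is the summand if `Adm (X i).s q` and `0` otherwise; `q ∈ piFinset BX` is not in `s`; `Bd.th = thq` (`ev`, `lbq`: `FreeGroup.lift (Sum.elim ..)`), `wdE L A Mw E Zw (Fr.F v) = y.wv v`; `T0 ε Y = exp ((log Y)^ε)`.
* `bl`. PROOF. `Mw = blM p m`, `b = (blM p m) ^ (2 ^ m)` (`≥ Mw`; `m ≥ 1`, otherwise there is no `P`), `F` from `H77.WD.sep` (for some `L`: `exists_LDs`; `IsSep`), `C'`, `Y₁` from `glU` with `M = b`, `C = c₁ (3 m + 4)`; for `L₀`: `Fr₀` from `exists_FR`, `L = cjL L₀ s`, `Fr = cjF Fr₀ s`,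
  `SimL`: `sim_cj`. `BLat`: if `Nk N n = ⊥` take `Lkd = fun _ => False`: `bru l u = 1` (`bru_mem`) and both characters vanish at `1` (additive), so the hypothesis of the first part is false. Otherwise `n + 1 ≤ m` (`n_lt`), `Lkd = LkN hn hN`: `lkd_pair` and `blf`.
-/

set_option autoImplicit false

open scoped NumberField
open IsDedekindDomain
open scoped Classical

noncomputable section

namespace H62.BL

open H63.MA H38.BB H38.BG H57.PC H57.BRA H77.WD H77.WE H77.GL H57.AN H35.UB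

variable {K : Type} [Field K] [NumberField K] {Ω : Type} [Field Ω] [Algebra K Ω] [IsAlgClosure K Ω]
  {p : ℕ} [Fact p.Prime] {ζ : K} {D : RD0 K p ζ}

omit [NumberField K] [IsAlgClosure K Ω] [Fact p.Prime] in
private theorem blf_le (m : ℕ) [Fact p.Prime] : m ≤ blM p m :=
  Nat.le_mul_of_pos_right m (Nat.pow_pos (Fact.out : p.Prime).pos)

section grp

variable {P : Type} [Group P] {N : Subgroup P} [N.Normal] {n : ℕ}

/-- the label is fixed by the Frobenius -/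
private theorem blf_fix {p : ℕ} (hn : Nk N (n + 1) = ⊥) (l : Lt p P N) (h : l.ok n) :
    l.f • lbL hn l h = lbL hn l h := by
  obtain ⟨x, hx⟩ := QuotientGroup.mk_surjective l.f
  obtain ⟨h1, h2⟩ := h.2.2.2 x hx
  rw [← hx, lb_smul]
  refine Lb.ext ?_ (funext fun u => ?_)
  · change (x : P ⧸ Nk N 1) * (l.g : P ⧸ Nk N 1) * (x : P ⧸ Nk N 1)⁻¹ = (l.g : P ⧸ Nk N 1)
    rw [← QuotientGroup.eq_one_iff] at h1
    rw [QuotientGroup.mk_mul, QuotientGroup.mk_mul, QuotientGroup.mk_mul, QuotientGroup.mk_inv,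
      QuotientGroup.mk_inv] at h1
    exact mul_inv_eq_one.1 h1
  · change (if x⁻¹ * u * x ∈ Nk N n then l.χ (x⁻¹ * u * x) else 0) =
      if u ∈ Nk N n then l.χ u else 0
    have h3 : x * (x⁻¹ * u * x) * x⁻¹ = u := by group
    by_cases hu : u ∈ Nk N n
    · have h4 : x⁻¹ * u * x ∈ Nk N n := by simpa using (nk_normal N n).conj_mem u hu x⁻¹
      have h5 := h2 _ h4
      rw [h3] at h5
      rw [if_pos hu, if_pos h4, h5]
    · have h4 : x⁻¹ * u * x ∉ Nk N n := fun h5 => hu (by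
        have h6 := (nk_normal N n).conj_mem _ h5 x
        rwa [h3] at h6)
      rw [if_neg hu, if_neg h4]

/-- the data of the variable primes -/
private theorem blf_v {p : ℕ} (hn : Nk N (n + 1) = ⊥)
    (hN : N = Subgroup.closure {x | x ∈ N ∧ x ^ p = 1}) (l : Fin (n + 2) → Lt p P N)
    (h : ∀ k, (l k).ok n) (Gk : Fin (n + 2) → P → ℂ) (h1 : ∀ k x, ‖Gk k x‖ ≤ 1)
    (h2 : ∀ k x, Gk k x ≠ 0 → (x : P ⧸ N) = (l k).f)
    (h3 : ∀ k x, ∀ u ∈ Nk N n, Gk k (x * u) = ep p ((l k).χ u) * Gk k x) :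
    (⟨fun k => (l k).g, fun k => lbL hn (l k) (h k), fun k => (l k).f, Gk⟩ :
      Vd n P (P ⧸ N) (Lb p N n)).Ok (lgN hn hN) where
  g k := by
    change (l k).g * ((lbL hn (l k) (h k)).mem.choose)⁻¹ ∈ Nk N 1
    have h4 := (lbL hn (l k) (h k)).mem.choose_spec.2
    rw [← QuotientGroup.eq_one_iff, QuotientGroup.mk_mul, QuotientGroup.mk_inv, h4]
    change ((l k).g : P ⧸ Nk N 1) * ((l k).g : P ⧸ Nk N 1)⁻¹ = 1
    rw [mul_inv_cancel]
  f k := blf_fix hn (l k) (h k)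
  G := h1
  sup := h2
  eq k u hu x := by
    change u ∈ Nk N n at hu
    change Gk k (u * x) = ep p (if u ∈ Nk N n then (l k).χ u else 0) * Gk k x
    have h4 : x⁻¹ * u * x ∈ Nk N n := by simpa using (nk_normal N n).conj_mem u hu x⁻¹
    have h5 : u * x = x * (x⁻¹ * u * x) := by group
    rw [if_pos hu, h5, h3 k x _ h4]
    by_cases h6 : Gk k x = 0
    · rw [h6, mul_zero, mul_zero]
    · have h7 := ((h k).2.2.2 x (h2 k x h6)).2 _ h4
      have h8 : x * (x⁻¹ * u * x) * x⁻¹ = u := by group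
      rw [h8] at h7
      rw [h7]

end grp

omit [IsAlgClosure K Ω] [Fact p.Prime] in
/-- the data of the fixed primes -/
private theorem blf_r {A : GS D Ω} {P : Type} [Group P] {N : Subgroup P} [N.Normal] {n : ℕ}
    (hn : Nk N (n + 1) = ⊥) (hN : N = Subgroup.closure {x | x ∈ N ∧ x ^ p = 1}) (L : LDs D Ω)
    {E Zw : Finset (Pl K)} (hZw : ∀ v ∈ Zw, v ∉ D.S0) (X : Bd A P N n) (h1 : E ⊆ X.s)
    (h2 : X.s ⊆ Zw) (h3 : ∀ v, v ∉ X.s → X.g v = 1) (h4 : HonE L E X.s X.φ)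
    (h5 : Function.Surjective X.φ) (h6 : hat L A X.φ = (QuotientGroup.mk' N).comp (ev A X.g X.α))
    (h7 : ∀ v x, ‖X.G v x‖ ≤ 1) :
    (⟨X.s, X.g, X.α, X.φ, X.G⟩ : Rd A P (P ⧸ N)).Ok L (lgN hn hN) E Zw where
  sub := h2
  sE := h1
  out v hv := hZw v (h2 hv)
  one := h3
  hon := h4
  sur := h5
  lab v := by
    have h8 := DFunLike.congr_fun h6 (FreeGroup.of (Sum.inl v))
    rw [hat_inl, MonoidHom.comp_apply] at h8
    unfold ev at h8
    rw [FreeGroup.lift_apply_of] at h8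
    exact h8
  al i := by
    have h8 := DFunLike.congr_fun h6 (FreeGroup.of (Sum.inr i))
    rw [hat_inr, MonoidHom.comp_apply] at h8
    unfold ev at h8
    rw [FreeGroup.lift_apply_of] at h8
    exact h8
  G := h7

omit [IsAlgClosure K Ω] [Fact p.Prime] in
/-- the sums are the same -/
private theorem blf_sm {A : GS D Ω} {P : Type} [Group P] {N : Subgroup P} [N.Normal] {n : ℕ}
    {L : LDs D Ω} (Fr : FR L) (Mw : ℕ) (E Zw : Finset (Pl K)) (F : Finset Gal(Ω/K))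
    (X : Bd A P N n) (l : Fin (n + 2) → Lt p P N) (la : Fin (n + 2) → Lb p N n)
    (Gk : Fin (n + 2) → P → ℂ) :
    X.sm Fr Mw E Zw l Gk =
      ∑ q ∈ Fintype.piFinset (fun k => BX D Zw X.s (X.lo k) (X.hi k)),
        Fq (⟨L, Fr, Mw, E, Zw, F⟩ : Wy D A) (⟨X.s, X.g, X.α, X.φ, X.G⟩ : Rd A P (P ⧸ N))
          ⟨fun k => (l k).g, la, fun k => (l k).f, Gk⟩ q := by
  unfold Bd.sm Bd.bx
  rw [Finset.sum_filter]
  refine Finset.sum_congr rfl fun q hq => ?_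
  have h1 : ∀ k, q k ∉ X.s := fun k => by
    have h2 := Fintype.mem_piFinset.1 hq k
    exact (Finset.mem_filter.1 h2).2.2.1
  unfold Fq Adm
  by_cases h2 : Function.Injective q
  · rw [if_pos h2, if_pos ⟨h2, h1⟩]
    rfl
  · rw [if_neg h2, if_neg fun h3 => h2 h3.1]

theorem blf (hp2 : MOne p K) (hζ : IsPrimitiveRoot ζ p) (hzz : Z2 p K) {j : ℕ} (hj : 1 ≤ j) {z : K}
    (hz : IsPrimitiveRoot z (p ^ (j + 1))) {κ m : ℕ} (hM : blM p m ≤ p ^ (j + 1))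
    (hG : GPB D Ω κ (blM p m ^ (2 ^ m))) (c₁ C' : ℕ) (C₁ A₀ ε : ℝ) (hε : 0 < ε) (hc : C₁ ≤ c₁)
    (Q : DP K Ω) (F : Finset Gal(Ω/K)) (hF : IsSep D Q (blM p m) F) (A : GS D Ω) :
    ∃ Y₀ : ℝ, 3 ≤ Y₀ ∧ ∀ Y : ℝ, Y₀ ≤ Y → ∀ (L : LDs D Ω) (Fr : FR L),
      GLp p Fr (blM p m ^ (2 ^ m)) (c₁ * (3 * m + 4)) C' Y →
      ∀ (P : Type) [Group P] [Finite P], Nat.card P ≤ m → (∀ x : P, x ^ (p ^ κ) = 1) →
        ∀ (N : Subgroup P) [N.Normal] (n : ℕ) (hn : Nk N (n + 1) = ⊥)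
          (hN : N = Subgroup.closure {x | x ∈ N ∧ x ^ p = 1}), Nk N n ≠ ⊥ →
          ∀ l : Fin (n + 2) → Lt p P N, LkN hn hN l → BLb Fr A (blM p m) N n C₁ A₀ ε Y l := by
  have hp : p.Prime := Fact.out
  obtain ⟨a₁, ha₁⟩ := exists_nat_ge A₀
  obtain ⟨Y₁, hY₁⟩ := blg hp2 hζ hzz hG m c₁ a₁ C' F.card ε hε
  refine ⟨max 3 Y₁, le_max_left _ _, ?_⟩
  intro Y hY L Fr hgl P _ _ hP hκ N _ n hn hN hne l hl
  obtain ⟨h, hlk⟩ := hl
  have hY3 : 3 ≤ Y := (le_max_left _ _).trans hY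
  have hY0 : (0 : ℝ) < Y := by linarith
  have hlY : 1 ≤ Real.log Y := by
    rw [Real.le_log_iff_exp_le hY0]
    exact Real.exp_one_lt_three.le.trans hY3
  have hllY : 0 ≤ Real.log (Real.log Y) := Real.log_nonneg hlY
  have hnP := n_lt hn hne
  have hnm : n ≤ m := by omega
  have hm1 : 1 ≤ m := by omega
  have hMm : m ≤ blM p m := blf_le m
  have hM1 : 1 ≤ blM p m := hm1.trans hMm
  have hMb : blM p m ≤ blM p m ^ (2 ^ m) := Nat.le_self_pow (by positivity) _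
  have hYC : Y ^ C₁ ≤ Y ^ c₁ := by
    rw [← Real.rpow_natCast]
    exact Real.rpow_le_rpow_of_exponent_le (by linarith) hc
  have hLC : Real.log Y ^ C₁ ≤ Real.log Y ^ c₁ := by
    rw [← Real.rpow_natCast]
    exact Real.rpow_le_rpow_of_exponent_le hlY hc
  intro Gk hG1 hG2 hG3 Zw E hZw hZ _ ι I X hX1 hX2 hX3 hX4
  have hPQ : IsPGroup p (P ⧸ N) := by
    intro x
    obtain ⟨x, rfl⟩ := QuotientGroup.mk_surjective x
    refine ⟨κ, ?_⟩
    rw [← QuotientGroup.mk_pow, hκ, QuotientGroup.mk_one]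
  have hf : ∀ x : P ⧸ N, x ^ (p ^ κ) = 1 := by
    intro x
    obtain ⟨x, rfl⟩ := QuotientGroup.mk_surjective x
    rw [← QuotientGroup.mk_pow, hκ, QuotientGroup.mk_one]
  have hud : Nat.card (UGd p n (P ⧸ N) (Lb p N n)) ≤ blM p m := ugd_le hp hP hnm
  have hum : Nat.card (UGm p n (P ⧸ N) (Lb p N n)) ≤ blM p m := ugm_le hp hP hnm
  have hfin : Finite (UGd p n (P ⧸ N) (Lb p N n)) := fin_ugd
  have hcard : Nat.card ((Fin (n + 1) → Bool) → UGd p n (P ⧸ N) (Lb p N n)) ≤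
      blM p m ^ (2 ^ m) := by
    rw [Nat.card_fun, Nat.card_fun, Nat.card_eq_fintype_card (α := Bool), Fintype.card_bool,
      Nat.card_eq_fintype_card (α := Fin (n + 1)), Fintype.card_fin]
    calc Nat.card (UGd p n (P ⧸ N) (Lb p N n)) ^ (2 ^ (n + 1)) ≤ blM p m ^ (2 ^ (n + 1)) :=
          Nat.pow_le_pow_left hud _
      _ ≤ blM p m ^ (2 ^ m) :=
          Nat.pow_le_pow_right hM1 (Nat.pow_le_pow_right (by norm_num) (by omega))
  have hy : (⟨L, Fr, blM p m, E, Zw, F⟩ : Wy D A).Ok Q P (P ⧸ N) (Lb p N n) n := {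
    sep := hF
    rt := ⟨j, z, hj, hz, hM⟩
    out := hZw
    cP := hP.trans hMm
    cQ := (Nat.card_le_card_of_surjective _ (QuotientGroup.mk'_surjective N)).trans (hP.trans hMm)
    cm := hum
    cd := hud }
  have hR : Rf (⟨L, Fr, blM p m, E, Zw, F⟩ : Wy D A) (lgN hn hN) c₁ Y I
      (fun i => (⟨(X i).s, (X i).g, (X i).α, (X i).φ, (X i).G⟩ : Rd A P (P ⧸ N))) := {
    ok := fun i hi => blf_r hn hN L hZw (X i) (hX1 i hi).1 (hX1 i hi).2.1 (hX2 i hi).1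
      (hX2 i hi).2.1 (hX2 i hi).2.2.1 (hX2 i hi).2.2.2.1 (hX2 i hi).2.2.2.2
    nr := fun i hi => (hX1 i hi).2.2.1.trans hYC
    card := fun i hi => (hX1 i hi).2.2.2.trans (mul_le_mul_of_nonneg_right hc hllY)
    mul := fun s => (hX4 s).trans hLC }
  have hmain := hY₁ Y ((le_max_right _ _).trans hY) Q A n P (P ⧸ N) (Lb p N n)
    ⟨L, Fr, blM p m, E, Zw, F⟩ (lgN hn hN)
    ⟨fun k => (l k).g, fun k => lbL hn (l k) (h k), fun k => (l k).f, Gk⟩ hnm hy hMb le_rfl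
    (blf_v hn hN l h Gk hG1 hG2 hG3) hPQ (hf _) hcard hlk hgl (Y ^ C₁) hYC hZ ι I
    (fun i => (⟨(X i).s, (X i).g, (X i).α, (X i).φ, (X i).G⟩ : Rd A P (P ⧸ N)))
    (fun i => (X i).lo) (fun i => (X i).hi) hR (fun i hi k => hX3 i hi k)
  have hfin : Real.log Y ^ (-(a₁ : ℝ)) ≤ Real.log Y ^ (-A₀) :=
    Real.rpow_le_rpow_of_exponent_le hlY (by linarith)
  refine le_trans (le_of_eq ?_) (hmain.trans hfin)
  refine Finset.sum_congr rfl fun i _ => ?_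
  rw [blf_sm Fr (blM p m) E Zw F (X i) l (fun k => lbL hn (l k) (h k)) Gk]

/-- THE BOX LEMMA -/
theorem bl (hp2 : MOne p K) (hζ : IsPrimitiveRoot ζ p) (hzz : Z2 p K) {j : ℕ} (hj : 1 ≤ j) {z : K}
    (hz : IsPrimitiveRoot z (p ^ (j + 1))) {κ m : ℕ} (hM : blM p m ≤ p ^ (j + 1))
    (hG : GPB D Ω κ (blM p m ^ (2 ^ m))) (A : GS D Ω) : BLst D Ω A κ m := by
  have hp : p.Prime := Fact.out
  intro C₁ A₀ ε hε
  obtain ⟨c₁, hc⟩ := exists_nat_ge C₁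
  obtain ⟨Q⟩ := exists_DP K Ω
  obtain ⟨L₁⟩ := exists_LDs Ω hp hζ D
  obtain ⟨F, hF⟩ := H77.WD.sep hp hp2 hζ D L₁ Q (blM p m)
  obtain ⟨C', Y₁, hgl⟩ := glU (Ω := Ω) hp hζ D (blM p m ^ (2 ^ m)) (c₁ * (3 * m + 4))
  obtain ⟨Y₂, hY₂, hb⟩ := blf hp2 hζ hzz hj hz hM hG c₁ C' C₁ A₀ ε hε hc Q F hF A
  refine ⟨blM p m, max Y₁ Y₂, blf_le m, hY₂.trans (le_max_right _ _), ?_⟩
  intro Y hY L₀
  obtain ⟨Fr₀⟩ := exists_FR hp hζ L₀
  obtain ⟨s, hs⟩ := hgl Y ((le_max_left _ _).trans hY) L₀ Fr₀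
  refine ⟨cjL L₀ s, cjF Fr₀ s, sim_cj L₀ s, ?_⟩
  intro P _ _ hP hκ N _ n hn hN
  by_cases hne : Nk N n = ⊥
  · refine ⟨fun _ => False, ?_, fun l _ h => h.elim⟩
    rintro l χ' hok hok' ⟨u, hu⟩
    exfalso
    have h1 := bru_mem l (fun k => (hok k).1) u
    rw [hne, Subgroup.mem_bot] at h1
    have h2 := (hok 0).2.2.1 1 (one_mem _) 1 (one_mem _)
    have h3 := hok'.2.2.1 1 (one_mem _) 1 (one_mem _)
    change χ' (1 * 1) = χ' 1 + χ' 1 at h3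
    rw [one_mul, left_eq_add] at h2 h3
    rw [h1, h2, h3] at hu
    exact hu rfl
  · exact ⟨LkN hn hN, fun l χ' h h' hu => lkd_pair hn hN l χ' h h' hu, fun l _ hl =>
      hb Y ((le_max_right _ _).trans hY) _ _ hs P hP hκ N n hn hN hne l hl⟩

end H62.BL
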