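import Pool.Agent.H77.WE.Lft

/-!
# [H62 BL BRE] product formula with a set `E` of primes at which the cocycle is trivial (adaptation of `brg3f`, 120-170 lines). File Pool/Agent/H62/BL/Bre.lean

`brg3E`: `brg3f` (H48/MF/Brf.lean, its proof is 90 lines) with a finite set `E` of primes outside `S0` with arbitrary inertia, at which the cocycle is trivial on the decomposition group (compare `brg1E` in H77/WE/Lft.lean, which does the same for `brg1f`).
PROOF. Copy `brg3f` with `S0' = D.S0 ∪ E` in the place of `D.S0`: `c2` from `aux2` for `(D.S0 ∪ E).filter (¬ Above p)` and `T \ E` (so `B p ζ v c2 d = 0` for `v ∈ E`); `hfin` with `v ∈ D.S0 ∪ E`; over the primes of `E`: `brg_dc` for `S0 ∪ E` as in `brg1E`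
(`Q.P v` for `v ∈ S0`, `(L.ld v hv).P` for `v ∈ E`, `qd_kl`); outside `S0 ∪ E`: `ltr` with `Tm e ρ (L.ld v hv).P` in the place of `br_loc` (as in `brg1E`).
-/

set_option autoImplicit false

open scoped NumberField Pointwise
open IsDedekindDomain

noncomputable section

namespace H62.BL

open H63.MA H38.BB H38.BG H57.PC H57.BRA H89.BRG H48.MF H77.WD H77.WE

variable {K : Type} [Field K] [NumberField K] {Ω : Type} [Field Ω] [Algebra K Ω] [IsAlgClosure K Ω]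
  {p : ℕ} {ζ : K}

theorem brg3E (hp : p.Prime) (hp2 : MOne p K) (hζ : IsPrimitiveRoot ζ p) (hz : Z2 p K)
    {D : RD0 K p ζ} {L : LDs D Ω} (Q : DP K Ω) (Fr : FR L) (E : Finset (Pl K)) {R : Type} [Group R]
    [Finite R] {e : R → R → ZMod p} (he : Coc p e) {ρ : Gal(Ω/K) →* R} (hρ : H38.ML.FT ρ)
    (hS : ∀ v ∈ D.S0, Kl (pb e ρ) (dec (K := K) (Q.P v) : Set Gal(Ω/K)))
    (hE : ∀ v ∈ E, ∀ hv : v ∉ D.S0,
      Kl (pb e ρ) (dec (K := K) (L.ld v hv).P : Set Gal(Ω/K)))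
    (htm : ∀ v, v ∉ D.S0 → v ∉ E → ∀ τ ∈ inr L v, ρ τ ^ p = 1)
    (T : Finset (Pl K)) (hT : ∀ v ∈ T, v ∉ D.S0 ∧ v ∉ E)
    (hur : ∀ v, v ∉ D.S0 → v ∉ E → v ∉ T → ρ (L.t v) = 1)
    {lam : Pl K → ZMod p} (hlam : IsRec p ζ lam) :
    ∑ v ∈ T, lam v * iv e (ρ (Fr.F v)) (ρ (L.t v)) = 0 := by
  classical
  rcases T.eq_empty_or_nonempty with rfl | ⟨v₀, hv₀⟩
  · exact Finset.sum_empty
  have hpf : Fact p.Prime := ⟨hp⟩
  have hna : ∀ v, v ∉ D.S0 → ¬ Above p v := fun v hv h => hv (D.above v h)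
  obtain ⟨c2, hc1, hc2, hc3⟩ := aux2 hp hζ ((D.S0 ∪ E).filter fun v => ¬ Above p v) T
    (fun v hv => (Finset.mem_filter.1 hv).2) (fun v hv => hna v (hT v hv).1)
    (fun v hv h => by
      rcases Finset.mem_union.1 (Finset.mem_filter.1 hv).1 with h1 | h1
      · exact (hT v h).1 h1
      · exact (hT v h).2 h1)
  have hcp : ¬ IsPow p c2 := by
    rintro ⟨x, hx⟩
    obtain ⟨h3, h4⟩ := hc3 v₀ hv₀
    have h5 : ord v₀ x = 0 := by
      rw [← hx, ord_pow] at h3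
      rcases mul_eq_zero.1 h3 with h | h
      · exact absurd (by exact_mod_cast h) hp.ne_zero
      · exact h
    rw [← hx, ← zpow_natCast, lg_zpow hp hζ (hna v₀ (hT v₀ hv₀).1) h5] at h4
    push_cast at h4
    rw [ZMod.natCast_self, zero_mul] at h4
    exact zero_ne_one h4
  obtain ⟨M, _, _, _, _, _, ⟨H⟩⟩ := bca_exists Ω hp hζ hcp
  have hclo : IsAlgClosure M Ω := bca_clo K M Ω
  have hdc := brg_dc he hρ (S0 := D.S0 ∪ E) (fun v hv => by
    by_cases hv0 : v ∈ D.S0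
    · exact ⟨Q.P v, Q.prime v, Q.under v, qd_kl (hS v hv0)⟩
    · have hvE : v ∈ E := (Finset.mem_union.1 hv).resolve_left hv0
      exact ⟨(L.ld v hv0).P, (L.ld v hv0).prime, (L.ld v hv0).under, qd_kl (hE v hvE hv0)⟩)
  have htmL : ∀ v (hv0 : v ∉ D.S0), v ∉ E → Tm e ρ (L.ld v hv0).P := fun v hv0 hvE τ hτ =>
    htm v hv0 hvE τ (by
      rw [inr, dif_pos hv0]
      exact hτ)
  have hM : Tv (pb e (ρ.comp (rsK K M Ω))) := by
    have hfin : {w : Pl M | ∃ v ∈ D.S0 ∪ E, Over w v}.Finite := by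
      have h1 : {w : Pl M | ∃ v ∈ D.S0 ∪ E, Over w v} = ⋃ v ∈ D.S0 ∪ E, {w : Pl M | Over w v} := by
        ext w
        simp only [Set.mem_ofPred_eq, Set.mem_iUnion, exists_prop]
      rw [h1]
      exact Set.Finite.biUnion (D.S0 ∪ E).finite_toSet fun v _ => over_finite v
    have hmem : ∀ w : Pl M, w ∈ hfin.toFinset ↔ ∃ v ∈ D.S0 ∪ E, Over w v := by
      intro w
      rw [Set.Finite.mem_toFinset]
      rfl
    refine hasf hp he (GBase_zeta hζ) (mone_map hp2 M) (z2_map hz M)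
      (ρ.comp (rsK K M Ω)) (bca_ft hρ) hfin.toFinset
      (fun w hw => ?_) (fun w hw P hP hPw => ?_) (fun w hw => ?_)
    · obtain ⟨v, hv⟩ := exists_below (K := K) w
      exact (hmem w).2 ⟨v, Finset.mem_union_left _ (D.above v ((above_over hv p).1 hw)), hv⟩
    · obtain ⟨v, hvS, hv⟩ := (hmem w).1 hw
      exact dc_kl_rs (hdc v hvS P hP (bcp_under hv hPw))
    · obtain ⟨v, hwv⟩ := exists_below (K := K) w
      have hvS : v ∉ D.S0 := fun h => hw ((hmem w).2 ⟨v, Finset.mem_union_left _ h, hwv⟩)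
      have hvE : v ∉ E := fun h => hw ((hmem w).2 ⟨v, Finset.mem_union_right _ h, hwv⟩)
      intro P hP hPw
      have h5t : L.t v = (L.ld v hvS).t := by rw [LDs.t, dif_pos hvS]
      obtain ⟨h1, h2⟩ := ltr hp hζ he hρ (hna v hvS) (D.pi_self v hvS) (L.ld v hvS)
        (isFr_of hp hζ hz Fr v hvS) (htmL v hvS hvE) P hP (bcp_under hwv hPw)
      refine ⟨fun τ hτ => h1 _ (bcp_inertia hτ), fun F' hF' τ' hτ' => ?_⟩
      obtain ⟨h3, k, j, h4, h5⟩ := h2 (rsK K M Ω F') (bcp_frp hwv hPw hF') (rsK K M Ω τ')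
        (bcp_inertia hτ')
      refine ⟨h3, ?_⟩
      change iv e (ρ (rsK K M Ω F')) (ρ (rsK K M Ω τ')) = 0
      rw [h4, ← h5t]
      by_cases hvT : v ∈ T
      · have h6 := h5 c2 (hc3 v hvT).1
        rw [(hc3 v hvT).2, mul_one, (bca_range hp hζ H _).2 ⟨F', rfl⟩] at h6
        rw [← h6, zero_mul, zero_mul]
      · rw [hur v hvS hvE hvT, iv_swap, iv_one_left he, neg_zero, mul_zero]
  obtain ⟨l', hl1, hl2⟩ := hM
  obtain ⟨l, hl3, hl4⟩ := bca_lev' (K := K) (L := M) hl1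
  obtain ⟨d, hd⟩ := bq hp hζ (c2_pb he hρ) hcp ⟨l, hl3, fun σ hσ τ hτ => by
    obtain ⟨σ', rfl⟩ := (bca_range hp hζ H σ).1 hσ
    obtain ⟨τ', rfl⟩ := (bca_range hp hζ H τ).1 hτ
    rw [← map_mul, hl4, hl4, hl4]
    exact hl2 σ' τ'⟩
  have hB : ∀ v, v ∉ D.S0 → v ∉ E → iv e (ρ (Fr.F v)) (ρ (L.t v)) = -B p ζ v c2 d := by
    intro v hvS hvE
    have h5 : L.t v = (L.ld v hvS).t := by rw [LDs.t, dif_pos hvS]
    have h6 := loc_one hp hp2 hζ he hρ c2 d (hna v hvS) (D.pi_self v hvS) (L.ld v hvS)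
      (isFr_of hp hζ hz Fr v hvS) (htmL v hvS hvE) hd
    rw [h5]
    exact eq_neg_of_add_eq_zero_left h6
  have hsum := hlam.sum c2 hc1 d
  have hout : ∀ v, v ∉ T → lam v * B p ζ v c2 d = 0 := by
    intro v hvT
    by_cases hva : Above p v
    · rw [hlam.above v hva, zero_mul]
    · by_cases hvS : v ∈ D.S0 ∪ E
      · rw [hc2 v (Finset.mem_filter.2 ⟨hvS, hva⟩) d, mul_zero]
      · have hvS0 : v ∉ D.S0 := fun h => hvS (Finset.mem_union_left _ h)
        have hvE : v ∉ E := fun h => hvS (Finset.mem_union_right _ h)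
        have h1 := hB v hvS0 hvE
        rw [hur v hvS0 hvE hvT, iv_swap, iv_one_left he, neg_zero] at h1
        rw [neg_eq_zero.1 h1.symm, mul_zero]
  rw [finsum_eq_sum_of_support_subset (s := T) _ (by
    intro v hv
    by_contra hvT
    exact hv (hout v hvT))] at hsum
  rw [← neg_zero, ← hsum, ← Finset.sum_neg_distrib]
  refine Finset.sum_congr rfl fun v hv => ?_
  rw [hB v (hT v hv).1 (hT v hv).2, mul_neg]

end H62.BL
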