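import Pool.Agent.H62.BL.Df

/-!
# [H62 BL CSB] second Cauchy inequality (generalised von Neumann), pure, 80-140 lines. File Pool/Agent/H62/BL/Csb.lean

`U w q` arbitrary, `‖U w q‖ ≤ 1`; `b k w q` does not depend on `q k`; `b0 q` does not depend on `w`; all of norm at most one.
PROOF. Normalised form (averages over the boxes): `|E_(q,w) U b0 ∏ b_k|^(2^m) ≤ E_(q,q') |E_w ∏_e cj e (U w (vt q q' e))|`. Induction on `m`, splitting off the coordinate `0`:
write `q = (x, y)`, `x` the coordinate `0`. `b_0` (the factor `b 0`) does not depend on `x`: by Cauchy-Schwarz in `(w, y)`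
`|E_(w,y) b 0(w,y) E_x G(w,x,y)|² ≤ E_(w,y) |E_x G|² = E_(x,x') E_(w,y) G(w,x',y) conj G(w,x,y)`, `G = U b0 ∏_(k ≥ 1) b_k`. For fixed `(x, x')` this is the sum of the same form
for `U'(w, y) = U(w,(x',y)) conj U(w,(x,y))`, `b0'`, `b'_k`, `k ≥ 1` (`b'_k` does not depend on `y_k`), `m - 1` coordinates; induction hypothesis, and
`(E_(x,x') a)^(2^(m-1)) ≤ E a^(2^(m-1))`. `m = 0`: `|E_w U(w) b0| ≤ |E_w U(w)|`.
If a box is empty both sides are `0` (`2 ^ m ≥ 1`). To avoid divisions: as in `csa`; or divide by the cardinalities when they are positive.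
`cj (Fin.cons true e) = cj e`, `cj (Fin.cons false e) z = conj (cj e z)`.
-/

set_option autoImplicit false

open scoped Classical

noncomputable section

namespace H62.BL

private theorem cj_mul {m : ℕ} (e : Fin m → Bool) (z w : ℂ) : cj e (z * w) = cj e z * cj e w := by
  unfold cj
  split_ifs
  · rfl
  · rw [map_mul]

private theorem cj_conj {m : ℕ} (e : Fin m → Bool) (z : ℂ) :
    cj e ((starRingEnd ℂ) z) = (starRingEnd ℂ) (cj e z) := by
  unfold cj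
  split_ifs <;> rfl

private theorem cj_true {m : ℕ} (e : Fin m → Bool) (z : ℂ) :
    cj (Fin.cons true e : Fin (m + 1) → Bool) z = cj e z := by
  have h : (Finset.univ.filter fun k : Fin (m + 1) => (Fin.cons true e : Fin (m + 1) → Bool) k = false).card =
      (Finset.univ.filter fun k : Fin m => e k = false).card := by
    rw [Fin.card_filter_univ_succ]
    simp
  unfold cj
  rw [h]

private theorem cj_false {m : ℕ} (e : Fin m → Bool) (z : ℂ) :
    cj (Fin.cons false e : Fin (m + 1) → Bool) z = (starRingEnd ℂ) (cj e z) := by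
  have h : (Finset.univ.filter fun k : Fin (m + 1) => (Fin.cons false e : Fin (m + 1) → Bool) k = false).card =
      (Finset.univ.filter fun k : Fin m => e k = false).card + 1 := by
    rw [Fin.card_filter_univ_succ]
    simp
  unfold cj
  rw [h]
  by_cases h1 : Even (Finset.univ.filter fun k : Fin m => e k = false).card
  · rw [if_pos h1, if_neg]
    rw [Nat.even_add_one]
    exact fun h2 => h2 h1
  · rw [if_neg h1, if_pos, Complex.conj_conj]
    rw [Nat.even_add_one]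
    exact h1

private theorem vt_cons {m : ℕ} {X : Type} (x x' : X) (y y' : Fin m → X) (b : Bool) (e : Fin m → Bool) :
    vt (Fin.cons x y : Fin (m + 1) → X) (Fin.cons x' y') (Fin.cons b e) =
      Fin.cons (if b then x' else x) (vt y y' e) := by
  funext k
  refine Fin.cases ?_ (fun k => ?_) k
  · simp only [vt, Fin.cons_zero]
  · simp only [vt, Fin.cons_succ]

private theorem prod_vt {m : ℕ} {X : Type} (V : (Fin (m + 1) → X) → ℂ) (x x' : X) (y y' : Fin m → X) :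
    ∏ e : Fin (m + 1) → Bool, cj e (V (vt (Fin.cons x y) (Fin.cons x' y') e)) =
      ∏ e : Fin m → Bool, cj e (V (Fin.cons x' (vt y y' e)) * (starRingEnd ℂ) (V (Fin.cons x (vt y y' e)))) := by
  rw [← Equiv.prod_comp (Fin.consEquiv fun _ : Fin (m + 1) => Bool), Fintype.prod_prod_type, Fintype.prod_bool,
    ← Finset.prod_mul_distrib]
  refine Finset.prod_congr rfl fun e _ => ?_
  have h1 : (Fin.consEquiv fun _ : Fin (m + 1) => Bool) (true, e) = Fin.cons true e := rfl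
  have h2 : (Fin.consEquiv fun _ : Fin (m + 1) => Bool) (false, e) = Fin.cons false e := rfl
  rw [h1, h2, cj_true, cj_false, vt_cons, vt_cons, cj_mul, cj_conj]
  rfl

private theorem pi_sum {M X : Type} [AddCommMonoid M] {m : ℕ} (B : Fin (m + 1) → Finset X) (F : (Fin (m + 1) → X) → M) :
    ∑ q ∈ Fintype.piFinset B, F q =
      ∑ x ∈ B 0, ∑ y ∈ Fintype.piFinset fun k => B (Fin.succ k), F (Fin.cons x y) := by
  rw [← Finset.sum_product' (B 0) (Fintype.piFinset fun k => B (Fin.succ k)) fun x y => F (Fin.cons x y)]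
  refine Finset.sum_nbij' (fun q => (q 0, Fin.tail q)) (fun z => Fin.cons z.1 z.2) ?_ ?_ ?_ ?_ ?_
  · intro q hq
    rw [Finset.mem_product, Fintype.mem_piFinset]
    exact ⟨Fintype.mem_piFinset.1 hq 0, fun k => Fintype.mem_piFinset.1 hq k.succ⟩
  · intro z hz
    rw [Finset.mem_product, Fintype.mem_piFinset] at hz
    rw [Fintype.mem_piFinset]
    intro k
    refine Fin.cases ?_ (fun k => ?_) k
    · rw [Fin.cons_zero]
      exact hz.1
    · rw [Fin.cons_succ]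
      exact hz.2 k
  · intro q _
    exact Fin.cons_self_tail q
  · intro z _
    exact Prod.ext (Fin.cons_zero (α := fun _ => X) z.1 z.2) (Fin.tail_cons (α := fun _ => X) z.1 z.2)
  · intro q _
    simp only [Fin.cons_self_tail]

private theorem cs1 {ι : Type} (s : Finset ι) (c G : ι → ℂ) (hc : ∀ i, ‖c i‖ ≤ 1) :
    ‖∑ i ∈ s, c i * G i‖ ^ 2 ≤ s.card * ∑ i ∈ s, ‖G i‖ ^ 2 := by
  have h1 : ‖∑ i ∈ s, c i * G i‖ ≤ ∑ i ∈ s, ‖G i‖ := by
    refine (norm_sum_le _ _).trans (Finset.sum_le_sum fun i _ => ?_)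
    rw [norm_mul]
    exact mul_le_of_le_one_left (norm_nonneg _) (hc i)
  exact (pow_le_pow_left₀ (norm_nonneg _) h1 2).trans sq_sum_le_card_mul_sum_sq

private theorem pm1 {ι : Type} (s : Finset ι) (A : ι → ℝ) (hA : ∀ i, 0 ≤ A i) (n : ℕ) (hn : 1 ≤ n) :
    (∑ i ∈ s, A i) ^ n * s.card ≤ (s.card : ℝ) ^ n * ∑ i ∈ s, A i ^ n := by
  obtain ⟨k, rfl⟩ : ∃ k, n = k + 1 := ⟨n - 1, by omega⟩
  have h2 : (∑ i ∈ s, A i) ^ (k + 1) ≤ (s.card : ℝ) ^ k * ∑ i ∈ s, A i ^ (k + 1) :=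
    pow_sum_le_card_mul_sum_pow (fun i _ => hA i) k
  calc (∑ i ∈ s, A i) ^ (k + 1) * s.card ≤ ((s.card : ℝ) ^ k * ∑ i ∈ s, A i ^ (k + 1)) * s.card := by gcongr
    _ = _ := by rw [pow_succ (s.card : ℝ)]; ring

private theorem cs2 {ι X : Type} (s : Finset ι) (t : Finset X) (F : ι → X → ℂ) :
    ∑ i ∈ s, ‖∑ x ∈ t, F i x‖ ^ 2 ≤
      ∑ z ∈ t ×ˢ t, ‖∑ i ∈ s, F i z.1 * (starRingEnd ℂ) (F i z.2)‖ := by
  have h1 : ((∑ i ∈ s, ‖∑ x ∈ t, F i x‖ ^ 2 : ℝ) : ℂ) =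
      ∑ z ∈ t ×ˢ t, ∑ i ∈ s, F i z.1 * (starRingEnd ℂ) (F i z.2) := by
    rw [Finset.sum_comm]
    push_cast
    refine Finset.sum_congr rfl fun i _ => ?_
    rw [← Complex.mul_conj', map_sum, Finset.sum_mul_sum, Finset.sum_product]
  have h2 : ‖((∑ i ∈ s, ‖∑ x ∈ t, F i x‖ ^ 2 : ℝ) : ℂ)‖ = ∑ i ∈ s, ‖∑ x ∈ t, F i x‖ ^ 2 := by
    rw [Complex.norm_real, Real.norm_of_nonneg]
    positivity
  rw [← h2, h1]
  exact norm_sum_le _ _

private theorem alg {S2 a b0 b1 n1 sA sB T : ℝ} (n : ℕ) (hb0 : 0 ≤ b0) (hb1 : 0 ≤ b1) (hn1 : 0 ≤ n1)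
    (hS : 0 ≤ S2) (h1 : S2 ≤ (b0 * n1) * sA) (h2 : sA ^ n * (b1 * b1) ≤ (b1 * b1) ^ n * sB)
    (h3 : sB * (b0 * n1 ^ 2) ≤ (b0 * n1) ^ n * T) (ha : a = S2 ^ n) :
    a * (b0 * (b1 * n1) ^ 2) ≤ ((b0 * (b1 * n1)) ^ n) ^ 2 * T := by
  have h4 : S2 ^ n ≤ (b0 * n1) ^ n * sA ^ n := by
    rw [← mul_pow]
    exact pow_le_pow_left₀ hS h1 n
  calc a * (b0 * (b1 * n1) ^ 2) = S2 ^ n * (b0 * (b1 * n1) ^ 2) := by rw [ha]
    _ ≤ ((b0 * n1) ^ n * sA ^ n) * (b0 * (b1 * n1) ^ 2) := by gcongr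
    _ = (b0 * n1) ^ n * ((sA ^ n * (b1 * b1)) * (b0 * n1 ^ 2)) := by ring
    _ ≤ (b0 * n1) ^ n * (((b1 * b1) ^ n * sB) * (b0 * n1 ^ 2)) := by gcongr
    _ = ((b0 * n1) ^ n * (b1 * b1) ^ n) * (sB * (b0 * n1 ^ 2)) := by ring
    _ ≤ ((b0 * n1) ^ n * (b1 * b1) ^ n) * ((b0 * n1) ^ n * T) := by gcongr
    _ = _ := by
      rw [← mul_assoc, ← pow_mul, mul_comm n 2, pow_mul, ← mul_pow, ← mul_pow]
      congr 2
      ring

theorem csb {X : Type} (m : ℕ) (B0 : Finset X) (B : Fin m → Finset X) (U : X → (Fin m → X) → ℂ)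
    (b0 : (Fin m → X) → ℂ) (b : Fin m → X → (Fin m → X) → ℂ) (hU : ∀ w q, ‖U w q‖ ≤ 1)
    (h0 : ∀ q, ‖b0 q‖ ≤ 1) (hb : ∀ k w q, ‖b k w q‖ ≤ 1)
    (hi : ∀ k w q x, b k w (Function.update q k x) = b k w q) :
    ‖∑ q ∈ Fintype.piFinset B, ∑ w ∈ B0, U w q * b0 q * ∏ k, b k w q‖ ^ (2 ^ m) *
        ((B0.card : ℝ) * (∏ k, ((B k).card : ℝ)) ^ 2) ≤
      ((B0.card : ℝ) * ∏ k, ((B k).card : ℝ)) ^ (2 ^ m) *
        ∑ q' ∈ Fintype.piFinset B, ∑ q ∈ Fintype.piFinset B,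
          ‖∑ w ∈ B0, ∏ e : Fin m → Bool, cj e (U w (vt q q' e))‖ := by
  induction m with
  | zero =>
    have hpi : Fintype.piFinset B = {fun k => k.elim0} := by
      ext q
      rw [Fintype.mem_piFinset, Finset.mem_singleton]
      exact ⟨fun _ => Subsingleton.elim _ _, fun _ k => k.elim0⟩
    obtain ⟨q0, hq0⟩ : ∃ q0 : Fin 0 → X, q0 = fun k => k.elim0 := ⟨_, rfl⟩
    rw [hpi, ← hq0]
    simp only [Finset.sum_singleton, Finset.univ_eq_empty, Finset.prod_empty, mul_one, pow_zero, pow_one, one_pow]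
    have h1 : ∀ w, ∏ e : Fin 0 → Bool, cj e (U w (vt q0 q0 e)) = U w q0 := by
      intro w
      rw [Fintype.prod_subsingleton _ (fun k => k.elim0 : Fin 0 → Bool)]
      have h2 : vt q0 q0 (fun k => k.elim0 : Fin 0 → Bool) = q0 := Subsingleton.elim _ _
      rw [h2]
      unfold cj
      rw [if_pos]
      simp
    simp only [h1]
    rw [← Finset.sum_mul, norm_mul, mul_comm (B0.card : ℝ)]
    refine mul_le_mul_of_nonneg_right ?_ (Nat.cast_nonneg _)
    exact mul_le_of_le_one_right (norm_nonneg _) (h0 q0)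
  | succ m ih =>
    obtain ⟨Y, hY⟩ : ∃ Y, Y = Fintype.piFinset fun k => B (Fin.succ k) := ⟨_, rfl⟩
    have hYc : (Y.card : ℝ) = ∏ k : Fin m, ((B k.succ).card : ℝ) := by
      rw [hY, Fintype.card_piFinset]
      push_cast
      rfl
    rcases (B 0).eq_empty_or_nonempty with hB | ⟨x0, hx0⟩
    · rw [pi_sum, hB, Finset.sum_empty, norm_zero, zero_pow (by positivity), zero_mul]
      positivity
    have hcy : ∀ w x y, b 0 w (Fin.cons x y) = b 0 w (Fin.cons x0 y) := by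
      intro w x y
      rw [← hi 0 w (Fin.cons x y) x0, Fin.update_cons_zero]
    obtain ⟨G, hG⟩ : ∃ G : ((Fin m → X) × X) → X → ℂ, G = fun i x =>
      U i.2 (Fin.cons x i.1) * b0 (Fin.cons x i.1) * ∏ k : Fin m, b k.succ i.2 (Fin.cons x i.1) := ⟨_, rfl⟩
    have hS : ∑ q ∈ Fintype.piFinset B, ∑ w ∈ B0, U w q * b0 q * ∏ k, b k w q =
        ∑ i ∈ Y ×ˢ B0, b 0 i.2 (Fin.cons x0 i.1) * ∑ x ∈ B 0, G i x := by
      rw [pi_sum, ← hY]
      simp only [Finset.mul_sum]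
      rw [Finset.sum_comm (s := Y ×ˢ B0)]
      refine Finset.sum_congr rfl fun x _ => ?_
      rw [Finset.sum_product]
      refine Finset.sum_congr rfl fun y _ => Finset.sum_congr rfl fun w _ => ?_
      rw [Fin.prod_univ_succ, hcy, hG]
      ring
    have h1 := cs1 (Y ×ˢ B0) (fun i => b 0 i.2 (Fin.cons x0 i.1)) (fun i => ∑ x ∈ B 0, G i x) (fun i => hb _ _ _)
    rw [← hS] at h1
    have h2 := cs2 (Y ×ˢ B0) (B 0) G
    obtain ⟨A, hA⟩ : ∃ A : X × X → ℝ, A = fun z => ‖∑ i ∈ Y ×ˢ B0, G i z.1 * (starRingEnd ℂ) (G i z.2)‖ := ⟨_, rfl⟩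
    have hA0 : ∀ z, 0 ≤ A z := fun z => by
      rw [hA]
      exact norm_nonneg _
    have h3 := pm1 (B 0 ×ˢ B 0) A hA0 (2 ^ m) (Nat.one_le_two_pow)
    obtain ⟨T, hT⟩ : ∃ T : X × X → ℝ, T = fun z => ∑ y' ∈ Y, ∑ y ∈ Y,
      ‖∑ w ∈ B0, ∏ e : Fin (m + 1) → Bool, cj e (U w (vt (Fin.cons z.2 y) (Fin.cons z.1 y') e))‖ := ⟨_, rfl⟩
    have h4 : ∀ z, A z ^ (2 ^ m) * ((B0.card : ℝ) * (Y.card : ℝ) ^ 2) ≤ ((B0.card : ℝ) * Y.card) ^ (2 ^ m) * T z := by
      intro z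
      have h5 := ih (fun k => B k.succ)
        (fun w y => U w (Fin.cons z.1 y) * (starRingEnd ℂ) (U w (Fin.cons z.2 y)))
        (fun y => b0 (Fin.cons z.1 y) * (starRingEnd ℂ) (b0 (Fin.cons z.2 y)))
        (fun k w y => b k.succ w (Fin.cons z.1 y) * (starRingEnd ℂ) (b k.succ w (Fin.cons z.2 y)))
        (fun w y => by
          rw [norm_mul, RCLike.norm_conj]
          exact mul_le_one₀ (hU _ _) (norm_nonneg _) (hU _ _))
        (fun y => by
          rw [norm_mul, RCLike.norm_conj]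
          exact mul_le_one₀ (h0 _) (norm_nonneg _) (h0 _))
        (fun k w y => by
          rw [norm_mul, RCLike.norm_conj]
          exact mul_le_one₀ (hb _ _ _) (norm_nonneg _) (hb _ _ _))
        (fun k w y x => by
          rw [Fin.cons_update, Fin.cons_update, hi, hi])
      rw [← hY, ← hYc] at h5
      have h6 : A z = ‖∑ q ∈ Y, ∑ w ∈ B0, U w (Fin.cons z.1 q) * (starRingEnd ℂ) (U w (Fin.cons z.2 q)) *
          (b0 (Fin.cons z.1 q) * (starRingEnd ℂ) (b0 (Fin.cons z.2 q))) *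
            ∏ k : Fin m, (b k.succ w (Fin.cons z.1 q) * (starRingEnd ℂ) (b k.succ w (Fin.cons z.2 q)))‖ := by
        rw [hA]
        simp only
        congr 1
        rw [Finset.sum_product]
        refine Finset.sum_congr rfl fun y _ => Finset.sum_congr rfl fun w _ => ?_
        rw [hG]
        simp only [map_mul, map_prod, Finset.prod_mul_distrib]
        ring
      rw [← h6] at h5
      refine h5.trans (le_of_eq ?_)
      rw [hT]
      simp only [prod_vt]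
    have h5 : ∑ q' ∈ Fintype.piFinset B, ∑ q ∈ Fintype.piFinset B,
        ‖∑ w ∈ B0, ∏ e : Fin (m + 1) → Bool, cj e (U w (vt q q' e))‖ = ∑ z ∈ B 0 ×ˢ B 0, T z := by
      rw [pi_sum, Finset.sum_product]
      refine Finset.sum_congr rfl fun x' _ => ?_
      rw [← hY]
      have h6 : ∀ y' ∈ Y, ∑ q ∈ Fintype.piFinset B,
          ‖∑ w ∈ B0, ∏ e : Fin (m + 1) → Bool, cj e (U w (vt q (Fin.cons x' y') e))‖ =
          ∑ x ∈ B 0, ∑ y ∈ Y, ‖∑ w ∈ B0, ∏ e : Fin (m + 1) → Bool,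
            cj e (U w (vt (Fin.cons x y) (Fin.cons x' y') e))‖ := by
        intro y' _
        rw [pi_sum, ← hY]
      rw [Finset.sum_congr rfl h6, Finset.sum_comm, hT]
    have e1 : ∀ z : ℝ, z ^ (2 ^ (m + 1)) = (z ^ 2) ^ (2 ^ m) := fun z => by
      rw [pow_succ 2 m, mul_comm, pow_mul]
    have e2 : ∀ z : ℝ, z ^ (2 ^ (m + 1)) = (z ^ (2 ^ m)) ^ 2 := fun z => by
      rw [pow_succ 2 m, pow_mul]
    rw [h5, Fin.prod_univ_succ, ← hYc, e1 ‖_‖, e2 ((B0.card : ℝ) * _)]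
    have h6 : (∑ z ∈ B 0 ×ˢ B 0, A z ^ (2 ^ m)) * ((B0.card : ℝ) * (Y.card : ℝ) ^ 2) ≤
        ((B0.card : ℝ) * Y.card) ^ (2 ^ m) * ∑ z ∈ B 0 ×ˢ B 0, T z := by
      rw [Finset.sum_mul, Finset.mul_sum]
      exact Finset.sum_le_sum fun z _ => h4 z
    have h7 : ‖∑ q ∈ Fintype.piFinset B, ∑ w ∈ B0, U w q * b0 q * ∏ k, b k w q‖ ^ 2 ≤
        ((B0.card : ℝ) * Y.card) * ∑ z ∈ B 0 ×ˢ B 0, A z := by
      refine h1.trans ?_
      rw [Finset.card_product, Nat.cast_mul, mul_comm (Y.card : ℝ)]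
      refine mul_le_mul_of_nonneg_left ?_ (by positivity)
      rw [hA]
      exact h2
    rw [Finset.card_product, Nat.cast_mul] at h3
    exact alg (2 ^ m) (Nat.cast_nonneg _) (Nat.cast_nonneg _) (Nat.cast_nonneg _) (by positivity) h7 h3 h6 rfl

end H62.BL
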