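import Pool.Agent.H62.BL.Phs

/-!
# [H62 BL IDT] the inserted function (120-180 lines). File Pool/Agent/H62/BL/Idt.lean

`fc c q` = the summand on the cell `c`. `idt`: for `q0 = cons w a`, `q0 k ≠ q1 k` for all `k`, the product over the vertices equals
`(∏ e ≠ 0, 1_c(vt e)) * (‖Fq q1‖ ^ _ * ep p (kp (reld a b (wv (q1 0))).c)) * Uf q1 w a` (`b = Fin.tail q1`).
PROOF. CASE 1: all vertices `e` satisfy `Adm` and `cel = c`. Then `ND` (`nd_of`), all cells are equal to that of `q1` (`vt_true`). If `Fq q1 = 0` both sides are `0` (left: the factor at the vertex `true`, `cj`; `2 ^ (n+2) ≠ 0`).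
Otherwise `v.G k (..) ≠ 0`, so `hf` holds (`hv.sup`), `phs` applies to the left side. `Ψ` from `hn`, `Ψ' = (trh hs).comp Ψ`: `hat Ψ' = (trh hs).comp relq = reld` (`hat_comp`, `relq_trh`), `HonE y.L y.E (T ∪ a ∪ b) Ψ'`: finite type and order `p` from `HonE.comp`;
for `w' ∉ S0` outside: `Ψ' (t_w') = reld (of (inl w')) = qi (Dg.pi (lab w')) = 1` (`hat_inl`, `kdq` is `none`, `h1`). So `Hd` holds, `Uf = h1 (reld (wv w))`. `kp` does not see words with the index `0`:
`kp_trh : Dg.kp l (trh hs x).c = Dg.kp l x.c` (`kw` vanishes unless all indices are `≠ 0`, the length is `n + 1`, the indices are distinct: then the word is in `W'` and `tr` does nothing). `h1 (reld (wv w)) = ep p (-kp (reld (wv w)).c)`: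
`.q = f 0` by `rq_fix` (`relq_trh`: `(trh ..).q = ..q`), the coefficients of the words `u ≠ []` of length `≤ n`: words with the index `0` are not in `W'` (`out`), the others: `rq_q` with `k = 0`. `ep_add`.
CASE 2: the vertices `e ≠ 0` satisfy both, but the vertex `0` does not: left side `0`. Right side: if `Uf ≠ 0` then `ND`, so `Adm` at all vertices (`vt_adm`) and `clo` gives the cell of the vertex `0`: contradiction.
CASE 3: some vertex `e ≠ 0` fails: both sides are `0`.
`uf_le`: `‖Uf‖ ≤ 1` (`ep_norm`).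
-/

set_option autoImplicit false

open scoped NumberField
open IsDedekindDomain
open scoped Classical

noncomputable section

namespace H62.BL

open H63.MA H38.BB H38.BG H57.PC H57.BRA H77.WD H77.WE

variable {K : Type} [Field K] [NumberField K] {Ω : Type} [Field Ω] [Algebra K Ω]
  {p : ℕ} {ζ : K} {D : RD0 K p ζ} {n : ℕ} {P Qg Lm : Type} [Group P] [Group Qg] [MulAction Qg Lm]
  {A : GS D Ω}

/-- `q` is admissible and in the cell `c` -/
def InC (y : Wy D A) (Dg : LG p n P Qg Lm) (r : Rd A P Qg) (v : Vd n P Qg Lm) (c : Cel y Dg r)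
    (q : Fin (n + 2) → Pl K) : Prop := Adm r.T q ∧ cel y Dg r v q = c

/-- the summand on the cell `c` -/
def fc (y : Wy D A) (Dg : LG p n P Qg Lm) (r : Rd A P Qg) (v : Vd n P Qg Lm) (c : Cel y Dg r)
    (q : Fin (n + 2) → Pl K) : ℂ := if InC y Dg r v c q then Fq y r v q else 0

theorem kp_trh [Fintype Lm] (Dg : LG p n P Qg Lm) (l : Lm)
    (hs : (WN Qg Lm {i : Fin (n + 2) | i ≠ 0} (n + 1)).s ⊆ (WN Qg Lm Set.univ (n + 1)).s)
    (x : UGm p n Qg Lm) : Dg.kp l (trh hs x).c = Dg.kp l x.c := by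
  unfold LG.kp
  refine Finset.sum_congr rfl fun t _ => ?_
  have h1 : (trh hs x).c = tr (WN Qg Lm {i : Fin (n + 2) | i ≠ 0} (n + 1)) x.c := rfl
  rw [h1]
  by_cases h2 : List.ofFn t ∈ (WN Qg Lm {i : Fin (n + 2) | i ≠ 0} (n + 1)).s
  · rw [tr, if_pos h2]
  · have h3 : Dg.kw l (List.ofFn t) = 0 := by
      rw [List.ofFn_succ] at h2 ⊢
      rw [LG.kw, if_neg]
      rintro ⟨h4, h5, h6⟩
      apply h2
      refine ⟨?_, h4, h6⟩
      rw [List.length_cons, h5]
    rw [h3, mul_zero, mul_zero]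

private theorem cj_zero {m : ℕ} (e : Fin m → Bool) : cj e 0 = 0 := by
  unfold cj
  split_ifs
  · rfl
  · exact map_zero _

private theorem h1_le [Fintype Lm] (Dg : LG p n P Qg Lm) (v : Vd n P Qg Lm) (x : UGd p n Qg Lm) : ‖h1 Dg v x‖ ≤ 1 := by
  unfold h1
  split_ifs
  · rw [ep_norm]
  · rw [norm_zero]
    exact zero_le_one

private theorem idt_hs : (WN Qg Lm {i : Fin (n + 2) | i ≠ 0} (n + 1)).s ⊆ (WN Qg Lm Set.univ (n + 1)).s :=
  fun _ hu => ⟨hu.1, hu.2.1, fun _ _ => trivial⟩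

theorem uf_le [Fintype Lm] (y : Wy D A) (Dg : LG p n P Qg Lm) (r : Rd A P Qg) (v : Vd n P Qg Lm)
    (q1 : Fin (n + 2) → Pl K) (w : Pl K) (a : Fin (n + 1) → Pl K) : ‖Uf y Dg r v q1 w a‖ ≤ 1 := by
  unfold Uf
  split_ifs
  · exact h1_le Dg v _
  · rw [norm_zero]
    exact zero_le_one

theorem fq_le (y : Wy D A) {Dg : LG p n P Qg Lm} {r : Rd A P Qg} {v : Vd n P Qg Lm}
    (hG : ∀ w x, ‖r.G w x‖ ≤ 1) (hv : v.Ok Dg) (q : Fin (n + 2) → Pl K) : ‖Fq y r v q‖ ≤ 1 := by
  unfold Fq
  split_ifs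
  · rw [norm_mul, norm_prod, norm_prod]
    refine mul_le_one₀ ?_ (Finset.prod_nonneg fun _ _ => norm_nonneg _) ?_
    · exact Finset.prod_le_one (fun _ _ => norm_nonneg _) fun w _ => hG w _
    · exact Finset.prod_le_one (fun _ _ => norm_nonneg _) fun k _ => hv.G k _
  · rw [norm_zero]
    exact zero_le_one

private theorem idt_hd [IsAlgClosure K Ω] [Finite Qg] [Finite Lm] (hp : p.Prime) (hp2 : MOne p K)
    (hζ : IsPrimitiveRoot ζ p) (hz : Z2 p K) (Q : DP K Ω) (y : Wy D A) {Dg : LG p n P Qg Lm}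
    (hy : y.Ok Q P Qg Lm n) (hQ : IsPGroup p Qg) {r : Rd A P Qg} {v : Vd n P Qg Lm}
    (hr : r.Ok y.L Dg y.E y.Z) (hv : v.Ok Dg) {q0 q1 : Fin (n + 2) → Pl K} (h : ND r.T q0 q1)
    (hq : ∀ k, q0 k ∈ y.Z ∧ q1 k ∈ y.Z)
    (hc : ∀ e : Fin (n + 2) → Bool, cel y Dg r v (vt q0 q1 e) = cel y Dg r v q1)
    (hf : ∀ k, Dg.pi (thq r v q1 (y.wv (q1 k))) = v.f k) :
    ∃ Ψ, Hd y Dg r v (Fin.tail q0) (Fin.tail q1) Ψ := by
  obtain ⟨Ψ, h1, h2, -⟩ := hn hp hp2 hζ hz Q y hy hQ hr hv h hq hc hf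
  have h3 : hat y.L A ((trh idt_hs).comp Ψ) = reld Dg r v (Fin.tail q0) (Fin.tail q1) := by
    rw [hat_comp, h2]
    refine MonoidHom.ext fun z => ?_
    exact relq_trh r v hr.one h idt_hs z
  refine ⟨(trh idt_hs).comp Ψ, ⟨?_, h3⟩⟩
  have h4 := h1.comp (trh (idt_hs (n := n) (Qg := Qg) (Lm := Lm)))
  refine ⟨h4.1, fun w hw he => ⟨(h4.2 w hw he).1, fun hz => ?_⟩⟩
  rw [← hat_inl, h3]
  simp only [Finset.mem_union, Finset.mem_image, Finset.mem_univ, true_and, not_or, not_exists] at hz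
  obtain ⟨⟨hz1, hz2⟩, hz3⟩ := hz
  have h5 : kdq A Fin.succ (Fin.tail q0) (Fin.tail q1) (Sum.inl w) = (none : Option (Fin (n + 2) × Bool)) := by
    change (if h : ∃ k, Fin.tail q0 k = w then some (Fin.succ h.choose, false) else
      if h : ∃ k, Fin.tail q1 k = w then some (Fin.succ h.choose, true) else none) = none
    rw [dif_neg (by rintro ⟨k, hk⟩; exact hz2 k hk), dif_neg (by rintro ⟨k, hk⟩; exact hz3 k hk)]
  unfold reld rel unh
  rw [FreeGroup.lift_apply_of, h5]
  have h6 : Dg.pi (r.bs (Sum.inl w)) = 1 := by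
    have h7 : r.bs (Sum.inl w) = r.lab w := rfl
    rw [h7, hr.one w hz1, map_one]
  simp only [h6]
  rfl

theorem idt [IsAlgClosure K Ω] [Finite Qg] [Fintype Lm] [Fact p.Prime] (hp2 : MOne p K)
    (hζ : IsPrimitiveRoot ζ p) (hz : Z2 p K) (Q : DP K Ω) (y : Wy D A) {Dg : LG p n P Qg Lm}
    (hy : y.Ok Q P Qg Lm n) (hQ : IsPGroup p Qg) {r : Rd A P Qg} {v : Vd n P Qg Lm}
    (hr : r.Ok y.L Dg y.E y.Z) (hv : v.Ok Dg) (c : Cel y Dg r) (q1 : Fin (n + 2) → Pl K) (w : Pl K)
    (a : Fin (n + 1) → Pl K)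
    (hq : ∀ k, (Fin.cons w a : Fin (n + 2) → Pl K) k ∈ y.Z ∧ q1 k ∈ y.Z)
    (hqn : ∀ k, (nm ((Fin.cons w a : Fin (n + 2) → Pl K) k)).Prime ∧ (nm (q1 k)).Prime)
    (hne : ∀ k, (Fin.cons w a : Fin (n + 2) → Pl K) k ≠ q1 k) :
    ∏ e : Fin (n + 2) → Bool, cj e (fc y Dg r v c (vt (Fin.cons w a) q1 e)) =
      (∏ e ∈ Finset.univ.filter (fun e : Fin (n + 2) → Bool => e ≠ fun _ => false),
        if InC y Dg r v c (vt (Fin.cons w a) q1 e) then 1 else 0) *
        (((‖Fq y r v q1‖ ^ (2 ^ (n + 2)) : ℝ) : ℂ) *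
          ep p (Dg.kp (v.lam 0) (reld Dg r v a (Fin.tail q1) (y.wv (q1 0))).c)) *
        Uf y Dg r v q1 w a := by
  have hp : p.Prime := Fact.out
  obtain ⟨q0, hq0⟩ : ∃ q0 : Fin (n + 2) → Pl K, q0 = Fin.cons w a := ⟨_, rfl⟩
  have hq00 : q0 0 = w := by rw [hq0]; rfl
  have hq0t : Fin.tail q0 = a := by rw [hq0]; rfl
  have hUf : Uf y Dg r v q1 w a = if ND r.T q0 q1 ∧ ∃ Ψ, Hd y Dg r v a (Fin.tail q1) Ψ then
      h1 Dg v (reld Dg r v a (Fin.tail q1) (y.wv w)) else 0 := by
    unfold Uf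
    rw [hq0]
  rw [← hq0] at hq hqn hne ⊢
  rw [hUf]
  have htf : (fun _ : Fin (n + 2) => true) ≠ fun _ => false := fun h => by
    have h1 := congrFun h 0
    simp at h1
  by_cases hA : ∀ e : Fin (n + 2) → Bool, e ≠ (fun _ => false) → InC y Dg r v c (vt q0 q1 e)
  · have hct : InC y Dg r v c q1 := by
      have h1 := hA _ htf
      rwa [vt_true] at h1
    have hprod : (∏ e ∈ Finset.univ.filter (fun e : Fin (n + 2) → Bool => e ≠ fun _ => false),
        if InC y Dg r v c (vt q0 q1 e) then (1 : ℂ) else 0) = 1 := by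
      refine Finset.prod_eq_one fun e he => ?_
      rw [if_pos (hA e (Finset.mem_filter.1 he).2)]
    rw [hprod, one_mul]
    by_cases hB : InC y Dg r v c q0
    · have hall : ∀ e : Fin (n + 2) → Bool, InC y Dg r v c (vt q0 q1 e) := by
        intro e
        by_cases he : e = fun _ => false
        · rw [he, vt_false]
          exact hB
        · exact hA e he
      have hND : ND r.T q0 q1 := nd_of (fun e => (hall e).1) hne
      have hc : ∀ e : Fin (n + 2) → Bool, cel y Dg r v (vt q0 q1 e) = cel y Dg r v q1 :=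
        fun e => (hall e).2.trans hct.2.symm
      have hL : ∀ e : Fin (n + 2) → Bool, fc y Dg r v c (vt q0 q1 e) = Fq y r v (vt q0 q1 e) := by
        intro e
        unfold fc
        rw [if_pos (hall e)]
      simp only [hL]
      by_cases hF : Fq y r v q1 = 0
      · rw [hF, norm_zero, zero_pow (by positivity)]
        have h1 : ∏ e : Fin (n + 2) → Bool, cj e (Fq y r v (vt q0 q1 e)) = 0 := by
          refine Finset.prod_eq_zero (Finset.mem_univ fun _ => true) ?_
          rw [vt_true, hF, cj_zero]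
        rw [h1]
        simp
      · have hf : ∀ k, Dg.pi (thq r v q1 (y.wv (q1 k))) = v.f k := by
          intro k
          apply hv.sup k
          intro h0
          apply hF
          unfold Fq
          rw [if_pos hct.1, Finset.prod_eq_zero (Finset.mem_univ k) h0, mul_zero]
        rw [phs hp2 hζ hz Q y hy hQ hr hv hND hq hqn hc hf]
        have hHd := idt_hd hp hp2 hζ hz Q y hy hQ hr hv hND hq hc hf
        rw [hq0t] at hHd
        rw [if_pos ⟨hND, hHd⟩]
        have hk : ∀ z, Dg.kp (v.lam 0) (relq Dg r v q0 q1 z).c =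
            Dg.kp (v.lam 0) (reld Dg r v a (Fin.tail q1) z).c := by
          intro z
          rw [← hq0t, ← relq_trh r v hr.one hND idt_hs z, kp_trh]
        rw [hk, hk, hq00]
        have hh1 : h1 Dg v (reld Dg r v a (Fin.tail q1) (y.wv w)) =
            ep p (-Dg.kp (v.lam 0) (reld Dg r v a (Fin.tail q1) (y.wv w)).c) := by
          unfold h1
          rw [if_pos]
          have h2 : reld Dg r v a (Fin.tail q1) (y.wv w) = trh idt_hs (relq Dg r v q0 q1 (y.wv w)) := by
            rw [← hq0t]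
            exact (relq_trh r v hr.one hND idt_hs _).symm
          rw [h2]
          constructor
          · have h3 := rq_fix y hr hv hND hc hf 0 false
            simp only [Bool.false_eq_true, if_false, hq00] at h3
            exact h3
          · intro u hu hl
            change tr (WN Qg Lm {i : Fin (n + 2) | i ≠ 0} (n + 1)) (relq Dg r v q0 q1 (y.wv w)).c u = 0
            unfold tr
            split_ifs with h4
            · have h5 := rq_q y Dg r v hr.one hND hc 0 false u hu hl h4.2.2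
              simp only [Bool.false_eq_true, if_false, hq00] at h5
              exact h5
            · rfl
        rw [hh1, sub_eq_add_neg, ep_add hp, mul_assoc]
    · have hL : ∏ e : Fin (n + 2) → Bool, cj e (fc y Dg r v c (vt q0 q1 e)) = 0 := by
        refine Finset.prod_eq_zero (Finset.mem_univ fun _ => false) ?_
        rw [vt_false]
        unfold fc
        rw [if_neg hB, cj_zero]
      rw [hL]
      rw [if_neg, mul_zero]
      rintro ⟨hND, -⟩
      apply hB
      refine ⟨hND.1, ?_⟩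
      rw [← hct.2]
      exact clo y Dg r v hr.one hv hND fun e he => (hA e he).2.trans hct.2.symm
  · push Not at hA
    obtain ⟨e, he, hA⟩ := hA
    have hL : ∏ e : Fin (n + 2) → Bool, cj e (fc y Dg r v c (vt q0 q1 e)) = 0 := by
      refine Finset.prod_eq_zero (Finset.mem_univ e) ?_
      unfold fc
      rw [if_neg hA, cj_zero]
    have hR : (∏ e ∈ Finset.univ.filter (fun e : Fin (n + 2) → Bool => e ≠ fun _ => false),
        if InC y Dg r v c (vt q0 q1 e) then (1 : ℂ) else 0) = 0 := by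
      refine Finset.prod_eq_zero (Finset.mem_filter.2 ⟨Finset.mem_univ e, he⟩) ?_
      rw [if_neg hA]
    rw [hL, hR, zero_mul, zero_mul]

end H62.BL
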