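import Pool.Agent.H62.BL.Bx

/-!
# [H62 BL BXC] the sum over the cells (60-100 lines). File Pool/Agent/H62/BL/Bxc.lean

* `cel_card`: `Cel` is a product of finite types of functions: `r.T → P`, `Fin (n + 2) → P ⧸ f (n+1)`, and three functions with values in functions `WN → ZMod p` (`wn_finite`: H42/WM); count.
* `bx`: `Fq q` is the sum of the `fc c q` over `c : Cel` (finite type): for admissible `q` exactly the cell of `q` contributes; for other `q` both are `0` (`Fq` contains `Adm`). `(∑_c x_c)^M ≤ #Cel^M max_c x_c^M` (`x_c ≥ 0`), `bx1`.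
-/

set_option autoImplicit false

open scoped NumberField
open IsDedekindDomain
open scoped Classical

noncomputable section

namespace H62.BL

open H63.MA H38.BB H38.BG H57.PC H57.BRA H77.WD H77.WE

variable {K : Type} [Field K] [NumberField K] {Ω : Type} [Field Ω] [Algebra K Ω]
  {p : ℕ} {ζ : K} {D : RD0 K p ζ} {n : ℕ} {P Qg Lm : Type} [Group P] [Group Qg] [MulAction Qg Lm]
  {A : GS D Ω}

/-- the number of cells -/
theorem cel_card [Finite P] [Finite Qg] [Fintype Lm] [Fact p.Prime] (y : Wy D A) (Dg : LG p n P Qg Lm)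
    (r : Rd A P Qg) : Finite (Cel y Dg r) ∧ Nat.card (Cel y Dg r) ≤
      (Nat.card P * p ^ Nat.card (WN Qg Lm (Set.univ : Set (Fin (n + 2))) (n + 1)).s) ^
        (r.T.card + y.F.card + 2 * (n + 2)) := by
  have hW : Finite (WN Qg Lm (Set.univ : Set (Fin (n + 2))) (n + 1)).s :=
    (wn_finite (Q := Qg) (L := Lm) (Set.univ : Set (Fin (n + 2))) (n + 1)).to_subtype
  have hZ : Finite (ZMod p) := by
    have : NeZero p := ⟨(Fact.out : p.Prime).ne_zero⟩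
    infer_instance
  obtain ⟨w, hw⟩ : ∃ w, w = Nat.card (WN Qg Lm (Set.univ : Set (Fin (n + 2))) (n + 1)).s := ⟨_, rfl⟩
  have hf : Finite ((WN Qg Lm (Set.univ : Set (Fin (n + 2))) (n + 1)).s → ZMod p) := Pi.finite
  have hq : Finite (P ⧸ Dg.f (n + 1)) := Quotient.finite _
  have hqc : Nat.card (P ⧸ Dg.f (n + 1)) ≤ Nat.card P := by
    refine Nat.card_le_card_of_surjective (fun x : P => (↑x : P ⧸ Dg.f (n + 1))) ?_
    intro x
    obtain ⟨y, hy⟩ := QuotientGroup.mk_surjective x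
    exact ⟨y, hy⟩
  refine ⟨inferInstance, ?_⟩
  have h1 : Nat.card r.T = r.T.card := by rw [Nat.card_eq_fintype_card, Fintype.card_coe]
  have h2 : Nat.card y.F = y.F.card := by rw [Nat.card_eq_fintype_card, Fintype.card_coe]
  have h3 : Nat.card (Fin (n + 2)) = n + 2 := Nat.card_fin _
  have h4 : Nat.card (Cel y Dg r) = Nat.card P ^ r.T.card * (Nat.card (P ⧸ Dg.f (n + 1)) ^ (n + 2) *
        ((p ^ w) ^ r.T.card * ((p ^ w) ^ y.F.card * (p ^ w) ^ (n + 2)))) := by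
    simp only [Nat.card_prod, Nat.card_fun, Nat.card_zmod, h1, h2, h3, ← hw]
  rw [h4, ← hw]
  have hP1 : 1 ≤ Nat.card P := Nat.card_pos
  have hw1 : 1 ≤ p ^ w := Nat.one_le_pow _ _ (Fact.out : p.Prime).pos
  calc Nat.card P ^ r.T.card * (Nat.card (P ⧸ Dg.f (n + 1)) ^ (n + 2) *
        ((p ^ w) ^ r.T.card * ((p ^ w) ^ y.F.card * (p ^ w) ^ (n + 2))))
      ≤ Nat.card P ^ r.T.card * (Nat.card P ^ (n + 2) *
        ((p ^ w) ^ r.T.card * ((p ^ w) ^ y.F.card * (p ^ w) ^ (n + 2)))) :=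
        Nat.mul_le_mul_left _ (Nat.mul_le_mul_right _ (Nat.pow_le_pow_left hqc _))
    _ = Nat.card P ^ (r.T.card + (n + 2)) * (p ^ w) ^ (r.T.card + y.F.card + (n + 2)) := by ring
    _ ≤ Nat.card P ^ (r.T.card + y.F.card + 2 * (n + 2)) *
        (p ^ w) ^ (r.T.card + y.F.card + 2 * (n + 2)) :=
        Nat.mul_le_mul (Nat.pow_le_pow_right hP1 (by omega)) (Nat.pow_le_pow_right hw1 (by omega))
    _ = _ := (mul_pow _ _ _).symm

theorem bx [IsAlgClosure K Ω] [Finite P] [Finite Qg] [Fintype Lm] [Fact p.Prime] (hp2 : MOne p K)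
    (hζ : IsPrimitiveRoot ζ p) (hz : Z2 p K) (Q : DP K Ω) (y : Wy D A) {Dg : LG p n P Qg Lm}
    (hy : y.Ok Q P Qg Lm n) (hQ : IsPGroup p Qg) {r : Rd A P Qg} {v : Vd n P Qg Lm}
    (hr : r.Ok y.L Dg y.E y.Z) (hv : v.Ok Dg) (B : Fin (n + 2) → Finset (Pl K)) (X : Fin (n + 2) → ℝ)
    (hB : ∀ k, ∀ w ∈ B k, w ∈ y.Z ∧ (nm w).Prime) (hX : ∀ k, 1 ≤ X k ∧ ((B k).card : ℝ) ≤ X k) :
    (‖∑ q ∈ Fintype.piFinset B, Fq y r v q‖ / ∏ k, X k) ^ (2 ^ (2 * n + 3)) ≤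
      (Nat.card (Cel y Dg r) : ℝ) ^ (2 ^ (2 * n + 3)) * (2 * (n + 2)) ^ (2 ^ (n + 1)) * (∑ k, (X k)⁻¹ +
        ((∏ k, X k) * (X 0 * ∏ j : Fin (n + 1), X j.succ ^ 2))⁻¹ * S3 y Dg r v B) := by
  obtain ⟨hcf, -⟩ := cel_card y Dg r
  have := Fintype.ofFinite (Cel y Dg r)
  have hM : 2 ^ (2 * n + 3) ≠ 0 := pow_ne_zero _ two_ne_zero
  have hX0 : 0 < ∏ k, X k := Finset.prod_pos fun k _ => zero_lt_one.trans_le (hX k).1
  have hsum : ∀ q, Fq y r v q = ∑ c, fc y Dg r v c q := by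
    intro q
    by_cases hq : Adm r.T q
    · rw [Finset.sum_eq_single (cel y Dg r v q)]
      · rw [fc, if_pos ⟨hq, rfl⟩]
      · intro c _ hc
        rw [fc, if_neg fun h => hc h.2.symm]
      · intro h
        exact absurd (Finset.mem_univ _) h
    · rw [Finset.sum_eq_zero fun c _ => by rw [fc, if_neg fun h => hq h.1], Fq, if_neg hq]
  have h1 : ∑ q ∈ Fintype.piFinset B, Fq y r v q =
      ∑ c, ∑ q ∈ Fintype.piFinset B, fc y Dg r v c q := by
    rw [Finset.sum_comm]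
    exact Finset.sum_congr rfl fun q _ => hsum q
  have h2 : ‖∑ q ∈ Fintype.piFinset B, Fq y r v q‖ / ∏ k, X k ≤
      ∑ c, ‖∑ q ∈ Fintype.piFinset B, fc y Dg r v c q‖ / ∏ k, X k := by
    rw [h1, ← Finset.sum_div]
    exact div_le_div_of_nonneg_right (norm_sum_le _ _) hX0.le
  have h0 : 0 ≤ ‖∑ q ∈ Fintype.piFinset B, Fq y r v q‖ / ∏ k, X k :=
    div_nonneg (norm_nonneg _) hX0.le
  have hc := bx1 hp2 hζ hz Q y hy hQ hr hv B X hB hX
  rcases isEmpty_or_nonempty (Cel y Dg r) with he | hne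
  · rw [Finset.univ_eq_empty (α := Cel y Dg r), Finset.sum_empty] at h2
    rw [le_antisymm h2 h0, zero_pow hM, Nat.card_of_isEmpty]
    simp only [Nat.cast_zero, zero_pow hM, zero_mul, le_refl]
  · obtain ⟨c, -, hcm⟩ := Finset.exists_max_image Finset.univ
      (fun c : Cel y Dg r => ‖∑ q ∈ Fintype.piFinset B, fc y Dg r v c q‖ / ∏ k, X k)
      Finset.univ_nonempty
    have h3 : ‖∑ q ∈ Fintype.piFinset B, Fq y r v q‖ / ∏ k, X k ≤ (Nat.card (Cel y Dg r) : ℝ) *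
        (‖∑ q ∈ Fintype.piFinset B, fc y Dg r v c q‖ / ∏ k, X k) := by
      refine h2.trans ?_
      refine (Finset.sum_le_card_nsmul _ _ _ fun c' hc' => hcm c' hc').trans ?_
      rw [Nat.card_eq_fintype_card, nsmul_eq_mul, Finset.card_univ]
    calc (‖∑ q ∈ Fintype.piFinset B, Fq y r v q‖ / ∏ k, X k) ^ (2 ^ (2 * n + 3))
        ≤ ((Nat.card (Cel y Dg r) : ℝ) *
          (‖∑ q ∈ Fintype.piFinset B, fc y Dg r v c q‖ / ∏ k, X k)) ^ (2 ^ (2 * n + 3)) :=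
          pow_le_pow_left₀ h0 h3 _
      _ = (Nat.card (Cel y Dg r) : ℝ) ^ (2 ^ (2 * n + 3)) *
          (‖∑ q ∈ Fintype.piFinset B, fc y Dg r v c q‖ / ∏ k, X k) ^ (2 ^ (2 * n + 3)) := mul_pow _ _ _
      _ ≤ (Nat.card (Cel y Dg r) : ℝ) ^ (2 ^ (2 * n + 3)) * ((2 * (n + 2)) ^ (2 ^ (n + 1)) *
          (∑ k, (X k)⁻¹ + ((∏ k, X k) * (X 0 * ∏ j : Fin (n + 1), X j.succ ^ 2))⁻¹ *
            S3 y Dg r v B)) := mul_le_mul_of_nonneg_left (hc c) (by positivity)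
      _ = _ := (mul_assoc _ _ _).symm

end H62.BL
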