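import Pool.Agent.H62.BL.Df

/-!
# [H62 BL CSA] Cauchy inequality for boxes (Gowers), pure, 80-140 lines. File Pool/Agent/H62/BL/Csa.lean

Two copies `q0`, `q1` of the variables, `vt q0 q1 e` the vertices, `cj e` the conjugation if the number of `false` in `e` is odd.
PROOF of `csa`. Let `N = ∏ |B k|`. Induction on `m`, splitting off the coordinate `0` (`Fin.consEquiv` / `Fintype.piFinset` as image of
`Fin.cons`; general `X` and `B`). `m = 0`: both sides are `‖f ‖` (one point; `cj = id`). Step: `S = ∑_q' ∑_x f(x, q')`,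
`‖S‖² ≤ N' ∑_q' ‖∑_x f(x, q')‖² = N' ∑_(x0, x1) ∑_q' f(x1, q') conj f(x0, q')` (Cauchy-Schwarz, `N' = ∏_(k ≥ 1) |B k|`; the sum over `(x0, x1)`
is real, `≤` the sum of the norms of the inner sums). For fixed `(x0, x1)` apply the induction hypothesis to `g q' = f(x1, q') conj f(x0, q')`, and
`(∑_(x0,x1) a)^(2^m) ≤ (|B 0|²)^(2^m - 1) ∑ a^(2^m)` (`inner_le_nnorm_mul_nnorm`, `Finset.inner_mul_le_norm_mul_norm`, `inner_le_Lp_mul_Lq` or `Real.pow_arith_mean_le_arith_mean_pow`,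
`inner_mul_le_norm_mul_norm`).
CAREFUL: the right side has the norm OUTSIDE the sum over `q0, q1`; in the induction keep the STRONGER form with the real part / the sum itself: for
every `f` the box sum `∑_(q0,q1) ∏_e cj e (f (vt q0 q1 e))` is a nonnegative real number `b f` for `m ≥ 1` (it is `∑ |·|²` over the first coordinate),
and `‖∑ f‖ ^ (2^m) N² ≤ N^(2^m) b f`. In the step: `∑_(x0,x1) ‖∑_q' g‖^(2^m) N'² ≤ N'^(2^m) ∑_(x0,x1) b g = N'^(2^m) b f`. For `m = 0` use `‖f‖`. So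
prove: for `m ≥ 1` the box sum is `≥ 0` (real), by `Fin.cons`-splitting of the coordinate `0`:
`∑_(q0',q1') |∑_x ∏_(e') cj e' (f (x, vt q0' q1' e'))|²`.
`cj (Fin.cons true e) = cj e`, `cj (Fin.cons false e) z = conj (cj e z)`, `cj` is multiplicative and commutes with conjugation.
-/

set_option autoImplicit false

open scoped Classical

noncomputable section

namespace H62.BL

private theorem csa_sum {X M : Type} [AddCommMonoid M] {m : ℕ} (B : Fin (m + 1) → Finset X)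
    (F : (Fin (m + 1) → X) → M) :
    ∑ q ∈ Fintype.piFinset B, F q =
      ∑ x ∈ B 0, ∑ q ∈ Fintype.piFinset (Fin.tail B), F (Fin.cons x q) := by
  rw [← Finset.sum_product']
  refine Finset.sum_nbij' (fun q => (q 0, Fin.tail q)) (fun y => Fin.cons y.1 y.2) ?_ ?_ ?_ ?_ ?_
  · intro q hq
    rw [Fintype.mem_piFinset] at hq
    rw [Finset.mem_product, Fintype.mem_piFinset]
    exact ⟨hq 0, fun k => hq k.succ⟩
  · rintro ⟨x, q⟩ hq
    rw [Finset.mem_product, Fintype.mem_piFinset] at hq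
    rw [Fintype.mem_piFinset]
    intro k
    refine Fin.cases ?_ (fun i => ?_) k
    · exact hq.1
    · exact hq.2 i
  · intro q _
    exact Fin.cons_self_tail q
  · rintro ⟨x, q⟩ _
    rfl
  · intro q _
    show F q = F (Fin.cons (q 0) (Fin.tail q))
    rw [Fin.cons_self_tail]

private theorem csa_prod {m : ℕ} (F : (Fin (m + 1) → Bool) → ℂ) :
    ∏ e, F e = ∏ e : Fin m → Bool, F (Fin.cons true e) * F (Fin.cons false e) := by
  rw [← (Fin.consEquiv (fun _ : Fin (m + 1) => Bool)).prod_comp, Fintype.prod_prod_type,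
    Fintype.prod_bool, ← Finset.prod_mul_distrib]
  rfl

private theorem csa_true {m : ℕ} (e : Fin m → Bool) (z : ℂ) :
    cj (Fin.cons true e : Fin (m + 1) → Bool) z = cj e z := by
  unfold cj
  rw [Finset.card_filter, Fin.sum_univ_succ, Finset.card_filter]
  simp only [Fin.cons_zero, Fin.cons_succ, Bool.true_eq_false, if_false, zero_add]

private theorem csa_false {m : ℕ} (e : Fin m → Bool) (z : ℂ) :
    cj (Fin.cons false e : Fin (m + 1) → Bool) z = (starRingEnd ℂ) (cj e z) := by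
  unfold cj
  rw [Finset.card_filter, Fin.sum_univ_succ, Finset.card_filter]
  simp only [Fin.cons_zero, Fin.cons_succ, if_true]
  by_cases h : Even (∑ i, if e i = false then 1 else 0)
  · rw [if_pos h, if_neg]
    rw [Nat.even_add]
    intro h2
    exact absurd (h2.2 h) (by decide)
  · rw [if_neg h, if_pos, Complex.conj_conj]
    rw [Nat.even_add]
    exact ⟨fun h2 => absurd h2 (by decide), fun h2 => absurd h2 h⟩

private theorem csa_mul {m : ℕ} (e : Fin m → Bool) (z w : ℂ) :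
    cj e (z * w) = cj e z * cj e w := by
  unfold cj
  split_ifs
  · rfl
  · exact map_mul _ _ _

private theorem csa_conj {m : ℕ} (e : Fin m → Bool) (z : ℂ) :
    cj e ((starRingEnd ℂ) z) = (starRingEnd ℂ) (cj e z) := by
  unfold cj
  split_ifs
  · rfl
  · rfl

private theorem csa_vt1 {X : Type} {m : ℕ} (x0 x1 : X) (q0 q1 : Fin m → X) (e : Fin m → Bool) :
    vt (Fin.cons x0 q0 : Fin (m + 1) → X) (Fin.cons x1 q1) (Fin.cons true e) =
      Fin.cons x1 (vt q0 q1 e) := by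
  funext k
  refine Fin.cases ?_ (fun i => ?_) k
  · rfl
  · rfl

private theorem csa_vt0 {X : Type} {m : ℕ} (x0 x1 : X) (q0 q1 : Fin m → X) (e : Fin m → Bool) :
    vt (Fin.cons x0 q0 : Fin (m + 1) → X) (Fin.cons x1 q1) (Fin.cons false e) =
      Fin.cons x0 (vt q0 q1 e) := by
  funext k
  refine Fin.cases ?_ (fun i => ?_) k
  · rfl
  · rfl

/-- the box sum -/
private def bxs {X : Type} {m : ℕ} (B : Fin m → Finset X) (f : (Fin m → X) → ℂ) : ℂ :=
  ∑ q1 ∈ Fintype.piFinset B, ∑ q0 ∈ Fintype.piFinset B, ∏ e : Fin m → Bool, cj e (f (vt q0 q1 e))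

private theorem csa_pt {X : Type} {m : ℕ} (f : (Fin (m + 1) → X) → ℂ) (x0 x1 : X)
    (q0 q1 : Fin m → X) :
    ∏ e, cj e (f (vt (Fin.cons x0 q0 : Fin (m + 1) → X) (Fin.cons x1 q1) e)) =
      (∏ e, cj e (f (Fin.cons x1 (vt q0 q1 e)))) *
        (starRingEnd ℂ) (∏ e, cj e (f (Fin.cons x0 (vt q0 q1 e)))) := by
  rw [csa_prod, map_prod, ← Finset.prod_mul_distrib]
  refine Finset.prod_congr rfl fun e _ => ?_
  rw [csa_true, csa_false, csa_vt1, csa_vt0]

private theorem bxs_succ {X : Type} {m : ℕ} (B : Fin (m + 1) → Finset X)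
    (f : (Fin (m + 1) → X) → ℂ) :
    bxs B f = ∑ x1 ∈ B 0, ∑ x0 ∈ B 0, bxs (Fin.tail B)
      (fun q => f (Fin.cons x1 q) * (starRingEnd ℂ) (f (Fin.cons x0 q))) := by
  unfold bxs
  rw [csa_sum B]
  refine Finset.sum_congr rfl fun x1 _ => ?_
  rw [Finset.sum_congr rfl fun q1 _ => csa_sum B _, Finset.sum_comm]
  refine Finset.sum_congr rfl fun x0 _ => Finset.sum_congr rfl fun q1 _ =>
    Finset.sum_congr rfl fun q0 _ => ?_
  rw [csa_pt, map_prod, ← Finset.prod_mul_distrib]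
  refine Finset.prod_congr rfl fun e _ => ?_
  rw [csa_mul, csa_conj]

private theorem bxs_nonneg {X : Type} {m : ℕ} (B : Fin (m + 1) → Finset X)
    (f : (Fin (m + 1) → X) → ℂ) : ∃ r : ℝ, 0 ≤ r ∧ bxs B f = r := by
  refine ⟨∑ q1 ∈ Fintype.piFinset (Fin.tail B), ∑ q0 ∈ Fintype.piFinset (Fin.tail B),
    ‖∑ x ∈ B 0, ∏ e, cj e (f (Fin.cons x (vt q0 q1 e)))‖ ^ 2, ?_, ?_⟩
  · exact Finset.sum_nonneg fun _ _ => Finset.sum_nonneg fun _ _ => sq_nonneg _
  · unfold bxs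
    rw [csa_sum B, Finset.sum_comm, Complex.ofReal_sum]
    refine Finset.sum_congr rfl fun q1 _ => ?_
    rw [Finset.sum_congr rfl fun x1 _ => (csa_sum B _).trans Finset.sum_comm, Finset.sum_comm,
      Complex.ofReal_sum]
    refine Finset.sum_congr rfl fun q0 _ => ?_
    rw [Complex.ofReal_pow, ← Complex.mul_conj', map_sum, Finset.sum_mul_sum]
    exact Finset.sum_congr rfl fun x1 _ => Finset.sum_congr rfl fun x0 _ => csa_pt f x0 x1 q0 q1

private theorem bxs_zero {X : Type} (B : Fin 0 → Finset X) (f : (Fin 0 → X) → ℂ) :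
    bxs B f = ∑ q ∈ Fintype.piFinset B, f q := by
  have h1 : Fintype.piFinset B = {fun k => k.elim0} := by
    ext q
    rw [Fintype.mem_piFinset, Finset.mem_singleton]
    exact ⟨fun _ => funext fun k => k.elim0, fun _ k => k.elim0⟩
  unfold bxs
  rw [h1, Finset.sum_singleton, Finset.sum_singleton, Finset.sum_singleton, Fintype.prod_unique]
  unfold cj
  rw [if_pos]
  · congr 1
    exact funext fun k => k.elim0
  · rw [Finset.univ_eq_empty, Finset.filter_empty, Finset.card_empty]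
    exact Even.zero

private theorem csa_pm {ι : Type} (s : Finset ι) (a : ι → ℝ) (ha : ∀ i ∈ s, 0 ≤ a i) (n : ℕ) :
    (∑ i ∈ s, a i) ^ (n + 1) ≤ (s.card : ℝ) ^ n * ∑ i ∈ s, a i ^ (n + 1) := by
  rcases s.eq_empty_or_nonempty with rfl | hs
  · rw [Finset.sum_empty, Finset.sum_empty, mul_zero, zero_pow (Nat.succ_ne_zero n)]
  · have h2 := pow_sum_div_card_le_sum_pow (s := s) (f := a) ha n
    have h3 : (0 : ℝ) < (s.card : ℝ) ^ n := pow_pos (Nat.cast_pos.2 hs.card_pos) n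
    rwa [div_le_iff₀ h3, mul_comm] at h2

/-- Cauchy-Schwarz in the first coordinate -/
private theorem csa_cs {X : Type} {m : ℕ} (B : Fin (m + 1) → Finset X)
    (f : (Fin (m + 1) → X) → ℂ) :
    ∃ R : ℝ, 0 ≤ R ∧ ‖∑ q ∈ Fintype.piFinset B, f q‖ ^ 2 ≤
      (∏ k, ((Fin.tail B k).card : ℝ)) * R ∧
      (R : ℂ) = ∑ x1 ∈ B 0, ∑ x0 ∈ B 0, ∑ q ∈ Fintype.piFinset (Fin.tail B),
        f (Fin.cons x1 q) * (starRingEnd ℂ) (f (Fin.cons x0 q)) := by
  refine ⟨∑ q ∈ Fintype.piFinset (Fin.tail B), ‖∑ x ∈ B 0, f (Fin.cons x q)‖ ^ 2,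
    Finset.sum_nonneg fun _ _ => sq_nonneg _,
    ?_, ?_⟩
  · rw [csa_sum B, Finset.sum_comm]
    have h1 : (∏ k, ((Fin.tail B k).card : ℝ)) = ((Fintype.piFinset (Fin.tail B)).card : ℝ) := by
      rw [Fintype.card_piFinset]
      push_cast
      rfl
    rw [h1]
    exact (pow_le_pow_left₀ (norm_nonneg _) (norm_sum_le _ _) 2).trans sq_sum_le_card_mul_sum_sq
  · rw [Complex.ofReal_sum, Finset.sum_congr rfl fun x1 _ => Finset.sum_comm, Finset.sum_comm]
    refine Finset.sum_congr rfl fun q _ => ?_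
    rw [Complex.ofReal_pow, ← Complex.mul_conj', map_sum, Finset.sum_mul_sum]

private theorem csa_main {X : Type} (m : ℕ) : ∀ (B : Fin (m + 1) → Finset X)
    (f : (Fin (m + 1) → X) → ℂ),
    ‖∑ q ∈ Fintype.piFinset B, f q‖ ^ (2 ^ (m + 1)) * (∏ k, ((B k).card : ℝ)) ^ 2 ≤
      (∏ k, ((B k).card : ℝ)) ^ (2 ^ (m + 1)) * ‖bxs B f‖ := by
  induction m with
  | zero =>
    intro B f
    obtain ⟨R, hR, h1, h2⟩ := csa_cs B f
    have h3 : bxs B f = R := by
      rw [h2, bxs_succ]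
      exact Finset.sum_congr rfl fun x1 _ => Finset.sum_congr rfl fun x0 _ => bxs_zero _ _
    rw [Finset.univ_eq_empty, Finset.prod_empty, one_mul] at h1
    rw [h3, Complex.norm_real, Real.norm_of_nonneg hR, show 2 ^ (0 + 1) = 2 from rfl, mul_comm]
    exact mul_le_mul_of_nonneg_left h1 (sq_nonneg _)
  | succ m ih =>
    intro B f
    obtain ⟨R, hR, h1, h2⟩ := csa_cs B f
    set k : ℕ := 2 ^ (m + 1) with hk
    have hk1 : 1 ≤ k := Nat.one_le_two_pow
    obtain ⟨j, hj⟩ : ∃ j, k = j + 1 := ⟨k - 1, by omega⟩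
    let g : X × X → (Fin (m + 1) → X) → ℂ := fun y q =>
      f (Fin.cons y.1 q) * (starRingEnd ℂ) (f (Fin.cons y.2 q))
    let S : X × X → ℂ := fun y => ∑ q ∈ Fintype.piFinset (Fin.tail B), g y q
    let n0 : ℝ := ((B 0).card : ℝ)
    let N' : ℝ := ∏ k, ((Fin.tail B k).card : ℝ)
    have hn0 : 0 ≤ n0 := Nat.cast_nonneg _
    have hN' : 0 ≤ N' := Finset.prod_nonneg fun _ _ => Nat.cast_nonneg _
    have hN : (∏ k, ((B k).card : ℝ)) = n0 * N' := Fin.prod_univ_succ _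
    have h3 : R ≤ ∑ y ∈ B 0 ×ˢ B 0, ‖S y‖ := by
      have h4 : (R : ℂ) = ∑ y ∈ B 0 ×ˢ B 0, S y := by
        rw [h2, Finset.sum_product]
      calc R = ‖(R : ℂ)‖ := by rw [Complex.norm_real, Real.norm_of_nonneg hR]
        _ ≤ _ := by
          rw [h4]
          exact norm_sum_le _ _
    have h4 : ∑ y ∈ B 0 ×ˢ B 0, ‖bxs (Fin.tail B) (g y)‖ = ‖bxs B f‖ := by
      have h5 : ∀ y, ∃ r : ℝ, 0 ≤ r ∧ bxs (Fin.tail B) (g y) = r :=
        fun y => bxs_nonneg (Fin.tail B) (g y)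
      choose r hr0 hr using h5
      have h6 : bxs B f = ((∑ y ∈ B 0 ×ˢ B 0, r y : ℝ) : ℂ) := by
        rw [bxs_succ, Complex.ofReal_sum, Finset.sum_product]
        exact Finset.sum_congr rfl fun x1 _ => Finset.sum_congr rfl fun x0 _ => hr (x1, x0)
      rw [h6, Complex.norm_real, Real.norm_of_nonneg (Finset.sum_nonneg fun y _ => hr0 y)]
      refine Finset.sum_congr rfl fun y _ => ?_
      rw [hr, Complex.norm_real, Real.norm_of_nonneg (hr0 y)]
    have h5 : (∑ y ∈ B 0 ×ˢ B 0, ‖S y‖) ^ k ≤ (n0 ^ 2) ^ j * ∑ y ∈ B 0 ×ˢ B 0, ‖S y‖ ^ k := by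
      have h6 := csa_pm (B 0 ×ˢ B 0) (fun y => ‖S y‖) (fun y _ => norm_nonneg _) j
      rw [← hj, Finset.card_product, Nat.cast_mul] at h6
      rw [sq]
      exact h6
    have hpow : (2 : ℕ) ^ (m + 1 + 1) = 2 * k := by
      rw [hk, pow_succ', pow_succ']
    rw [hpow, pow_mul, hN]
    have h7 : (‖∑ q ∈ Fintype.piFinset B, f q‖ ^ 2) ^ k ≤
        N' ^ k * ((n0 ^ 2) ^ j * ∑ y ∈ B 0 ×ˢ B 0, ‖S y‖ ^ k) := by
      calc (‖∑ q ∈ Fintype.piFinset B, f q‖ ^ 2) ^ k ≤ (N' * R) ^ k :=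
            pow_le_pow_left₀ (sq_nonneg _) h1 k
        _ = N' ^ k * R ^ k := mul_pow _ _ _
        _ ≤ N' ^ k * (∑ y ∈ B 0 ×ˢ B 0, ‖S y‖) ^ k :=
            mul_le_mul_of_nonneg_left (pow_le_pow_left₀ hR h3 k) (pow_nonneg hN' k)
        _ ≤ _ := mul_le_mul_of_nonneg_left h5 (pow_nonneg hN' k)
    calc (‖∑ q ∈ Fintype.piFinset B, f q‖ ^ 2) ^ k * (n0 * N') ^ 2
        ≤ (N' ^ k * ((n0 ^ 2) ^ j * ∑ y ∈ B 0 ×ˢ B 0, ‖S y‖ ^ k)) * (n0 * N') ^ 2 :=
          mul_le_mul_of_nonneg_right h7 (sq_nonneg _)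
      _ = N' ^ k * (n0 ^ 2) ^ k * ∑ y ∈ B 0 ×ˢ B 0, ‖S y‖ ^ k * N' ^ 2 := by
          rw [← Finset.sum_mul, hj]
          ring
      _ ≤ N' ^ k * (n0 ^ 2) ^ k * ∑ y ∈ B 0 ×ˢ B 0, N' ^ k * ‖bxs (Fin.tail B) (g y)‖ :=
          mul_le_mul_of_nonneg_left (Finset.sum_le_sum fun y _ => ih (Fin.tail B) (g y))
            (mul_nonneg (pow_nonneg hN' k) (pow_nonneg (sq_nonneg _) k))
      _ = (n0 * N') ^ (2 * k) * ‖bxs B f‖ := by
          rw [← Finset.mul_sum, h4]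
          ring

theorem csa {X : Type} (m : ℕ) (B : Fin m → Finset X) (f : (Fin m → X) → ℂ) :
    ‖∑ q ∈ Fintype.piFinset B, f q‖ ^ (2 ^ m) * (∏ k, ((B k).card : ℝ)) ^ 2 ≤
      (∏ k, ((B k).card : ℝ)) ^ (2 ^ m) *
        ‖∑ q1 ∈ Fintype.piFinset B, ∑ q0 ∈ Fintype.piFinset B, ∏ e : Fin m → Bool,
          cj e (f (vt q0 q1 e))‖ := by
  rcases m with _ | m
  · have h1 := bxs_zero B f
    unfold bxs at h1
    rw [h1, Finset.univ_eq_empty, Finset.prod_empty, pow_zero, one_pow, mul_one, one_pow, one_mul,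
      pow_one]
  · exact csa_main m B f

end H62.BL
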