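import Pool.Agent.H62.BL.Idt

/-!
# [H62 BL HH] the inner sum over `w` as a sum of a function of `Φ (F_w)` (80-130 lines). File Pool/Agent/H62/BL/Hh.lean

Three tuples: `q1` (all indices; `b = Fin.tail q1`), `a'`, `a` (indices `1, ..., n + 1`). `Tt T b a' a = T ∪ a ∪ a' ∪ b` the ramified primes, `Good`: all these `3 (n + 1)` primes and `q1 0` are distinct and not in `T`, and for every
vertex `e` there is an honest `Ψ` with the words `reld (vt a a' e) b`.
* `hh_sum`: if `Good`, there is `Φ : Gal → (∀ e, UGd)`, `Φ σ e = Ψ_e σ` (`Classical.choice`), honest for `Tt` (`ft_pi` in H77/WD/Wrd.lean; order `p` and `= 1` componentwise), with `hat Φ (e) = reld ..`, and for every finite set `B` of primes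
  of prime norm in `Z`: `∑_(w ∈ B) ∏ e, cj e (Uf q1 w (vt a a' e)) = ∑ w ∈ B, w ∉ Tt, w ≠ q1 0, hh (Φ (F_w))`. PROOF: for `w ∈ Tt ∪ {q1 0}`: the product vanishes: `ND T (cons w (vt a a' e)) q1` fails for a suitable `e` (`w = a j`: `e j = false`;
  `w = a' j`: `e j = true`; `w = q1 k`: every `e`; `w ∈ T`: every `e`). Otherwise `ND` holds for all `e`, `Uf = h1 (reld (wv w)) = h1 (Ψ_e (F_w))` (`wdE_spec` with `cd`, `HonE.mono`; `y.wv w = wdE ..` by definition).
* `hh_zero`: if not `Good` and the `3 (n + 1) + 1` primes are distinct and not in `T`, every product is `0` (some `e` has no `Ψ`).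
* `hh_nd`: if the product is not `0` for some `w`, then `ND T (vt a a' e) b` for all `e`; so the primes are distinct except possibly `a j = a' j` for some `j` (`n + 1 = 1`: nothing else; otherwise `a j ≠ a' k` from a vertex with `e j = false`, `e k = true`).
-/

set_option autoImplicit false

open scoped NumberField
open IsDedekindDomain
open scoped Classical

noncomputable section

namespace H62.BL

open H63.MA H38.BB H38.BG H57.PC H57.BRA H77.WD H77.WE

variable {K : Type} [Field K] [NumberField K] {Ω : Type} [Field Ω] [Algebra K Ω]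
  {p : ℕ} {ζ : K} {D : RD0 K p ζ} {n : ℕ} {P Qg Lm : Type} [Group P] [Group Qg] [MulAction Qg Lm]
  {A : GS D Ω}

/-- the ramified primes -/
def Tt (T : Finset (Pl K)) (b a' a : Fin (n + 1) → Pl K) : Finset (Pl K) :=
  T ∪ (Finset.univ.image a ∪ Finset.univ.image a' ∪ Finset.univ.image b)

/-- all primes are distinct -/
def Dst (T : Finset (Pl K)) (q1 : Fin (n + 2) → Pl K) (a' a : Fin (n + 1) → Pl K) : Prop :=
  Adm T q1 ∧ Adm T a ∧ Adm T a' ∧ (∀ j k, a j ≠ a' k) ∧ (∀ j k, a j ≠ q1 k) ∧ ∀ j k, a' j ≠ q1 k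

/-- the hom to the product of the groups of the vertices -/
structure Ph (y : Wy D A) (Dg : LG p n P Qg Lm) (r : Rd A P Qg) (v : Vd n P Qg Lm)
    (b a' a : Fin (n + 1) → Pl K)
    (Φ : Gal(Ω/K) →* ((Fin (n + 1) → Bool) → UGd p n Qg Lm)) : Prop where
  hon : HonE y.L y.E (Tt r.T b a' a) Φ
  hat : ∀ z e, hat y.L A Φ z e = reld Dg r v (vt a a' e) b z

theorem hh_ex [Finite Qg] [Fintype Lm] [Fact p.Prime] (y : Wy D A) {Dg : LG p n P Qg Lm}
    {r : Rd A P Qg} {v : Vd n P Qg Lm} (b a' a : Fin (n + 1) → Pl K)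
    (h : ∀ e, ∃ Ψ, Hd y Dg r v (vt a a' e) b Ψ) : ∃ Φ, Ph y Dg r v b a' a Φ := by
  choose Ψ hΨ using h
  refine ⟨MonoidHom.pi Ψ, ⟨ft_pi _ fun e => (hΨ e).1.1, fun w hw he => ⟨?_, fun hz => ?_⟩⟩,
    fun z e => ?_⟩
  · funext e
    exact ((hΨ e).1.2 w hw he).1
  · funext e
    refine ((hΨ e).1.2 w hw he).2 fun hm => hz ?_
    unfold Tt
    rcases Finset.mem_union.1 hm with hm | hm
    · rcases Finset.mem_union.1 hm with hm | hm
      · exact Finset.mem_union_left _ hm
      · obtain ⟨j, -, hj⟩ := Finset.mem_image.1 hm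
        refine Finset.mem_union_right _ (Finset.mem_union_left _ ?_)
        unfold vt at hj
        by_cases hej : e j = true
        · rw [if_pos hej] at hj
          exact Finset.mem_union_right _ (Finset.mem_image.2 ⟨j, Finset.mem_univ _, hj⟩)
        · rw [if_neg hej] at hj
          exact Finset.mem_union_left _ (Finset.mem_image.2 ⟨j, Finset.mem_univ _, hj⟩)
    · exact Finset.mem_union_right _ (Finset.mem_union_right _ hm)
  · have h1 : Ψ e = (Pi.evalMonoidHom (fun _ => UGd p n Qg Lm) e).comp (MonoidHom.pi Ψ) := rfl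
    have h2 := DFunLike.congr_fun (hΨ e).2 z
    rw [h1, hat_comp] at h2
    exact h2

private theorem reld_one (Dg : LG p n P Qg Lm) {r : Rd A P Qg} (v : Vd n P Qg Lm)
    (h1 : ∀ w, w ∉ r.T → r.lab w = 1) (a b : Fin (n + 1) → Pl K) {w : Pl K} (hw : w ∉ r.T)
    (ha : ∀ k, a k ≠ w) (hb : ∀ k, b k ≠ w) :
    reld Dg r v a b (FreeGroup.of (Sum.inl w)) = 1 := by
  unfold reld rel unh
  rw [FreeGroup.lift_apply_of]
  have h2 : kdq A Fin.succ a b (Sum.inl w : Pl K ⊕ Fin A.g) = none := by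
    have ha' : ¬ ∃ k, a k = w := fun ⟨k, hk⟩ => ha k hk
    have hb' : ¬ ∃ k, b k = w := fun ⟨k, hk⟩ => hb k hk
    change (if h : ∃ k, a k = w then some (Fin.succ h.choose, false) else
      if h : ∃ k, b k = w then some (Fin.succ h.choose, true) else none) = none
    rw [dif_neg ha', dif_neg hb']
  rw [h2]
  change qi (Dg.pi (r.bs (Sum.inl w))) = 1
  have h3 : r.bs (Sum.inl w) = 1 := h1 w hw
  rw [h3, map_one]
  rfl

private theorem ph_hd {y : Wy D A} {Dg : LG p n P Qg Lm} {r : Rd A P Qg} {v : Vd n P Qg Lm}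
    (h1 : ∀ w, w ∉ r.T → r.lab w = 1) {b a' a : Fin (n + 1) → Pl K}
    {Φ : Gal(Ω/K) →* ((Fin (n + 1) → Bool) → UGd p n Qg Lm)} (hΦ : Ph y Dg r v b a' a Φ)
    (e : Fin (n + 1) → Bool) :
    Hd y Dg r v (vt a a' e) b ((Pi.evalMonoidHom (fun _ => UGd p n Qg Lm) e).comp Φ) := by
  have hh : hat y.L A ((Pi.evalMonoidHom (fun _ => UGd p n Qg Lm) e).comp Φ) =
      reld Dg r v (vt a a' e) b := by
    refine MonoidHom.ext fun z => ?_
    rw [hat_comp]
    exact hΦ.hat z e
  refine ⟨⟨(hΦ.hon.comp _).1, fun w hw he => ⟨((hΦ.hon.comp _).2 w hw he).1, fun hz => ?_⟩⟩, hh⟩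
  rw [← hat_inl y.L A, hh]
  refine reld_one Dg v h1 _ _ (fun h => hz ?_) (fun k h => hz ?_) fun k h => hz ?_
  · exact Finset.mem_union_left _ (Finset.mem_union_left _ h)
  · exact Finset.mem_union_left _ (Finset.mem_union_right _
      (Finset.mem_image.2 ⟨k, Finset.mem_univ _, h⟩))
  · exact Finset.mem_union_right _ (Finset.mem_image.2 ⟨k, Finset.mem_univ _, h⟩)

private theorem cj_zero {m : ℕ} (e : Fin m → Bool) : cj e (0 : ℂ) = 0 := by
  unfold cj
  split_ifs
  · rfl
  · exact map_zero _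

private theorem uf_zero [Fintype Lm] (y : Wy D A) (Dg : LG p n P Qg Lm) (r : Rd A P Qg)
    (v : Vd n P Qg Lm) (q1 : Fin (n + 2) → Pl K) (a' a : Fin (n + 1) → Pl K) (w : Pl K)
    (e : Fin (n + 1) → Bool)
    (h : ¬ (ND r.T (Fin.cons w (vt a a' e) : Fin (n + 2) → Pl K) q1 ∧
      ∃ Ψ, Hd y Dg r v (vt a a' e) (Fin.tail q1) Ψ)) :
    ∏ e : Fin (n + 1) → Bool, cj e (Uf y Dg r v q1 w (vt a a' e)) = 0 := by
  refine Finset.prod_eq_zero (Finset.mem_univ e) ?_
  unfold Uf
  rw [if_neg h, cj_zero]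

private theorem vt_nd {T : Finset (Pl K)} {q1 : Fin (n + 2) → Pl K} {a' a : Fin (n + 1) → Pl K}
    (hd : Dst T q1 a' a) {w : Pl K} (hw : w ∉ Tt T (Fin.tail q1) a' a) (hw0 : w ≠ q1 0)
    (e : Fin (n + 1) → Bool) : ND T (Fin.cons w (vt a a' e) : Fin (n + 2) → Pl K) q1 := by
  obtain ⟨h1, h2, h3, h4, h5, h6⟩ := hd
  have ht : ∀ k, vt a a' e k = a k ∨ vt a a' e k = a' k := fun k => by
    unfold vt
    by_cases hk : e k = true
    · rw [if_pos hk]
      exact Or.inr rfl
    · rw [if_neg hk]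
      exact Or.inl rfl
  have hwv : ∀ k, w ≠ vt a a' e k := by
    intro k h
    apply hw
    unfold Tt
    refine Finset.mem_union_right _ (Finset.mem_union_left _ ?_)
    rcases ht k with hk | hk
    · exact Finset.mem_union_left _ (Finset.mem_image.2 ⟨k, Finset.mem_univ _, by rw [h, hk]⟩)
    · exact Finset.mem_union_right _ (Finset.mem_image.2 ⟨k, Finset.mem_univ _, by rw [h, hk]⟩)
  have hwq : ∀ k, w ≠ q1 k := by
    intro k h
    revert h
    refine Fin.cases (fun h => hw0 h) (fun j h => ?_) k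
    apply hw
    unfold Tt
    exact Finset.mem_union_right _ (Finset.mem_union_right _
      (Finset.mem_image.2 ⟨j, Finset.mem_univ _, h.symm⟩))
  have hwT : w ∉ T := fun h => hw (Finset.mem_union_left _ h)
  have hvi : Function.Injective (vt a a' e) := by
    intro j k hjk
    unfold vt at hjk
    by_cases hj : e j = true <;> by_cases hk : e k = true
    · rw [if_pos hj, if_pos hk] at hjk
      exact h3.1 hjk
    · rw [if_pos hj, if_neg hk] at hjk
      exact absurd hjk.symm (h4 k j)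
    · rw [if_neg hj, if_pos hk] at hjk
      exact absurd hjk (h4 j k)
    · rw [if_neg hj, if_neg hk] at hjk
      exact h2.1 hjk
  refine ⟨⟨?_, ?_⟩, h1, ?_⟩
  · intro j k
    refine Fin.cases ?_ (fun j => ?_) j <;> refine Fin.cases ?_ (fun k => ?_) k
    · exact fun _ => rfl
    · rw [Fin.cons_zero, Fin.cons_succ]
      exact fun h => absurd h (hwv k)
    · rw [Fin.cons_zero, Fin.cons_succ]
      exact fun h => absurd h.symm (hwv j)
    · rw [Fin.cons_succ, Fin.cons_succ]
      exact fun h => congrArg Fin.succ (hvi h)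
  · intro k
    refine Fin.cases ?_ (fun k => ?_) k
    · rw [Fin.cons_zero]
      exact hwT
    · rw [Fin.cons_succ]
      rcases ht k with hk | hk
      · rw [hk]
        exact h2.2 k
      · rw [hk]
        exact h3.2 k
  · intro j k
    refine Fin.cases ?_ (fun j => ?_) j
    · rw [Fin.cons_zero]
      exact hwq k
    · rw [Fin.cons_succ]
      rcases ht j with hk | hk
      · rw [hk]
        exact h5 j k
      · rw [hk]
        exact h6 j k

private theorem nd_out {T : Finset (Pl K)} {q1 : Fin (n + 2) → Pl K} {a' a : Fin (n + 1) → Pl K}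
    {w : Pl K} (h : ∀ e : Fin (n + 1) → Bool, ND T (Fin.cons w (vt a a' e) : Fin (n + 2) → Pl K) q1) :
    w ∉ Tt T (Fin.tail q1) a' a ∧ w ≠ q1 0 := by
  have h0 : ∀ (e : Fin (n + 1) → Bool) k, w ≠ vt a a' e k := by
    intro e k hk
    have h1 := (h e).1.1
    have h2 : (0 : Fin (n + 2)) = k.succ := by
      apply h1
      rw [Fin.cons_zero, Fin.cons_succ, hk]
    exact absurd h2.symm (Fin.succ_ne_zero k)
  have hq : ∀ k, w ≠ q1 k := fun k => by
    have h1 := (h fun _ => true).2.2 0 k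
    rwa [Fin.cons_zero] at h1
  refine ⟨fun hm => ?_, hq 0⟩
  unfold Tt at hm
  rcases Finset.mem_union.1 hm with hm | hm
  · have h1 := (h fun _ => true).1.2 0
    rw [Fin.cons_zero] at h1
    exact h1 hm
  · rcases Finset.mem_union.1 hm with hm | hm
    · rcases Finset.mem_union.1 hm with hm | hm
      · obtain ⟨j, -, hj⟩ := Finset.mem_image.1 hm
        exact h0 (fun _ => false) j (by rw [← hj]; simp [vt])
      · obtain ⟨j, -, hj⟩ := Finset.mem_image.1 hm
        exact h0 (fun _ => true) j (by rw [← hj]; simp [vt])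
    · obtain ⟨j, -, hj⟩ := Finset.mem_image.1 hm
      exact hq j.succ (by rw [← hj]; rfl)

theorem hh_sum [IsAlgClosure K Ω] [Finite Qg] [Fintype Lm] [Fact p.Prime] (hζ : IsPrimitiveRoot ζ p)
    (Q : DP K Ω) (y : Wy D A) {Dg : LG p n P Qg Lm} (hy : y.Ok Q P Qg Lm n) (hQ : IsPGroup p Qg)
    {r : Rd A P Qg} {v : Vd n P Qg Lm} (hr : r.Ok y.L Dg y.E y.Z)
    (q1 : Fin (n + 2) → Pl K) (a' a : Fin (n + 1) → Pl K) (hd : Dst r.T q1 a' a)
    (hz : (∀ k, q1 k ∈ y.Z) ∧ ∀ j, a j ∈ y.Z ∧ a' j ∈ y.Z)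
    {Φ : Gal(Ω/K) →* ((Fin (n + 1) → Bool) → UGd p n Qg Lm)} (hΦ : Ph y Dg r v (Fin.tail q1) a' a Φ)
    (B : Finset (Pl K)) (hB : B ⊆ y.Z) :
    ∑ w ∈ B, ∏ e : Fin (n + 1) → Bool, cj e (Uf y Dg r v q1 w (vt a a' e)) =
      ∑ w ∈ B.filter (fun w => w ∉ Tt r.T (Fin.tail q1) a' a ∧ w ≠ q1 0), hh Dg v (Φ (y.Fr.F w)) := by
  have hp : p.Prime := Fact.out
  have : NeZero p := ⟨hp.ne_zero⟩
  have : Finite (UGd p n Qg Lm) := fin_ugd
  have hTZ : Tt r.T (Fin.tail q1) a' a ⊆ y.Z := by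
    intro w hw
    unfold Tt at hw
    rcases Finset.mem_union.1 hw with hm | hm
    · exact hr.sub hm
    · rcases Finset.mem_union.1 hm with hm | hm
      · rcases Finset.mem_union.1 hm with hm | hm
        · obtain ⟨j, -, rfl⟩ := Finset.mem_image.1 hm
          exact (hz.2 j).1
        · obtain ⟨j, -, rfl⟩ := Finset.mem_image.1 hm
          exact (hz.2 j).2
      · obtain ⟨j, -, rfl⟩ := Finset.mem_image.1 hm
        exact hz.1 _
  rw [Finset.sum_filter]
  refine Finset.sum_congr rfl fun w _ => ?_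
  by_cases hw : w ∉ Tt r.T (Fin.tail q1) a' a ∧ w ≠ q1 0
  · rw [if_pos hw]
    unfold hh
    refine Finset.prod_congr rfl fun e _ => ?_
    congr 1
    unfold Uf
    rw [if_pos ⟨vt_nd hd hw.1 hw.2 e, _, ph_hd hr.one hΦ e⟩]
    have h2 := wdE_spec hp hζ y.L A y.M y.E y.Z (y.Fr.F w) (UGd p n Qg Lm) (pg_ugd hp hQ) hy.cd
      ((Pi.evalMonoidHom (fun _ => UGd p n Qg Lm) e).comp Φ)
      ((hΦ.hon.comp _).mono (Finset.Subset.refl _) hTZ)
    rw [(ph_hd hr.one hΦ e).2] at h2
    exact congrArg (h1 Dg v) h2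
  · rw [if_neg hw]
    have h1 : ¬ ∀ e : Fin (n + 1) → Bool,
        ND r.T (Fin.cons w (vt a a' e) : Fin (n + 2) → Pl K) q1 := fun h => hw (nd_out h)
    push Not at h1
    obtain ⟨e, he⟩ := h1
    exact uf_zero y Dg r v q1 a' a w e fun h => he h.1

theorem hh_zero [Fintype Lm] (y : Wy D A) (Dg : LG p n P Qg Lm) (r : Rd A P Qg) (v : Vd n P Qg Lm)
    (q1 : Fin (n + 2) → Pl K) (a' a : Fin (n + 1) → Pl K)
    (h : ¬ ∀ e, ∃ Ψ, Hd y Dg r v (vt a a' e) (Fin.tail q1) Ψ) (w : Pl K) :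
    ∏ e : Fin (n + 1) → Bool, cj e (Uf y Dg r v q1 w (vt a a' e)) = 0 := by
  obtain ⟨e, he⟩ := not_forall.1 h
  exact uf_zero y Dg r v q1 a' a w e fun h => he h.2

theorem hh_nd [Fintype Lm] (y : Wy D A) (Dg : LG p n P Qg Lm) (r : Rd A P Qg) (v : Vd n P Qg Lm)
    (q1 : Fin (n + 2) → Pl K) (a' a : Fin (n + 1) → Pl K) (w : Pl K)
    (h : ∏ e : Fin (n + 1) → Bool, cj e (Uf y Dg r v q1 w (vt a a' e)) ≠ 0) (ha : ∀ j, a j ≠ a' j) :
    Dst r.T q1 a' a := by
  have hn : ∀ e : Fin (n + 1) → Bool, ND r.T (Fin.cons w (vt a a' e) : Fin (n + 2) → Pl K) q1 := by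
    intro e
    by_contra hc
    exact h (uf_zero y Dg r v q1 a' a w e fun h => hc h.1)
  have hi : ∀ e : Fin (n + 1) → Bool, Function.Injective (vt a a' e) := by
    intro e j k hjk
    have h1 := (hn e).1.1
    have h2 : (j.succ : Fin (n + 2)) = k.succ := by
      apply h1
      rw [Fin.cons_succ, Fin.cons_succ, hjk]
    exact Fin.succ_injective _ h2
  have hT : ∀ (e : Fin (n + 1) → Bool) k, vt a a' e k ∉ r.T := by
    intro e k
    have h1 := (hn e).1.2 k.succ
    rwa [Fin.cons_succ] at h1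
  have hq : ∀ (e : Fin (n + 1) → Bool) j k, vt a a' e j ≠ q1 k := by
    intro e j k
    have h1 := (hn e).2.2 j.succ k
    rwa [Fin.cons_succ] at h1
  have e0 : vt a a' (fun _ => false) = a := by
    funext k
    simp [vt]
  have e1 : vt a a' (fun _ => true) = a' := by
    funext k
    simp [vt]
  refine ⟨(hn fun _ => true).2.1, ⟨?_, ?_⟩, ⟨?_, ?_⟩, ?_, ?_, ?_⟩
  · rw [← e0]
    exact hi _
  · intro k
    have h1 := hT (fun _ => false) k
    rwa [e0] at h1
  · rw [← e1]
    exact hi _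
  · intro k
    have h1 := hT (fun _ => true) k
    rwa [e1] at h1
  · intro j k hjk
    by_cases hj : j = k
    · rw [hj] at hjk
      exact ha k hjk
    · have h1 := @hi (Function.update (fun _ => false) k true) j k
      apply hj
      apply h1
      have h2 : Function.update (fun _ : Fin (n + 1) => false) k true j = false := by
        rw [Function.update_of_ne hj]
      have h3 : Function.update (fun _ : Fin (n + 1) => false) k true k = true := by
        rw [Function.update_self]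
      unfold vt
      rw [h2, h3]
      simpa using hjk
  · intro j k
    have h1 := hq (fun _ => false) j k
    rwa [e0] at h1
  · intro j k
    have h1 := hq (fun _ => true) j k
    rwa [e1] at h1

end H62.BL
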