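import Pool.Agent.H62.BL.Clo
import Pool.Agent.H77.WE.Lft

/-!
# [H62 BL HN] the relative homomorphism is honest (100-160 lines). File Pool/Agent/H62/BL/Hn.lean

All vertices of the nondegenerate cube are in one cell, `Dg.pi` of the word of the variable `k` at `q1` is `f k` (true if `G k` does not vanish there). Then `relq` has the right coefficients (`rq_*`) and comes from
an honest `Ψ` (`hn`).
* `rq_T`: for `w ∈ T` all coefficients of `relq (wv w)` at nonempty words vanish: `rel_zero` (`S = univ`, `n + 1`) with `C = (aq .. q1 (wv w)).c u` from `cel_const_T`. `rq_F` the same with `wd σ`. `rq_q`: for the words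
  `u ≠ []` of length `≤ n` without the index `k`: `cel_const_q`. (`relq = rel ..` by definition.) So (`ug_eq_qi`) `relq (wv w) = qi (hat φ₀ (wv w)) = qi (φ₀ (F_w))` by `relq_q` and `wdE_spec` for `φ₀` (`cQ`, `HonE.mono`: `T ⊆ Z`).
* `rq_fix`: `(relq (wv (q_b k))).q = f k`: `relq_q`, `thq_pi` at the vertex `true` / `false` and `cel_pi`.
* `hn`: `lftE` (H77/WE/Lft.lean; `m`, `z` from `hy.rt`) with `H = UGm`, `θ = relq`, `ψ = qh.comp φ₀` (finite type from `hon.1`: `ft_comp`), `M`, `E`, `Z`, `F` of `y` (`wdE y.L A y.M y.E y.Z σ = y.wd σ` by definition; `E ⊆ T ⊆ Z`). `IsPGroup p UGm`: `ug_card` is a power of `p`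
  (`IsPGroup.iff_card` for `Qg`, `IsPGroup.of_card`). Hypotheses: `θ (t_w) ^ p = 1` for `w ∉ E`: `w` a variable: `lt_pow` (`[a, a]` has a repeated index); otherwise `qi (Dg.pi (lab w)) ^ p = qi (φ₀ (t_w) ^ p)`, `hon.2` (`w ∈ D.S0`:
  `L.t w = 1` (definition), so `Dg.pi (lab w) = 1`). `θ (t_w) = 1` for `w ∉ Z ∨ w ∈ S0`: `w ∉ T`, not a variable (`hq`: the variables are in `Z`). Commutation for `w ∈ Z`: `w ∈ T`: `θ (wv w) = qi (φ₀ (F_w))`,
  `θ (t_w) = qi (φ₀ (t_w))`, these commute: `frm_card` (H77/WE/Com.lean) for `φ₀`, `cQ` and `y.M ≤ p ^ (m + 1)` (also for `w ∈ E`); `w = q_b k`: `ug_comm` with `a = ⟨k, lam k⟩`, `hu`: `rq_fix` and `hv.f`; if `u.c w' ≠ 0`, `w' ≠ []`: either `k` is an index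
  of `w'` (`w' ++ [a]` is not nodup) or `w'.length = n + 1` by `rq_q` (too long), `w'.length ≤ n + 1` by `out`; other `w`: `θ (t_w) = qi 1 = 1`. At `F`: `θ (wd σ) = qi (hat φ₀ (wd σ)) = qi (φ₀ σ)` (`rq_F`, `wdE_spec`).
  Result: `HonE L E Z Ψ`; `HonE L E (T ∪ q0 ∪ q1) Ψ`: for `w ∉ S0` outside this set `Ψ (t_w) = hat Ψ (of (inl w)) = θ (of (inl w)) = qi 1 = 1` (`hat_inl`).
-/

set_option autoImplicit false

open scoped NumberField
open IsDedekindDomain
open scoped Classical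

noncomputable section

namespace H62.BL

open H63.MA H38.BB H38.BG H57.PC H57.BRA H77.WD H77.WE

variable {K : Type} [Field K] [NumberField K] {Ω : Type} [Field Ω] [Algebra K Ω]
  {p : ℕ} {ζ : K} {D : RD0 K p ζ} {n : ℕ} {P Qg Lm : Type} [Group P] [Group Qg] [MulAction Qg Lm]
  {A : GS D Ω}

theorem rq_T (y : Wy D A) (Dg : LG p n P Qg Lm) (r : Rd A P Qg) (v : Vd n P Qg Lm)
    (h1 : ∀ w, w ∉ r.T → r.lab w = 1) {q0 q1 : Fin (n + 2) → Pl K} (h : ND r.T q0 q1)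
    (hc : ∀ e : Fin (n + 2) → Bool, cel y Dg r v (vt q0 q1 e) = cel y Dg r v q1)
    (w : Pl K) (hw : w ∈ r.T) (u : List (Lr (Fin (n + 2)) Lm)) (hu : u ≠ []) :
    (relq Dg r v q0 q1 (y.wv w)).c u = 0 :=
  rel_zero _ _ _ _ u hu _ fun e => cel_const_T y Dg r v h1 h hc w hw u e

theorem rq_F (y : Wy D A) (Dg : LG p n P Qg Lm) (r : Rd A P Qg) (v : Vd n P Qg Lm)
    (h1 : ∀ w, w ∉ r.T → r.lab w = 1) {q0 q1 : Fin (n + 2) → Pl K} (h : ND r.T q0 q1)
    (hc : ∀ e : Fin (n + 2) → Bool, cel y Dg r v (vt q0 q1 e) = cel y Dg r v q1)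
    (σ : Gal(Ω/K)) (hσ : σ ∈ y.F) (u : List (Lr (Fin (n + 2)) Lm)) (hu : u ≠ []) :
    (relq Dg r v q0 q1 (y.wd σ)).c u = 0 :=
  rel_zero _ _ _ _ u hu _ fun e => cel_const_F y Dg r v h1 h hc σ hσ u e

theorem rq_q (y : Wy D A) (Dg : LG p n P Qg Lm) (r : Rd A P Qg) (v : Vd n P Qg Lm)
    (h1 : ∀ w, w ∉ r.T → r.lab w = 1) {q0 q1 : Fin (n + 2) → Pl K} (h : ND r.T q0 q1)
    (hc : ∀ e : Fin (n + 2) → Bool, cel y Dg r v (vt q0 q1 e) = cel y Dg r v q1)
    (k : Fin (n + 2)) (b : Bool) (u : List (Lr (Fin (n + 2)) Lm)) (hu : u ≠ []) (hl : u.length ≤ n)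
    (huk : ∀ a ∈ u, a.i ≠ k) :
    (relq Dg r v q0 q1 (y.wv (if b then q1 k else q0 k))).c u = 0 :=
  rel_zero _ _ _ _ u hu _ fun e => cel_const_q y Dg r v h1 h hc k b u hl huk e

theorem rq_fix (y : Wy D A) {Dg : LG p n P Qg Lm} {r : Rd A P Qg} {v : Vd n P Qg Lm}
    (hr : r.Ok y.L Dg y.E y.Z) (hv : v.Ok Dg) {q0 q1 : Fin (n + 2) → Pl K} (h : ND r.T q0 q1)
    (hc : ∀ e : Fin (n + 2) → Bool, cel y Dg r v (vt q0 q1 e) = cel y Dg r v q1)
    (hf : ∀ k, Dg.pi (thq r v q1 (y.wv (q1 k))) = v.f k) (k : Fin (n + 2)) (b : Bool) :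
    (relq Dg r v q0 q1 (y.wv (if b then q1 k else q0 k))).q = v.f k := by
  rw [relq_q hr v h]
  cases b with
  | true =>
    rw [← thq_pi hr hv h.2.1]
    exact hf k
  | false =>
    rw [← thq_pi hr hv h.1, ← hf k]
    refine cel_pi y Dg r v ?_ k
    have h1 := hc fun _ => false
    rwa [vt_false] at h1

private theorem pg_ug [Finite Qg] [Finite Lm] (hp : p.Prime) (hQ : IsPGroup p Qg)
    (S : Set (Fin (n + 2))) : IsPGroup p (UG Qg (Lr (Fin (n + 2)) Lm) (ZMod p) (WN Qg Lm S (n + 1))) := by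
  have hF : Fact p.Prime := ⟨hp⟩
  have hne : NeZero p := ⟨hp.ne_zero⟩
  obtain ⟨k, hk⟩ := IsPGroup.iff_card.1 hQ
  refine IsPGroup.of_card (n := k + (Nat.card (WN Qg Lm S (n + 1)).s - 1)) ?_
  rw [ug_card (wn_finite S (n + 1)), hk, pow_add]

theorem pg_ugm [Finite Qg] [Finite Lm] (hp : p.Prime) (hQ : IsPGroup p Qg) :
    IsPGroup p (UGm p n Qg Lm) := pg_ug hp hQ _

theorem pg_ugd [Finite Qg] [Finite Lm] (hp : p.Prime) (hQ : IsPGroup p Qg) :
    IsPGroup p (UGd p n Qg Lm) := pg_ug hp hQ _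

theorem fin_ugm [NeZero p] [Finite Qg] [Finite Lm] : Finite (UGm p n Qg Lm) :=
  ug_finite (wn_finite _ _)

theorem fin_ugd [NeZero p] [Finite Qg] [Finite Lm] : Finite (UGd p n Qg Lm) :=
  ug_finite (wn_finite _ _)

/-- the generators -/
private theorem hn_gen (Dg : LG p n P Qg Lm) (r : Rd A P Qg) (v : Vd n P Qg Lm)
    {q0 q1 : Fin (n + 2) → Pl K} (w : Pl K) :
    (∃ (k : Fin (n + 2)) (b : Bool), w = (if b then q1 k else q0 k) ∧
      relq Dg r v q0 q1 (FreeGroup.of (Sum.inl w)) = lt ⟨k, v.lam k⟩ (if b then 1 else -1)) ∨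
    ((∀ k, q0 k ≠ w) ∧ (∀ k, q1 k ≠ w) ∧
      relq Dg r v q0 q1 (FreeGroup.of (Sum.inl w)) = qi (Dg.pi (r.lab w))) := by
  unfold relq rel unh
  rw [FreeGroup.lift_apply_of]
  by_cases h0 : ∃ k, q0 k = w
  · left
    refine ⟨h0.choose, false, h0.choose_spec.symm, ?_⟩
    unfold kdq
    simp only [dif_pos h0]
    rfl
  · by_cases h1 : ∃ k, q1 k = w
    · left
      refine ⟨h1.choose, true, h1.choose_spec.symm, ?_⟩
      unfold kdq
      simp only [dif_neg h0, dif_pos h1]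
      rfl
    · right
      refine ⟨fun k hk => h0 ⟨k, hk⟩, fun k hk => h1 ⟨k, hk⟩, ?_⟩
      unfold kdq
      simp only [dif_neg h0, dif_neg h1]
      rfl

theorem hn [IsAlgClosure K Ω] [Finite Qg] [Finite Lm] (hp : p.Prime) (hp2 : MOne p K)
    (hζ : IsPrimitiveRoot ζ p) (hz : Z2 p K) (Q : DP K Ω) (y : Wy D A) {Dg : LG p n P Qg Lm}
    (hy : y.Ok Q P Qg Lm n) (hQ : IsPGroup p Qg) {r : Rd A P Qg} {v : Vd n P Qg Lm}
    (hr : r.Ok y.L Dg y.E y.Z) (hv : v.Ok Dg) {q0 q1 : Fin (n + 2) → Pl K} (h : ND r.T q0 q1)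
    (hq : ∀ k, q0 k ∈ y.Z ∧ q1 k ∈ y.Z)
    (hc : ∀ e : Fin (n + 2) → Bool, cel y Dg r v (vt q0 q1 e) = cel y Dg r v q1)
    (hf : ∀ k, Dg.pi (thq r v q1 (y.wv (q1 k))) = v.f k) :
    ∃ Ψ : Gal(Ω/K) →* UGm p n Qg Lm,
      HonE y.L y.E (r.T ∪ Finset.univ.image q0 ∪ Finset.univ.image q1) Ψ ∧
        hat y.L A Ψ = relq Dg r v q0 q1 ∧ Teq D.S0 Q Ψ (qh.comp r.phi) := by
  have hne : NeZero p := ⟨hp.ne_zero⟩
  have hfin : Finite (UGm p n Qg Lm) := fin_ugm
  obtain ⟨m, z, hm, hzr, hMp⟩ := hy.rt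
  have h1 := hr.one
  have hphi : HonE y.L y.E y.Z r.phi := hr.hon.mono le_rfl hr.sub
  have hqq : ∀ a b : Qg, (qi (a * b) : UGm p n Qg Lm) = qi a * qi b := fun a b =>
    map_mul (qh : Qg →* UGm p n Qg Lm) a b
  have hq1 : (qi 1 : UGm p n Qg Lm) = 1 := map_one (qh : Qg →* UGm p n Qg Lm)
  have hqp : ∀ (a : Qg) (k : ℕ), (qi a : UGm p n Qg Lm) ^ k = qi (a ^ k) := fun a k =>
    (map_pow (qh : Qg →* UGm p n Qg Lm) a k).symm
  have hqZ : ∀ (k : Fin (n + 2)) (b : Bool), (if b then q1 k else q0 k) ∈ y.Z := by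
    intro k b
    cases b
    · exact (hq k).1
    · exact (hq k).2
  have hqT : ∀ (k : Fin (n + 2)) (b : Bool), (if b then q1 k else q0 k) ∉ r.T := by
    intro k b
    cases b
    · exact h.1.2 k
    · exact h.2.1.2 k
  have htS : ∀ w, w ∈ D.S0 → y.L.t w = 1 := by
    intro w hw
    unfold LDs.t
    rw [dif_neg (not_not.2 hw)]
  -- the value at the words of the fixed primes
  have hval : ∀ w ∈ r.T, relq Dg r v q0 q1 (y.wv w) = qi (r.phi (y.Fr.F w)) := by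
    intro w hw
    rw [ug_eq_qi _ fun u hu => rq_T y Dg r v h1 h hc w hw u hu, relq_q hr v h]
    congr 1
    exact wdE_spec hp hζ y.L A y.M y.E y.Z (y.Fr.F w) Qg hQ hy.cQ r.phi hphi
  have hvalF : ∀ σ ∈ y.F, relq Dg r v q0 q1 (y.wd σ) = qi (r.phi σ) := by
    intro σ hσ
    rw [ug_eq_qi _ fun u hu => rq_F y Dg r v h1 h hc σ hσ u hu, relq_q hr v h]
    congr 1
    exact wdE_spec hp hζ y.L A y.M y.E y.Z σ Qg hQ hy.cQ r.phi hphi
  obtain ⟨Ψ, hΨ1, hΨ2, hΨ3⟩ := lftE hp hp2 hζ hm hzr Q y.Fr A y.M hMp y.E y.Z y.F hy.sep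
    (UGm p n Qg Lm) (pg_ugm hp hQ) hy.cm (relq Dg r v q0 q1) (fun w hwE => by
      rcases hn_gen Dg r v (q0 := q0) (q1 := q1) w with ⟨k, b, -, hk⟩ | ⟨-, -, hk⟩
      · rw [hk]
        refine lt_pow ?_ _
        rintro ⟨-, hnd, -⟩
        simp at hnd
      · rw [hk, hqp, ← hr.lab w]
        by_cases hw0 : w ∈ D.S0
        · rw [htS w hw0, map_one, one_pow, hq1]
        · rw [(hr.hon.2 w hw0 hwE).1, hq1]) (fun w hw => by
      rcases hn_gen Dg r v (q0 := q0) (q1 := q1) w with ⟨k, b, hwk, hk⟩ | ⟨-, -, hk⟩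
      · exfalso
        have hwZ : w ∈ y.Z := by
          rw [hwk]
          exact hqZ k b
        rcases hw with hw | hw
        · exact hw (Finset.mem_union_right _ hwZ)
        · exact hy.out w hwZ hw
      · rw [hk]
        rcases hw with hw | hw
        · rw [h1 w fun hT => hw (Finset.mem_union_right _ (hr.sub hT)), map_one, hq1]
        · rw [← hr.lab w, htS w hw, map_one, hq1]) (fun w hw hw0 => by
      change _ * relq Dg r v q0 q1 (y.wv w) = relq Dg r v q0 q1 (y.wv w) * _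
      rcases hn_gen Dg r v (q0 := q0) (q1 := q1) w with ⟨k, b, hwk, hk⟩ | ⟨-, -, hk⟩
      · rw [hk]
        symm
        refine ug_comm _ _ _ ?_ ?_
        · rw [hwk, rq_fix y hr hv h hc hf k b, lr_smul, hv.f k]
        · intro u hu hu0
          have hcase : (∃ a ∈ u, a.i = k) ∨ n < u.length := by
            by_contra hcon
            push Not at hcon
            apply hu0
            rw [hwk]
            exact rq_q y Dg r v h1 h hc k b u hu hcon.2 fun a ha => hcon.1 a ha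
          rcases hcase with ⟨a, ha, hak⟩ | hlen
          · have hmem : k ∈ u.map Lr.i := List.mem_map.2 ⟨a, ha, hak⟩
            constructor
            · rintro ⟨-, hnd, -⟩
              rw [List.map_append, List.nodup_append] at hnd
              exact hnd.2.2 k hmem k (by simp) rfl
            · rintro ⟨-, hnd, -⟩
              rw [List.map_cons, List.nodup_cons] at hnd
              exact hnd.1 hmem
          · constructor
            · rintro ⟨hl, -, -⟩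
              rw [List.length_append, List.length_singleton] at hl
              omega
            · rintro ⟨hl, -, -⟩
              rw [List.length_cons] at hl
              omega
      · rw [hk]
        by_cases hT : w ∈ r.T
        · rw [hval w hT, ← hr.lab w, ← hqq, ← hqq]
          congr 1
          exact (frm_card hp hζ hzr y.Fr hw0 hQ (hy.cQ.trans hMp) r.phi hr.hon.1).symm
        · rw [h1 w hT, map_one, hq1, one_mul, mul_one]) (qh.comp r.phi) (ft_comp qh hr.hon.1)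
      (fun σ hσ => hvalF σ hσ)
  refine ⟨Ψ, ⟨hΨ1.1, fun w hw0 hwE => ⟨(hΨ1.2 w hw0 hwE).1, fun hwT => ?_⟩⟩, hΨ2, hΨ3⟩
  have h2 : Ψ (y.L.t w) = relq Dg r v q0 q1 (FreeGroup.of (Sum.inl w)) := by
    rw [← hΨ2, hat_inl]
  rw [h2]
  rw [Finset.mem_union, Finset.mem_union, not_or, not_or] at hwT
  rcases hn_gen Dg r v (q0 := q0) (q1 := q1) w with ⟨k, b, hwk, hk⟩ | ⟨-, -, hk⟩
  · exfalso
    cases b with
    | true => exact hwT.2 (Finset.mem_image.2 ⟨k, Finset.mem_univ _, hwk.symm⟩)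
    | false => exact hwT.1.2 (Finset.mem_image.2 ⟨k, Finset.mem_univ _, hwk.symm⟩)
  · rw [hk, h1 w hwT.1.1, map_one, hq1]

end H62.BL
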