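import Pool.Agent.H62.BL.Df
import Pool.Agent.H35.UB.Nkl
import Pool.Agent.H35.UB.Box

/-!
# [H62 BL LGD] the group data of the box lemma from a normal subgroup `N` (60-100 lines). File Pool/Agent/H62/BL/Lgd.lean

* `fN N`: the filtration `P ≥ N = Nk N 0 ≥ Nk N 1 ≥ ..`. `Lb p N n`: labels: a coset of `Nk N 1` in `N` and a character of `Nk N n` (extended by `0`), invariant under `N`. `P ⧸ N` acts by conjugation.
* `fn_fl` : `Fl`. PROOF: `com 0 j`: normality (`nk_normal`); `com i 0` the same; `com (i+1) (j+1)`: `⁅Nk N i, Nk N j⁆ ≤ Nk N (i + j + 1)`: induction on `j` for all `i` with the three subgroups lemma modulo the normal subgroup `Nk N (i + j + 2)`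
  (`Subgroup.commutator_le_of_...`, `Subgroup.commutator_commutator_eq_bot_of_rotate` in the quotient, `nk_map`; or the general form in Mathlib for `lowerCentralSeries`).
* `nk_pp`: `x ∈ Nk N i → x ^ p ∈ Nk N (i + 1)` if `N` is generated by its elements of order dividing `p`. PROOF: `nk_exp` for the image of `N` in `P ⧸ Nk N (i + 1)` (`nk_map`, `Nk (N.map) (i + 1) = ⊥`; the image is generated by the images of the generators).
* `lb_fix`: `N` acts trivially on the labels (used in the definition of the action of `P ⧸ N`).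
-/

set_option autoImplicit false

open scoped Classical commutatorElement

noncomputable section

namespace H62.BL

open H35.UB

section

variable {P : Type} [Group P]

/-- the filtration -/
def fN (N : Subgroup P) : ℕ → Subgroup P
  | 0 => ⊤
  | i + 1 => Nk N i

private theorem tsl (K : Subgroup P) [K.Normal] {A B C : Subgroup P} (h1 : ⁅⁅B, C⁆, A⁆ ≤ K)
    (h2 : ⁅⁅C, A⁆, B⁆ ≤ K) : ⁅⁅A, B⁆, C⁆ ≤ K := by
  have key : ∀ H : Subgroup P, H ≤ K ↔ H.map (QuotientGroup.mk' K) = ⊥ := by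
    intro H
    rw [Subgroup.map_eq_bot_iff, QuotientGroup.ker_mk']
  rw [key, Subgroup.map_commutator, Subgroup.map_commutator] at h1 h2 ⊢
  exact Subgroup.commutator_commutator_eq_bot_of_rotate h1 h2

private theorem nk_com (N : Subgroup P) [N.Normal] (j : ℕ) :
    ∀ i, ⁅Nk N i, Nk N j⁆ ≤ Nk N (i + j + 1) := by
  induction j with
  | zero => exact fun i => le_rfl
  | succ j ih =>
    intro i
    change ⁅Nk N i, ⁅Nk N j, N⁆⁆ ≤ _
    rw [Subgroup.commutator_comm]
    refine tsl (Nk N (i + (j + 1) + 1)) ?_ ?_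
    · have h1 : ⁅N, Nk N i⁆ = Nk N (i + 1) := Subgroup.commutator_comm _ _
      rw [h1]
      refine (ih (i + 1)).trans (le_of_eq ?_)
      congr 1
      omega
    · refine (Subgroup.commutator_mono (ih i) le_rfl).trans (le_of_eq ?_)
      change Nk N (i + j + 1 + 1) = _
      congr 1

theorem fn_fl (N : Subgroup P) [N.Normal] : Fl (fN N) := by
  have hnor : ∀ i, (fN N i).Normal := by
    rintro (_ | i)
    · exact Subgroup.normal_top
    · exact nk_normal N i
  refine ⟨rfl, ?_, ?_⟩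
  · rintro (_ | i)
    · exact le_top
    · exact nk_le N i
  · rintro (_ | i) (_ | j) a ha b hb
    · exact Subgroup.mem_top _
    · rw [Nat.zero_add]
      exact mul_mem ((hnor (j + 1)).conj_mem b hb a) (inv_mem hb)
    · rw [Nat.add_zero, mul_assoc, mul_assoc, ← mul_assoc b]
      exact mul_mem ha ((hnor (i + 1)).conj_mem a⁻¹ (inv_mem ha) b)
    · have h1 := nk_com N j i (Subgroup.commutator_mem_commutator ha hb)
      rw [commutatorElement_def] at h1
      have h2 : i + 1 + (j + 1) = i + j + 1 + 1 := by omega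
      rw [h2]
      exact h1

theorem nk_pp {p : ℕ} (N : Subgroup P) [N.Normal] (hN : N = Subgroup.closure {x | x ∈ N ∧ x ^ p = 1})
    (i : ℕ) (x : P) (hx : x ∈ Nk N i) : x ^ p ∈ Nk N (i + 1) := by
  have hb : Nk (N.map (QuotientGroup.mk' (Nk N (i + 1)))) (i + 1) = ⊥ := by
    rw [nk_map, Subgroup.map_eq_bot_iff, QuotientGroup.ker_mk']
  have hnor : (N.map (QuotientGroup.mk' (Nk N (i + 1)))).Normal :=
    Subgroup.Normal.map inferInstance _ (QuotientGroup.mk'_surjective _)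
  have hN' : N.map (QuotientGroup.mk' (Nk N (i + 1))) = Subgroup.closure
      {x | x ∈ N.map (QuotientGroup.mk' (Nk N (i + 1))) ∧ x ^ p = 1} := by
    refine le_antisymm ?_ ((Subgroup.closure_le _).2 fun y hy => hy.1)
    have h1 : N.map (QuotientGroup.mk' (Nk N (i + 1))) =
        (Subgroup.closure {x | x ∈ N ∧ x ^ p = 1}).map (QuotientGroup.mk' (Nk N (i + 1))) :=
      congrArg (Subgroup.map (QuotientGroup.mk' (Nk N (i + 1)))) hN
    refine h1.le.trans ?_
    rw [MonoidHom.map_closure]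
    refine Subgroup.closure_mono ?_
    rintro _ ⟨y, ⟨hy1, hy2⟩, rfl⟩
    exact ⟨Subgroup.mem_map_of_mem _ hy1, by rw [← map_pow, hy2, map_one]⟩
  have h2 := nk_exp _ i hb hN' (QuotientGroup.mk' (Nk N (i + 1)) x) (by
    rw [nk_map]
    exact Subgroup.mem_map_of_mem _ hx)
  rw [← map_pow] at h2
  have h3 : x ^ p ∈ (QuotientGroup.mk' (Nk N (i + 1))).ker := h2
  rwa [QuotientGroup.ker_mk'] at h3

/-- labels -/
@[ext] structure Lb (p : ℕ) (N : Subgroup P) [N.Normal] (n : ℕ) where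
  c : P ⧸ Nk N 1
  χ : P → ZMod p
  mem : ∃ g ∈ N, (g : P ⧸ Nk N 1) = c
  add : ∀ u ∈ Nk N n, ∀ v ∈ Nk N n, χ (u * v) = χ u + χ v
  out : ∀ u, u ∉ Nk N n → χ u = 0
  inv : ∀ x ∈ N, ∀ u, χ (x * u * x⁻¹) = χ u

variable {p n : ℕ} {N : Subgroup P} [N.Normal]

instance [Finite P] [NeZero p] : Finite (Lb p N n) :=
  Finite.of_injective (fun a : Lb p N n => (a.c, a.χ)) fun a b h => by
    obtain ⟨h1, h2⟩ := Prod.mk.inj h
    exact Lb.ext h1 h2

instance [Finite P] [NeZero p] : Fintype (Lb p N n) := Fintype.ofFinite _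

/-- conjugation of labels -/
def Lb.act (x : P) (a : Lb p N n) : Lb p N n where
  c := (x : P ⧸ Nk N 1) * a.c * (x : P ⧸ Nk N 1)⁻¹
  χ u := a.χ (x⁻¹ * u * x)
  mem := by
    obtain ⟨g, hg, hc⟩ := a.mem
    refine ⟨x * g * x⁻¹, ‹N.Normal›.conj_mem g hg x, ?_⟩
    rw [← hc]
    rfl
  add u hu v hv := by
    have h1 := a.add _ (by simpa using (nk_normal N n).conj_mem u hu x⁻¹)
      _ (by simpa using (nk_normal N n).conj_mem v hv x⁻¹)
    rw [← h1]
    congr 1
    group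
  out u hu := a.out _ fun h => hu (by
    have h1 := (nk_normal N n).conj_mem _ h x
    have h2 : x * (x⁻¹ * u * x) * x⁻¹ = u := by group
    rwa [h2] at h1)
  inv z hz u := by
    have h1 := a.inv (x⁻¹ * z * x) (by simpa using ‹N.Normal›.conj_mem z hz x⁻¹) (x⁻¹ * u * x)
    rw [← h1]
    congr 1
    group

/-- conjugation as a permutation -/
def Lb.perm : P →* Equiv.Perm (Lb p N n) where
  toFun x := ⟨Lb.act x, Lb.act x⁻¹, fun a => by
    refine Lb.ext ?_ (funext fun u => ?_)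
    · change ((x⁻¹ : P) : P ⧸ Nk N 1) * ((x : P ⧸ Nk N 1) * a.c * (x : P ⧸ Nk N 1)⁻¹) *
        (((x⁻¹ : P) : P ⧸ Nk N 1))⁻¹ = a.c
      rw [QuotientGroup.mk_inv]
      group
    · change a.χ (x⁻¹ * (x⁻¹⁻¹ * u * x⁻¹) * x) = a.χ u
      congr 1
      group, fun a => by
    refine Lb.ext ?_ (funext fun u => ?_)
    · change (x : P ⧸ Nk N 1) * (((x⁻¹ : P) : P ⧸ Nk N 1) * a.c * (((x⁻¹ : P) : P ⧸ Nk N 1))⁻¹) *
        (x : P ⧸ Nk N 1)⁻¹ = a.c
      rw [QuotientGroup.mk_inv]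
      group
    · change a.χ (x⁻¹⁻¹ * (x⁻¹ * u * x) * x⁻¹) = a.χ u
      congr 1
      group⟩
  map_one' := by
    refine Equiv.ext fun a => Lb.ext ?_ (funext fun u => ?_)
    · change ((1 : P) : P ⧸ Nk N 1) * a.c * (((1 : P) : P ⧸ Nk N 1))⁻¹ = a.c
      rw [QuotientGroup.mk_one]
      group
    · change a.χ ((1 : P)⁻¹ * u * 1) = a.χ u
      congr 1
      group
  map_mul' x y := by
    refine Equiv.ext fun a => Lb.ext ?_ (funext fun u => ?_)
    · change ((x * y : P) : P ⧸ Nk N 1) * a.c * (((x * y : P) : P ⧸ Nk N 1))⁻¹ =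
        (x : P ⧸ Nk N 1) * ((y : P ⧸ Nk N 1) * a.c * (y : P ⧸ Nk N 1)⁻¹) * (x : P ⧸ Nk N 1)⁻¹
      rw [QuotientGroup.mk_mul]
      group
    · change a.χ ((x * y)⁻¹ * u * (x * y)) = a.χ (y⁻¹ * (x⁻¹ * u * x) * y)
      congr 1
      group

theorem lb_fix (x : P) (hx : x ∈ N) : (Lb.perm x : Equiv.Perm (Lb p N n)) = 1 := by
  refine Equiv.ext fun a => Lb.ext ?_ (funext fun u => ?_)
  · change (x : P ⧸ Nk N 1) * a.c * (x : P ⧸ Nk N 1)⁻¹ = a.c
    obtain ⟨g, hg, hc⟩ := a.mem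
    rw [← hc, ← QuotientGroup.mk_inv, ← QuotientGroup.mk_mul, ← QuotientGroup.mk_mul,
      QuotientGroup.eq]
    have h1 : ⁅x * g * x⁻¹, x⁆ ∈ Nk N 1 :=
      Subgroup.commutator_mem_commutator (‹N.Normal›.conj_mem g hg x) hx
    have h2 : ⁅x, g⁆ ∈ Nk N 1 := Subgroup.commutator_mem_commutator (H₁ := N) (H₂ := N) hx hg
    have h3 := (nk_normal N 1).conj_mem _ (inv_mem h2) (g⁻¹)
    have h4 : g⁻¹ * ⁅x, g⁆⁻¹ * g⁻¹⁻¹ = (x * g * x⁻¹)⁻¹ * g := by
      rw [commutatorElement_def]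
      group
    rwa [h4] at h3
  · change a.χ (x⁻¹ * u * x) = a.χ u
    have h1 := a.inv x⁻¹ (inv_mem hx) u
    rwa [inv_inv] at h1

/-- the action of `P ⧸ N` on the labels -/
def Lb.qperm : P ⧸ N →* Equiv.Perm (Lb p N n) :=
  QuotientGroup.lift N Lb.perm fun x hx => lb_fix x hx

instance : MulAction (P ⧸ N) (Lb p N n) where
  smul q a := Lb.qperm q a
  one_smul a := by
    change Lb.qperm (1 : P ⧸ N) a = a
    rw [map_one]
    rfl
  mul_smul q q' a := by
    change Lb.qperm (q * q') a = Lb.qperm q (Lb.qperm q' a)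
    rw [map_mul]
    rfl

theorem lb_smul (x : P) (a : Lb p N n) : (x : P ⧸ N) • a = Lb.act x a := rfl

/-- the group data -/
def lgN (hn : Nk N (n + 1) = ⊥) (hN : N = Subgroup.closure {x | x ∈ N ∧ x ^ p = 1}) :
    LG p n P (P ⧸ N) (Lb p N n) where
  f := fN N
  fl := fn_fl N
  bot := hn
  pp i hi x hx := by
    obtain ⟨j, rfl⟩ : ∃ j, i = j + 1 := ⟨i - 1, by omega⟩
    exact nk_pp N hN j x hx
  pi := QuotientGroup.mk' N
  sur := QuotientGroup.mk'_surjective N
  ker x := by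
    change ((x : P ⧸ N) = 1) ↔ x ∈ N
    exact QuotientGroup.eq_one_iff x
  s a := a.mem.choose
  s_mem a := a.mem.choose_spec.1
  s_act x a := by
    have h1 := ((x : P ⧸ N) • a : Lb p N n).mem.choose_spec.2
    have h2 := a.mem.choose_spec.2
    change (((x : P ⧸ N) • a : Lb p N n).mem.choose) * (x * a.mem.choose * x⁻¹)⁻¹ ∈ Nk N 1
    rw [← QuotientGroup.eq_one_iff, QuotientGroup.mk_mul, QuotientGroup.mk_inv,
      QuotientGroup.mk_mul, QuotientGroup.mk_mul, QuotientGroup.mk_inv, h1, h2]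
    change (x : P ⧸ Nk N 1) * a.c * (x : P ⧸ Nk N 1)⁻¹ *
      ((x : P ⧸ Nk N 1) * a.c * (x : P ⧸ Nk N 1)⁻¹)⁻¹ = 1
    group
  ch a := a.χ
  ch_add a := a.add
  ch_act x a y _ := by
    change a.χ (x⁻¹ * (x * y * x⁻¹) * x) = a.χ y
    congr 1
    group

/-- the label of a variable prime -/
def lbL (hn : Nk N (n + 1) = ⊥) (l : Lt p P N) (h : l.ok n) : Lb p N n where
  c := (l.g : P ⧸ Nk N 1)
  χ u := if u ∈ Nk N n then l.χ u else 0
  mem := ⟨l.g, h.1, rfl⟩
  add u hu v hv := by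
    rw [if_pos hu, if_pos hv, if_pos (mul_mem hu hv)]
    exact h.2.2.1 u hu v hv
  out u hu := if_neg hu
  inv x hx u := by
    by_cases hu : u ∈ Nk N n
    · have h1 : ⁅u, x⁆ ∈ Nk N (n + 1) := Subgroup.commutator_mem_commutator hu hx
      rw [hn, Subgroup.mem_bot, commutatorElement_eq_one_iff_mul_comm] at h1
      have h2 : x * u * x⁻¹ = u := by rw [← h1, mul_inv_cancel_right]
      rw [h2]
    · have h2 : x * u * x⁻¹ ∉ Nk N n := fun h3 => hu (by
        have h4 := (nk_normal N n).conj_mem _ h3 x⁻¹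
        have h5 : x⁻¹ * (x * u * x⁻¹) * x⁻¹⁻¹ = u := by group
        rwa [h5] at h4)
      rw [if_neg hu, if_neg h2]

/-- LINKED tuples of labels -/
def LkN (hn : Nk N (n + 1) = ⊥) (hN : N = Subgroup.closure {x | x ∈ N ∧ x ^ p = 1}) [Finite P]
    [NeZero p] (l : Fin (n + 2) → Lt p P N) : Prop :=
  ∃ h : ∀ k, (l k).ok n, Lkd (lgN hn hN) fun k => lbL hn (l k) (h k)

end

end H62.BL
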