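import Pool.Agent.H62.BL.Hn
import Pool.Agent.H62.BL.Bre
import Pool.Agent.H77.WE.Dcg

/-!
# [H62 BL REC] reciprocity for the relative homomorphism (80-120 lines). File Pool/Agent/H62/BL/Rec.lean

`rec`: the hypothesis `hrec` of `phase` for the words `z k b = wv (if b then q1 k else q0 k)`. PROOF. `brg3E` (Bre.lean) with `E = y.E`, `R = UGm`, `e = Dg.cc` (`Coc`: `cc_l1`, `cc_r1`, `cc_co`), `ρ = Ψ` from `hn`,
`T := (r.T \ y.E) ∪ image q0 ∪ image q1`, `lam` from `exists_rec_one` (H63/MA/NormZ.lean; `lam v = 1` for primes of prime norm not above `p`; `D.above`). `htm`: `hon_inrE` (`pg_ugm`). `hS`: on `dec (Q.P v)`, `v ∈ S0`: `Ψ = qi ∘ φ₀` (`Teq`), so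
`pb Dg.cc Ψ σ τ = Dg.cc (qi _) (qi _) = 0` (`cc_qi`), `Kl` with `l = 0` (`Lev`: any finite dimensional `E`, for example `⊥`). `hE`: `v ∈ E ⊆ T`: by `dc_gen` (H77/WE/Dcg.lean, `Fr.fr`) `Ψ σ = Ψ (F v) ^ k * Ψ (t v) ^ j` for `σ ∈ dec`, `Ψ (F v) = relq (wv v)` and `Ψ (t v) = relq (of (inl v))` are in the range of `qh` (`rq_T`, `ug_eq_qi`), so `pb = 0` by `cc_qi`. `hur`: `HonE`. Result: `∑ v ∈ T, lam v * iv Dg.cc (Ψ (F v)) (Ψ (t v)) = 0`.
`Ψ (F v) = hat Ψ (wv v) = relq (wv v)` (`wdE_spec`, `cm`), `Ψ (t v) = relq (of (inl v))` (`hat_inl`).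
`v ∈ r.T`: `Ψ (F v) = qi _` (`rq_T`, `ug_eq_qi`), `Ψ (t v) = qi _`, `iv = 0` by `cc_qi`. The sum over the variables (disjoint images, injective: `Finset.sum_union`, `Finset.sum_image`): `v = q_b k`:
`Ψ (t v) = lt ⟨k, lam k⟩ (if b then 1 else -1)`, `cc_iv` with `hu`: `rq_fix` and `hv.f`, `iv e x y = e x y - e y x`, `s = ±1`, `lam v = 1`. Rewrite `∑ b : Bool` with `Fintype.sum_bool`.
-/

set_option autoImplicit false

open scoped NumberField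
open IsDedekindDomain
open scoped Classical

noncomputable section

namespace H62.BL

open H63.MA H38.BB H38.BG H57.PC H57.BRA H77.WD H77.WE

variable {K : Type} [Field K] [NumberField K] {Ω : Type} [Field Ω] [Algebra K Ω]
  {p : ℕ} {ζ : K} {D : RD0 K p ζ} {n : ℕ} {P Qg Lm : Type} [Group P] [Group Qg] [MulAction Qg Lm]
  {A : GS D Ω}

private theorem rc_relq (Dg : LG p n P Qg Lm) (r : Rd A P Qg) (v : Vd n P Qg Lm)
    (q0 q1 : Fin (n + 2) → Pl K) (x : Pl K ⊕ Fin A.g) :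
    relq Dg r v q0 q1 (FreeGroup.of x) = match kdq A id q0 q1 x with
      | none => qi (Dg.pi (r.bs x))
      | some (j, b) => lt ⟨j, v.lam j⟩ (if b then 1 else -1) := by
  unfold relq rel unh
  rw [FreeGroup.lift_apply_of]
  rcases kdq A id q0 q1 x with _ | ⟨j, b⟩ <;> rfl

private theorem rc_t0 (Dg : LG p n P Qg Lm) (r : Rd A P Qg) (v : Vd n P Qg Lm)
    {q0 q1 : Fin (n + 2) → Pl K} (h : ND r.T q0 q1) (k : Fin (n + 2)) :
    relq Dg r v q0 q1 (FreeGroup.of (Sum.inl (q0 k))) = lt ⟨k, v.lam k⟩ (-1) := by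
  have h1 : ∃ k', q0 k' = q0 k := ⟨k, rfl⟩
  have h2 : kdq A id q0 q1 (Sum.inl (q0 k)) = some (k, false) := by
    show (if h : ∃ k', q0 k' = q0 k then some (id h.choose, false) else
      if h : ∃ k', q1 k' = q0 k then some (id h.choose, true) else none) = some (k, false)
    rw [dif_pos h1, id, h.1.1 h1.choose_spec]
  rw [rc_relq, h2]
  rfl

private theorem rc_t1 (Dg : LG p n P Qg Lm) (r : Rd A P Qg) (v : Vd n P Qg Lm)
    {q0 q1 : Fin (n + 2) → Pl K} (h : ND r.T q0 q1) (k : Fin (n + 2)) :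
    relq Dg r v q0 q1 (FreeGroup.of (Sum.inl (q1 k))) = lt ⟨k, v.lam k⟩ 1 := by
  have h1 : ∃ k', q1 k' = q1 k := ⟨k, rfl⟩
  have h0 : ¬ ∃ k', q0 k' = q1 k := fun ⟨k', hk'⟩ => h.2.2 k' k hk'
  have h2 : kdq A id q0 q1 (Sum.inl (q1 k)) = some (k, true) := by
    show (if h : ∃ k', q0 k' = q1 k then some (id h.choose, false) else
      if h : ∃ k', q1 k' = q1 k then some (id h.choose, true) else none) = some (k, true)
    rw [dif_neg h0, dif_pos h1, id, h.2.1.1 h1.choose_spec]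
  rw [rc_relq, h2]
  rfl

private theorem rc_tn (Dg : LG p n P Qg Lm) (r : Rd A P Qg) (v : Vd n P Qg Lm)
    {q0 q1 : Fin (n + 2) → Pl K} {w : Pl K} (h0 : ∀ k, q0 k ≠ w) (h1 : ∀ k, q1 k ≠ w) :
    relq Dg r v q0 q1 (FreeGroup.of (Sum.inl w)) = qi (Dg.pi (r.bs (Sum.inl w))) := by
  have h2 : kdq A id q0 q1 (Sum.inl w) = none := by
    show (if h : ∃ k', q0 k' = w then some (id h.choose, false) else
      if h : ∃ k', q1 k' = w then some (id h.choose, true) else none) = none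
    rw [dif_neg fun ⟨k, hk⟩ => h0 k hk, dif_neg fun ⟨k, hk⟩ => h1 k hk]
  rw [rc_relq, h2]

/-- the cocycle is trivial where `Ψ` has values in the image of `Qg` -/
private theorem rc_kl [Fintype Lm] [Fact p.Prime] (Dg : LG p n P Qg Lm)
    (Ψ : Gal(Ω/K) →* UGm p n Qg Lm) (V : Set Gal(Ω/K)) (h : ∀ σ ∈ V, ∃ z : Qg, Ψ σ = qi z) :
    Kl (pb Dg.cc Ψ) V := by
  refine ⟨fun _ => 0, ⟨⊥, inferInstance, fun _ _ _ => rfl⟩, fun σ hσ τ hτ => ?_⟩
  obtain ⟨a, ha⟩ := h σ hσ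
  obtain ⟨b, hb⟩ := h τ hτ
  unfold pb
  rw [ha, hb, cc_qi, add_zero, add_zero]

theorem rec [IsAlgClosure K Ω] [Finite Qg] [Fintype Lm] [Fact p.Prime] (hp2 : MOne p K)
    (hζ : IsPrimitiveRoot ζ p) (hz : Z2 p K) (Q : DP K Ω) (y : Wy D A) {Dg : LG p n P Qg Lm}
    (hy : y.Ok Q P Qg Lm n) (hQ : IsPGroup p Qg) {r : Rd A P Qg} {v : Vd n P Qg Lm}
    (hr : r.Ok y.L Dg y.E y.Z) (hv : v.Ok Dg) {q0 q1 : Fin (n + 2) → Pl K} (h : ND r.T q0 q1)
    (hq : ∀ k, q0 k ∈ y.Z ∧ q1 k ∈ y.Z) (hqn : ∀ k, (nm (q0 k)).Prime ∧ (nm (q1 k)).Prime)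
    (hc : ∀ e : Fin (n + 2) → Bool, cel y Dg r v (vt q0 q1 e) = cel y Dg r v q1)
    (hf : ∀ k, Dg.pi (thq r v q1 (y.wv (q1 k))) = v.f k) :
    ∑ k, ∑ b : Bool, (if b then 1 else -1) * ∑ t : Fin (n + 1) → Lr (Fin (n + 2)) Lm,
      (relq Dg r v q0 q1 (y.wv (if b then q1 k else q0 k))).c (List.ofFn t) *
        (Dg.eps (List.ofFn t ++ [⟨k, v.lam k⟩]) - Dg.eps (⟨k, v.lam k⟩ :: List.ofFn t)) = 0 := by
  have hp : p.Prime := Fact.out
  have hfin : Finite (UGm p n Qg Lm) := fin_ugm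
  have hpg : IsPGroup p (UGm p n Qg Lm) := pg_ugm hp hQ
  obtain ⟨Ψ, hΨ, hhat, hteq⟩ := hn hp hp2 hζ hz Q y hy hQ hr hv h hq hc hf
  obtain ⟨lam, hlam, hlam1⟩ := exists_rec_one K hp hp2 hζ
  have hrng : IsPGroup p Ψ.range := hpg.to_subgroup _
  have hsub : r.T ∪ Finset.univ.image q0 ∪ Finset.univ.image q1 ⊆ y.Z := by
    intro w hw
    simp only [Finset.mem_union, Finset.mem_image, Finset.mem_univ, true_and] at hw
    rcases hw with (hw | ⟨k, rfl⟩) | ⟨k, rfl⟩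
    · exact hr.sub hw
    · exact (hq k).1
    · exact (hq k).2
  have hF : ∀ w, Ψ (y.Fr.F w) = relq Dg r v q0 q1 (y.wv w) := by
    intro w
    rw [← hhat]
    exact (wdE_spec hp hζ y.L A y.M y.E y.Z (y.Fr.F w) _ hpg hy.cm Ψ (hΨ.mono subset_rfl hsub)).symm
  have ht : ∀ w, Ψ (y.L.t w) = relq Dg r v q0 q1 (FreeGroup.of (Sum.inl w)) := by
    intro w
    rw [← hhat, hat_inl]
  have hTF : ∀ w ∈ r.T, ∃ z : Qg, Ψ (y.Fr.F w) = qi z := by
    intro w hw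
    rw [hF]
    exact ⟨_, ug_eq_qi _ (rq_T y Dg r v hr.one h hc w hw)⟩
  have hTt : ∀ w ∈ r.T, ∃ z : Qg, Ψ (y.L.t w) = qi z := by
    intro w hw
    rw [ht]
    exact ⟨_, rc_tn Dg r v (fun k hk => h.1.2 k (hk ▸ hw)) (fun k hk => h.2.1.2 k (hk ▸ hw))⟩
  have hqE : ∀ w, w ∉ r.T → w ∉ y.E := fun w hw hE => hw (hr.sE hE)
  obtain ⟨T', hT'⟩ : ∃ T' : Finset (Pl K), T' = (r.T \ y.E) ∪ (Finset.univ.image q0 ∪ Finset.univ.image q1) :=
    ⟨_, rfl⟩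
  have hsum := brg3E hp hp2 hζ hz (L := y.L) Q y.Fr y.E (e := Dg.cc) ⟨cc_l1 Dg, cc_r1 Dg, cc_co Dg⟩ hΨ.1
    (fun w hw => rc_kl Dg Ψ _ fun σ hσ => ⟨_, hteq w hw σ hσ⟩)
    (fun w hw hw0 => rc_kl Dg Ψ _ fun σ hσ => by
      obtain ⟨k, j, hkj⟩ := dc_gen hp hζ y.L hw0 (y.Fr.fr w hw0) Ψ hΨ.1 hrng σ hσ
      obtain ⟨a, ha⟩ := hTF w (hr.sE hw)
      obtain ⟨b, hb⟩ := hTt w (hr.sE hw)
      refine ⟨a ^ k * b ^ j, ?_⟩
      have h3 : (qh (a ^ k * b ^ j) : UGm p n Qg Lm) = qh a ^ k * qh b ^ j := by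
        rw [map_mul, map_pow, map_zpow]
      rw [hkj, ha, hb]
      exact h3.symm)
    (fun w hw hwE τ hτ => (hon_inrE hp hζ y.L y.E _ Ψ hΨ hrng hw hwE τ hτ).1)
    T' (fun w hw => by
      rw [hT', Finset.mem_union, Finset.mem_union, Finset.mem_sdiff] at hw
      rcases hw with hw | hw | hw
      · exact ⟨hr.out w hw.1, hw.2⟩
      · obtain ⟨k, -, rfl⟩ := Finset.mem_image.1 hw
        exact ⟨hy.out _ (hq k).1, hqE _ (h.1.2 k)⟩
      · obtain ⟨k, -, rfl⟩ := Finset.mem_image.1 hw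
        exact ⟨hy.out _ (hq k).2, hqE _ (h.2.1.2 k)⟩)
    (fun w hw hwE hwT => (hΨ.2 w hw hwE).2 fun hw' => hwT (by
      rw [hT']
      rw [Finset.mem_union, Finset.mem_union] at hw'
      rw [Finset.mem_union, Finset.mem_union, Finset.mem_sdiff]
      rcases hw' with (hw' | hw') | hw'
      · exact Or.inl ⟨hw', hwE⟩
      · exact Or.inr (Or.inl hw')
      · exact Or.inr (Or.inr hw')))
    hlam
  have hd1 : Disjoint (r.T \ y.E) (Finset.univ.image q0 ∪ Finset.univ.image q1) := by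
    rw [Finset.disjoint_left]
    intro w hw hw'
    rw [Finset.mem_sdiff] at hw
    rw [Finset.mem_union] at hw'
    rcases hw' with hw' | hw'
    · obtain ⟨k, -, rfl⟩ := Finset.mem_image.1 hw'
      exact h.1.2 k hw.1
    · obtain ⟨k, -, rfl⟩ := Finset.mem_image.1 hw'
      exact h.2.1.2 k hw.1
  have hd2 : Disjoint (Finset.univ.image q0) (Finset.univ.image q1) := by
    rw [Finset.disjoint_left]
    intro w hw hw'
    obtain ⟨j, -, rfl⟩ := Finset.mem_image.1 hw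
    obtain ⟨k, -, hk⟩ := Finset.mem_image.1 hw'
    exact h.2.2 j k hk.symm
  rw [hT', Finset.sum_union hd1, Finset.sum_union hd2, Finset.sum_image (fun a _ b _ hab => h.1.1 hab),
    Finset.sum_image (fun a _ b _ hab => h.2.1.1 hab)] at hsum
  have hz0 : ∑ w ∈ r.T \ y.E, lam w * iv Dg.cc (Ψ (y.Fr.F w)) (Ψ (y.L.t w)) = 0 := by
    refine Finset.sum_eq_zero fun w hw => ?_
    rw [Finset.mem_sdiff] at hw
    obtain ⟨a, ha⟩ := hTF w hw.1
    obtain ⟨b, hb⟩ := hTt w hw.1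
    unfold iv
    rw [ha, hb, cc_qi, cc_qi, sub_zero, mul_zero]
  have hl : ∀ w, w ∉ D.S0 → (nm w).Prime → lam w = 1 := fun w hw hn' =>
    hlam1 w (fun ha => hw (D.above w ha)) hn'
  rw [hz0, zero_add] at hsum
  have e0 : ∀ k, lam (q0 k) * iv Dg.cc (Ψ (y.Fr.F (q0 k))) (Ψ (y.L.t (q0 k))) =
      -1 * ∑ t : Fin (n + 1) → Lr (Fin (n + 2)) Lm,
        (relq Dg r v q0 q1 (y.wv (q0 k))).c (List.ofFn t) *
        (Dg.eps (List.ofFn t ++ [⟨k, v.lam k⟩]) - Dg.eps (⟨k, v.lam k⟩ :: List.ofFn t)) := by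
    intro k
    have h1 := rq_fix y hr hv h hc hf k false
    rw [hl _ (hy.out _ (hq k).1) (hqn k).1, one_mul, hF, ht, rc_t0 Dg r v h]
    unfold iv
    exact cc_iv Dg _ k (v.lam k) (by
      have h2 : (relq Dg r v q0 q1 (y.wv (q0 k))).q = v.f k := h1
      rw [h2]
      exact hv.f k) (-1)
  have e1 : ∀ k, lam (q1 k) * iv Dg.cc (Ψ (y.Fr.F (q1 k))) (Ψ (y.L.t (q1 k))) =
      1 * ∑ t : Fin (n + 1) → Lr (Fin (n + 2)) Lm,
        (relq Dg r v q0 q1 (y.wv (q1 k))).c (List.ofFn t) *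
        (Dg.eps (List.ofFn t ++ [⟨k, v.lam k⟩]) - Dg.eps (⟨k, v.lam k⟩ :: List.ofFn t)) := by
    intro k
    have h1 := rq_fix y hr hv h hc hf k true
    rw [hl _ (hy.out _ (hq k).2) (hqn k).2, one_mul, hF, ht, rc_t1 Dg r v h]
    unfold iv
    exact cc_iv Dg _ k (v.lam k) (by
      have h2 : (relq Dg r v q0 q1 (y.wv (q1 k))).q = v.f k := h1
      rw [h2]
      exact hv.f k) 1
  rw [Finset.sum_congr rfl fun k _ => e0 k, Finset.sum_congr rfl fun k _ => e1 k,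
    ← Finset.sum_add_distrib] at hsum
  rw [← hsum]
  refine Finset.sum_congr rfl fun k _ => ?_
  rw [Fintype.sum_bool, add_comm]
  rfl

end H62.BL
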