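import Pool.Agent.H62.BL.Gr

/-!
# [H62 BL RWQ] stage 2: the function `hh` is raw of order `q = p ^ κ` (80-130 lines). File Pool/Agent/H62/BL/Rwq.lean

* `raw_hq`: as `raw_hh` (Rw.lean, helper41: copy its proof; the private lemmas may be made public there), for `f ^ (p ^ κ) = 1`, `f = v.f 0` of order `p ^ s`, `s ≤ κ`: on the subgroup `TL = {x | ∃ i, ∀ e, (x e).q = f ^ i, lower coefficients 0}` the exponent `i x : ZMod (p ^ s)` and
  `κ x : ZMod p` are additive, `hh x = (p ^ s)⁻¹ ∑_(j : ZMod (p ^ s)) ep (p ^ s) (-j) th TL (..)`, with the characters `p ^ (κ - s) j i x + p ^ (κ - 1) κ x` in `ZMod (p ^ κ)` (lifts of `j`, `i x`, `κ x` to integers; `ep (p ^ κ) (p ^ (κ - 1) y) = ep p y`).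
* `gbrq`: as `gbr` (Gr.lean) with `Raw (p ^ κ)`, `max b (p ^ κ)`; `raw_sub` for `p ^ κ` in place of `p` (`raw_sub` is stated for every natural number).
-/

set_option autoImplicit false

open scoped NumberField
open IsDedekindDomain
open scoped Classical

noncomputable section

namespace H62.BL

open H63.MA H38.BB H38.BG H57.PC H57.BRA H77.WD H77.WE H77.GL H57.AN H35.UB H57.GP

private theorem epq_add {q : ℕ} [NeZero q] (a b : ZMod q) : ep q (a + b) = ep q a * ep q b := by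
  rw [rayc_std, rayc_std, rayc_std, AddChar.map_add_eq_mul]

private theorem epq_sum {q : ℕ} [NeZero q] (b : ZMod q) :
    ∑ a : ZMod q, ep q (a * b) = if b = 0 then (q : ℂ) else 0 := by
  have h := AddChar.sum_mulShift b (ZMod.isPrimitive_stdAddChar q)
  simp only [rayc_std]
  rw [h, ZMod.card]
  push_cast
  rfl

/-- the map of `ZMod p` to `ZMod (p * c)` given by multiplication by `c` -/
private def tq (p c : ℕ) (a : ZMod p) : ZMod (p * c) := ((c * a.val : ℕ) : ZMod (p * c))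

private theorem tq_add {p : ℕ} [NeZero p] (c : ℕ) (a b : ZMod p) : tq p c (a + b) = tq p c a + tq p c b := by
  unfold tq
  rw [← Nat.cast_add, ZMod.natCast_eq_natCast_iff, ← mul_add, mul_comm p c]
  refine Nat.ModEq.mul_left' c ?_
  rw [ZMod.val_add]
  exact Nat.mod_modEq _ _

private theorem tq_ep {p : ℕ} [NeZero p] {c : ℕ} (hc : 0 < c) (a : ZMod p) : ep (p * c) (tq p c a) = ep p a := by
  unfold ep tq
  have h1 : c * a.val < p * c := by
    rw [mul_comm p c]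
    exact Nat.mul_lt_mul_of_pos_left (ZMod.val_lt a) hc
  rw [ZMod.val_natCast_of_lt h1]
  congr 2
  have hp : (p : ℂ) ≠ 0 := by exact_mod_cast NeZero.ne p
  have hc' : (c : ℂ) ≠ 0 := by exact_mod_cast hc.ne'
  push_cast
  field_simp

theorem raw_hq {p n : ℕ} {P Qg Lm : Type} [Group P] [Group Qg] [MulAction Qg Lm] [Fintype Lm]
    [Fact p.Prime] (Dg : LG p n P Qg Lm) {v : Vd n P Qg Lm} (hv : v.Ok Dg) {κ : ℕ} (hκ : 1 ≤ κ)
    (he : v.f 0 ^ (p ^ κ) = 1) (b : ℕ) (hb : p ^ κ ≤ b) : Raw (p ^ κ) b (hh Dg v) := by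
  have hp : p.Prime := Fact.out
  have hfix : ∀ i : ℤ, v.f 0 ^ i • v.lam 0 = v.lam 0 := by
    intro i
    have h1 : v.f 0 ^ i ∈ MulAction.stabilizer Qg (v.lam 0) :=
      Subgroup.zpow_mem _ (MulAction.mem_stabilizer_iff.2 (hv.f 0)) i
    exact MulAction.mem_stabilizer_iff.1 h1
  have hκ' : Lc (rwT p n Lm (v.f 0)) (rwk Dg (v.lam 0)) := by
    rintro x ⟨i, hi⟩ y -
    exact rwk_add Dg (v.lam 0) x y fun e => ⟨(hi e).2, by rw [(hi e).1, hfix]⟩
  obtain ⟨c, hc⟩ : ∃ c, c = p ^ (κ - 1) := ⟨_, rfl⟩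
  have hc0 : 0 < c := by rw [hc]; exact pow_pos hp.pos _
  obtain ⟨q, hq⟩ : ∃ q, q = p * c := ⟨_, rfl⟩
  have hqκ : p ^ κ = q := by
    rw [hq, hc, mul_comm, ← pow_succ]
    congr 1
    omega
  have hq0 : 0 < q := by rw [← hqκ]; exact pow_pos hp.pos _
  have : NeZero q := ⟨hq0.ne'⟩
  have : NeZero p := ⟨hp.ne_zero⟩
  rw [hqκ] at he hb ⊢
  obtain ⟨M, hM⟩ := orderOf_dvd_of_pow_eq_one he
  have hM0 : (M : ℤ) ≠ 0 := by
    intro h
    have h1 : M = 0 := by exact_mod_cast h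
    rw [h1, mul_zero] at hM
    omega
  have hMq : (q : ℤ) = (M : ℤ) * (orderOf (v.f 0) : ℤ) := by
    rw [hM]
    push_cast
    ring
  have e0 : Fin (n + 1) → Bool := fun _ => true
  obtain ⟨ix, hix⟩ : ∃ ix : ((Fin (n + 1) → Bool) → UGd p n Qg Lm) → ZMod q,
      ∀ x, ∀ i : ℤ, (∀ e, (x e).q = v.f 0 ^ i ∧ rwl (x e)) → ix x = ((M * i : ℤ) : ZMod q) := by
    refine ⟨fun x => if h : ∃ i : ℤ, (x e0).q = v.f 0 ^ i then ((M * h.choose : ℤ) : ZMod q) else 0, fun x i hi => ?_⟩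
    have h : ∃ i : ℤ, (x e0).q = v.f 0 ^ i := ⟨i, (hi e0).1⟩
    refine (dif_pos h).trans ?_
    have h1 := (hi e0).1.symm.trans h.choose_spec
    rw [zpow_eq_zpow_iff_modEq] at h1
    refine ((ZMod.intCast_eq_intCast_iff _ _ q).2 ?_).symm
    rw [hMq]
    exact Int.ModEq.mul_left' h1
  have hixa : Lc (rwT p n Lm (v.f 0)) ix := by
    rintro x ⟨i, hi⟩ y ⟨j, hj⟩
    rw [hix x i hi, hix y j hj, hix (x * y) (i + j) fun e => ⟨?_, rwl_mul (hi e).2 (hj e).2⟩, mul_add,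
      Int.cast_add]
    rw [zpow_add, ← (hi e).1, ← (hj e).1]
    rfl
  obtain ⟨kx, hkx⟩ : ∃ kx : ((Fin (n + 1) → Bool) → UGd p n Qg Lm) → ZMod q,
      Lc (rwT p n Lm (v.f 0)) kx ∧ ∀ x, ep q (kx x) = ep p (rwk Dg (v.lam 0) x) := by
    subst hq
    refine ⟨fun x => tq p c (rwk Dg (v.lam 0) x), fun x hx y hy => ?_, fun x => tq_ep hc0 _⟩
    change tq p c (rwk Dg (v.lam 0) (x * y)) = _
    rw [hκ' x hx y hy, tq_add]
  refine rw_raw (ι := ZMod q) (by rw [ZMod.card]; exact hb) (fun j => (q : ℂ)⁻¹ * ep q (-(j * (M : ZMod q))))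
    (rwT p n Lm (v.f 0)) (fun j x => j * ix x + kx x) _ (fun j => ?_) (fun j => ?_)
    fun x => ?_
  · rw [norm_mul, ep_norm, mul_one, norm_inv, Complex.norm_natCast]
    have h1 : (1 : ℝ) ≤ q := by exact_mod_cast hq0
    have h2 : (q : ℝ) ≤ b := by exact_mod_cast hb
    exact (inv_le_one_of_one_le₀ h1).trans (h1.trans h2)
  · intro x hx y hy
    change j * ix (x * y) + kx (x * y) = j * ix x + kx x + (j * ix y + kx y)
    rw [hixa x hx y hy, hkx.1 x hx y hy]
    ring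
  · rw [rw_hh hp]
    unfold th
    by_cases hx : x ∈ rwT p n Lm (v.f 0)
    · simp only [if_pos hx]
      have h1 : ∀ j : ZMod q, (q : ℂ)⁻¹ * ep q (-(j * (M : ZMod q))) * ep q (j * ix x + kx x) =
          (q : ℂ)⁻¹ * ep q (kx x) * ep q (j * (ix x - (M : ZMod q))) := by
        intro j
        have h2 : ep q (-(j * (M : ZMod q))) * ep q (j * ix x + kx x) =
            ep q (kx x) * ep q (j * (ix x - (M : ZMod q))) := by
          rw [← epq_add, ← epq_add]
          congr 1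
          ring
        rw [mul_assoc, h2, ← mul_assoc]
      rw [Finset.sum_congr rfl fun j _ => h1 j, ← Finset.mul_sum, epq_sum]
      obtain ⟨i, hi⟩ := hx
      have h3 : ix x - (M : ZMod q) = 0 ↔ ∀ e, (x e).q = v.f 0 ∧ rwl (x e) := by
        have h6 : (M : ZMod q) = ((M * 1 : ℤ) : ZMod q) := by
          push_cast
          ring
        rw [sub_eq_zero, hix x i hi, h6, ZMod.intCast_eq_intCast_iff]
        have h7 : ((M : ℤ) * i ≡ (M : ℤ) * 1 [ZMOD q]) ↔ i ≡ 1 [ZMOD orderOf (v.f 0)] := by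
          constructor
          · intro h8
            rw [hMq, Int.modEq_iff_dvd, ← mul_sub] at h8
            exact Int.modEq_iff_dvd.2 (Int.dvd_of_mul_dvd_mul_left hM0 h8)
          · intro h8
            rw [hMq]
            exact Int.ModEq.mul_left' h8
        rw [h7]
        constructor
        · intro h4 e
          refine ⟨?_, (hi e).2⟩
          rw [(hi e).1]
          rw [← zpow_eq_zpow_iff_modEq, zpow_one] at h4
          exact h4
        · intro h4
          have h5 := (h4 e0).1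
          rw [(hi e0).1, ← zpow_one (v.f 0), ← zpow_mul, one_mul, zpow_eq_zpow_iff_modEq] at h5
          exact h5
      simp only [h3]
      split_ifs
      · have h4 : (q : ℂ) ≠ 0 := by exact_mod_cast hq0.ne'
        rw [← hkx.2 x]
        field_simp
      · rw [mul_zero]
    · simp only [if_neg hx, mul_zero, Finset.sum_const_zero]
      refine if_neg fun h => hx ⟨1, fun e => ⟨by rw [zpow_one]; exact (h e).1, (h e).2⟩⟩

theorem gbrq {K : Type} [Field K] [NumberField K] {p : ℕ} {ζ : K} (D : RD0 K p ζ) (Ω : Type)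
    [Field Ω] [Algebra K Ω] (hp : p.Prime) {κ : ℕ} (hκ : 1 ≤ κ) (hR : GPR D Ω (p ^ κ)) (b : ℕ) :
    GPB D Ω κ b := by
  intro C₁ A ε hε
  obtain ⟨Y₀, hY₀⟩ := gpr_av hR (max b (p ^ κ)) C₁ A ε hε
  refine ⟨Y₀, fun Y hY L Fr E ι I m x hm hx hc n P Qg Lm _ _ _ _ _ _ Dg v hv hQ hf hcard Φ hΦ => ?_⟩
  have hft : Fintype ((Fin (n + 1) → Bool) → UGd p n Qg Lm) := Fintype.ofFinite _
  have hF : Fact p.Prime := ⟨hp⟩
  have hpg : IsPGroup p ((Fin (n + 1) → Bool) → UGd p n Qg Lm) := by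
    obtain ⟨k, hk⟩ := IsPGroup.iff_card.1 (pg_ugd (n := n) (Lm := Lm) hp hQ)
    refine IsPGroup.of_card (n := k * Nat.card (Fin (n + 1) → Bool)) ?_
    rw [Nat.card_fun, hk, pow_mul]
  have h := hY₀ Y hY L Fr E ι I m x hm hx hc (fun _ => (Fin (n + 1) → Bool) → UGd p n Qg Lm) Φ
    (fun _ => hh Dg v) (fun i hi => ⟨?_, hpg.to_subgroup _,
      raw_sub _ _ (raw_hq Dg hv hκ hf _ (le_max_right _ _)), (hΦ i hi).1⟩)
  · refine le_trans (le_of_eq ?_) h
    refine Finset.sum_congr rfl fun i hi => ?_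
    obtain ⟨τ, c, hc1, hτ⟩ := (hΦ i hi).2
    congr 2
    refine Finset.sum_congr rfl fun w _ => ?_
    have h1 : mrg (Φ i) (hh Dg v) = 0 := by
      rw [← gpv_mr (Φ i) (hh Dg v)]
      exact av_mean (Φ i) (hh Dg v) τ c hc1 hτ
    rw [h1, sub_zero]
  · refine le_trans (Finset.card_le_card (Finset.filter_subset _ _)) ?_
    rw [Finset.card_univ, ← Nat.card_eq_fintype_card]
    exact hcard.trans (le_max_left _ _)

end H62.BL
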