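import Pool.Agent.H62.BL.Nrs
import Pool.Agent.H62.BL.Bxc
import Pool.Agent.H1.PN.Sw

/-!
# [H62 BL SMD] the sum over the family of the normalised sums `S3` (150-220 lines). File Pool/Agent/H62/BL/Smd.lean

`X i k = d * hi i k`, `d = [K : ℚ]`, `B k = BX D y.Z T (lo k) (hi k)`, `N k = card (B k) ≤ X k` (`H1.PN.pb_card`, `BX ⊆ PB K hi`). For `i ∈ I` split the sum `S3` over `q1`, `a'`, `a`:
(1) tuples with `a j = a' j` for some `j`: every inner sum is at most `N 0 ≤ X 0` (`uf_le`, `cj` preserves the norm); there are at most `∏ N k * ∏_(k ≠ j) N (k+1)² * N (j+1)` tuples for each `j`; normalised contribution at most `∑_j (X i j.succ)⁻¹`.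
(2) the other tuples: `sma` (`C = C₁ (3 m + 4)`; `nr Tt ≤ Y ^ (C₁ (3 n + 4))` as in `smc`): the error `1 + (C' hi^(3/4) + (log Y)^C')` contributes, normalised, at most `(1 + C' (hi 0)^(3/4) + (log Y)^C') / X i 0` (all tuples).
(3) the `Gx` part: write `q1 = cons u b` (`Fin.cons`, `u ∈ B 0`, `b ∈ ∏ B (j+1)`; `Fin.tail (cons u b) = b`); `Tt`, `Ph` depend on `b` only. `J` = the tuples `(i, b, a', a)`, `i ∈ I`, in the boxes, for which there is `u ∈ B 0` with `Dst T (cons u b) a' a` and some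
`Ph`; `Φ t` = a chosen `Ph`. For `t ∉ J` the inner sum vanishes by `sma`. Sum over `u`: a factor `N 0 ≤ X 0`. So this part is at most `∑_(t ∈ J) (nr T)⁻¹ (X 0 * ∏_j X (j+1)^3)⁻¹ (Gx hi + Gx lo)`, and
`(nr T)⁻¹ (X 0 ∏ X^3)⁻¹ ≤ (nr Tt)⁻¹ x⁻¹` for `x = hi i 0` or `lo i 0` (`nr Tt ≤ nr T ∏_j nm (b j) nm (a' j) nm (a j) ≤ nr T ∏ (hi)^3`, `hi ≤ X`, `d ≥ 1`). `smc` twice with `A₁ + 1`; the hypothesis on `τ` from `mz` (with `q1 = cons u b`).
END. (1) and (2): `∑_i (nr T_i)⁻¹ ≤ (log Y)^C` (`nrs`), and `X ≥ hi ≥ exp ((log Y)^ε)`: `(m + 1) / X + (1 + C' X^(3/4) + (log Y)^C') / X ≤ (log Y)^(-(A₁ + 1 + C))` for large `Y` (`hi^(3/4) / X ≤ hi^(-1/4)`).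
-/

set_option autoImplicit false

open scoped NumberField
open IsDedekindDomain
open scoped Classical

noncomputable section

namespace H62.BL

open H63.MA H38.BB H38.BG H57.PC H57.BRA H77.WD H77.WE H77.GL H57.AN H35.UB

section cmb

variable {V : Type} {n : ℕ}

private theorem prod_card_le {k : ℕ} (B : Fin k → Finset V) (X : Fin k → ℝ)
    (hX : ∀ j, ((B j).card : ℝ) ≤ X j) :
    ((Fintype.piFinset B).card : ℝ) ≤ ∏ j, X j := by
  rw [Fintype.card_piFinset]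
  push_cast
  exact Finset.prod_le_prod (fun j _ => Nat.cast_nonneg _) fun j _ => hX j

private theorem cnt_fix {k : ℕ} (B : Fin k → Finset V) (X : Fin k → ℝ) (h1 : ∀ j, 1 ≤ X j)
    (hX : ∀ j, ((B j).card : ℝ) ≤ X j) (c : V) (j : Fin k) :
    (((Fintype.piFinset B).filter fun a => a j = c).card : ℝ) ≤ (∏ j, X j) * (X j)⁻¹ := by
  have h2 : (Fintype.piFinset B).filter (fun a => a j = c) ⊆
      Fintype.piFinset (Function.update B j {c}) := by
    intro a ha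
    rw [Finset.mem_filter, Fintype.mem_piFinset] at ha
    rw [Fintype.mem_piFinset]
    intro l
    by_cases hl : l = j
    · subst hl
      rw [Function.update_self, Finset.mem_singleton]
      exact ha.2
    · rw [Function.update_of_ne hl]
      exact ha.1 l
  have h3 : ((Fintype.piFinset (Function.update B j {c})).card : ℝ) ≤
      ∏ l, Function.update X j 1 l := by
    refine prod_card_le _ _ fun l => ?_
    by_cases hl : l = j
    · subst hl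
      rw [Function.update_self, Function.update_self, Finset.card_singleton]
      simp
    · rw [Function.update_of_ne hl, Function.update_of_ne hl]
      exact hX l
  have h4 : (∏ j, X j) * (X j)⁻¹ = ∏ l, Function.update X j 1 l := by
    rw [Finset.prod_update_of_mem (Finset.mem_univ j), one_mul,
      ← Finset.mul_prod_erase Finset.univ X (Finset.mem_univ j), mul_comm (X j),
      mul_assoc, mul_inv_cancel₀ (by have := h1 j; positivity), mul_one, Finset.sdiff_singleton_eq_erase]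
  rw [h4]
  refine le_trans ?_ h3
  exact_mod_cast Finset.card_le_card h2

theorem smd_cmb (B : Fin (n + 2) → Finset V) (X : Fin (n + 2) → ℝ) (h1 : ∀ k, 1 ≤ X k)
    (hX : ∀ k, ((B k).card : ℝ) ≤ X k) (R : ℝ) (hR : 0 ≤ R)
    (J : Finset ((Fin (n + 1) → V) × (Fin (n + 1) → V) × (Fin (n + 1) → V)))
    (g : ((Fin (n + 1) → V) × (Fin (n + 1) → V) × (Fin (n + 1) → V)) → ℝ) (hg : ∀ t, 0 ≤ g t)
    (F : (Fin (n + 2) → V) → (Fin (n + 1) → V) → (Fin (n + 1) → V) → ℝ)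
    (hF : ∀ q1 ∈ Fintype.piFinset B, ∀ a' ∈ Fintype.piFinset (fun j : Fin (n + 1) => B j.succ),
      ∀ a ∈ Fintype.piFinset (fun j : Fin (n + 1) => B j.succ),
      F q1 a' a ≤ (if ∃ j, a j = a' j then X 0 else 0) + R +
        (if (Fin.tail q1, a', a) ∈ J then g (Fin.tail q1, a', a) else 0)) :
    ((∏ k, X k) * (X 0 * ∏ j : Fin (n + 1), X j.succ ^ 2))⁻¹ *
      ∑ q1 ∈ Fintype.piFinset B, ∑ a' ∈ Fintype.piFinset (fun j : Fin (n + 1) => B j.succ),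
        ∑ a ∈ Fintype.piFinset (fun j : Fin (n + 1) => B j.succ), F q1 a' a ≤
      ∑ j : Fin (n + 1), (X j.succ)⁻¹ + R * (X 0)⁻¹ +
        ∑ t ∈ J, (X 0 * ∏ j : Fin (n + 1), X j.succ ^ 3)⁻¹ * g t := by
  obtain ⟨B', hB'⟩ : ∃ B' : Fin (n + 1) → Finset V, B' = fun j => B j.succ := ⟨_, rfl⟩
  obtain ⟨X', hX'⟩ : ∃ X' : Fin (n + 1) → ℝ, X' = fun j => X j.succ := ⟨_, rfl⟩
  rw [← hB'] at hF ⊢
  have hb : ∀ j, ((B' j).card : ℝ) ≤ X' j := fun j => by rw [hB', hX']; exact hX _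
  have h1' : ∀ j, 1 ≤ X' j := fun j => by rw [hX']; exact h1 _
  have hP0 : 0 < ∏ j, X' j := Finset.prod_pos fun j _ => lt_of_lt_of_le one_pos (h1' j)
  have hQ0 : 0 < ∏ k, X k := Finset.prod_pos fun j _ => lt_of_lt_of_le one_pos (h1 j)
  have hX0 : 0 < X 0 := lt_of_lt_of_le one_pos (h1 0)
  have hQP : ∏ k, X k = X 0 * ∏ j, X' j := by
    rw [Fin.prod_univ_succ, hX']
  have e2 : ∏ j : Fin (n + 1), X j.succ ^ 2 = (∏ j, X' j) ^ 2 := by
    rw [hX', ← Finset.prod_pow]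
  have e3 : ∏ j : Fin (n + 1), X j.succ ^ 3 = (∏ j, X' j) ^ 3 := by
    rw [hX', ← Finset.prod_pow]
  have c1 := prod_card_le B X hX
  have c2 := prod_card_le B' X' hb
  -- the three sums
  have s1 : ∑ q1 ∈ Fintype.piFinset B, ∑ a' ∈ Fintype.piFinset B', ∑ a ∈ Fintype.piFinset B',
      (if ∃ j, a j = a' j then X 0 else 0) ≤
      (∏ k, X k) * ((∏ j, X' j) * (∑ j, (∏ l, X' l) * (X' j)⁻¹ * X 0)) := by
    have t1 : ∀ a' : Fin (n + 1) → V, ∑ a ∈ Fintype.piFinset B',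
        (if ∃ j, a j = a' j then X 0 else 0) ≤ ∑ j, (∏ l, X' l) * (X' j)⁻¹ * X 0 := by
      intro a'
      calc ∑ a ∈ Fintype.piFinset B', (if ∃ j, a j = a' j then X 0 else 0)
          ≤ ∑ a ∈ Fintype.piFinset B', ∑ j, (if a j = a' j then X 0 else 0) := by
            refine Finset.sum_le_sum fun a _ => ?_
            split_ifs with h
            · obtain ⟨j, hj⟩ := h
              refine le_trans ?_ (Finset.single_le_sum (f := fun j => if a j = a' j then X 0 else 0)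
                (fun j _ => ?_) (Finset.mem_univ j))
              · beta_reduce
                rw [if_pos hj]
              · beta_reduce
                split_ifs
                · exact hX0.le
                · exact le_rfl
            · refine Finset.sum_nonneg fun j _ => ?_
              split_ifs
              · exact hX0.le
              · exact le_rfl
        _ = ∑ j, ∑ a ∈ Fintype.piFinset B', (if a j = a' j then X 0 else 0) := Finset.sum_comm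
        _ ≤ ∑ j, (∏ l, X' l) * (X' j)⁻¹ * X 0 := by
            refine Finset.sum_le_sum fun j _ => ?_
            rw [← Finset.sum_filter, Finset.sum_const, nsmul_eq_mul]
            exact mul_le_mul_of_nonneg_right (cnt_fix B' X' h1' hb _ j) hX0.le
    have t0 : 0 ≤ ∑ j, (∏ l, X' l) * (X' j)⁻¹ * X 0 :=
      Finset.sum_nonneg fun j _ => by
        have := h1' j
        positivity
    calc _ ≤ ∑ _q1 ∈ Fintype.piFinset B, ∑ _a' ∈ Fintype.piFinset B',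
          ∑ j, (∏ l, X' l) * (X' j)⁻¹ * X 0 :=
          Finset.sum_le_sum fun q1 _ => Finset.sum_le_sum fun a' _ => t1 a'
      _ = ((Fintype.piFinset B).card : ℝ) * (((Fintype.piFinset B').card : ℝ) *
          ∑ j, (∏ l, X' l) * (X' j)⁻¹ * X 0) := by
          rw [Finset.sum_const, Finset.sum_const, nsmul_eq_mul, nsmul_eq_mul]
      _ ≤ _ := mul_le_mul c1 (mul_le_mul_of_nonneg_right c2 t0) (by positivity) hQ0.le
  have s2 : ∑ _q1 ∈ Fintype.piFinset B, ∑ _a' ∈ Fintype.piFinset B', ∑ _a ∈ Fintype.piFinset B',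
      R ≤ (∏ k, X k) * ((∏ j, X' j) * ((∏ j, X' j) * R)) := by
    rw [Finset.sum_const, Finset.sum_const, Finset.sum_const, nsmul_eq_mul, nsmul_eq_mul,
      nsmul_eq_mul]
    exact mul_le_mul c1 (mul_le_mul c2 (mul_le_mul_of_nonneg_right c2 hR) (by positivity) hP0.le)
      (by positivity) hQ0.le
  have s3 : ∑ q1 ∈ Fintype.piFinset B, ∑ a' ∈ Fintype.piFinset B', ∑ a ∈ Fintype.piFinset B',
      (if (Fin.tail q1, a', a) ∈ J then g (Fin.tail q1, a', a) else 0) ≤ X 0 * ∑ t ∈ J, g t := by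
    obtain ⟨h, hh⟩ : ∃ h : (Fin (n + 1) → V) → ℝ, h = fun b => ∑ a' ∈ Fintype.piFinset B',
        ∑ a ∈ Fintype.piFinset B', (if (b, a', a) ∈ J then g (b, a', a) else 0) := ⟨_, rfl⟩
    have t1 : ∑ q1 ∈ Fintype.piFinset B, h (Fin.tail q1) =
        ∑ p ∈ B 0 ×ˢ Fintype.piFinset B', h p.2 := by
      refine Finset.sum_nbij' (fun q1 => (q1 0, Fin.tail q1)) (fun p => Fin.cons p.1 p.2)
        ?_ ?_ ?_ ?_ ?_
      · intro q hq
        rw [Fintype.mem_piFinset] at hq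
        rw [Finset.mem_product, Fintype.mem_piFinset, hB']
        exact ⟨hq 0, fun j => hq j.succ⟩
      · intro p hp
        rw [Finset.mem_product, Fintype.mem_piFinset, hB'] at hp
        rw [Fintype.mem_piFinset]
        intro k
        refine Fin.cases ?_ (fun j => ?_) k
        · exact hp.1
        · exact hp.2 j
      · intro q _
        exact Fin.cons_self_tail q
      · intro p _
        rfl
      · intro q _
        rfl
    have t2 : ∑ b ∈ Fintype.piFinset B', h b ≤ ∑ t ∈ J, g t := by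
      have t3 : ∑ b ∈ Fintype.piFinset B', h b = ∑ t ∈ Fintype.piFinset B' ×ˢ
          (Fintype.piFinset B' ×ˢ Fintype.piFinset B'), if t ∈ J then g t else 0 := by
        rw [Finset.sum_product, hh]
        refine Finset.sum_congr rfl fun b _ => ?_
        rw [Finset.sum_product]
      rw [t3, ← Finset.sum_filter]
      refine Finset.sum_le_sum_of_subset_of_nonneg ?_ fun t _ _ => hg t
      intro t ht
      exact (Finset.mem_filter.1 ht).2
    have t4 : 0 ≤ ∑ t ∈ J, g t := Finset.sum_nonneg fun t _ => hg t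
    have t5 : ∑ q1 ∈ Fintype.piFinset B, ∑ a' ∈ Fintype.piFinset B', ∑ a ∈ Fintype.piFinset B',
        (if (Fin.tail q1, a', a) ∈ J then g (Fin.tail q1, a', a) else 0) =
        ∑ q1 ∈ Fintype.piFinset B, h (Fin.tail q1) := by rw [hh]
    rw [t5, t1, Finset.sum_product]
    calc ∑ _u ∈ B 0, ∑ b ∈ Fintype.piFinset B', h b = ((B 0).card : ℝ) *
          ∑ b ∈ Fintype.piFinset B', h b := by rw [Finset.sum_const, nsmul_eq_mul]
      _ ≤ ((B 0).card : ℝ) * ∑ t ∈ J, g t := mul_le_mul_of_nonneg_left t2 (Nat.cast_nonneg _)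
      _ ≤ _ := mul_le_mul_of_nonneg_right (hX 0) t4
  have hS : ∑ q1 ∈ Fintype.piFinset B, ∑ a' ∈ Fintype.piFinset B', ∑ a ∈ Fintype.piFinset B',
      F q1 a' a ≤ (∏ k, X k) * ((∏ j, X' j) * (∑ j, (∏ l, X' l) * (X' j)⁻¹ * X 0)) +
        (∏ k, X k) * ((∏ j, X' j) * ((∏ j, X' j) * R)) + X 0 * ∑ t ∈ J, g t := by
    refine le_trans (Finset.sum_le_sum fun q1 hq1 => Finset.sum_le_sum fun a' ha' =>
      Finset.sum_le_sum fun a ha => hF q1 hq1 a' ha' a ha) ?_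
    simp only [Finset.sum_add_distrib]
    exact add_le_add (add_le_add s1 s2) s3
  have hD0 : 0 < (∏ k, X k) * (X 0 * ∏ j : Fin (n + 1), X j.succ ^ 2) := by
    rw [e2]
    positivity
  rw [inv_mul_le_iff₀ hD0]
  refine hS.trans (le_of_eq ?_)
  rw [e2, e3, ← Finset.mul_sum, hQP]
  have e4 : ∑ j, (∏ l, X' l) * (X' j)⁻¹ * X 0 = (∏ l, X' l) * X 0 * ∑ j : Fin (n + 1), (X j.succ)⁻¹ := by
    rw [Finset.mul_sum]
    refine Finset.sum_congr rfl fun j _ => ?_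
    rw [hX']
    ring
  rw [e4]
  field_simp

end cmb

section nr

variable {K : Type} [Field K] [NumberField K]

private theorem nr_un (s t : Finset (Pl K)) : nr (s ∪ t) ≤ nr s * nr t := by
  have h1 : s ∪ t = s ∪ (t \ s) := (Finset.union_sdiff_self_eq_union).symm
  rw [h1, nr_union Finset.disjoint_sdiff]
  exact mul_le_mul_of_nonneg_left (nr_mono Finset.sdiff_subset)
    (zero_le_one.trans (one_le_nr s))

private theorem nm_one (v : Pl K) : (1 : ℝ) ≤ (nm v : ℝ) := by exact_mod_cast (one_lt_nm v).le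

private theorem nr_im {k : ℕ} (f : Fin k → Pl K) :
    nr (Finset.univ.image f) ≤ ∏ j, (nm (f j) : ℝ) := by
  have key : ∀ s : Finset (Fin k), nr (s.image f) ≤ ∏ j ∈ s, (nm (f j) : ℝ) := by
    intro s
    induction s using Finset.induction_on with
    | empty => simp [nr]
    | insert j s hj ih =>
      rw [Finset.image_insert, Finset.prod_insert hj]
      by_cases h : f j ∈ s.image f
      · rw [Finset.insert_eq_of_mem h]
        have h2 := nm_one (f j)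
        have h3 := zero_le_one.trans (one_le_nr (s.image f))
        calc nr (s.image f) ≤ ∏ j ∈ s, (nm (f j) : ℝ) := ih
          _ ≤ (nm (f j) : ℝ) * ∏ j ∈ s, (nm (f j) : ℝ) := le_mul_of_one_le_left (h3.trans ih) h2
      · have h2 : nr (insert (f j) (s.image f)) = (nm (f j) : ℝ) * nr (s.image f) := by
          unfold nr
          exact Finset.prod_insert h
        rw [h2]
        exact mul_le_mul_of_nonneg_left ih (Nat.cast_nonneg _)
  exact key Finset.univ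

private theorem nr_tt {n : ℕ} (T : Finset (Pl K)) (b a' a : Fin (n + 1) → Pl K)
    (x : Fin (n + 1) → ℝ) (h1 : ∀ j, (nm (b j) : ℝ) ≤ x j) (h2 : ∀ j, (nm (a' j) : ℝ) ≤ x j)
    (h3 : ∀ j, (nm (a j) : ℝ) ≤ x j) : nr (Tt T b a' a) ≤ nr T * ∏ j, x j ^ 3 := by
  have hT : 0 ≤ nr T := zero_le_one.trans (one_le_nr T)
  have hi : ∀ f : Fin (n + 1) → Pl K, (∀ j, (nm (f j) : ℝ) ≤ x j) →
      nr (Finset.univ.image f) ≤ ∏ j, x j := fun f hf =>
    (nr_im f).trans (Finset.prod_le_prod (fun j _ => Nat.cast_nonneg _) fun j _ => hf j)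
  have h0 : ∀ f : Fin (n + 1) → Pl K, 0 ≤ nr (Finset.univ.image f) := fun f =>
    zero_le_one.trans (one_le_nr _)
  have hx : 0 ≤ ∏ j, x j := (h0 a).trans (hi a h3)
  unfold Tt
  calc _ ≤ nr T * nr (Finset.univ.image a ∪ Finset.univ.image a' ∪ Finset.univ.image b) := nr_un _ _
    _ ≤ nr T * (nr (Finset.univ.image a ∪ Finset.univ.image a') * nr (Finset.univ.image b)) :=
        mul_le_mul_of_nonneg_left (nr_un _ _) hT
    _ ≤ nr T * (nr (Finset.univ.image a) * nr (Finset.univ.image a') * nr (Finset.univ.image b)) :=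
        mul_le_mul_of_nonneg_left (mul_le_mul_of_nonneg_right (nr_un _ _) (h0 b)) hT
    _ ≤ nr T * ((∏ j, x j) * (∏ j, x j) * (∏ j, x j)) := by
        refine mul_le_mul_of_nonneg_left (mul_le_mul (mul_le_mul (hi a h3) (hi a' h2) (h0 a') hx)
          (hi b h1) (h0 b) (mul_nonneg hx hx)) hT
    _ = nr T * ∏ j, x j ^ 3 := by
        rw [Finset.prod_pow]
        ring

end nr

section main

variable {K : Type} [Field K] [NumberField K] {Ω : Type} [Field Ω] [Algebra K Ω]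
  {p : ℕ} {ζ : K} {D : RD0 K p ζ} {n : ℕ} {P Qg Lm : Type} [Group P] [Group Qg] [MulAction Qg Lm]
  {A : GS D Ω}

private theorem cj_norm {m : ℕ} (e : Fin m → Bool) (z : ℂ) : ‖cj e z‖ = ‖z‖ := by
  unfold cj
  split_ifs
  · rfl
  · exact Complex.norm_conj z

private theorem inn_le [Fintype Lm] (y : Wy D A) (Dg : LG p n P Qg Lm) (r : Rd A P Qg)
    (v : Vd n P Qg Lm) (q1 : Fin (n + 2) → Pl K) (a' a : Fin (n + 1) → Pl K) (B : Finset (Pl K)) :
    ‖∑ w ∈ B, ∏ e : Fin (n + 1) → Bool, cj e (Uf y Dg r v q1 w (vt a a' e))‖ ≤ (B.card : ℝ) := by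
  refine (norm_sum_le _ _).trans ?_
  have h : ∀ w ∈ B, ‖∏ e : Fin (n + 1) → Bool, cj e (Uf y Dg r v q1 w (vt a a' e))‖ ≤ 1 := by
    intro w _
    rw [norm_prod]
    refine Finset.prod_le_one (fun _ _ => norm_nonneg _) fun e _ => ?_
    rw [cj_norm]
    exact uf_le y Dg r v q1 w _
  refine (Finset.sum_le_sum h).trans ?_
  rw [Finset.sum_const, nsmul_eq_mul, mul_one]

/-- the tuples which contribute to the main part -/
private def Jt [Fintype Lm] (y : Wy D A) (Dg : LG p n P Qg Lm) (r : Rd A P Qg) (v : Vd n P Qg Lm)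
    (B : Fin (n + 2) → Finset (Pl K)) : Finset (T3 K n) :=
  (Fintype.piFinset (fun j : Fin (n + 1) => B j.succ) ×ˢ
    (Fintype.piFinset (fun j : Fin (n + 1) => B j.succ) ×ˢ
      Fintype.piFinset (fun j : Fin (n + 1) => B j.succ))).filter fun t =>
    ∃ u ∈ B 0, Dst r.T (Fin.cons u t.1 : Fin (n + 2) → Pl K) t.2.1 t.2.2 ∧
      ∃ Φ, Ph y Dg r v t.1 t.2.1 t.2.2 Φ

/-- a hom for a tuple -/
private def Pt [Fintype Lm] (y : Wy D A) (Dg : LG p n P Qg Lm) (r : Rd A P Qg) (v : Vd n P Qg Lm)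
    (t : T3 K n) : Gal(Ω/K) →* ((Fin (n + 1) → Bool) → UGd p n Qg Lm) :=
  if h : ∃ Φ, Ph y Dg r v t.1 t.2.1 t.2.2 Φ then h.choose else 1

private theorem pt_ph [Fintype Lm] (y : Wy D A) (Dg : LG p n P Qg Lm) (r : Rd A P Qg)
    (v : Vd n P Qg Lm) (t : T3 K n) (h : ∃ Φ, Ph y Dg r v t.1 t.2.1 t.2.2 Φ) :
    Ph y Dg r v t.1 t.2.1 t.2.2 (Pt y Dg r v t) := by
  unfold Pt
  rw [dif_pos h]
  exact h.choose_spec

/-- the main part -/
private def gt [Fintype Lm] [Finite (UGd p n Qg Lm)] (y : Wy D A) (Dg : LG p n P Qg Lm)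
    (r : Rd A P Qg) (v : Vd n P Qg Lm) (x : ℝ) (t : T3 K n) : ℝ :=
  Gx y.Fr (Tt r.T t.1 t.2.1 t.2.2) x (Pt y Dg r v t) (hh Dg v)

private theorem gt_nonneg [Fintype Lm] [Finite (UGd p n Qg Lm)] (y : Wy D A) (Dg : LG p n P Qg Lm)
    (r : Rd A P Qg) (v : Vd n P Qg Lm) (x : ℝ) (t : T3 K n) : 0 ≤ gt y Dg r v x t := norm_nonneg _

private theorem bx_card (D : RD0 K p ζ) (Z T : Finset (Pl K)) (lo hi : ℝ) (h : 0 ≤ hi) :
    ((BX D Z T lo hi).card : ℝ) ≤ Module.finrank ℚ K * hi := by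
  refine le_trans ?_ (H1.PN.pb_card hi h)
  have h1 : BX D Z T lo hi ⊆ PB K hi := by
    intro w hw
    unfold BX at hw
    rw [Finset.mem_filter] at hw
    rw [mem_PB]
    exact hw.2.2.2.2
  exact_mod_cast Finset.card_le_card h1

theorem smd_one [IsAlgClosure K Ω] [Finite Qg] [Fintype Lm] [Fact p.Prime] [Finite (UGd p n Qg Lm)]
    (hζ : IsPrimitiveRoot ζ p)
    (Q : DP K Ω) (y : Wy D A) {Dg : LG p n P Qg Lm} (hy : y.Ok Q P Qg Lm n) (hQ : IsPGroup p Qg)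
    {r : Rd A P Qg} {v : Vd n P Qg Lm} (hr : r.Ok y.L Dg y.E y.Z) {M C₁ m C' : ℕ} (hm : n ≤ m)
    {Y : ℝ} (hY : Real.exp 1 ≤ Y)
    (hgl : GLp p y.Fr M (C₁ * (3 * m + 4)) C' Y)
    (hM : Nat.card ((Fin (n + 1) → Bool) → UGd p n Qg Lm) ≤ M)
    {Z₀ : ℝ} (hZ0 : Z₀ ≤ Y ^ C₁)
    (hZ : ∀ w, D.Gd w → (nm w : ℝ) ≤ Z₀ → w ∈ y.Z) (hnr : nr r.T ≤ Y ^ C₁)
    (lo hi : Fin (n + 2) → ℝ) (hlo : ∀ k, 1 ≤ lo k ∧ lo k ≤ hi k ∧ hi k ≤ Z₀) :
    ((∏ k, (Module.finrank ℚ K * hi k)) * ((Module.finrank ℚ K * hi 0) *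
            ∏ j : Fin (n + 1), (Module.finrank ℚ K * hi j.succ) ^ 2))⁻¹ *
          S3 y Dg r v (fun k => BX D y.Z r.T (lo k) (hi k)) ≤
      ∑ j : Fin (n + 1), (Module.finrank ℚ K * hi j.succ)⁻¹ +
        (1 + (C' * hi 0 ^ (3 / 4 : ℝ) + Real.log Y ^ C')) * (Module.finrank ℚ K * hi 0)⁻¹ +
        ∑ t ∈ Jt y Dg r v (fun k => BX D y.Z r.T (lo k) (hi k)),
          ((Module.finrank ℚ K * hi 0) *
            ∏ j : Fin (n + 1), (Module.finrank ℚ K * hi j.succ) ^ 3)⁻¹ *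
          (gt y Dg r v (hi 0) t + gt y Dg r v (lo 0) t) := by
  have hd : (1 : ℝ) ≤ Module.finrank ℚ K := by exact_mod_cast Module.finrank_pos
  have hY1 : 1 ≤ Y := by
    have := Real.add_one_le_exp (1 : ℝ)
    linarith
  have hl0 : 0 ≤ Real.log Y := Real.log_nonneg hY1
  have hhi : ∀ k, 1 ≤ hi k := fun k => (hlo k).1.trans (hlo k).2.1
  have hYC : Y ^ C₁ ≤ Y ^ (C₁ * (3 * m + 4)) :=
    pow_le_pow_right₀ hY1 (Nat.le_mul_of_pos_right _ (by omega))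
  unfold S3
  refine smd_cmb _ (fun k => Module.finrank ℚ K * hi k) (fun k => ?_) (fun k => ?_)
    (1 + (C' * hi 0 ^ (3 / 4 : ℝ) + Real.log Y ^ C')) ?_ (Jt y Dg r v _)
    (fun t => gt y Dg r v (hi 0) t + gt y Dg r v (lo 0) t)
    (fun t => add_nonneg (gt_nonneg _ _ _ _ _ _) (gt_nonneg _ _ _ _ _ _)) _ ?_
  · exact one_le_mul_of_one_le_of_one_le hd (hhi k)
  · exact bx_card D y.Z r.T (lo k) (hi k) (zero_le_one.trans (hhi k))
  · have := zero_le_one.trans (hhi 0)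
    positivity
  · intro q1 hq1 a' ha' a ha
    rw [Fintype.mem_piFinset] at hq1 ha' ha
    have hR : 0 ≤ 1 + (C' * hi 0 ^ (3 / 4 : ℝ) + Real.log Y ^ C') := by
      have := zero_le_one.trans (hhi 0)
      positivity
    have hbz : ∀ (k : Fin (n + 2)) w, w ∈ BX D y.Z r.T (lo k) (hi k) → w ∈ y.Z ∧
        (nm w : ℝ) ≤ hi k := by
      intro k w hw
      unfold BX at hw
      rw [Finset.mem_filter] at hw
      exact ⟨hw.1, hw.2.2.2.2⟩
    have hgn : 0 ≤ (if (Fin.tail q1, a', a) ∈ Jt y Dg r v (fun k => BX D y.Z r.T (lo k) (hi k)) then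
        gt y Dg r v (hi 0) (Fin.tail q1, a', a) + gt y Dg r v (lo 0) (Fin.tail q1, a', a)
        else 0) := by
      split_ifs
      · exact add_nonneg (gt_nonneg _ _ _ _ _ _) (gt_nonneg _ _ _ _ _ _)
      · exact le_rfl
    by_cases hne : ∃ j, a j = a' j
    · rw [if_pos hne]
      have h1 := inn_le y Dg r v q1 a' a (BX D y.Z r.T (lo 0) (hi 0))
      have h2 := bx_card D y.Z r.T (lo 0) (hi 0) (zero_le_one.trans (hhi 0))
      linarith
    · rw [if_neg hne, zero_add]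
      have hne' : ∀ j, a j ≠ a' j := fun j h => hne ⟨j, h⟩
      have hx : ∀ k, hi k ≤ Y ^ C₁ := fun k => (hlo k).2.2.trans hZ0
      have hnt : nr (Tt r.T (Fin.tail q1) a' a) ≤ Y ^ (C₁ * (3 * m + 4)) := by
        refine (nr_tt r.T (Fin.tail q1) a' a (fun _ => Y ^ C₁)
          (fun j => ((hbz _ _ (hq1 j.succ)).2).trans (hx _))
          (fun j => ((hbz _ _ (ha' j)).2).trans (hx _))
          (fun j => ((hbz _ _ (ha j)).2).trans (hx _))).trans ?_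
        rw [Finset.prod_const, Finset.card_univ, Fintype.card_fin]
        calc nr r.T * ((Y ^ C₁) ^ 3) ^ (n + 1) ≤ Y ^ C₁ * ((Y ^ C₁) ^ 3) ^ (n + 1) :=
              mul_le_mul_of_nonneg_right hnr (by positivity)
          _ = Y ^ (C₁ * (3 * n + 4)) := by
              rw [← pow_mul, ← pow_mul, ← pow_add]
              congr 1
              ring
          _ ≤ Y ^ (C₁ * (3 * m + 4)) :=
              pow_le_pow_right₀ hY1 (Nat.mul_le_mul_left _ (by omega))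
      rcases sma hζ Q y hy hQ hr hY1 hgl hM (v := v) (zero_le_one.trans (hlo 0).1) (hlo 0).2.1
        ((hx 0).trans hYC) (fun w hw hw2 => hZ w hw (hw2.trans (hlo 0).2.2)) q1 a' a
        ⟨fun k => (hbz k _ (hq1 k)).1, fun j => ⟨(hbz _ _ (ha j)).1, (hbz _ _ (ha' j)).1⟩⟩ hne'
        hnt with h0 | ⟨h1, h2, h3⟩
      · rw [h0, norm_zero]
        exact add_nonneg hR hgn
      · have hJ : (Fin.tail q1, a', a) ∈ Jt y Dg r v (fun k => BX D y.Z r.T (lo k) (hi k)) := by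
          unfold Jt
          rw [Finset.mem_filter, Finset.mem_product, Finset.mem_product]
          refine ⟨⟨?_, ?_, ?_⟩, q1 0, hq1 0, ?_, h2⟩
          · rw [Fintype.mem_piFinset]
            exact fun j => hq1 j.succ
          · rw [Fintype.mem_piFinset]
            exact ha'
          · rw [Fintype.mem_piFinset]
            exact ha
          · have h4 : (Fin.cons (q1 0) (Fin.tail q1) : Fin (n + 2) → Pl K) = q1 :=
              Fin.cons_self_tail q1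
            show Dst r.T (Fin.cons (q1 0) (Fin.tail q1) : Fin (n + 2) → Pl K) a' a
            rw [h4]
            exact h1
        rw [if_pos hJ]
        exact h3 (Pt y Dg r v (Fin.tail q1, a', a)) (pt_ph y Dg r v (Fin.tail q1, a', a) h2)

private theorem smd_num (ε : ℝ) (hε : 0 < ε) (M : ℕ) (c : ℝ) : ∃ Y₀ : ℝ, ∀ Y : ℝ, Y₀ ≤ Y →
    Real.exp 1 ≤ Y ∧ c ≤ Real.log Y ∧
      Real.log Y ^ M * Real.exp (-(1 / 4 : ℝ) * Real.log Y ^ ε) ≤ 1 := by
  have h1 := tendsto_rpow_mul_exp_neg_mul_atTop_nhds_zero ((M : ℝ) / ε) (1 / 4) (by norm_num)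
  have h2 : Filter.Tendsto (fun Y : ℝ => Real.log Y ^ ε) Filter.atTop Filter.atTop :=
    (tendsto_rpow_atTop hε).comp Real.tendsto_log_atTop
  have h3 := (h1.comp h2).eventually (gt_mem_nhds (zero_lt_one' ℝ))
  have h4 := Real.tendsto_log_atTop.eventually (Filter.eventually_ge_atTop (max c 1))
  obtain ⟨Y₀, hY₀⟩ := Filter.eventually_atTop.1
    ((h3.and h4).and (Filter.eventually_ge_atTop (Real.exp 1)))
  refine ⟨Y₀, fun Y hY => ?_⟩
  obtain ⟨⟨h5, h6⟩, h7⟩ := hY₀ Y hY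
  refine ⟨h7, (le_max_left _ _).trans h6, ?_⟩
  have hl : 0 ≤ Real.log Y := zero_le_one.trans ((le_max_right _ _).trans h6)
  have e1 : (Real.log Y ^ ε) ^ ((M : ℝ) / ε) = Real.log Y ^ M := by
    rw [← Real.rpow_mul hl, mul_div_cancel₀ _ hε.ne', Real.rpow_natCast]
  have h8 : (Real.log Y ^ ε) ^ ((M : ℝ) / ε) * Real.exp (-(1 / 4) * (Real.log Y ^ ε)) < 1 := h5
  rw [e1] at h8
  exact h8.le

private theorem smd_err (ε : ℝ) (L : ℝ) (hL : 1 ≤ L) (n m C' : ℕ) (hn : n ≤ m) (d : ℝ) (hd : 1 ≤ d)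
    (hi : Fin (n + 2) → ℝ) (h : ∀ k, Real.exp (L ^ ε) ≤ hi k) (hc : (m : ℝ) + C' + 3 ≤ L) :
    ∑ j : Fin (n + 1), (d * hi j.succ)⁻¹ +
      (1 + (C' * hi 0 ^ (3 / 4 : ℝ) + L ^ C')) * (d * hi 0)⁻¹ ≤
      L ^ (C' + 1) * Real.exp (-(1 / 4 : ℝ) * L ^ ε) := by
  obtain ⟨η, hη⟩ : ∃ η, η = Real.exp (-(1 / 4 : ℝ) * L ^ ε) := ⟨_, rfl⟩
  have hη0 : 0 < η := by rw [hη]; exact Real.exp_pos _
  have hLe : 0 ≤ L ^ ε := Real.rpow_nonneg (zero_le_one.trans hL) _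
  have hinv : ∀ k, (d * hi k)⁻¹ ≤ (hi k)⁻¹ := by
    intro k
    have h0 : 0 < hi k := (Real.exp_pos _).trans_le (h k)
    exact inv_anti₀ h0 (le_mul_of_one_le_left h0.le hd)
  have hi1 : ∀ k, (hi k)⁻¹ ≤ η := by
    intro k
    calc (hi k)⁻¹ ≤ (Real.exp (L ^ ε))⁻¹ := inv_anti₀ (Real.exp_pos _) (h k)
      _ = Real.exp (-(L ^ ε)) := (Real.exp_neg _).symm
      _ ≤ η := by
          rw [hη]
          exact Real.exp_le_exp.2 (by linarith)
  have h34 : hi 0 ^ (3 / 4 : ℝ) * (hi 0)⁻¹ ≤ η := by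
    have h0 : 0 < hi 0 := (Real.exp_pos _).trans_le (h 0)
    have e1 : hi 0 ^ (3 / 4 : ℝ) * (hi 0)⁻¹ = hi 0 ^ (-(1 / 4) : ℝ) := by
      rw [← Real.rpow_neg_one, ← Real.rpow_add h0]
      norm_num
    rw [e1, hη, neg_mul]
    calc hi 0 ^ (-(1 / 4) : ℝ) ≤ Real.exp (L ^ ε) ^ (-(1 / 4) : ℝ) :=
          Real.rpow_le_rpow_of_nonpos (Real.exp_pos _) (h 0) (by norm_num)
      _ = Real.exp (-(1 / 4 * L ^ ε)) := by
          rw [← Real.exp_mul]
          congr 1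
          ring
  have hLC : 1 ≤ L ^ C' := one_le_pow₀ hL
  have s1 : ∑ j : Fin (n + 1), (d * hi j.succ)⁻¹ ≤ (m + 1) * η := by
    calc ∑ j : Fin (n + 1), (d * hi j.succ)⁻¹ ≤ ∑ _j : Fin (n + 1), η :=
          Finset.sum_le_sum fun j _ => (hinv _).trans (hi1 _)
      _ = ((n : ℝ) + 1) * η := by
          rw [Finset.sum_const, Finset.card_univ, Fintype.card_fin, nsmul_eq_mul]
          push_cast
          ring
      _ ≤ (m + 1) * η := by
          have : (n : ℝ) ≤ m := by exact_mod_cast hn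
          exact mul_le_mul_of_nonneg_right (by linarith) hη0.le
  have s2 : (1 + (C' * hi 0 ^ (3 / 4 : ℝ) + L ^ C')) * (d * hi 0)⁻¹ ≤ (1 + C' + L ^ C') * η := by
    have h0 : 0 < hi 0 := (Real.exp_pos _).trans_le (h 0)
    calc (1 + (C' * hi 0 ^ (3 / 4 : ℝ) + L ^ C')) * (d * hi 0)⁻¹
        ≤ (1 + (C' * hi 0 ^ (3 / 4 : ℝ) + L ^ C')) * (hi 0)⁻¹ :=
          mul_le_mul_of_nonneg_left (hinv 0) (by positivity)
      _ = (hi 0)⁻¹ + C' * (hi 0 ^ (3 / 4 : ℝ) * (hi 0)⁻¹) + L ^ C' * (hi 0)⁻¹ := by ring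
      _ ≤ η + C' * η + L ^ C' * η := by
          refine add_le_add (add_le_add (hi1 0) (mul_le_mul_of_nonneg_left h34
            (Nat.cast_nonneg _))) (mul_le_mul_of_nonneg_left (hi1 0) (by positivity))
      _ = _ := by ring
  calc _ ≤ (m + 1) * η + (1 + C' + L ^ C') * η := add_le_add s1 s2
    _ ≤ ((m + C' + 3) * L ^ C') * η := by
        have hm0 : (0 : ℝ) ≤ m := Nat.cast_nonneg _
        have hC0 : (0 : ℝ) ≤ C' := Nat.cast_nonneg _
        rw [← add_mul]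
        refine mul_le_mul_of_nonneg_right ?_ hη0.le
        nlinarith
    _ ≤ (L * L ^ C') * η := mul_le_mul_of_nonneg_right
        (mul_le_mul_of_nonneg_right hc (by positivity)) hη0.le
    _ = _ := by rw [hη, pow_succ']

end main

variable {K : Type} [Field K] [NumberField K] {Ω : Type} [Field Ω] [Algebra K Ω] [IsAlgClosure K Ω]
  {p : ℕ} [Fact p.Prime] {ζ : K} {D : RD0 K p ζ}

theorem smd (hζ : IsPrimitiveRoot ζ p) {κ b : ℕ} (hG : GPB D Ω κ b) (m C₁ A₁ C' : ℕ) (ε : ℝ)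
    (hε : 0 < ε) :
    ∃ Y₀ : ℝ, ∀ Y : ℝ, Y₀ ≤ Y → ∀ (Q : DP K Ω) (A : GS D Ω) (n : ℕ) (P Qg Lm : Type) [Group P]
      [Group Qg] [MulAction Qg Lm] [Fintype Lm] [Finite Qg] [Finite (UGd p n Qg Lm)] (y : Wy D A)
      (Dg : LG p n P Qg Lm) (v : Vd n P Qg Lm), n ≤ m → y.Ok Q P Qg Lm n → v.Ok Dg →
      IsPGroup p Qg → v.f 0 ^ (p ^ κ) = 1 →
      Nat.card ((Fin (n + 1) → Bool) → UGd p n Qg Lm) ≤ b → Lkd Dg v.lam →
      GLp p y.Fr b (C₁ * (3 * m + 4)) C' Y → ∀ Z₀ : ℝ, Z₀ ≤ Y ^ C₁ →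
      (∀ w, D.Gd w → (nm w : ℝ) ≤ Z₀ → w ∈ y.Z) →
      ∀ (ι : Type) (I : Finset ι) (r : ι → Rd A P Qg) (lo hi : ι → Fin (n + 2) → ℝ),
      Rf y Dg C₁ Y I r →
      (∀ i ∈ I, ∀ k, Real.exp (Real.log Y ^ ε) ≤ lo i k ∧ lo i k ≤ hi i k ∧ hi i k ≤ Z₀) →
      ∑ i ∈ I, (nr (r i).T)⁻¹ *
          (((∏ k, (Module.finrank ℚ K * hi i k)) * ((Module.finrank ℚ K * hi i 0) *
            ∏ j : Fin (n + 1), (Module.finrank ℚ K * hi i j.succ) ^ 2))⁻¹ *
          S3 y Dg (r i) v fun k => BX D y.Z (r i).T (lo i k) (hi i k)) ≤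
        Real.log Y ^ (-(A₁ : ℝ)) := by
  obtain ⟨Y₁, hsmc⟩ := smc hG m C₁ (A₁ + 1) ε hε
  obtain ⟨C, Y₂, hnrs⟩ := nrs K C₁
  obtain ⟨Y₃, hnum⟩ := smd_num ε hε (C' + 1 + C + (A₁ + 1)) ((m : ℝ) + C' + 3)
  refine ⟨max (max Y₁ Y₂) Y₃, fun Y hY Q A n P Qg Lm _ _ _ _ _ _ y Dg v hn hy hv hQ hf hcb hlk
    hgl Z₀ hZ0 hZ ι I r lo hi hRf hlo => ?_⟩
  have hYa : Y₁ ≤ Y := ((le_max_left _ _).trans (le_max_left _ _)).trans hY
  have hYb : Y₂ ≤ Y := ((le_max_right _ _).trans (le_max_left _ _)).trans hY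
  obtain ⟨hYe, hLc, hLx⟩ := hnum Y ((le_max_right _ _).trans hY)
  have hm0 : (0 : ℝ) ≤ m := Nat.cast_nonneg _
  have hC0 : (0 : ℝ) ≤ C' := Nat.cast_nonneg _
  have hL3 : 3 ≤ Real.log Y := by linarith
  have hL1 : 1 ≤ Real.log Y := by linarith
  have hL0 : 0 < Real.log Y := by linarith
  have hLe : 0 ≤ Real.log Y ^ ε := Real.rpow_nonneg hL0.le _
  have hexp1 : 1 ≤ Real.exp (Real.log Y ^ ε) := Real.one_le_exp hLe
  have hd : (1 : ℝ) ≤ Module.finrank ℚ K := by exact_mod_cast Module.finrank_pos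
  have hlo1 : ∀ i ∈ I, ∀ k, 1 ≤ lo i k ∧ lo i k ≤ hi i k ∧ hi i k ≤ Z₀ := fun i h k =>
    ⟨hexp1.trans (hlo i h k).1, (hlo i h k).2.1, (hlo i h k).2.2⟩
  have hnr0 : ∀ i, 0 < nr (r i).T := fun i => one_pos.trans_le (one_le_nr _)
  -- the family
  obtain ⟨B, hB⟩ : ∃ B : ι → Fin (n + 2) → Finset (Pl K),
      B = fun i k => BX D y.Z (r i).T (lo i k) (hi i k) := ⟨_, rfl⟩
  obtain ⟨J, hJ⟩ : ∃ J : Finset (ι × T3 K n),
      J = I.biUnion fun i => (Jt y Dg (r i) v (B i)).image fun t => (i, t) := ⟨_, rfl⟩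
  have hJm : ∀ t : ι × T3 K n, t ∈ J ↔ t.1 ∈ I ∧ t.2 ∈ Jt y Dg (r t.1) v (B t.1) := by
    intro t
    rw [hJ, Finset.mem_biUnion]
    constructor
    · rintro ⟨i, hi', ht⟩
      rw [Finset.mem_image] at ht
      obtain ⟨s, hs, rfl⟩ := ht
      exact ⟨hi', hs⟩
    · rintro ⟨h1, h2⟩
      refine ⟨t.1, h1, ?_⟩
      rw [Finset.mem_image]
      exact ⟨t.2, h2, rfl⟩
  have hbz : ∀ i (k : Fin (n + 2)) w, w ∈ B i k → w ∈ y.Z ∧ (nm w : ℝ) ≤ hi i k := by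
    intro i k w hw
    rw [hB] at hw
    unfold BX at hw
    rw [Finset.mem_filter] at hw
    exact ⟨hw.1, hw.2.2.2.2⟩
  have hJt : ∀ (i : ι) (t : T3 K n), t ∈ Jt y Dg (r i) v (B i) →
      ((∀ j, t.1 j ∈ B i j.succ) ∧ (∀ j, t.2.1 j ∈ B i j.succ) ∧ ∀ j, t.2.2 j ∈ B i j.succ) ∧
      ∃ u ∈ B i 0, Dst (r i).T (Fin.cons u t.1 : Fin (n + 2) → Pl K) t.2.1 t.2.2 ∧
      ∃ Φ, Ph y Dg (r i) v t.1 t.2.1 t.2.2 Φ := by
    intro i t ht
    unfold Jt at ht
    rw [Finset.mem_filter, Finset.mem_product, Finset.mem_product, Fintype.mem_piFinset,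
      Fintype.mem_piFinset, Fintype.mem_piFinset] at ht
    exact ht
  have hc1 : ∀ t ∈ J, t.1 ∈ I ∧ ∀ j, (nm (t.2.1 j) : ℝ) ≤ Y ^ C₁ ∧ (nm (t.2.2.1 j) : ℝ) ≤ Y ^ C₁ ∧
        (nm (t.2.2.2 j) : ℝ) ≤ Y ^ C₁ := by
    intro t ht
    obtain ⟨h1, h2⟩ := (hJm t).1 ht
    obtain ⟨⟨h3, h4, h5⟩, -⟩ := hJt t.1 t.2 h2
    refine ⟨h1, fun j => ⟨(hbz _ _ _ (h3 j)).2.trans ((hlo t.1 h1 _).2.2.trans hZ0),
      (hbz _ _ _ (h4 j)).2.trans ((hlo t.1 h1 _).2.2.trans hZ0),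
      (hbz _ _ _ (h5 j)).2.trans ((hlo t.1 h1 _).2.2.trans hZ0)⟩⟩
  have hc2 : ∀ t ∈ J, HonE y.L y.E (Tt (r t.1).T t.2.1 t.2.2.1 t.2.2.2) (Pt y Dg (r t.1) v t.2) ∧
        ∃ (τ : Gal(Ω/K)) (c : ℂ), c ≠ 1 ∧
          ∀ z, hh Dg v (Pt y Dg (r t.1) v t.2 τ * z) = c * hh Dg v z := by
    intro t ht
    obtain ⟨h1, h2⟩ := (hJm t).1 ht
    obtain ⟨⟨h3, h4, h5⟩, u, hu, hdst, hΦ⟩ := hJt t.1 t.2 h2
    have hph := pt_ph y Dg (r t.1) v t.2 hΦ
    refine ⟨hph.hon, ?_⟩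
    obtain ⟨τ, c, hc, hτ, -⟩ := mz hζ Q y hy hQ (hRf.ok t.1 h1) hlk
      (Fin.cons u t.2.1 : Fin (n + 2) → Pl K) t.2.2.1 t.2.2.2 hdst
      ⟨fun k => by
        refine Fin.cases ?_ (fun j => ?_) k
        · exact (hbz _ _ _ hu).1
        · exact (hbz _ _ _ (h3 j)).1,
        fun j => ⟨(hbz _ _ _ (h5 j)).1, (hbz _ _ _ (h4 j)).1⟩⟩
      (Φ := Pt y Dg (r t.1) v t.2) (by rw [Fin.tail_cons]; exact hph)
    exact ⟨τ, c, hc, hτ⟩
  have m1 := hsmc Y hYa A n P Qg Lm y Dg v hn hv hQ hf hcb ι I r (fun i => hi i 0) hRf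
    (fun i h => ⟨(hlo i h 0).1.trans (hlo i h 0).2.1, (hlo i h 0).2.2.trans hZ0⟩) J
    (fun t => Pt y Dg (r t.1) v t.2) hc1 hc2
  have m2 := hsmc Y hYa A n P Qg Lm y Dg v hn hv hQ hf hcb ι I r (fun i => lo i 0) hRf
    (fun i h => ⟨(hlo i h 0).1, (hlo i h 0).2.1.trans ((hlo i h 0).2.2.trans hZ0)⟩) J
    (fun t => Pt y Dg (r t.1) v t.2) hc1 hc2
  rw [Finset.sum_finset_product J I (fun i => Jt y Dg (r i) v (B i)) hJm] at m1 m2
  -- the bound for one index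
  have hone : ∀ i ∈ I, (nr (r i).T)⁻¹ *
          (((∏ k, (Module.finrank ℚ K * hi i k)) * ((Module.finrank ℚ K * hi i 0) *
            ∏ j : Fin (n + 1), (Module.finrank ℚ K * hi i j.succ) ^ 2))⁻¹ *
          S3 y Dg (r i) v fun k => BX D y.Z (r i).T (lo i k) (hi i k)) ≤
      (nr (r i).T)⁻¹ * (Real.log Y ^ (C' + 1) * Real.exp (-(1 / 4 : ℝ) * Real.log Y ^ ε)) +
      (∑ t ∈ Jt y Dg (r i) v (B i), (nr (Tt (r i).T t.1 t.2.1 t.2.2))⁻¹ * (hi i 0)⁻¹ *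
        gt y Dg (r i) v (hi i 0) t +
      ∑ t ∈ Jt y Dg (r i) v (B i), (nr (Tt (r i).T t.1 t.2.1 t.2.2))⁻¹ * (lo i 0)⁻¹ *
        gt y Dg (r i) v (lo i 0) t) := by
    intro i hI
    have h1 := smd_one hζ Q y hy hQ (v := v) (hRf.ok i hI) hn hYe hgl hcb hZ0 hZ (hRf.nr i hI) (lo i) (hi i)
      (hlo1 i hI)
    have h2 := smd_err ε (Real.log Y) hL1 n m C' hn (Module.finrank ℚ K) hd (hi i)
      (fun k => (hlo i hI k).1.trans (hlo i hI k).2.1) hLc
    have hB' : (fun k => BX D y.Z (r i).T (lo i k) (hi i k)) = B i := by rw [hB]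
    rw [hB'] at h1 ⊢
    have hhi1 : ∀ k, 1 ≤ hi i k := fun k => (hlo1 i hI k).1.trans (hlo1 i hI k).2.1
    refine (mul_le_mul_of_nonneg_left (h1.trans (add_le_add_left h2 _))
      (inv_nonneg.2 (hnr0 i).le)).trans ?_
    rw [mul_add]
    refine add_le_add_right ?_ _
    rw [Finset.mul_sum, ← Finset.sum_add_distrib]
    refine Finset.sum_le_sum fun t ht => ?_
    obtain ⟨⟨h3, h4, h5⟩, -⟩ := hJt i t ht
    have hnt := nr_tt (r i).T t.1 t.2.1 t.2.2 (fun j => (Module.finrank ℚ K * hi i j.succ : ℝ))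
      (fun j => ((hbz _ _ _ (h3 j)).2).trans (le_mul_of_one_le_left (zero_le_one.trans (hhi1 _)) hd))
      (fun j => ((hbz _ _ _ (h4 j)).2).trans (le_mul_of_one_le_left (zero_le_one.trans (hhi1 _)) hd))
      (fun j => ((hbz _ _ _ (h5 j)).2).trans (le_mul_of_one_le_left (zero_le_one.trans (hhi1 _)) hd))
    have hnt0 : 0 < nr (Tt (r i).T t.1 t.2.1 t.2.2) := one_pos.trans_le (one_le_nr _)
    have hP0 : 0 < ∏ j : Fin (n + 1), (Module.finrank ℚ K * hi i j.succ : ℝ) ^ 3 :=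
      Finset.prod_pos fun j _ => by
        have := hhi1 j.succ
        positivity
    have hX0 : 0 < (Module.finrank ℚ K * hi i 0 : ℝ) := by
      have := hhi1 0
      positivity
    have key : ∀ x : ℝ, 0 < x → x ≤ hi i 0 → (nr (r i).T)⁻¹ * ((Module.finrank ℚ K * hi i 0) *
        ∏ j : Fin (n + 1), (Module.finrank ℚ K * hi i j.succ) ^ 3)⁻¹ ≤
        (nr (Tt (r i).T t.1 t.2.1 t.2.2))⁻¹ * x⁻¹ := by
      intro x hx hx2
      rw [← mul_inv, ← mul_inv]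
      refine inv_anti₀ (by positivity) ?_
      calc nr (Tt (r i).T t.1 t.2.1 t.2.2) * x
          ≤ (nr (r i).T * ∏ j : Fin (n + 1), (Module.finrank ℚ K * hi i j.succ : ℝ) ^ 3) *
            (Module.finrank ℚ K * hi i 0) := by
            refine mul_le_mul hnt (hx2.trans (le_mul_of_one_le_left (zero_le_one.trans (hhi1 _)) hd))
              hx.le (mul_nonneg (hnr0 i).le hP0.le)
        _ = _ := by ring
    have hlo0 : 0 < lo i 0 := one_pos.trans_le (hlo1 i hI 0).1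
    have hhi0 : 0 < hi i 0 := one_pos.trans_le (hhi1 0)
    rw [← mul_assoc, mul_add]
    exact add_le_add
      (mul_le_mul_of_nonneg_right (key (hi i 0) hhi0 le_rfl) (gt_nonneg _ _ _ _ _ _))
      (mul_le_mul_of_nonneg_right (key (lo i 0) hlo0 (hlo1 i hI 0).2.1) (gt_nonneg _ _ _ _ _ _))
  refine (Finset.sum_le_sum hone).trans ?_
  rw [Finset.sum_add_distrib, Finset.sum_add_distrib, ← Finset.sum_mul]
  have hn1 := hnrs Y hYb ι I (fun i => (r i).T) hRf.nr hRf.mul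
  have hη0 : 0 ≤ Real.log Y ^ (C' + 1) * Real.exp (-(1 / 4 : ℝ) * Real.log Y ^ ε) := by positivity
  have e0 : Real.log Y ^ (-((A₁ + 1 : ℕ) : ℝ)) = (Real.log Y ^ (A₁ + 1))⁻¹ := by
    rw [Real.rpow_neg hL0.le, Real.rpow_natCast]
  have e1 : (∑ i ∈ I, (nr (r i).T)⁻¹) *
      (Real.log Y ^ (C' + 1) * Real.exp (-(1 / 4 : ℝ) * Real.log Y ^ ε)) ≤
      (Real.log Y ^ (A₁ + 1))⁻¹ := by
    refine (mul_le_mul_of_nonneg_right hn1 hη0).trans ?_
    rw [← one_div, le_div_iff₀ (by positivity)]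
    calc Real.log Y ^ C * (Real.log Y ^ (C' + 1) * Real.exp (-(1 / 4 : ℝ) * Real.log Y ^ ε)) *
          Real.log Y ^ (A₁ + 1)
        = Real.log Y ^ (C' + 1 + C + (A₁ + 1)) * Real.exp (-(1 / 4 : ℝ) * Real.log Y ^ ε) := by
          rw [pow_add, pow_add]
          ring
      _ ≤ 1 := hLx
  rw [e0] at m1 m2
  have e2 : Real.log Y ^ (-(A₁ : ℝ)) = Real.log Y * (Real.log Y ^ (A₁ + 1))⁻¹ := by
    rw [Real.rpow_neg hL0.le, Real.rpow_natCast, pow_succ']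
    field_simp
  rw [e2]
  have hp0 : 0 < (Real.log Y ^ (A₁ + 1))⁻¹ := by positivity
  have m1' : ∑ i ∈ I, ∑ t ∈ Jt y Dg (r i) v (B i), (nr (Tt (r i).T t.1 t.2.1 t.2.2))⁻¹ *
      (hi i 0)⁻¹ * gt y Dg (r i) v (hi i 0) t ≤ (Real.log Y ^ (A₁ + 1))⁻¹ := m1
  have m2' : ∑ i ∈ I, ∑ t ∈ Jt y Dg (r i) v (B i), (nr (Tt (r i).T t.1 t.2.1 t.2.2))⁻¹ *
      (lo i 0)⁻¹ * gt y Dg (r i) v (lo i 0) t ≤ (Real.log Y ^ (A₁ + 1))⁻¹ := m2
  nlinarith

end H62.BL
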