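import Pool.Agent.H62.BL.Df

/-!
# [H62 BL VX] vertices, words, projections (80-150 lines). File Pool/Agent/H62/BL/Vx.lean

* `lbq_eq`, `lbq_ne`: values of `lbq` for injective `q`.
* `vt_adm`: the vertices of a nondegenerate cube are admissible. `nd_of`: if all vertices are admissible and `q0 k ≠ q1 k` for all `k` (at least two coordinates), then `ND`
  (`q0 j ≠ q1 k` for `j ≠ k`: a vertex with `e j = false`, `e k = true`).
* `cub_th`: the value of the cube at the vertex `e` is the evaluation `thq` at the vertex. Both sides are homs in `z` (`Pi.evalMonoidHom` composed with `cub`): `FreeGroup.ext_hom`; generators: `Sum.inr i`: both `al i`.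
  `Sum.inl w`: if `w = q0 k` (resp. `q1 k`): `fa k false (g k) e` (resp. `true`) is `g k` if `w = vt q0 q1 e k`, and `1` otherwise, when `w` is no coordinate of the vertex and not in `T`, so `lab w = 1` (`one`).
  Otherwise both are `lab w`.
* `abe_aq`: the same for the universal evaluation: `lt ⟨k, lam k⟩ 1` or `lt _ 0 = 1` (`lt_zero`), `qi (Dg.pi 1) = 1`.
* `thq_pi`: `Dg.pi (thq r v q z) = hat y.L A r.phi z` (both homs; `Dg.pi (g k) = 1` since `g k ∈ f 2 * s ∈ f 1`; `q k ∉ T`, so `φ (t (q k)) = Dg.pi (lab (q k)) = 1`).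
* `ug_q`: the projection `UG → Q` is a hom (`qhom`), `relq_q`: `(relq .. z).q = hat L A φ z`, `reld_q`, `aq_q` (generators: `(qi x).q = x`, `(lt ..).q = 1`).
-/

set_option autoImplicit false

open scoped NumberField
open IsDedekindDomain
open scoped Classical

noncomputable section

namespace H62.BL

open H63.MA H38.BB H38.BG H57.PC H57.BRA H77.WD H77.WE

variable {K : Type} [Field K] [NumberField K] {Ω : Type} [Field Ω] [Algebra K Ω]
  {p : ℕ} {ζ : K} {D : RD0 K p ζ} {n : ℕ} {P Qg Lm : Type} [Group P] [Group Qg] [MulAction Qg Lm]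
  {A : GS D Ω}

theorem lbq_eq {m : ℕ} {X : Type} {q : Fin m → Pl K} (hq : Function.Injective q) (b : Fin m → X)
    (c : Pl K → X) (k : Fin m) : lbq q b c (q k) = b k := by
  have h : ∃ k', q k' = q k := ⟨k, rfl⟩
  unfold lbq
  rw [dif_pos h, hq h.choose_spec]

theorem lbq_ne {m : ℕ} {X : Type} {q : Fin m → Pl K} (b : Fin m → X) (c : Pl K → X) {v : Pl K}
    (h : ∀ k, q k ≠ v) : lbq q b c v = c v := by
  unfold lbq
  rw [dif_neg fun ⟨k, hk⟩ => h k hk]

theorem vt_true {m : ℕ} {X : Type} (q0 q1 : Fin m → X) : vt q0 q1 (fun _ => true) = q1 :=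
  funext fun _ => if_pos rfl

theorem vt_false {m : ℕ} {X : Type} (q0 q1 : Fin m → X) : vt q0 q1 (fun _ => false) = q0 :=
  funext fun _ => if_neg Bool.false_ne_true

private theorem vt_t {m : ℕ} {X : Type} (q0 q1 : Fin m → X) {e : Fin m → Bool} {k : Fin m} (h : e k = true) :
    vt q0 q1 e k = q1 k := if_pos h

private theorem vt_f {m : ℕ} {X : Type} (q0 q1 : Fin m → X) {e : Fin m → Bool} {k : Fin m} (h : e k = false) :
    vt q0 q1 e k = q0 k := if_neg (by rw [h]; exact Bool.false_ne_true)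

theorem vt_adm {m : ℕ} {T : Finset (Pl K)} {q0 q1 : Fin m → Pl K} (h : ND T q0 q1) (e : Fin m → Bool) :
    Adm T (vt q0 q1 e) := by
  refine ⟨fun j k hjk => ?_, fun k => ?_⟩
  · rcases hj : e j with _ | _ <;> rcases hk : e k with _ | _
    · rw [vt_f _ _ hj, vt_f _ _ hk] at hjk
      exact h.1.1 hjk
    · rw [vt_f _ _ hj, vt_t _ _ hk] at hjk
      exact absurd hjk (h.2.2 j k)
    · rw [vt_t _ _ hj, vt_f _ _ hk] at hjk
      exact absurd hjk.symm (h.2.2 k j)
    · rw [vt_t _ _ hj, vt_t _ _ hk] at hjk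
      exact h.2.1.1 hjk
  · rcases hk : e k with _ | _
    · rw [vt_f _ _ hk]
      exact h.1.2 k
    · rw [vt_t _ _ hk]
      exact h.2.1.2 k

theorem nd_of {m : ℕ} {T : Finset (Pl K)} {q0 q1 : Fin (m + 2) → Pl K}
    (h : ∀ e, Adm T (vt q0 q1 e)) (h2 : ∀ k, q0 k ≠ q1 k) : ND T q0 q1 := by
  refine ⟨?_, ?_, fun j k hjk => ?_⟩
  · have h1 := h fun _ => false
    rwa [vt_false] at h1
  · have h1 := h fun _ => true
    rwa [vt_true] at h1
  · by_cases hne : j = k
    · subst hne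
      exact h2 j hjk
    · have h1 := (h fun i => decide (i = k)).1
      have h3 : vt q0 q1 (fun i => decide (i = k)) j = q0 j := vt_f _ _ (decide_eq_false hne)
      have h4 : vt q0 q1 (fun i => decide (i = k)) k = q1 k := vt_t _ _ (decide_eq_true rfl)
      exact hne (h1 (by rw [h3, h4, hjk]))

theorem nd_tail {m : ℕ} {T : Finset (Pl K)} {q0 q1 : Fin (m + 1) → Pl K} (h : ND T q0 q1) :
    ND T (Fin.tail q0) (Fin.tail q1) :=
  ⟨⟨fun _ _ hjk => Fin.succ_injective _ (h.1.1 hjk), fun k => h.1.2 k.succ⟩,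
    ⟨fun _ _ hjk => Fin.succ_injective _ (h.2.1.1 hjk), fun k => h.2.1.2 k.succ⟩,
    fun j k => h.2.2 j.succ k.succ⟩

private theorem kdq_0 {m : ℕ} {I : Type} (i : Fin m → I) {T : Finset (Pl K)} {q0 q1 : Fin m → Pl K}
    (h : ND T q0 q1) (k : Fin m) : kdq A i q0 q1 (Sum.inl (q0 k)) = some (i k, false) := by
  have h1 : ∃ k', q0 k' = q0 k := ⟨k, rfl⟩
  unfold kdq
  simp only
  rw [dif_pos h1, h.1.1 h1.choose_spec]

private theorem kdq_1 {m : ℕ} {I : Type} (i : Fin m → I) {T : Finset (Pl K)} {q0 q1 : Fin m → Pl K}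
    (h : ND T q0 q1) (k : Fin m) : kdq A i q0 q1 (Sum.inl (q1 k)) = some (i k, true) := by
  have h0 : ¬ ∃ k', q0 k' = q1 k := fun ⟨k', hk'⟩ => h.2.2 k' k hk'
  have h1 : ∃ k', q1 k' = q1 k := ⟨k, rfl⟩
  unfold kdq
  simp only
  rw [dif_neg h0, dif_pos h1, h.2.1.1 h1.choose_spec]

private theorem kdq_n {m : ℕ} {I : Type} (i : Fin m → I) {q0 q1 : Fin m → Pl K} {w : Pl K}
    (h0 : ∀ k, q0 k ≠ w) (h1 : ∀ k, q1 k ≠ w) : kdq A i q0 q1 (Sum.inl w) = none := by
  unfold kdq
  simp only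
  rw [dif_neg fun ⟨k, hk⟩ => h0 k hk, dif_neg fun ⟨k, hk⟩ => h1 k hk]

private theorem cub_none {Gn : Type} {m : ℕ} {kd : Gn → Option (Fin m × Bool)} {bs : Gn → P} {g : Fin m → P}
    {x : Gn} (h : kd x = none) : cub kd bs g (FreeGroup.of x) = fun _ => bs x := by
  unfold cub
  rw [FreeGroup.lift_apply_of, h]

private theorem cub_some {Gn : Type} {m : ℕ} {kd : Gn → Option (Fin m × Bool)} {bs : Gn → P} {g : Fin m → P}
    {x : Gn} {j : Fin m} {b : Bool} (h : kd x = some (j, b)) :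
    cub kd bs g (FreeGroup.of x) = fa j b (g j) := by
  unfold cub
  rw [FreeGroup.lift_apply_of, h]

private theorem unh_none {Gn I L Q R : Type} [Group Q] [MulAction Q L] [CommRing R] {W : WSet Q (Lr I L)}
    {kd : Gn → Option (I × Bool)} {bs : Gn → Q} {lam : I → L} {s : I → Bool → R} {x : Gn} (h : kd x = none) :
    unh W kd bs lam s (FreeGroup.of x) = qi (bs x) := by
  unfold unh
  rw [FreeGroup.lift_apply_of, h]

private theorem unh_some {Gn I L Q R : Type} [Group Q] [MulAction Q L] [CommRing R] {W : WSet Q (Lr I L)}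
    {kd : Gn → Option (I × Bool)} {bs : Gn → Q} {lam : I → L} {s : I → Bool → R} {x : Gn} {j : I} {b : Bool}
    (h : kd x = some (j, b)) : unh W kd bs lam s (FreeGroup.of x) = lt ⟨j, lam j⟩ (s j b) := by
  unfold unh
  rw [FreeGroup.lift_apply_of, h]

/-- the three cases for a prime -/
private theorem cas {m : ℕ} (q0 q1 : Fin m → Pl K) (w : Pl K) :
    (∃ k, q0 k = w) ∨ (∃ k, q1 k = w) ∨ ((∀ k, q0 k ≠ w) ∧ ∀ k, q1 k ≠ w) := by
  by_cases h0 : ∃ k, q0 k = w
  · exact Or.inl h0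
  by_cases h1 : ∃ k, q1 k = w
  · exact Or.inr (Or.inl h1)
  exact Or.inr (Or.inr ⟨fun k hk => h0 ⟨k, hk⟩, fun k hk => h1 ⟨k, hk⟩⟩)

/-- the values of `lbq` at the vertices -/
private theorem lbq_0 {m : ℕ} {X : Type} {T : Finset (Pl K)} {q0 q1 : Fin m → Pl K} (h : ND T q0 q1)
    (e : Fin m → Bool) (b : Fin m → X) (c : Pl K → X) (k : Fin m) :
    lbq (vt q0 q1 e) b c (q0 k) = if e k = false then b k else c (q0 k) := by
  by_cases hk : e k = false
  · rw [if_pos hk, ← vt_f q0 q1 hk, lbq_eq (vt_adm h e).1]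
  · rw [if_neg hk]
    refine lbq_ne _ _ fun j hj => ?_
    rcases hj' : e j with _ | _
    · rw [vt_f _ _ hj'] at hj
      rw [h.1.1 hj] at hj'
      exact hk hj'
    · rw [vt_t _ _ hj'] at hj
      exact h.2.2 k j hj.symm

private theorem lbq_1 {m : ℕ} {X : Type} {T : Finset (Pl K)} {q0 q1 : Fin m → Pl K} (h : ND T q0 q1)
    (e : Fin m → Bool) (b : Fin m → X) (c : Pl K → X) (k : Fin m) :
    lbq (vt q0 q1 e) b c (q1 k) = if e k = true then b k else c (q1 k) := by
  by_cases hk : e k = true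
  · rw [if_pos hk, ← vt_t q0 q1 hk, lbq_eq (vt_adm h e).1]
  · rw [if_neg hk]
    refine lbq_ne _ _ fun j hj => ?_
    rcases hj' : e j with _ | _
    · rw [vt_f _ _ hj'] at hj
      exact h.2.2 j k hj
    · rw [vt_t _ _ hj'] at hj
      rw [h.2.1.1 hj] at hj'
      exact hk hj'

private theorem lbq_n {m : ℕ} {X : Type} {q0 q1 : Fin m → Pl K} (e : Fin m → Bool) (b : Fin m → X)
    (c : Pl K → X) {w : Pl K} (h0 : ∀ k, q0 k ≠ w) (h1 : ∀ k, q1 k ≠ w) :
    lbq (vt q0 q1 e) b c w = c w := by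
  refine lbq_ne _ _ fun j => ?_
  rcases hj' : e j with _ | _
  · rw [vt_f _ _ hj']
    exact h0 j
  · rw [vt_t _ _ hj']
    exact h1 j

private theorem thq_l (r : Rd A P Qg) (v : Vd n P Qg Lm) (q : Fin (n + 2) → Pl K) (w : Pl K) :
    thq r v q (FreeGroup.of (Sum.inl w)) = lbq q v.g r.lab w := by
  unfold thq
  rw [FreeGroup.lift_apply_of]
  rfl

private theorem thq_r (r : Rd A P Qg) (v : Vd n P Qg Lm) (q : Fin (n + 2) → Pl K) (i : Fin A.g) :
    thq r v q (FreeGroup.of (Sum.inr i)) = r.al i := by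
  unfold thq
  rw [FreeGroup.lift_apply_of]
  rfl

private theorem aq_l (Dg : LG p n P Qg Lm) (r : Rd A P Qg) (v : Vd n P Qg Lm) (q : Fin (n + 2) → Pl K)
    (w : Pl K) : aq Dg r v q (FreeGroup.of (Sum.inl w)) =
      lbq q (fun k => lt ⟨k, v.lam k⟩ 1) (fun w => qi (Dg.pi (r.lab w))) w := by
  unfold aq
  rw [FreeGroup.lift_apply_of]
  rfl

private theorem aq_r (Dg : LG p n P Qg Lm) (r : Rd A P Qg) (v : Vd n P Qg Lm) (q : Fin (n + 2) → Pl K)
    (i : Fin A.g) : aq Dg r v q (FreeGroup.of (Sum.inr i)) = qi (Dg.pi (r.al i)) := by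
  unfold aq
  rw [FreeGroup.lift_apply_of]
  rfl

theorem cub_th (r : Rd A P Qg) (v : Vd n P Qg Lm) (h1 : ∀ w, w ∉ r.T → r.lab w = 1)
    {q0 q1 : Fin (n + 2) → Pl K} (h : ND r.T q0 q1) (z : FW A) (e : Fin (n + 2) → Bool) :
    cub (kdq A id q0 q1) r.bs v.g z e = thq r v (vt q0 q1 e) z := by
  have key : (Pi.evalMonoidHom _ e).comp (cub (kdq A id q0 q1) r.bs v.g) = thq r v (vt q0 q1 e) := by
    refine FreeGroup.ext_hom _ _ fun x => ?_
    rw [MonoidHom.comp_apply]
    change cub (kdq A id q0 q1) r.bs v.g (FreeGroup.of x) e = _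
    rcases x with w | i
    · rw [thq_l]
      rcases cas q0 q1 w with ⟨k, rfl⟩ | ⟨k, rfl⟩ | ⟨h0, h0'⟩
      · rw [cub_some (kdq_0 id h k), lbq_0 h]
        change (if e k = false then v.g k else 1) = _
        rw [h1 _ (h.1.2 k)]
      · rw [cub_some (kdq_1 id h k), lbq_1 h]
        change (if e k = true then v.g k else 1) = _
        rw [h1 _ (h.2.1.2 k)]
      · rw [cub_none (kdq_n id h0 h0'), lbq_n e _ _ h0 h0']
        rfl
    · rw [thq_r, cub_none rfl]
      rfl
  exact DFunLike.congr_fun key z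

theorem abe_aq (Dg : LG p n P Qg Lm) (r : Rd A P Qg) (v : Vd n P Qg Lm)
    (h1 : ∀ w, w ∉ r.T → r.lab w = 1) {q0 q1 : Fin (n + 2) → Pl K} (h : ND r.T q0 q1) (z : FW A)
    (e : Fin (n + 2) → Bool) :
    abe (WN Qg Lm Set.univ (n + 1)) (kdq A id q0 q1) (fun x => Dg.pi (r.bs x)) v.lam e z =
      aq Dg r v (vt q0 q1 e) z := by
  have h2 : (qi (Dg.pi 1) : UGm p n Qg Lm) = 1 := by
    rw [map_one]
    rfl
  have key : abe (WN Qg Lm Set.univ (n + 1)) (kdq A id q0 q1) (fun x => Dg.pi (r.bs x)) v.lam e =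
      aq Dg r v (vt q0 q1 e) := by
    refine FreeGroup.ext_hom _ _ fun x => ?_
    unfold abe
    rcases x with w | i
    · rw [aq_l]
      rcases cas q0 q1 w with ⟨k, rfl⟩ | ⟨k, rfl⟩ | ⟨h0, h0'⟩
      · rw [unh_some (kdq_0 id h k), lbq_0 h, h1 _ (h.1.2 k), h2]
        change (lt (⟨k, v.lam k⟩ : Lr (Fin (n + 2)) Lm) (if e k = false then (1 : ZMod p) else 0) : UGm p n Qg Lm) = _
        split_ifs
        · rfl
        · exact lt_zero _
      · rw [unh_some (kdq_1 id h k), lbq_1 h, h1 _ (h.2.1.2 k), h2]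
        change (lt (⟨k, v.lam k⟩ : Lr (Fin (n + 2)) Lm) (if e k = true then (1 : ZMod p) else 0) : UGm p n Qg Lm) = _
        split_ifs
        · rfl
        · exact lt_zero _
      · rw [unh_none (kdq_n id h0 h0'), lbq_n e _ _ h0 h0']
        rfl
    · rw [aq_r, unh_none rfl]
      rfl
  exact DFunLike.congr_fun key z

/-- the projection `UG → Q` -/
def qhom {Q α R : Type} [Group Q] [MulAction Q α] [CommRing R] {W : WSet Q α} : UG Q α R W →* Q where
  toFun a := a.q
  map_one' := rfl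
  map_mul' _ _ := rfl

theorem thq_pi {L : LDs D Ω} {Dg : LG p n P Qg Lm} {r : Rd A P Qg} {E Z : Finset (Pl K)} (hr : r.Ok L Dg E Z)
    {v : Vd n P Qg Lm} (hv : v.Ok Dg) {q : Fin (n + 2) → Pl K} (hq : Adm r.T q) (z : FW A) :
    Dg.pi (thq r v q z) = hat L A r.phi z := by
  have key : Dg.pi.comp (thq r v q) = hat L A r.phi := by
    refine FreeGroup.ext_hom _ _ fun x => ?_
    rw [MonoidHom.comp_apply]
    rcases x with w | i
    · rw [thq_l, hat_inl, hr.lab w]
      by_cases hw : ∃ k, q k = w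
      · obtain ⟨k, rfl⟩ := hw
        rw [lbq_eq hq.1, hr.one _ (hq.2 k), map_one, Dg.ker]
        have h1 := (Dg.f 1).mul_mem (Dg.fl.anti 1 (hv.g k)) (Dg.s_mem (v.lam k))
        rwa [inv_mul_cancel_right] at h1
      · rw [lbq_ne _ _ fun k hk => hw ⟨k, hk⟩]
    · rw [thq_r, hat_inr, hr.al i]
  exact DFunLike.congr_fun key z

private theorem unh_q {L : LDs D Ω} {Dg : LG p n P Qg Lm} {r : Rd A P Qg} {E Z : Finset (Pl K)}
    (hr : r.Ok L Dg E Z) {m : ℕ} {I R : Type} [CommRing R] (W : WSet Qg (Lr I Lm)) (lam : I → Lm)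
    (s : I → Bool → R) (i : Fin m → I) {a b : Fin m → Pl K} (h : ND r.T a b) (z : FW A) :
    (unh W (kdq A i a b) (fun x => Dg.pi (r.bs x)) lam s z).q = hat L A r.phi z := by
  have key : qhom.comp (unh W (kdq A i a b) (fun x => Dg.pi (r.bs x)) lam s) = hat L A r.phi := by
    refine FreeGroup.ext_hom _ _ fun x => ?_
    rw [MonoidHom.comp_apply]
    rcases x with w | i'
    · rw [hat_inl, hr.lab w]
      rcases cas a b w with ⟨k, rfl⟩ | ⟨k, rfl⟩ | ⟨h0, h0'⟩
      · rw [unh_some (kdq_0 i h k), hr.one _ (h.1.2 k), map_one]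
        rfl
      · rw [unh_some (kdq_1 i h k), hr.one _ (h.2.1.2 k), map_one]
        rfl
      · rw [unh_none (kdq_n i h0 h0')]
        rfl
    · rw [hat_inr, hr.al i', unh_none rfl]
      rfl
  exact DFunLike.congr_fun key z

theorem relq_q {L : LDs D Ω} {Dg : LG p n P Qg Lm} {r : Rd A P Qg} {E Z : Finset (Pl K)} (hr : r.Ok L Dg E Z)
    (v : Vd n P Qg Lm) {q0 q1 : Fin (n + 2) → Pl K} (h : ND r.T q0 q1) (z : FW A) :
    (relq Dg r v q0 q1 z).q = hat L A r.phi z := by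
  unfold relq rel
  exact unh_q hr _ _ _ _ h z

theorem reld_q {L : LDs D Ω} {Dg : LG p n P Qg Lm} {r : Rd A P Qg} {E Z : Finset (Pl K)} (hr : r.Ok L Dg E Z)
    (v : Vd n P Qg Lm) {a b : Fin (n + 1) → Pl K} (h : ND r.T a b) (z : FW A) :
    (reld Dg r v a b z).q = hat L A r.phi z := by
  unfold reld rel
  exact unh_q hr _ _ _ _ h z

private theorem trh_qi {Q α R : Type} [Group Q] [MulAction Q α] [CommRing R] {W W' : WSet Q α}
    (hs : W'.s ⊆ W.s) (x : Q) : trh hs (qi x : UG Q α R W) = qi x := by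
  refine UG.ext rfl ?_
  exact tr_e1

private theorem trh_lt {Q α R : Type} [Group Q] [MulAction Q α] [CommRing R] {W W' : WSet Q α}
    (hs : W'.s ⊆ W.s) (a : α) (s : R) : trh hs (lt a s : UG Q α R W) = lt a s := by
  refine UG.ext rfl ?_
  change tr W' (tr W (e1 + s • el a)) = tr W' (e1 + s • el a)
  funext w
  unfold tr
  split_ifs with h1 h2
  · rfl
  · exact absurd (hs h1) h2
  · rfl

private theorem lt_none {Q α R : Type} [Group Q] [MulAction Q α] [CommRing R] {W : WSet Q α}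
    {a : α} (h : [a] ∉ W.s) (s : R) : (lt a s : UG Q α R W) = 1 := by
  refine UG.ext rfl ?_
  change tr W (e1 + s • el a) = e1
  funext w
  unfold tr
  by_cases hw : w ∈ W.s
  · rw [if_pos hw]
    have h1 : w ≠ [a] := by
      rintro rfl
      exact h hw
    change e1 w + s * (if w = [a] then 1 else 0) = e1 w
    rw [if_neg h1, mul_zero, add_zero]
  · rw [if_neg hw]
    have h1 : w ≠ [] := by
      rintro rfl
      exact hw W.nil
    exact (if_neg h1).symm

/-- the restriction of the relative evaluation to the words without the index `0` -/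
theorem relq_trh {Dg : LG p n P Qg Lm} (r : Rd A P Qg) (v : Vd n P Qg Lm)
    (h1 : ∀ w, w ∉ r.T → r.lab w = 1) {q0 q1 : Fin (n + 2) → Pl K} (h : ND r.T q0 q1)
    (hs : (WN Qg Lm {i : Fin (n + 2) | i ≠ 0} (n + 1)).s ⊆ (WN Qg Lm Set.univ (n + 1)).s) (z : FW A) :
    trh hs (relq Dg r v q0 q1 z) = reld Dg r v (Fin.tail q0) (Fin.tail q1) z := by
  have h2 : (qi (Dg.pi 1) : UGd p n Qg Lm) = 1 := by
    rw [map_one]
    rfl
  have h3 : ∀ s : ZMod p, (lt (⟨0, v.lam 0⟩ : Lr (Fin (n + 2)) Lm) s : UGd p n Qg Lm) = 1 := by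
    intro s
    refine lt_none (fun hw => ?_) s
    exact hw.2.2 ⟨0, v.lam 0⟩ (List.mem_singleton.2 rfl) rfl
  have key : (trh hs).comp (relq Dg r v q0 q1) = reld Dg r v (Fin.tail q0) (Fin.tail q1) := by
    refine FreeGroup.ext_hom _ _ fun x => ?_
    rw [MonoidHom.comp_apply]
    unfold relq reld rel
    rcases x with w | i
    · rcases cas q0 q1 w with ⟨k, rfl⟩ | ⟨k, rfl⟩ | ⟨h0, h0'⟩
      · rw [unh_some (kdq_0 id h k), trh_lt]
        refine Fin.cases ?_ (fun k => ?_) k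
        · rw [unh_none (kdq_n Fin.succ (q0 := Fin.tail q0) (q1 := Fin.tail q1)
            (fun k hk => Fin.succ_ne_zero k (h.1.1 hk)) fun k hk => h.2.2 0 k.succ hk.symm)]
          change lt (⟨0, v.lam 0⟩ : Lr (Fin (n + 2)) Lm) _ = qi (Dg.pi (r.lab (q0 0)))
          rw [h3, h1 _ (h.1.2 0), h2]
        · have e1 : kdq A Fin.succ (Fin.tail q0) (Fin.tail q1) (Sum.inl (q0 k.succ)) = some (k.succ, false) :=
            kdq_0 Fin.succ (nd_tail h) k
          rw [unh_some e1]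
          rfl
      · rw [unh_some (kdq_1 id h k), trh_lt]
        refine Fin.cases ?_ (fun k => ?_) k
        · rw [unh_none (kdq_n Fin.succ (q0 := Fin.tail q0) (q1 := Fin.tail q1)
            (fun k hk => h.2.2 k.succ 0 hk) fun k hk => Fin.succ_ne_zero k (h.2.1.1 hk))]
          change lt (⟨0, v.lam 0⟩ : Lr (Fin (n + 2)) Lm) _ = qi (Dg.pi (r.lab (q1 0)))
          rw [h3, h1 _ (h.2.1.2 0), h2]
        · have e1 : kdq A Fin.succ (Fin.tail q0) (Fin.tail q1) (Sum.inl (q1 k.succ)) = some (k.succ, true) :=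
            kdq_1 Fin.succ (nd_tail h) k
          rw [unh_some e1]
          rfl
      · rw [unh_none (kdq_n id h0 h0'), trh_qi, 
          unh_none (kdq_n Fin.succ (q0 := Fin.tail q0) (q1 := Fin.tail q1) (fun k => h0 k.succ)
            fun k => h0' k.succ)]
    · rw [unh_none rfl, trh_qi, unh_none rfl]
  exact DFunLike.congr_fun key z

end H62.BL
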